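import Mathlib

set_option autoImplicit false

/-!
Real polynomials: a Rolle count on `(0,1)` with boundary zeros, and a Chebyshev system.
-/

open Polynomial

namespace Pool.Agent.R263.Ber

/-- the distinct roots in `(0,1)` -/
noncomputable def S (p : ℝ[X]) : Finset ℝ := p.roots.toFinset.filter (fun x => 0 < x ∧ x < 1)

/-- number of roots in `(0,1)` with multiplicity -/
noncomputable def Z (p : ℝ[X]) : ℕ := ∑ x ∈ S p, p.rootMultiplicity x

lemma mem_S {p : ℝ[X]} (hp : p ≠ 0) {x : ℝ} : x ∈ S p ↔ p.eval x = 0 ∧ 0 < x ∧ x < 1 := by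
  unfold S
  rw [Finset.mem_filter, Multiset.mem_toFinset, mem_roots hp, IsRoot.def]

open Classical in
lemma rolle (p : ℝ[X]) (hp : p ≠ 0) :
    Z p + (if p.eval 0 = 0 then 1 else 0) + (if p.eval 1 = 0 then 1 else 0) ≤
      Z (derivative p) + 1 := by
  rcases eq_or_ne (derivative p) 0 with hp' | hp'
  · have hC := eq_C_of_derivative_eq_zero hp'
    set c := p.coeff 0
    have hc : c ≠ 0 := by
      rintro h
      rw [h] at hC
      exact hp (by simpa using hC)
    rw [hC]
    have : Z (C c) = 0 := by
      unfold Z S; simp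
    rw [this]
    simp [hc]
  set s : Finset ℝ := p.roots.toFinset.filter (fun x => 0 ≤ x ∧ x ≤ 1) with hs
  set t : Finset ℝ := S (derivative p) with ht
  have memS : ∀ x, x ∈ s ↔ p.eval x = 0 ∧ 0 ≤ x ∧ x ≤ 1 := by
    intro x
    rw [hs, Finset.mem_filter, Multiset.mem_toFinset, mem_roots hp, IsRoot.def]
  have h1 : s.card ≤ (t \ s).card + 1 := by
    refine Finset.card_le_sdiff_of_interleaved fun x hx y hy hxy hxy' => ?_
    rw [memS] at hx hy
    obtain ⟨z, hz1, hz2⟩ := exists_deriv_eq_zero hxy p.continuousOn (hx.1.trans hy.1.symm)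
    refine ⟨z, ?_, hz1⟩
    rw [ht, mem_S hp', ← p.deriv]
    exact ⟨hz2, by linarith [hz1.1, hx.2.1], by linarith [hz1.2, hy.2.2]⟩
  -- the boundary roots
  have h2 : s.card = (S p).card + (if p.eval 0 = 0 then 1 else 0) +
      (if p.eval 1 = 0 then 1 else 0) := by
    have e1 : s = S p ∪ ((if p.eval 0 = 0 then {0} else ∅) ∪ (if p.eval 1 = 0 then {1} else ∅)) := by
      ext x
      rw [memS, Finset.mem_union, Finset.mem_union, mem_S hp]
      constructor
      · rintro ⟨h, h0, h1⟩
        rcases h0.eq_or_lt with h0 | h0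
        · subst h0; right; left; simp [h]
        · rcases h1.eq_or_lt with h1 | h1
          · subst h1; right; right; simp [h]
          · left; exact ⟨h, h0, h1⟩
      · rintro (h | h | h)
        · exact ⟨h.1, h.2.1.le, h.2.2.le⟩
        · split_ifs at h with h0
          · rw [Finset.mem_singleton] at h; subst h; exact ⟨h0, le_rfl, zero_le_one⟩
          · simp at h
        · split_ifs at h with h0
          · rw [Finset.mem_singleton] at h; subst h; exact ⟨h0, zero_le_one, le_rfl⟩
          · simp at h
    rw [e1, Finset.card_union_of_disjoint, Finset.card_union_of_disjoint]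
    · split_ifs <;> simp [add_assoc]
    · split_ifs <;> simp
    · rw [Finset.disjoint_left]
      intro x hx hx'
      rw [mem_S hp] at hx
      rw [Finset.mem_union] at hx'
      rcases hx' with h | h
      · split_ifs at h
        · rw [Finset.mem_singleton] at h; linarith [hx.2.1]
        · simp at h
      · split_ifs at h
        · rw [Finset.mem_singleton] at h; linarith [hx.2.2]
        · simp at h
  have h3 : Z p ≤ (∑ x ∈ S p, (derivative p).rootMultiplicity x) + (S p).card := by
    unfold Z
    rw [Finset.card_eq_sum_ones, ← Finset.sum_add_distrib]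
    apply Finset.sum_le_sum
    intro x _
    have := rootMultiplicity_sub_one_le_derivative_rootMultiplicity p x
    omega
  have h4 : (t \ s).card ≤ ∑ x ∈ t \ s, (derivative p).rootMultiplicity x := by
    rw [Finset.card_eq_sum_ones]
    apply Finset.sum_le_sum
    intro x hx
    rw [Finset.mem_sdiff, ht, mem_S hp'] at hx
    exact (rootMultiplicity_pos hp').2 hx.1.1
  have h5 : (∑ x ∈ S p, (derivative p).rootMultiplicity x) +
      ∑ x ∈ t \ s, (derivative p).rootMultiplicity x ≤ Z (derivative p) := by
    have e1 : ∑ x ∈ S p, (derivative p).rootMultiplicity x =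
        ∑ x ∈ S p ∩ t, (derivative p).rootMultiplicity x := by
      symm
      apply Finset.sum_subset Finset.inter_subset_left
      intro x hx hx'
      by_contra hne
      apply hx'
      rw [Finset.mem_inter]
      refine ⟨hx, ?_⟩
      rw [ht, mem_S hp']
      have := (rootMultiplicity_pos hp').1 (Nat.pos_of_ne_zero hne)
      rw [mem_S hp] at hx
      exact ⟨this, hx.2⟩
    rw [e1, ← Finset.sum_union]
    · unfold Z
      apply Finset.sum_le_sum_of_subset
      intro x hx
      rw [Finset.mem_union] at hx
      rcases hx with h | h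
      · exact (Finset.mem_inter.1 h).2
      · exact (Finset.mem_sdiff.1 h).1
    · rw [Finset.disjoint_left]
      intro x hx hx'
      have a1 := (Finset.mem_inter.1 hx).1
      have a2 := (Finset.mem_sdiff.1 hx').2
      apply a2
      rw [memS]
      rw [mem_S hp] at a1
      exact ⟨a1.1, a1.2.1.le, a1.2.2.le⟩
  omega

/-- imaginary part of a complex polynomial at real points -/
noncomputable def imP (P : ℂ[X]) : ℝ[X] :=
  ∑ i ∈ Finset.range (P.natDegree + 1), C (P.coeff i).im * X ^ i

lemma imP_coeff (P : ℂ[X]) (i : ℕ) : (imP P).coeff i = (P.coeff i).im := by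
  unfold imP
  rw [finsetSum_coeff]
  simp_rw [coeff_C_mul_X_pow]
  rw [Finset.sum_ite_eq (Finset.range (P.natDegree + 1)) i]
  split_ifs with h
  · rfl
  · rw [Finset.mem_range, not_lt] at h
    rw [coeff_eq_zero_of_natDegree_lt (by omega)]
    rfl

lemma imP_eval (P : ℂ[X]) (x : ℝ) : (imP P).eval x = (P.eval (x : ℂ)).im := by
  unfold imP
  rw [eval_finsetSum, eval_eq_sum_range, Complex.im_sum]
  apply Finset.sum_congr rfl
  intro i _
  rw [eval_mul, eval_C, eval_pow, eval_X, ← Complex.ofReal_pow, mul_comm (P.coeff i),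
    Complex.im_ofReal_mul]
  ring

lemma imP_derivative (P : ℂ[X]) : derivative (imP P) = imP (derivative P) := by
  ext i
  rw [coeff_derivative, imP_coeff, imP_coeff, coeff_derivative]
  have : ((i : ℂ) + 1) = (((i : ℝ) + 1 : ℝ) : ℂ) := by push_cast; rfl
  rw [this, mul_comm (P.coeff (i + 1)), Complex.im_ofReal_mul]
  ring

end Pool.Agent.R263.Ber
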