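import Pool.Agent.R263.BerA

set_option autoImplicit false

/-!
The Chebyshev system `Im (1+ω s)^(k+1+lN)`, `N = 3, 4`.
-/

open Polynomial

namespace Pool.Agent.R263.Ber

/-- the data: `ω` is the first primitive `N`-th root of unity, `N = 3` or `4` -/
structure Om (N : ℕ) (ω : ℂ) : Prop where
  pos : 0 < ω.im
  eqn : (N = 3 ∧ ω ^ 2 + ω + 1 = 0) ∨ (N = 4 ∧ ω ^ 2 = -1)

lemma Om.pow {N : ℕ} {ω : ℂ} (h : Om N ω) : ω ^ N = 1 := by
  rcases h.eqn with ⟨rfl, he⟩ | ⟨rfl, he⟩
  · linear_combination (ω - 1) * he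
  · linear_combination (ω ^ 2 - 1) * he

/-- the polynomial `s ↦ Im (1+ω s)^n` -/
noncomputable def E (ω : ℂ) (n : ℕ) : ℝ[X] := imP ((1 + C ω * X) ^ n)

lemma imP_add (P Q : ℂ[X]) : imP (P + Q) = imP P + imP Q := by
  ext i; simp [imP_coeff]

lemma imP_smul (r : ℝ) (P : ℂ[X]) : imP (C (r : ℂ) * P) = C r * imP P := by
  ext i; simp [imP_coeff]

lemma imP_zero : imP 0 = 0 := by
  ext i; simp [imP_coeff]

lemma imP_one : imP 1 = 0 := by
  ext i
  rw [imP_coeff, coeff_one, coeff_zero]
  split_ifs <;> simp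

lemma iter_pow (ω : ℂ) (n i : ℕ) :
    derivative^[i] ((1 + C ω * X) ^ n) =
      C ((n.descFactorial i : ℂ) * ω ^ i) * (1 + C ω * X) ^ (n - i) := by
  induction i with
  | zero => simp
  | succ i ih =>
    rw [Function.iterate_succ_apply', ih, derivative_C_mul, derivative_pow]
    have h1 : derivative (1 + C ω * X) = C ω := by simp
    rw [h1, Nat.descFactorial_succ, pow_succ]
    have h2 : n - (i + 1) = n - i - 1 := by omega
    rw [h2]
    push_cast
    simp only [map_mul, map_pow, map_natCast]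
    ring

lemma iter_E (ω : ℂ) (n i : ℕ) :
    derivative^[i] (E ω n) =
      imP (C ((n.descFactorial i : ℂ) * ω ^ i) * (1 + C ω * X) ^ (n - i)) := by
  rw [← iter_pow]
  unfold E
  induction i with
  | zero => rfl
  | succ i ih => rw [Function.iterate_succ_apply', ih, imP_derivative, Function.iterate_succ_apply']

lemma eval_iter_E (ω : ℂ) (n i : ℕ) (x : ℝ) :
    (derivative^[i] (E ω n)).eval x =
      (n.descFactorial i : ℝ) * (ω ^ i * (1 + ω * x) ^ (n - i)).im := by
  rw [iter_E, imP_eval]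
  simp only [eval_mul, eval_C, eval_pow, eval_add, eval_one, eval_X]
  rw [← Complex.im_ofReal_mul]
  congr 1
  push_cast
  ring

lemma eval_E (ω : ℂ) (n : ℕ) (x : ℝ) : (E ω n).eval x = ((1 + ω * x) ^ n).im := by
  simpa using eval_iter_E ω n 0 x

lemma iter_E_N {N : ℕ} {ω : ℂ} (h : Om N ω) (n : ℕ) :
    derivative^[N] (E ω n) = C ((n.descFactorial N : ℕ) : ℝ) * E ω (n - N) := by
  rw [iter_E, h.pow, mul_one]
  unfold E
  rw [← imP_smul]
  congr 2

/-- a square which is a positive real forces the number to be real -/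
lemma im_zero_of_sq {w : ℂ} {r : ℝ} (hr : 0 < r) (h : w ^ 2 = r) : w.im = 0 := by
  have h1 : (w ^ 2).re = r := by rw [h]; simp
  have h2 : (w ^ 2).im = 0 := by rw [h]; simp
  rw [sq, Complex.mul_re] at h1
  rw [sq, Complex.mul_im] at h2
  have h3 : w.re * w.im = 0 := by linarith
  rcases mul_eq_zero.1 h3 with h4 | h4
  · rw [h4] at h1
    nlinarith [sq_nonneg w.im]
  · exact h4

lemma one_add_sq {N : ℕ} {ω : ℂ} (h : Om N ω) : ∃ r : ℝ, 0 < r ∧ (1 + ω) ^ 2 = r * ω := by
  rcases h.eqn with ⟨rfl, he⟩ | ⟨rfl, he⟩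
  · exact ⟨1, one_pos, by push_cast; linear_combination he⟩
  · exact ⟨2, two_pos, by push_cast; linear_combination he⟩

lemma im_end {N : ℕ} {ω : ℂ} (h : Om N ω) {n i : ℕ} (hi : i ≤ n) (hd : N ∣ n + i) :
    (ω ^ i * (1 + ω) ^ (n - i)).im = 0 := by
  obtain ⟨r, hr, h1⟩ := one_add_sq h
  apply im_zero_of_sq (r := r ^ (n - i)) (by positivity)
  obtain ⟨m, hm⟩ := hd
  calc (ω ^ i * (1 + ω) ^ (n - i)) ^ 2 = (ω ^ i) ^ 2 * ((1 + ω) ^ 2) ^ (n - i) := by
        rw [mul_pow, ← pow_mul, ← pow_mul (1 + ω), mul_comm (n - i) 2, pow_mul (1 + ω)]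
    _ = r ^ (n - i) * ω ^ (n + i) := by
        rw [h1, mul_pow]
        have : ω ^ (n + i) = ω ^ i * ω ^ i * ω ^ (n - i) := by
          rw [← pow_add, ← pow_add]; congr 1; omega
        rw [this]; ring
    _ = _ := by rw [hm, pow_mul, h.pow, one_pow]; push_cast; ring

/-- `∑ c_l Im (1+ωs)^(k+1+lN)` -/
noncomputable def F (N k : ℕ) (ω : ℂ) (c : ℕ → ℝ) (d : ℕ) : ℝ[X] :=
  ∑ l ∈ Finset.range d, C (c l) * E ω (k + 1 + l * N)

lemma iter_sum (c : ℕ → ℝ) (f : ℕ → ℝ[X]) (d i : ℕ) :
    derivative^[i] (∑ l ∈ Finset.range d, C (c l) * f l) =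
      ∑ l ∈ Finset.range d, C (c l) * derivative^[i] (f l) := by
  induction i with
  | zero => rfl
  | succ i ih =>
    rw [Function.iterate_succ_apply', ih, derivative_sum]
    apply Finset.sum_congr rfl
    intro l _
    rw [derivative_C_mul, Function.iterate_succ_apply']

lemma iter_F {N k : ℕ} {ω : ℂ} (h : Om N ω) (hk : k < N) (c : ℕ → ℝ) (d : ℕ) :
    derivative^[N] (F N k ω c (d + 1)) =
      F N k ω (fun l => c (l + 1) * ((k + 1 + (l + 1) * N).descFactorial N : ℕ)) d := by
  unfold F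
  rw [iter_sum, Finset.sum_range_succ']
  have h0 : C (c 0) * derivative^[N] (E ω (k + 1 + 0 * N)) = 0 := by
    rw [iter_E_N h]
    rcases Nat.lt_or_ge (k + 1) N with h1 | h1
    · rw [Nat.descFactorial_eq_zero_iff_lt.2 (by omega)]
      simp
    · have : k + 1 + 0 * N - N = 0 := by omega
      rw [this]
      unfold E
      rw [pow_zero, imP_one]
      simp
  rw [h0, add_zero]
  apply Finset.sum_congr rfl
  intro l _
  rw [iter_E_N h, map_mul, mul_assoc]
  congr 3
  rw [add_mul]
  omega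

lemma eval_iter_F_zero {N k : ℕ} {ω : ℂ} (c : ℕ → ℝ) (d i : ℕ) (hi : (ω ^ i).im = 0) :
    (derivative^[i] (F N k ω c d)).eval 0 = 0 := by
  unfold F
  rw [iter_sum, eval_finsetSum]
  apply Finset.sum_eq_zero
  intro l _
  rw [eval_mul, eval_iter_E]
  simp [hi]

lemma eval_iter_F_one {N k : ℕ} {ω : ℂ} (h : Om N ω) (hk : k < N) (c : ℕ → ℝ) (d : ℕ) :
    (derivative^[N - 1 - k] (F N k ω c d)).eval 1 = 0 := by
  unfold F
  rw [iter_sum, eval_finsetSum]
  apply Finset.sum_eq_zero
  intro l _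
  rw [eval_mul, eval_iter_E]
  rcases Nat.lt_or_ge (k + 1 + l * N) (N - 1 - k) with h1 | h1
  · rw [Nat.descFactorial_eq_zero_iff_lt.2 h1]; simp
  · have := im_end h (n := k + 1 + l * N) (i := N - 1 - k) h1
      ⟨l + 1, by rw [mul_add, mul_one, mul_comm N l]; omega⟩
    simp only [Complex.ofReal_one, mul_one]
    rw [this]; simp

lemma base_pos {N k : ℕ} {ω : ℂ} (h : Om N ω) (hk : k < N) {x : ℝ} (h0 : 0 < x) (h1 : x < 1) :
    0 < ((1 + ω * x) ^ (k + 1)).im := by
  have hp := h.pos
  rcases h.eqn with ⟨rfl, he⟩ | ⟨rfl, he⟩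
  · have e1 : (ω ^ 2).im = - ω.im := by
      have : ω ^ 2 = -ω - 1 := by linear_combination he
      rw [this]; simp
    have e0 : ω ^ 3 = 1 := by linear_combination (ω - 1) * he
    interval_cases k
    · simp; positivity
    · have : (1 + ω * x) ^ (1 + 1) = 1 + ((2 * x : ℝ) : ℂ) * ω + ((x ^ 2 : ℝ) : ℂ) * ω ^ 2 := by
        push_cast; ring
      rw [this, Complex.add_im, Complex.add_im, Complex.im_ofReal_mul, Complex.im_ofReal_mul, e1,
        Complex.one_im]
      have : 0 < x * (2 - x) * ω.im := by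
        apply mul_pos (mul_pos h0 (by linarith)) hp
      linarith
    · have : (1 + ω * x) ^ (2 + 1) = 1 + ((3 * x : ℝ) : ℂ) * ω + ((3 * x ^ 2 : ℝ) : ℂ) * ω ^ 2 +
          ((x ^ 3 : ℝ) : ℂ) := by
        push_cast; linear_combination (x : ℂ) ^ 3 * e0
      rw [this, Complex.add_im, Complex.add_im, Complex.add_im, Complex.im_ofReal_mul,
        Complex.im_ofReal_mul, e1, Complex.one_im, Complex.ofReal_im]
      have : 0 < 3 * (x * (1 - x) * ω.im) := by
        have := mul_pos (mul_pos h0 (sub_pos.2 h1)) hp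
        linarith
      linarith
  · have e1 : (ω ^ 2).im = 0 := by rw [he]; simp
    have e2 : (ω ^ 3).im = - ω.im := by
      have : ω ^ 3 = - ω := by linear_combination ω * he
      rw [this]; simp
    have e3 : (ω ^ 4).im = 0 := by
      have : ω ^ 4 = 1 := by linear_combination (ω ^ 2 - 1) * he
      rw [this]; simp
    interval_cases k
    · simp; positivity
    · have : (1 + ω * x) ^ (1 + 1) = 1 + ((2 * x : ℝ) : ℂ) * ω + ((x ^ 2 : ℝ) : ℂ) * ω ^ 2 := by
        push_cast; ring
      rw [this, Complex.add_im, Complex.add_im, Complex.im_ofReal_mul, Complex.im_ofReal_mul, e1,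
        Complex.one_im]
      have : 0 < 2 * x * ω.im := by positivity
      linarith
    · have : (1 + ω * x) ^ (2 + 1) = 1 + ((3 * x : ℝ) : ℂ) * ω + ((3 * x ^ 2 : ℝ) : ℂ) * ω ^ 2 +
          ((x ^ 3 : ℝ) : ℂ) * ω ^ 3 := by
        push_cast; ring
      rw [this, Complex.add_im, Complex.add_im, Complex.add_im, Complex.im_ofReal_mul,
        Complex.im_ofReal_mul, Complex.im_ofReal_mul, e1, e2, Complex.one_im]
      have : 0 < x * (3 - x ^ 2) * ω.im := by
        apply mul_pos (mul_pos h0 (by nlinarith)) hp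
      linarith
    · have : (1 + ω * x) ^ (3 + 1) = 1 + ((4 * x : ℝ) : ℂ) * ω + ((6 * x ^ 2 : ℝ) : ℂ) * ω ^ 2 +
          ((4 * x ^ 3 : ℝ) : ℂ) * ω ^ 3 + ((x ^ 4 : ℝ) : ℂ) * ω ^ 4 := by
        push_cast; ring
      rw [this, Complex.add_im, Complex.add_im, Complex.add_im, Complex.add_im,
        Complex.im_ofReal_mul, Complex.im_ofReal_mul, Complex.im_ofReal_mul,
        Complex.im_ofReal_mul, e1, e2, e3, Complex.one_im]
      have : 0 < 4 * (x * (1 - x ^ 2) * ω.im) := by
        have := mul_pos (mul_pos h0 (show 0 < 1 - x ^ 2 by nlinarith)) hp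
        linarith
      linarith

lemma base_F {N k : ℕ} {ω : ℂ} (h : Om N ω) (hk : k < N) {c : ℝ} (hc : c ≠ 0) :
    C c * E ω (k + 1) ≠ 0 ∧ Z (C c * E ω (k + 1)) = 0 := by
  have hne : ∀ x : ℝ, 0 < x → x < 1 → (C c * E ω (k + 1)).eval x ≠ 0 := by
    intro x h0 h1
    rw [eval_mul, eval_C, eval_E]
    exact mul_ne_zero hc (base_pos h hk h0 h1).ne'
  have h0 : C c * E ω (k + 1) ≠ 0 := by
    intro h0
    apply hne (1 / 2) (by norm_num) (by norm_num)
    rw [h0]; simp
  refine ⟨h0, ?_⟩
  unfold Z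
  have : S (C c * E ω (k + 1)) = ∅ := by
    apply Finset.eq_empty_of_forall_notMem
    intro x hx
    rw [mem_S h0] at hx
    exact hne x hx.2.1 hx.2.2 hx.1
  rw [this]; simp

lemma iter_ne {p : ℝ[X]} {n : ℕ} (h : derivative^[n] p ≠ 0) {i : ℕ} (hi : i ≤ n) :
    derivative^[i] p ≠ 0 := by
  intro h0
  apply h
  obtain ⟨m, rfl⟩ := Nat.exists_eq_add_of_le hi
  rw [add_comm, Function.iterate_add_apply, h0, iterate_derivative_zero]

/-- **Chebyshev system.** -/
theorem cheb {N k : ℕ} {ω : ℂ} (h : Om N ω) (hk : k < N) (d : ℕ) :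
    ∀ c : ℕ → ℝ, (∃ l < d + 1, c l ≠ 0) → F N k ω c (d + 1) ≠ 0 ∧ Z (F N k ω c (d + 1)) ≤ d := by
  induction d with
  | zero =>
    rintro c ⟨l, hl, hc⟩
    have : l = 0 := by omega
    subst this
    have := base_F h hk hc
    unfold F
    simp only [zero_add, Finset.sum_range_one, zero_mul, add_zero]
    exact ⟨this.1, this.2.le⟩
  | succ d ih =>
    rintro c ⟨l, hl, hc⟩
    by_cases hall : ∀ i < d + 1, c (i + 1) = 0
    · have h0 : c 0 ≠ 0 := by
        rcases l with _ | l
        · exact hc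
        · exact absurd (hall l (by omega)) hc
      have e1 : F N k ω c (d + 1 + 1) = C (c 0) * E ω (k + 1) := by
        unfold F
        rw [Finset.sum_range_succ', Finset.sum_eq_zero, zero_add, zero_mul, add_zero]
        intro i hi
        rw [hall i (Finset.mem_range.1 hi)]; simp
      rw [e1]
      have := base_F h hk h0
      exact ⟨this.1, by omega⟩
    · push Not at hall
      obtain ⟨i, hi, hci⟩ := hall
      have hN : N = 3 ∨ N = 4 := by
        rcases h.eqn with ⟨h, _⟩ | ⟨h, _⟩ <;> omega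
      obtain ⟨h1, h2⟩ := ih (fun l => c (l + 1) * ((k + 1 + (l + 1) * N).descFactorial N : ℕ))
        ⟨i, hi, by
          apply mul_ne_zero hci
          have : (k + 1 + (i + 1) * N).descFactorial N ≠ 0 := by
            rw [Ne, Nat.descFactorial_eq_zero_iff_lt]
            have : N ≤ (i + 1) * N := Nat.le_mul_of_pos_left N (by omega)
            omega
          exact_mod_cast this⟩
      rw [← iter_F h hk c (d + 1)] at h1 h2
      set f := F N k ω c (d + 1 + 1) with hf
      have hf0 : f ≠ 0 := iter_ne h1 (i := 0) (by omega)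
      refine ⟨hf0, ?_⟩
      have b0 : (derivative^[0] f).eval 0 = 0 := eval_iter_F_zero c _ 0 (by simp)
      have b1 := eval_iter_F_one h hk c (d + 1 + 1)
      rw [← hf] at b1
      have r0 := rolle (derivative^[0] f) (iter_ne h1 (by omega))
      have r1 := rolle (derivative^[1] f) (iter_ne h1 (by omega))
      have r2 := rolle (derivative^[2] f) (iter_ne h1 (by omega))
      rw [← Function.iterate_succ_apply' derivative] at r0 r1 r2
      rw [if_pos b0] at r0
      rcases h.eqn with ⟨rfl, he⟩ | ⟨rfl, he⟩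
      · have hk' : k = 0 ∨ k = 1 ∨ k = 2 := by omega
        simp only [Nat.succ_eq_add_one, zero_add, Nat.reduceAdd] at r0 r1 r2
        rcases hk' with rfl | rfl | rfl
        · simp only [Nat.reduceSub] at b1
          rw [if_pos b1] at r2
          change Z f + _ + _ ≤ _ at r0
          omega
        · simp only [Nat.reduceSub] at b1
          rw [if_pos b1] at r1
          change Z f + _ + _ ≤ _ at r0
          omega
        · simp only [Nat.reduceSub] at b1
          rw [if_pos b1] at r0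
          change Z f + _ + _ ≤ _ at r0
          omega
      · have r3 := rolle (derivative^[3] f) (iter_ne h1 (by omega))
        rw [← Function.iterate_succ_apply' derivative] at r3
        have b2 : (derivative^[2] f).eval 0 = 0 := eval_iter_F_zero c _ 2 (by rw [he]; simp)
        rw [if_pos b2] at r2
        have hk' : k = 0 ∨ k = 1 ∨ k = 2 ∨ k = 3 := by omega
        simp only [Nat.succ_eq_add_one, zero_add, Nat.reduceAdd] at r0 r1 r2 r3
        rcases hk' with rfl | rfl | rfl | rfl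
        · simp only [Nat.reduceSub] at b1
          rw [if_pos b1] at r3
          change Z f + _ + _ ≤ _ at r0
          omega
        · simp only [Nat.reduceSub] at b1
          rw [if_pos b1] at r2
          change Z f + _ + _ ≤ _ at r0
          omega
        · simp only [Nat.reduceSub] at b1
          rw [if_pos b1] at r1
          change Z f + _ + _ ≤ _ at r0
          omega
        · simp only [Nat.reduceSub] at b1
          rw [if_pos b1] at r0
          change Z f + _ + _ ≤ _ at r0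
          omega

end Pool.Agent.R263.Ber
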