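import Pool.Agent.R263.BerB

set_option autoImplicit false

/-!
Sign changes and interlacing from the Chebyshev system.
-/

open Polynomial MeasureTheory

namespace Pool.Agent.R263.Ber

/-- no zeros on `(0,1)` gives constant sign -/
lemma sign_of_no_root {f : ℝ → ℝ} (hf : Continuous f) (h : ∀ x, 0 < x → x < 1 → f x ≠ 0) :
    (∀ x, 0 < x → x < 1 → 0 ≤ f x) ∨ (∀ x, 0 < x → x < 1 → f x ≤ 0) := by
  by_contra hcon
  push Not at hcon
  obtain ⟨⟨x, hx0, hx1, hx⟩, ⟨y, hy0, hy1, hy⟩⟩ := hcon
  have h1 := intermediate_value_uIcc (a := x) (b := y) hf.continuousOn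
  have h2 : (0 : ℝ) ∈ Set.uIcc (f x) (f y) := by
    rw [Set.mem_uIcc]; left; exact ⟨hx.le, hy.le⟩
  obtain ⟨z, hz, hz0⟩ := h1 h2
  rw [Set.mem_uIcc] at hz
  apply h z _ _ hz0
  · rcases hz with hz | hz <;> linarith [hz.1]
  · rcases hz with hz | hz <;> linarith [hz.2]

/-- even multiplicities give constant sign -/
lemma sign_even (n : ℕ) : ∀ U : ℝ[X], U.natDegree ≤ n → U ≠ 0 →
    (∀ x, 0 < x → x < 1 → Even (U.rootMultiplicity x)) →
    (∀ x, 0 < x → x < 1 → 0 ≤ U.eval x) ∨ (∀ x, 0 < x → x < 1 → U.eval x ≤ 0) := by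
  induction n with
  | zero =>
    intro U hn hU hev
    apply sign_of_no_root U.continuous
    intro x _ _ h
    rw [Nat.le_zero] at hn
    rw [eq_C_of_natDegree_eq_zero hn, eval_C] at h
    apply hU
    rw [eq_C_of_natDegree_eq_zero hn, h, map_zero]
  | succ n ih =>
    intro U hn hU hev
    by_cases hroot : ∃ x, 0 < x ∧ x < 1 ∧ U.eval x = 0
    · obtain ⟨x, hx0, hx1, hx⟩ := hroot
      obtain ⟨V, hV, hnd⟩ := exists_eq_pow_rootMultiplicity_mul_and_not_dvd U hU x
      set m := U.rootMultiplicity x with hm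
      have hm0 : 0 < m := (rootMultiplicity_pos hU).2 hx
      have hV0 : V ≠ 0 := by rintro rfl; simp at hnd
      have hVx : V.rootMultiplicity x = 0 := by
        apply rootMultiplicity_eq_zero
        rwa [← dvd_iff_isRoot]
      have hne : (X - C x) ^ m * V ≠ 0 := hV ▸ hU
      have hmul : ∀ y, U.rootMultiplicity y = ((X - C x) ^ m).rootMultiplicity y +
          V.rootMultiplicity y := by
        intro y
        conv_lhs => rw [hV]
        exact rootMultiplicity_mul hne
      have hdeg : V.natDegree ≤ n := by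
        have : U.natDegree = ((X - C x) ^ m).natDegree + V.natDegree := by
          conv_lhs => rw [hV]
          exact natDegree_mul (left_ne_zero_of_mul hne) hV0
        rw [natDegree_pow, natDegree_X_sub_C] at this
        omega
      have hevV : ∀ y, 0 < y → y < 1 → Even (V.rootMultiplicity y) := by
        intro y hy0 hy1
        by_cases hyx : y = x
        · rw [hyx, hVx]; exact Even.zero
        · have h1 := hmul y
          have h2 : ((X - C x) ^ m).rootMultiplicity y = 0 := by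
            apply rootMultiplicity_eq_zero
            rw [IsRoot.def, eval_pow, eval_sub, eval_X, eval_C]
            exact pow_ne_zero _ (sub_ne_zero.2 hyx)
          rw [h2, zero_add] at h1
          rw [← h1]
          exact hev y hy0 hy1
      have hme : Even m := hev x hx0 hx1
      have hU' : ∀ y, U.eval y = (y - x) ^ m * V.eval y := by
        intro y
        conv_lhs => rw [hV]
        simp
      rcases ih V hdeg hV0 hevV with h | h
      · left
        intro y h0 h1
        rw [hU']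
        exact mul_nonneg (hme.pow_nonneg _) (h y h0 h1)
      · right
        intro y h0 h1
        rw [hU']
        exact mul_nonpos_of_nonneg_of_nonpos (hme.pow_nonneg _) (h y h0 h1)
    · push Not at hroot
      exact sign_of_no_root U.continuous hroot

/-- distinct roots in `(0,1)` of odd multiplicity -/
noncomputable def O (p : ℝ[X]) : Finset ℝ := (S p).filter (fun x => Odd (p.rootMultiplicity x))

lemma mult_prod (T : Finset ℝ) (x : ℝ) :
    (∏ y ∈ T, (X - C y)).rootMultiplicity x = if x ∈ T then 1 else 0 := by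
  classical
  rw [← count_roots, roots_prod_X_sub_C, Multiset.count_eq_of_nodup T.nodup]
  simp

lemma prod_ne (T : Finset ℝ) : (∏ y ∈ T, (X - C y)) ≠ 0 :=
  Finset.prod_ne_zero_iff.2 fun y _ => X_sub_C_ne_zero y

lemma sign_mul_odd {R : ℝ[X]} (hR : R ≠ 0) :
    (∀ x, 0 < x → x < 1 → 0 ≤ R.eval x * ∏ y ∈ O R, (x - y)) ∨
      (∀ x, 0 < x → x < 1 → R.eval x * ∏ y ∈ O R, (x - y) ≤ 0) := by
  have h := sign_even _ (R * ∏ y ∈ O R, (X - C y)) le_rfl (mul_ne_zero hR (prod_ne _)) (by
    intro x h0 h1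
    rw [rootMultiplicity_mul (mul_ne_zero hR (prod_ne _)), mult_prod]
    split_ifs with h
    · unfold O at h
      rw [Finset.mem_filter] at h
      exact h.2.add_one
    · rw [add_zero]
      by_contra hodd
      rw [Nat.not_even_iff_odd] at hodd
      apply h
      unfold O
      rw [Finset.mem_filter, mem_S hR]
      have : 0 < R.rootMultiplicity x := hodd.pos
      exact ⟨⟨(rootMultiplicity_pos hR).1 this, h0, h1⟩, hodd⟩)
  simpa [eval_mul, eval_prod] using h

/-- a polynomial with few roots vanishing on `T` changes sign exactly there -/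
lemma sign_mul_exact {f : ℝ[X]} (hf : f ≠ 0) (T : Finset ℝ) (hT : T ⊆ S f) (hZ : Z f ≤ T.card) :
    (∀ x, 0 < x → x < 1 → 0 ≤ f.eval x * ∏ y ∈ T, (x - y)) ∨
      (∀ x, 0 < x → x < 1 → f.eval x * ∏ y ∈ T, (x - y) ≤ 0) := by
  classical
  have hpos : ∀ x ∈ S f, 1 ≤ f.rootMultiplicity x := by
    intro x hx
    rw [mem_S hf] at hx
    exact (rootMultiplicity_pos hf).2 hx.1
  have hsum : ∑ x ∈ S f, f.rootMultiplicity x =
      ∑ x ∈ S f \ T, f.rootMultiplicity x + ∑ x ∈ T, f.rootMultiplicity x :=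
    (Finset.sum_sdiff hT).symm
  have h1 : T.card ≤ ∑ x ∈ T, f.rootMultiplicity x := by
    rw [Finset.card_eq_sum_ones]
    exact Finset.sum_le_sum fun x hx => hpos x (hT hx)
  have hZ' : ∑ x ∈ S f, f.rootMultiplicity x ≤ T.card := hZ
  have h2 : ∑ x ∈ S f \ T, f.rootMultiplicity x = 0 := by omega
  have h3 : ∑ x ∈ T, f.rootMultiplicity x = ∑ x ∈ T, 1 := by
    rw [← Finset.card_eq_sum_ones]; omega
  have hmT : ∀ x ∈ T, f.rootMultiplicity x = 1 := by
    intro x hx
    have := (Finset.sum_eq_sum_iff_of_le (fun x hx => hpos x (hT hx))).1 h3.symm x hx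
    exact this.symm
  have hmS : ∀ x ∈ S f, x ∈ T := by
    intro x hx
    by_contra hxT
    have := Finset.sum_eq_zero_iff.1 h2 x (Finset.mem_sdiff.2 ⟨hx, hxT⟩)
    have := hpos x hx
    omega
  have h := sign_even _ (f * ∏ y ∈ T, (X - C y)) le_rfl (mul_ne_zero hf (prod_ne _)) (by
    intro x h0 h1
    rw [rootMultiplicity_mul (mul_ne_zero hf (prod_ne _)), mult_prod]
    split_ifs with h
    · rw [hmT x h]; decide
    · rw [add_zero]
      have : f.rootMultiplicity x = 0 := by
        by_contra hne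
        apply h
        apply hmS
        rw [mem_S hf]
        exact ⟨(rootMultiplicity_pos hf).1 (Nat.pos_of_ne_zero hne), h0, h1⟩
      rw [this]; exact Even.zero)
  simpa [eval_mul, eval_prod] using h

lemma F_trunc (N k : ℕ) (ω : ℂ) (c : ℕ → ℝ) {d e : ℕ} (hde : d ≤ e) (h0 : ∀ l, d ≤ l → c l = 0) :
    F N k ω c e = F N k ω c d := by
  unfold F
  symm
  apply Finset.sum_subset (Finset.range_mono hde)
  intro l _ hl
  rw [Finset.mem_range, not_lt] at hl
  rw [h0 l hl]; simp

/-- nontrivial combination vanishing at prescribed points -/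
lemma exists_comb (N k : ℕ) (ω : ℂ) (T : Finset ℝ) :
    ∃ c : ℕ → ℝ, (∃ l < T.card + 1, c l ≠ 0) ∧ (∀ l, T.card + 1 ≤ l → c l = 0) ∧
      ∀ x ∈ T, (F N k ω c (T.card + 1)).eval x = 0 := by
  classical
  let L : (Fin (T.card + 1) → ℝ) →ₗ[ℝ] (T → ℝ) :=
    { toFun := fun v x => ∑ l, v l * (E ω (k + 1 + l * N)).eval (x : ℝ)
      map_add' := by
        intro v w; ext x
        simp only [Pi.add_apply, add_mul, Finset.sum_add_distrib]
      map_smul' := by
        intro r v; ext x
        simp only [Pi.smul_apply, smul_eq_mul, RingHom.id_apply, Finset.mul_sum, mul_assoc] }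
  have hker : LinearMap.ker L ≠ ⊥ := by
    apply LinearMap.ker_ne_bot_of_finrank_lt
    simp
  obtain ⟨v, hv, hv0⟩ := (Submodule.ne_bot_iff _).1 hker
  rw [LinearMap.mem_ker] at hv
  refine ⟨fun l => if h : l < T.card + 1 then v ⟨l, h⟩ else 0, ?_, ?_, ?_⟩
  · by_contra hcon
    push Not at hcon
    apply hv0
    ext ⟨l, hl⟩
    have := hcon l hl
    rw [dif_pos hl] at this
    simpa using this
  · intro l hl
    exact dif_neg (by omega)
  · intro x hx
    have h1 := congrFun hv ⟨x, hx⟩
    change ∑ l : Fin (T.card + 1), v l * (E ω (k + 1 + l * N)).eval x = 0 at h1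
    unfold F
    rw [eval_finsetSum, Finset.sum_range]
    refine Eq.trans ?_ h1
    apply Finset.sum_congr rfl
    intro l _
    rw [eval_mul, eval_C]
    congr 1
    exact dif_pos l.2

/-- **Odd roots.** -/
theorem odd_roots {N k : ℕ} {ω : ℂ} (h : Om N ω) (hk : k < N) (j : ℕ) (R : ℝ[X]) (hR : R ≠ 0)
    (horth : ∀ c : ℕ → ℝ,
      ∫ t in (0 : ℝ)..1, t ^ k * R.eval (t ^ N) * (F N k ω c j).eval (1 - t) = 0) :
    j ≤ (O R).card := by
  classical
  by_contra hlt
  push Not at hlt
  have hN0 : N ≠ 0 := by rcases h.eqn with ⟨rfl, _⟩ | ⟨rfl, _⟩ <;> norm_num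
  set τ : ℝ → ℝ := fun x => x ^ ((1 : ℝ) / N) with hτ
  have hmem : ∀ x ∈ O R, 0 < x ∧ x < 1 := by
    intro x hx
    unfold O at hx
    rw [Finset.mem_filter, mem_S hR] at hx
    exact hx.1.2
  have hτN : ∀ x, 0 < x → τ x ^ N = x := by
    intro x hx
    rw [hτ]
    simp only
    rw [← Real.rpow_natCast, ← Real.rpow_mul hx.le, one_div, inv_mul_cancel₀ (by exact_mod_cast hN0),
      Real.rpow_one]
  have hτ0 : ∀ x, 0 < x → 0 < τ x := fun x hx => Real.rpow_pos_of_pos hx _
  have hτ1 : ∀ x, 0 < x → x < 1 → τ x < 1 := by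
    intro x h0 h1
    exact Real.rpow_lt_one h0.le h1 (by positivity)
  have hinj : Set.InjOn (fun x => 1 - τ x) (O R) := by
    intro x hx y hy hxy
    simp only at hxy
    have : τ x = τ y := by linarith
    rw [← hτN x (hmem x hx).1, ← hτN y (hmem y hy).1, this]
  set T : Finset ℝ := (O R).image (fun x => 1 - τ x) with hT
  have hTcard : T.card = (O R).card := Finset.card_image_of_injOn hinj
  obtain ⟨c, hc1, hc2, hc3⟩ := exists_comb N k ω T
  obtain ⟨hf0, hfZ⟩ := cheb h hk T.card c hc1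
  set f := F N k ω c (T.card + 1) with hf
  have hTS : T ⊆ S f := by
    intro y hy
    rw [mem_S hf0]
    refine ⟨hc3 y hy, ?_⟩
    rw [hT, Finset.mem_image] at hy
    obtain ⟨x, hx, rfl⟩ := hy
    have a := hmem x hx
    have b := hτ0 x a.1
    have c := hτ1 x a.1 a.2
    constructor <;> linarith
  have hfj : F N k ω c j = f := by
    rw [hf]
    exact F_trunc N k ω c (by omega) hc2
  have horth' := horth c
  rw [hfj] at horth'
  have s1 := sign_mul_odd hR
  have s2 := sign_mul_exact hf0 T hTS hfZ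
  -- products over T as products over O R
  have hprodT : ∀ t : ℝ, ∏ y ∈ T, ((1 - t) - y) = ∏ x ∈ O R, (τ x - t) := by
    intro t
    rw [hT, Finset.prod_image hinj]
    apply Finset.prod_congr rfl
    intro x _
    ring
  -- sign of the combined product
  have hcomb : ∀ t : ℝ, 0 < t → 0 ≤ (-1) ^ (O R).card * ((∏ x ∈ O R, (t ^ N - x)) *
      ∏ x ∈ O R, (τ x - t)) := by
    intro t ht
    rw [← Finset.prod_const, ← Finset.prod_mul_distrib, ← Finset.prod_mul_distrib]
    apply Finset.prod_nonneg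
    intro x hx
    have a := hmem x hx
    have b := hτ0 x a.1
    have e : x = τ x ^ N := (hτN x a.1).symm
    rcases le_total t (τ x) with hle | hle
    · have h1 : t ^ N ≤ x := by
        rw [e]
        exact pow_le_pow_left₀ ht.le hle N
      have h2 : 0 ≤ τ x - t := sub_nonneg.2 hle
      nlinarith [mul_nonneg (sub_nonneg.2 h1) h2]
    · have h1 : x ≤ t ^ N := by
        rw [e]
        exact pow_le_pow_left₀ b.le hle N
      have h2 : 0 ≤ t - τ x := sub_nonneg.2 hle
      nlinarith [mul_nonneg (sub_nonneg.2 h1) h2]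
  have hcomb0 : ∀ t : ℝ, 0 < t → (∀ x ∈ O R, t ≠ τ x) →
      0 < (-1) ^ (O R).card * ((∏ x ∈ O R, (t ^ N - x)) * ∏ x ∈ O R, (τ x - t)) := by
    intro t ht hne
    refine lt_of_le_of_ne (hcomb t ht) (Ne.symm ?_)
    refine mul_ne_zero (pow_ne_zero _ (by norm_num)) (mul_ne_zero ?_ ?_)
    · rw [Finset.prod_ne_zero_iff]
      intro x hx h0
      apply hne x hx
      have a := hmem x hx
      have e : t ^ N = τ x ^ N := by rw [hτN x a.1]; linarith
      exact (pow_left_inj₀ ht.le (hτ0 x a.1).le hN0).1 e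
    · rw [Finset.prod_ne_zero_iff]
      intro x hx h0
      apply hne x hx
      linarith
  -- the integrand
  set g : ℝ → ℝ := fun t => t ^ k * R.eval (t ^ N) * f.eval (1 - t) with hg
  have hgc : Continuous g := by
    rw [hg]
    exact ((continuous_pow k).mul (R.continuous.comp (continuous_pow N))).mul
      (f.continuous.comp (continuous_const.sub continuous_id))
  have hex : ∃ ε : ℝ, (ε = 1 ∨ ε = -1) ∧ ∀ t, 0 < t → t < 1 → 0 ≤ ε * g t := by
    have key : ∀ ε1 ε2 : ℝ, (ε1 = 1 ∨ ε1 = -1) → (ε2 = 1 ∨ ε2 = -1) →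
        (∀ x, 0 < x → x < 1 → 0 ≤ ε1 * (R.eval x * ∏ y ∈ O R, (x - y))) →
        (∀ x, 0 < x → x < 1 → 0 ≤ ε2 * (f.eval x * ∏ y ∈ T, (x - y))) →
        ∀ t, 0 < t → t < 1 → 0 ≤ (ε1 * ε2 * (-1) ^ (O R).card) * g t := by
      intro ε1 ε2 _ _ hs1 hs2 t ht0 ht1
      by_cases hne : ∀ x ∈ O R, t ≠ τ x
      · have p0 := hcomb0 t ht0 hne
        have htN0 : 0 < t ^ N := by positivity
        have htN1 : t ^ N < 1 := pow_lt_one₀ ht0.le ht1 hN0
        have p1 := hs1 (t ^ N) htN0 htN1
        have p2 := hs2 (1 - t) (by linarith) (by linarith)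
        rw [hprodT] at p2
        have p3 := mul_nonneg p1 p2
        set A := ∏ x ∈ O R, (t ^ N - x)
        set B := ∏ x ∈ O R, (τ x - t)
        set σ : ℝ := (-1) ^ (O R).card with hσ
        have hσ2 : σ * σ = 1 := by
          rw [hσ, ← pow_add, ← two_mul, pow_mul]; simp
        have htk : 0 ≤ t ^ k := by positivity
        have p4 : 0 ≤ (ε1 * ε2 * σ * (R.eval (t ^ N) * f.eval (1 - t))) * (σ * (A * B)) := by
          have : (ε1 * ε2 * σ * (R.eval (t ^ N) * f.eval (1 - t))) * (σ * (A * B)) =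
              (σ * σ) * (ε1 * (R.eval (t ^ N) * A) * (ε2 * (f.eval (1 - t) * B))) := by ring
          rw [this, hσ2, one_mul]
          exact p3
        have p5 : 0 ≤ ε1 * ε2 * σ * (R.eval (t ^ N) * f.eval (1 - t)) :=
          nonneg_of_mul_nonneg_left p4 p0
        have : (ε1 * ε2 * σ) * g t = t ^ k * (ε1 * ε2 * σ * (R.eval (t ^ N) * f.eval (1 - t))) := by
          rw [hg]; ring
        rw [this]
        exact mul_nonneg htk p5
      · push Not at hne
        obtain ⟨x, hx, rfl⟩ := hne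
        have : f.eval (1 - τ x) = 0 := hc3 _ (by rw [hT]; exact Finset.mem_image_of_mem _ hx)
        rw [hg]
        simp [this]
    have sq1 : ((-1 : ℝ) ^ (O R).card = 1 ∨ (-1 : ℝ) ^ (O R).card = -1) := neg_one_pow_eq_or ℝ _
    have d1 : ∃ ε1 : ℝ, (ε1 = 1 ∨ ε1 = -1) ∧
        ∀ x, 0 < x → x < 1 → 0 ≤ ε1 * (R.eval x * ∏ y ∈ O R, (x - y)) := by
      rcases s1 with s | s
      · exact ⟨1, Or.inl rfl, fun x a b => by have := s x a b; linarith⟩
      · exact ⟨-1, Or.inr rfl, fun x a b => by have := s x a b; linarith⟩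
    have d2 : ∃ ε1 : ℝ, (ε1 = 1 ∨ ε1 = -1) ∧
        ∀ x, 0 < x → x < 1 → 0 ≤ ε1 * (f.eval x * ∏ y ∈ T, (x - y)) := by
      rcases s2 with s | s
      · exact ⟨1, Or.inl rfl, fun x a b => by have := s x a b; linarith⟩
      · exact ⟨-1, Or.inr rfl, fun x a b => by have := s x a b; linarith⟩
    obtain ⟨ε1, e1, f1⟩ := d1
    obtain ⟨ε2, e2, f2⟩ := d2
    refine ⟨_, ?_, key ε1 ε2 e1 e2 f1 f2⟩
    rcases e1 with rfl | rfl <;> rcases e2 with rfl | rfl <;> rcases sq1 with h | h <;>
      rw [h] <;> norm_num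
  obtain ⟨ε, hε, hεg⟩ := hex
  have hε0 : ε ≠ 0 := by rcases hε with rfl | rfl <;> norm_num
  have hcl : ∀ t ∈ Set.Icc (0 : ℝ) 1, 0 ≤ ε * g t := by
    have hcl : Set.Icc (0 : ℝ) 1 ⊆ {t | 0 ≤ ε * g t} := by
      rw [← closure_Ioo (by norm_num : (0 : ℝ) ≠ 1)]
      apply closure_minimal
      · intro t ht
        exact hεg t ht.1 ht.2
      · exact isClosed_le continuous_const (continuous_const.mul hgc)
    exact hcl
  -- a point where the integrand is nonzero
  have hpt : ∃ t, 0 < t ∧ t < 1 ∧ g t ≠ 0 := by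
    set G : ℝ[X] := X ^ k * R.comp (X ^ N) * f.comp (1 - X) with hG
    have hG0 : G ≠ 0 := by
      rw [hG]
      refine mul_ne_zero (mul_ne_zero (pow_ne_zero _ X_ne_zero) ?_) ?_
      · rw [Ne, comp_eq_zero_iff]
        rintro (h0 | ⟨_, h0⟩)
        · exact hR h0
        · have := congrArg natDegree h0
          rw [natDegree_X_pow, natDegree_C] at this
          exact hN0 this
      · rw [Ne, comp_eq_zero_iff]
        rintro (h0 | ⟨_, h0⟩)
        · exact hf0 h0
        · have := congrArg (fun p => coeff p 1) h0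
          simp [coeff_one] at this
    by_contra hcon
    push Not at hcon
    apply hG0
    apply eq_zero_of_infinite_isRoot
    apply Set.Infinite.mono _ (Set.Ioo_infinite (show (0 : ℝ) < 1 by norm_num))
    intro t ht
    have := hcon t ht.1 ht.2
    change IsRoot G t
    rw [IsRoot.def, hG]
    simp only [eval_mul, eval_pow, eval_X, eval_comp, eval_sub, eval_one]
    exact this
  obtain ⟨t0, ht0, ht1, hgt⟩ := hpt
  have hpos : 0 < ∫ t in (0 : ℝ)..1, ε * g t := by
    apply intervalIntegral.integral_pos (by norm_num) (continuous_const.mul hgc).continuousOn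
    · intro t ht
      exact hcl t ⟨ht.1.le, ht.2⟩
    · refine ⟨t0, ⟨ht0.le, ht1.le⟩, ?_⟩
      exact lt_of_le_of_ne (hεg t0 ht0 ht1) (Ne.symm (mul_ne_zero hε0 hgt))
  rw [intervalIntegral.integral_const_mul] at hpos
  rw [horth', mul_zero] at hpos
  exact lt_irrefl _ hpos

end Pool.Agent.R263.Ber
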