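import Pool.Agent.R263.BerC

set_option autoImplicit false

/-!
Interlacing.
-/

open Polynomial MeasureTheory

namespace Pool.Agent.R263.Ber

lemma sum_mult_le {p : ℝ[X]} (A : Finset ℝ) :
    ∑ x ∈ A, p.rootMultiplicity x ≤ p.natDegree := by
  classical
  calc ∑ x ∈ A, p.rootMultiplicity x
      ≤ ∑ x ∈ A ∪ p.roots.toFinset, p.rootMultiplicity x :=
        Finset.sum_le_sum_of_subset Finset.subset_union_left
    _ = ∑ x ∈ p.roots.toFinset, p.rootMultiplicity x := by
        symm
        apply Finset.sum_subset Finset.subset_union_right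
        intro x _ hx
        rw [Multiset.mem_toFinset] at hx
        rw [← count_roots]
        exact Multiset.count_eq_zero.2 hx
    _ = Multiset.card p.roots := by
        simp_rw [← count_roots]
        exact Multiset.toFinset_sum_count_eq _
    _ ≤ p.natDegree := card_roots' p

/-- the orthogonality relations in one variable -/
def Orth (N k : ℕ) (ω : ℂ) (j : ℕ) (R : ℝ[X]) : Prop :=
  ∀ c : ℕ → ℝ, ∫ t in (0 : ℝ)..1, t ^ k * R.eval (t ^ N) * (F N k ω c j).eval (1 - t) = 0

lemma Orth.mono {N k : ℕ} {ω : ℂ} {j : ℕ} {R : ℝ[X]} (h : Orth N k ω (j + 1) R) :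
    Orth N k ω j R := by
  intro c
  have h1 := h (fun l => if l < j then c l else 0)
  rw [F_trunc N k ω (fun l => if l < j then c l else 0) (d := j) (e := j + 1) (by omega)
    (fun l hl => if_neg (by omega))] at h1
  have h2 : F N k ω (fun l => if l < j then c l else 0) j = F N k ω c j := by
    unfold F
    apply Finset.sum_congr rfl
    intro l hl
    have : (fun l => if l < j then c l else 0) l = c l := if_pos (Finset.mem_range.1 hl)
    rw [this]
  rw [h2] at h1
  exact h1

lemma Orth.comb {N k : ℕ} {ω : ℂ} {j : ℕ} {R1 R2 : ℝ[X]} (h1 : Orth N k ω j R1)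
    (h2 : Orth N k ω j R2) (a b : ℝ) : Orth N k ω j (C a * R1 + C b * R2) := by
  intro c
  have e : ∀ t : ℝ, t ^ k * (C a * R1 + C b * R2).eval (t ^ N) * (F N k ω c j).eval (1 - t) =
      a * (t ^ k * R1.eval (t ^ N) * (F N k ω c j).eval (1 - t)) +
      b * (t ^ k * R2.eval (t ^ N) * (F N k ω c j).eval (1 - t)) := by
    intro t
    rw [eval_add, eval_mul, eval_mul, eval_C, eval_C]; ring
  have hc : ∀ R : ℝ[X], Continuous fun t : ℝ =>
      t ^ k * R.eval (t ^ N) * (F N k ω c j).eval (1 - t) := by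
    intro R
    exact ((continuous_pow k).mul (R.continuous.comp (continuous_pow N))).mul
      ((F N k ω c j).continuous.comp (continuous_const.sub continuous_id))
  simp_rw [e]
  rw [intervalIntegral.integral_add, intervalIntegral.integral_const_mul,
    intervalIntegral.integral_const_mul, h1 c, h2 c]
  · simp
  · exact (continuous_const.mul (hc R1)).intervalIntegrable _ _
  · exact (continuous_const.mul (hc R2)).intervalIntegrable _ _

lemma mem_O {R : ℝ[X]} (hR : R ≠ 0) {x : ℝ} :
    x ∈ O R ↔ (R.eval x = 0 ∧ 0 < x ∧ x < 1) ∧ Odd (R.rootMultiplicity x) := by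
  unfold O
  rw [Finset.mem_filter, mem_S hR]

/-- no double roots in the pencil -/
lemma no_double {N k : ℕ} {ω : ℂ} (h : Om N ω) (hk : k < N) {j : ℕ} {R : ℝ[X]} (hR : R ≠ 0)
    (ho : Orth N k ω j R) (hd : R.natDegree ≤ j + 1) (x : ℝ) (h0 : R.eval x = 0)
    (h1 : (derivative R).eval x = 0) : False := by
  classical
  have hcard := odd_roots h hk j R hR ho
  have hm2 : 1 < R.rootMultiplicity x :=
    (one_lt_rootMultiplicity_iff_isRoot hR).2 ⟨h0, h1⟩
  by_cases hx : x ∈ O R
  · have hodd := ((mem_O hR).1 hx).2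
    have hm3 : 3 ≤ R.rootMultiplicity x := by
      rcases hodd with ⟨m, hm⟩; omega
    have h3 := sum_mult_le (p := R) (O R)
    rw [← Finset.add_sum_erase _ _ hx] at h3
    have h4 : ((O R).erase x).card ≤ ∑ y ∈ (O R).erase x, R.rootMultiplicity y := by
      rw [Finset.card_eq_sum_ones]
      apply Finset.sum_le_sum
      intro y hy
      exact ((mem_O hR).1 (Finset.mem_of_mem_erase hy)).2.pos
    rw [Finset.card_erase_of_mem hx] at h4
    omega
  · have h3 := sum_mult_le (p := R) (insert x (O R))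
    rw [Finset.sum_insert hx] at h3
    have h4 : (O R).card ≤ ∑ y ∈ O R, R.rootMultiplicity y := by
      rw [Finset.card_eq_sum_ones]
      apply Finset.sum_le_sum
      intro y hy
      exact ((mem_O hR).1 hy).2.pos
    omega

lemma wronskian_ne {N k : ℕ} {ω : ℂ} (h : Om N ω) (hk : k < N) {j : ℕ} {q q' : ℝ[X]}
    (hq : q.Monic) (hqd : q.natDegree = j) (hq' : q'.Monic) (hqd' : q'.natDegree = j + 1)
    (h1 : Orth N k ω j q) (h2 : Orth N k ω j q') (x : ℝ) :
    (derivative q').eval x * q.eval x - q'.eval x * (derivative q).eval x ≠ 0 := by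
  intro hW
  -- a nontrivial combination with a double root at x
  have key : ∀ a b : ℝ, (a ≠ 0 ∨ b ≠ 0) → a * q'.eval x + b * q.eval x = 0 →
      a * (derivative q').eval x + b * (derivative q).eval x = 0 → False := by
    intro a b hab e0 e1
    set R := C a * q' + C b * q with hR
    have hR0 : R ≠ 0 := by
      intro h0
      have c1 : R.coeff (j + 1) = a := by
        rw [hR, coeff_add, coeff_C_mul, coeff_C_mul, ← hqd', hq'.coeff_natDegree,
          coeff_eq_zero_of_natDegree_lt (p := q) (by omega)]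
        ring
      rw [h0, coeff_zero] at c1
      have c2 : R.coeff j = b := by
        rw [hR, ← c1, coeff_add, coeff_C_mul, coeff_C_mul]
        nth_rewrite 2 [← hqd]
        rw [hq.coeff_natDegree]
        ring
      rw [h0, coeff_zero] at c2
      rcases hab with h | h
      · exact h c1.symm
      · exact h c2.symm
    refine no_double h hk hR0 (h2.comb h1 a b) ?_ x ?_ ?_
    · refine (natDegree_add_le _ _).trans (max_le ?_ ?_)
      · exact (natDegree_C_mul_le _ _).trans hqd'.le
      · exact (natDegree_C_mul_le _ _).trans (by omega)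
    · rw [hR, eval_add, eval_mul, eval_mul, eval_C, eval_C]; exact e0
    · rw [hR, derivative_add, derivative_C_mul, derivative_C_mul, eval_add, eval_mul, eval_mul,
        eval_C, eval_C]; exact e1
  by_cases hA : q.eval x ≠ 0 ∨ -q'.eval x ≠ 0
  · exact key _ _ hA (by ring) (by linarith)
  · push Not at hA
    by_cases hB : (derivative q).eval x ≠ 0 ∨ -(derivative q').eval x ≠ 0
    · refine key _ _ hB ?_ (by ring)
      rw [hA.1, neg_eq_zero.1 hA.2]; ring
    · push Not at hB
      refine key 1 0 (Or.inl one_ne_zero) ?_ ?_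
      · rw [neg_eq_zero.1 hA.2]; ring
      · rw [neg_eq_zero.1 hB.2]; ring

/-- a monic polynomial with enough distinct roots -/
lemma eq_prod_of_roots {p : ℝ[X]} (hp : p.Monic) {n : ℕ} (hd : p.natDegree = n) {r : ℕ → ℝ}
    (hinj : ∀ a b, a < n → b < n → a < b → r a < r b) (hr : ∀ a, a < n → p.eval (r a) = 0) :
    p = ∏ ν ∈ Finset.range n, (X - C (r ν)) := by
  have hdvd : ∏ ν ∈ Finset.range n, (X - C (r ν)) ∣ p := by
    apply Finset.prod_dvd_of_coprime
    · intro a ha b hb hab
      apply isCoprime_X_sub_C_of_isUnit_sub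
      apply IsUnit.mk0
      rw [Finset.mem_coe, Finset.mem_range] at ha hb
      rcases lt_or_gt_of_ne hab with h | h
      · exact (sub_neg.2 (hinj a b ha hb h)).ne
      · exact (sub_pos.2 (hinj b a hb ha h)).ne'
    · intro a ha
      rw [dvd_iff_isRoot]
      exact hr a (Finset.mem_range.1 ha)
  have hm : (∏ ν ∈ Finset.range n, (X - C (r ν))).Monic :=
    monic_prod_of_monic _ _ fun ν _ => monic_X_sub_C _
  refine eq_of_monic_of_dvd_of_natDegree_le hm hp hdvd ?_
  rw [natDegree_prod_of_monic _ _ fun ν _ => monic_X_sub_C _]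
  simp [hd]

/-- the derivative changes sign at consecutive simple roots -/
lemma deriv_sign {m : ℕ} {s : ℕ → ℝ} (hs : ∀ a b, a < m → b < m → a < b → s a < s b) {ν : ℕ}
    (hν : ν + 1 < m) :
    (derivative (∏ i ∈ Finset.range m, (X - C (s i)))).eval (s ν) *
      (derivative (∏ i ∈ Finset.range m, (X - C (s i)))).eval (s (ν + 1)) < 0 := by
  classical
  have hder : ∀ a, a < m → (derivative (∏ i ∈ Finset.range m, (X - C (s i)))).eval (s a) =
      ∏ i ∈ (Finset.range m).erase a, (s a - s i) := by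
    intro a ha
    rw [derivative_prod_finset, eval_finsetSum, Finset.sum_eq_single a]
    · rw [derivative_X_sub_C, mul_one, eval_prod]
      apply Finset.prod_congr rfl
      intro i _; simp
    · intro b hb hba
      rw [eval_mul, eval_prod, Finset.prod_eq_zero (i := a)]
      · simp
      · rw [Finset.mem_erase]; exact ⟨hba.symm, Finset.mem_range.2 ha⟩
      · simp
    · intro h; exact absurd (Finset.mem_range.2 ha) h
  rw [hder ν (by omega), hder (ν + 1) hν]
  have m1 : ν + 1 ∈ (Finset.range m).erase ν := by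
    rw [Finset.mem_erase, Finset.mem_range]; omega
  have m2 : ν ∈ (Finset.range m).erase (ν + 1) := by
    rw [Finset.mem_erase, Finset.mem_range]; omega
  rw [← Finset.mul_prod_erase _ _ m1, ← Finset.mul_prod_erase _ _ m2, Finset.erase_right_comm]
  set A := ((Finset.range m).erase (ν + 1)).erase ν
  have hlt := hs ν (ν + 1) (by omega) hν (by omega)
  have hpos : 0 < (∏ i ∈ A, (s ν - s i)) * ∏ i ∈ A, (s (ν + 1) - s i) := by
    rw [← Finset.prod_mul_distrib]
    apply Finset.prod_pos
    intro i hi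
    rw [Finset.mem_erase, Finset.mem_erase, Finset.mem_range] at hi
    rcases lt_or_gt_of_ne hi.1 with h | h
    · have a1 := hs i ν hi.2.2 (by omega) h
      have a2 := hs i (ν + 1) hi.2.2 hν (by omega)
      nlinarith
    · have a1 := hs ν i (by omega) hi.2.2 h
      have a2 := hs (ν + 1) i hν hi.2.2 (by omega)
      nlinarith
  have : (s ν - s (ν + 1)) * (∏ i ∈ A, (s ν - s i)) *
      ((s (ν + 1) - s ν) * ∏ i ∈ A, (s (ν + 1) - s i)) =
      - ((s (ν + 1) - s ν) ^ 2 * ((∏ i ∈ A, (s ν - s i)) * ∏ i ∈ A, (s (ν + 1) - s i))) := by ring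
  rw [this, neg_lt_zero]
  exact mul_pos (pow_pos (sub_pos.2 hlt) 2) hpos

/-- **Interlacing.** -/
theorem interlace {N k : ℕ} {ω : ℂ} (h : Om N ω) (hk : k < N) (j : ℕ) (q q' : ℝ[X])
    (hq : q.Monic) (hqd : q.natDegree = j) (hq' : q'.Monic) (hqd' : q'.natDegree = j + 1)
    (h1 : Orth N k ω j q) (h2 : Orth N k ω (j + 1) q') :
    ∃ t s : ℕ → ℝ, q = ∏ ν ∈ Finset.range j, (X - C (t ν)) ∧
      q' = ∏ ν ∈ Finset.range (j + 1), (X - C (s ν)) ∧
      0 < s 0 ∧ s j < 1 ∧ ∀ ν, ν < j → s ν < t ν ∧ t ν < s (ν + 1) := by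
  classical
  have hq'0 : q' ≠ 0 := hq'.ne_zero
  have hcard : (O q').card = j + 1 := by
    apply le_antisymm _ (odd_roots h hk (j + 1) q' hq'0 h2)
    rw [← hqd']
    refine le_trans ?_ (sum_mult_le (p := q') (O q'))
    rw [Finset.card_eq_sum_ones]
    apply Finset.sum_le_sum
    intro y hy
    exact ((mem_O hq'0).1 hy).2.pos
  set e := (O q').orderEmbOfFin hcard with he
  set s : ℕ → ℝ := fun ν => if hν : ν < j + 1 then e ⟨ν, hν⟩ else 0 with hs
  have hsv : ∀ ν (hν : ν < j + 1), s ν = e ⟨ν, hν⟩ := fun ν hν => dif_pos hν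
  have hsO : ∀ ν, ν < j + 1 → s ν ∈ O q' := by
    intro ν hν
    rw [hsv ν hν]
    exact Finset.orderEmbOfFin_mem _ _ _
  have hsmono : ∀ a b, a < j + 1 → b < j + 1 → a < b → s a < s b := by
    intro a b ha hb hab
    rw [hsv a ha, hsv b hb]
    exact e.strictMono (by exact hab)
  have hq'prod : q' = ∏ ν ∈ Finset.range (j + 1), (X - C (s ν)) :=
    eq_prod_of_roots hq' hqd' hsmono fun a ha => ((mem_O hq'0).1 (hsO a ha)).1.1
  -- the Wronskian has constant sign
  set W : ℝ → ℝ := fun x =>
    (derivative q').eval x * q.eval x - q'.eval x * (derivative q).eval x with hW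
  have hWc : Continuous W :=
    ((derivative q').continuous.mul q.continuous).sub (q'.continuous.mul (derivative q).continuous)
  have hWne : ∀ x, W x ≠ 0 := wronskian_ne h hk hq hqd hq' hqd' h1 h2.mono
  have hWs : ∀ x y, 0 < W x * W y := by
    intro x y
    by_contra hcon
    push Not at hcon
    have hlt : W x * W y < 0 := lt_of_le_of_ne hcon (mul_ne_zero (hWne x) (hWne y))
    have hz : (0 : ℝ) ∈ Set.uIcc (W x) (W y) := by
      rw [Set.mem_uIcc]
      rcases mul_neg_iff.1 hlt with h | h
      · right; exact ⟨h.2.le, h.1.le⟩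
      · left; exact ⟨h.1.le, h.2.le⟩
    obtain ⟨z, _, hz0⟩ := intermediate_value_uIcc hWc.continuousOn hz
    exact hWne z hz0
  have hsroot : ∀ ν, ν < j + 1 → q'.eval (s ν) = 0 := fun ν hν =>
    ((mem_O hq'0).1 (hsO ν hν)).1.1
  have hWroot : ∀ ν, ν < j + 1 → W (s ν) = (derivative q').eval (s ν) * q.eval (s ν) := by
    intro ν hν
    rw [hW]
    simp only
    rw [hsroot ν hν]; ring
  have hqs : ∀ ν, ν < j → q.eval (s ν) * q.eval (s (ν + 1)) < 0 := by
    intro ν hν
    have a1 := hWs (s ν) (s (ν + 1))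
    rw [hWroot ν (by omega), hWroot (ν + 1) (by omega)] at a1
    have a2 := deriv_sign hsmono (ν := ν) (by omega)
    rw [← hq'prod] at a2
    by_contra hcon
    push Not at hcon
    nlinarith [mul_nonneg hcon (neg_nonneg.2 a2.le)]
  have hex : ∀ ν, ν < j → ∃ t, s ν < t ∧ t < s (ν + 1) ∧ q.eval t = 0 := by
    intro ν hν
    have hlt := hqs ν hν
    have hss := hsmono ν (ν + 1) (by omega) (by omega) (by omega)
    have hz : (0 : ℝ) ∈ Set.uIcc (q.eval (s ν)) (q.eval (s (ν + 1))) := by
      rw [Set.mem_uIcc]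
      rcases mul_neg_iff.1 hlt with h | h
      · right; exact ⟨h.2.le, h.1.le⟩
      · left; exact ⟨h.1.le, h.2.le⟩
    obtain ⟨z, hz1, hz0⟩ := intermediate_value_uIcc q.continuous.continuousOn hz
    rw [Set.uIcc_of_le hss.le] at hz1
    refine ⟨z, lt_of_le_of_ne hz1.1 ?_, lt_of_le_of_ne hz1.2 ?_, hz0⟩
    · rintro rfl
      change q.eval (s ν) = 0 at hz0
      rw [hz0, zero_mul] at hlt; exact lt_irrefl _ hlt
    · rintro rfl
      change q.eval (s (ν + 1)) = 0 at hz0
      rw [hz0, mul_zero] at hlt; exact lt_irrefl _ hlt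
  choose! t ht1 ht2 ht3 using hex
  have htmono : ∀ a b, a < j → b < j → a < b → t a < t b := by
    intro a b ha hb hab
    have b1 := ht2 a ha
    have b2 := ht1 b hb
    have b3 : s (a + 1) ≤ s b := by
      rcases Nat.eq_or_lt_of_le (Nat.succ_le_of_lt hab) with h | h
      · exact le_of_eq (congrArg s h)
      · exact (hsmono (a + 1) b (by omega) (by omega) h).le
    linarith
  refine ⟨t, s, eq_prod_of_roots hq hqd htmono ht3, hq'prod,
    ((mem_O hq'0).1 (hsO 0 (by omega))).1.2.1, ((mem_O hq'0).1 (hsO j (by omega))).1.2.2,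
    fun ν hν => ⟨ht1 ν hν, ht2 ν hν⟩⟩

end Pool.Agent.R263.Ber
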