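import Pool.Agent.R263.BerD

set_option autoImplicit false

/-!
The regular polygon.
-/

open Polynomial MeasureTheory ComplexConjugate

namespace Pool.Agent.R263.Ber

/-- the roots of unity -/
def Rt (N : ℕ) : Set ℂ := {w : ℂ | w ^ N = 1}

/-- the open polygon -/
def G (N : ℕ) : Set ℂ := interior (convexHull ℝ {w : ℂ | w ^ N = 1})

lemma Om.norm {N : ℕ} {ω : ℂ} (h : Om N ω) : ‖ω‖ = 1 := by
  have hN : N ≠ 0 := by rcases h.eqn with ⟨rfl, _⟩ | ⟨rfl, _⟩ <;> norm_num
  have : ‖ω‖ ^ N = 1 := by rw [← norm_pow, h.pow, norm_one]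
  exact (pow_eq_one_iff_of_nonneg (norm_nonneg _) hN).1 this

lemma Om.conj_mul {N : ℕ} {ω : ℂ} (h : Om N ω) : conj ω * ω = 1 := by
  rw [mul_comm, Complex.mul_conj, Complex.normSq_eq_norm_sq, h.norm]; simp

lemma Om.ne {N : ℕ} {ω : ℂ} (h : Om N ω) : ω ≠ 0 := by
  rintro rfl
  have := h.pos
  simp at this

lemma Om.hN {N : ℕ} {ω : ℂ} (h : Om N ω) : N = 3 ∨ N = 4 := by
  rcases h.eqn with ⟨h, _⟩ | ⟨h, _⟩
  · exact Or.inl h
  · exact Or.inr h

lemma G_open (N : ℕ) : IsOpen (G N) := isOpen_interior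

lemma hull_sub_ball {N : ℕ} (hN : N ≠ 0) : convexHull ℝ {w : ℂ | w ^ N = 1} ⊆ Metric.closedBall 0 1 := by
  apply convexHull_min _ (convex_closedBall _ _)
  intro w hw
  rw [mem_closedBall_zero_iff]
  have : ‖w‖ ^ N = 1 := by
    rw [← norm_pow]
    have : w ^ N = 1 := hw
    rw [this, norm_one]
  exact ((pow_eq_one_iff_of_nonneg (norm_nonneg _) hN).1 this).le

lemma G_sub_ball {N : ℕ} (hN : N ≠ 0) : G N ⊆ Metric.closedBall 0 1 :=
  interior_subset.trans (hull_sub_ball hN)

lemma integrableOn_G {N : ℕ} (hN : N ≠ 0) {f : ℂ → ℂ} (hf : Continuous f) :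
    IntegrableOn f (G N) :=
  (hf.continuousOn.integrableOn_compact (isCompact_closedBall 0 1)).mono_set (G_sub_ball hN)

/-- rotation by `u`, `|u| = 1` -/
noncomputable def rot (u : ℂ) (hu : ‖u‖ = 1) : ℂ ≃ₗᵢ[ℝ] ℂ :=
  rotation ⟨u, mem_sphere_zero_iff_norm.2 hu⟩

lemma rot_apply (u : ℂ) (hu : ‖u‖ = 1) (z : ℂ) : rot u hu z = u * z := rfl

lemma rot_image_hull {N : ℕ} {u : ℂ} (hu : ‖u‖ = 1) (huN : u ^ N = 1) :
    rot u hu '' (convexHull ℝ {w : ℂ | w ^ N = 1}) = convexHull ℝ {w : ℂ | w ^ N = 1} := by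
  have h1 : rot u hu '' {w : ℂ | w ^ N = 1} = {w : ℂ | w ^ N = 1} := by
    ext w
    constructor
    · rintro ⟨v, hv, rfl⟩
      change (rot u hu v) ^ N = 1
      have hv' : v ^ N = 1 := hv
      rw [rot_apply, mul_pow, huN, hv', one_mul]
    · intro hw
      have hw' : w ^ N = 1 := hw
      have hu0 : u ≠ 0 := by rintro rfl; simp at hu
      refine ⟨u⁻¹ * w, ?_, ?_⟩
      · change (u⁻¹ * w) ^ N = 1
        rw [mul_pow, inv_pow, huN, hw']; simp
      · rw [rot_apply, mul_inv_cancel_left₀ hu0]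
  have h2 := (rot u hu).toLinearEquiv.toLinearMap.image_convexHull {w : ℂ | w ^ N = 1}
  change rot u hu '' _ = convexHull ℝ (rot u hu '' _) at h2
  rw [h2, h1]

lemma rot_image_G {N : ℕ} {u : ℂ} (hu : ‖u‖ = 1) (huN : u ^ N = 1) :
    rot u hu '' (G N) = G N := by
  unfold G
  have := (rot u hu).toHomeomorph.image_interior (convexHull ℝ {w : ℂ | w ^ N = 1})
  change rot u hu '' _ = interior (rot u hu '' _) at this
  rw [this, rot_image_hull hu huN]

lemma rot_preimage_G {N : ℕ} {u : ℂ} (hu : ‖u‖ = 1) (huN : u ^ N = 1) :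
    rot u hu ⁻¹' (G N) = G N := by
  conv_lhs => rw [← rot_image_G hu huN]
  exact Set.preimage_image_eq _ (rot u hu).injective

lemma integral_rot {N : ℕ} {u : ℂ} (hu : ‖u‖ = 1) (huN : u ^ N = 1) (f : ℂ → ℂ) :
    ∫ z in G N, f (u * z) = ∫ z in G N, f z := by
  have h1 := (rot u hu).measurePreserving.setIntegral_preimage_emb
    (rot u hu).toHomeomorph.measurableEmbedding f (G N)
  rw [rot_preimage_G hu huN] at h1
  exact h1

/-- the coordinates -/
lemma mem_hull {N : ℕ} {ω : ℂ} (h : Om N ω) {x y : ℝ} (hx : 0 ≤ x) (hy : 0 ≤ y) (hxy : x + y ≤ 1) :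
    (x : ℂ) + ω * y ∈ convexHull ℝ {w : ℂ | w ^ N = 1} := by
  have hN0 : N ≠ 0 := by rcases h.hN with rfl | rfl <;> norm_num
  have hc := convex_convexHull ℝ {w : ℂ | w ^ N = 1}
  have h1 : (1 : ℂ) ∈ convexHull ℝ {w : ℂ | w ^ N = 1} := subset_convexHull ℝ _ (one_pow N)
  have hω : ω ∈ convexHull ℝ {w : ℂ | w ^ N = 1} := subset_convexHull ℝ _ h.pow
  have hω2 : ω ^ 2 ∈ convexHull ℝ {w : ℂ | w ^ N = 1} := subset_convexHull ℝ _ (by
    change (ω ^ 2) ^ N = 1
    rw [← pow_mul, mul_comm, pow_mul, h.pow, one_pow])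
  have h0 : (0 : ℂ) ∈ convexHull ℝ {w : ℂ | w ^ N = 1} := by
    rcases h.eqn with ⟨_, he⟩ | ⟨_, he⟩
    · have h12 : ((1 / 2 : ℝ)) • (1 : ℂ) + ((1 / 2 : ℝ)) • ω ∈ convexHull ℝ {w : ℂ | w ^ N = 1} :=
        hc h1 hω (by norm_num) (by norm_num) (by norm_num)
      have := hc h12 hω2 (show (0 : ℝ) ≤ 2 / 3 by norm_num) (show (0 : ℝ) ≤ 1 / 3 by norm_num)
        (by norm_num)
      convert this using 1
      simp only [Complex.real_smul]
      push_cast
      linear_combination (-1 / 3 : ℂ) * he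
    · have := hc h1 hω2 (show (0 : ℝ) ≤ 1 / 2 by norm_num) (show (0 : ℝ) ≤ 1 / 2 by norm_num)
        (by norm_num)
      convert this using 1
      simp only [Complex.real_smul]
      push_cast
      linear_combination (-1 / 2 : ℂ) * he
  -- combine
  rcases (add_nonneg hx hy).eq_or_lt with h2 | h2
  · have hx0 : x = 0 := by linarith
    have hy0 : y = 0 := by linarith
    rw [hx0, hy0]; simpa using h0
  · have h3 : (x / (x + y)) • (1 : ℂ) + (y / (x + y)) • ω ∈ convexHull ℝ {w : ℂ | w ^ N = 1} :=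
      hc h1 hω (by positivity) (by positivity) (by field_simp)
    have h4 := hc h0 h3 (sub_nonneg.2 hxy) h2.le (by ring)
    convert h4 using 1
    simp only [Complex.real_smul]
    have : ((x : ℂ) + y) ≠ 0 := by exact_mod_cast h2.ne'
    push_cast
    field_simp
    ring

/-- all roots of unity are powers of `ω` -/
lemma roots_eq {N : ℕ} {ω : ℂ} (h : Om N ω) {w : ℂ} (hw : w ^ N = 1) :
    (N = 3 ∧ (w = 1 ∨ w = ω ∨ w = -1 - ω)) ∨ (N = 4 ∧ (w = 1 ∨ w = ω ∨ w = -1 ∨ w = -ω)) := by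
  rcases h.eqn with ⟨rfl, he⟩ | ⟨rfl, he⟩
  · left
    refine ⟨rfl, ?_⟩
    have : (w - 1) * ((w - ω) * (w - (-1 - ω))) = 0 := by
      linear_combination hw + (w - 1) * (-1 : ℂ) * he
    rcases mul_eq_zero.1 this with h | h
    · left; linear_combination h
    · rcases mul_eq_zero.1 h with h | h
      · right; left; linear_combination h
      · right; right; linear_combination h
  · right
    refine ⟨rfl, ?_⟩
    have : (w - 1) * ((w - ω) * ((w + 1) * (w + ω))) = 0 := by
      linear_combination hw + (w ^ 2 - 1) * (-1 : ℂ) * he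
    rcases mul_eq_zero.1 this with h | h
    · left; linear_combination h
    · rcases mul_eq_zero.1 h with h | h
      · right; left; linear_combination h
      · rcases mul_eq_zero.1 h with h | h
        · right; right; left; linear_combination h
        · right; right; right; linear_combination h

/-- the half plane `x + y ≤ 1` in the coordinates `z = x + ω y` -/
lemma hull_half {N : ℕ} {ω : ℂ} (h : Om N ω) :
    convexHull ℝ {w : ℂ | w ^ N = 1} ⊆
      {z : ℂ | (z.re - ω.re * (z.im / ω.im)) + z.im / ω.im ≤ 1} := by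
  have hp := h.pos
  apply convexHull_min
  · intro w hw
    change (w.re - ω.re * (w.im / ω.im)) + w.im / ω.im ≤ 1
    rcases roots_eq h hw with ⟨_, rfl | rfl | rfl⟩ | ⟨_, rfl | rfl | rfl | rfl⟩
    · simp
    · rw [div_self hp.ne']; linarith
    · simp only [Complex.sub_re, Complex.neg_re, Complex.one_re, Complex.sub_im, Complex.neg_im,
        Complex.one_im]
      have : (-0 - ω.im) / ω.im = -1 := by rw [neg_zero, zero_sub, neg_div, div_self hp.ne']
      rw [this]; linarith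
    · simp
    · rw [div_self hp.ne']; linarith
    · simp only [Complex.neg_re, Complex.one_re, Complex.neg_im, Complex.one_im]
      simp
    · simp only [Complex.neg_re, Complex.neg_im]
      have : -ω.im / ω.im = -1 := by rw [neg_div, div_self hp.ne']
      rw [this]; linarith
  · intro z hz w hw a b ha hb hab
    have hz' : (z.re - ω.re * (z.im / ω.im)) + z.im / ω.im ≤ 1 := hz
    have hw' : (w.re - ω.re * (w.im / ω.im)) + w.im / ω.im ≤ 1 := hw
    change ((a • z + b • w).re - ω.re * ((a • z + b • w).im / ω.im)) +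
      (a • z + b • w).im / ω.im ≤ 1
    have e : ((a • z + b • w).re - ω.re * ((a • z + b • w).im / ω.im)) +
      (a • z + b • w).im / ω.im =
      a * ((z.re - ω.re * (z.im / ω.im)) + z.im / ω.im) +
      b * ((w.re - ω.re * (w.im / ω.im)) + w.im / ω.im) := by
      simp only [Complex.add_re, Complex.add_im, Complex.real_smul, Complex.re_ofReal_mul,
        Complex.im_ofReal_mul]
      ring
    rw [e]
    have := mul_le_mul_of_nonneg_left hz' ha
    have := mul_le_mul_of_nonneg_left hw' hb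
    linarith

end Pool.Agent.R263.Ber
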