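import Pool.Agent.R263.BerE

set_option autoImplicit false

/-!
Decomposition of the polygon into sectors.
-/

open Polynomial MeasureTheory ComplexConjugate

namespace Pool.Agent.R263.Ber

/-- the open sector between `1` and `ω` -/
def sec (ω : ℂ) : Set ℂ := {z | 0 < z.im ∧ (z * conj ω).im < 0}

/-- the simplex -/
def Dl : Set (ℝ × ℝ) := {p | 0 < p.1 ∧ 0 < p.2 ∧ p.1 + p.2 < 1}

/-- the simplex in the complex plane -/
def Sl : Set ℂ := {z | 0 < z.re ∧ 0 < z.im ∧ z.re + z.im < 1}

lemma sec_open (ω : ℂ) : IsOpen (sec ω) :=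
  (isOpen_lt continuous_const Complex.continuous_im).inter
    (isOpen_lt (Complex.continuous_im.comp (continuous_id.mul continuous_const)) continuous_const)

lemma Sl_open : IsOpen Sl :=
  (isOpen_lt continuous_const Complex.continuous_re).inter
    ((isOpen_lt continuous_const Complex.continuous_im).inter
      (isOpen_lt (Complex.continuous_re.add Complex.continuous_im) continuous_const))

/-- the linear map `x + i y ↦ x + ω y` -/
noncomputable def Bm (ω : ℂ) : ℂ →L[ℝ] ℂ :=
  (Complex.ofRealCLM.comp Complex.reCLM) +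
    (ContinuousLinearMap.mul ℝ ℂ ω).comp (Complex.ofRealCLM.comp Complex.imCLM)

lemma Bm_apply (ω z : ℂ) : Bm ω z = (z.re : ℂ) + ω * z.im := rfl

lemma Bm_im (ω z : ℂ) : (Bm ω z).im = ω.im * z.im := by
  rw [Bm_apply]; simp

lemma Bm_re (ω z : ℂ) : (Bm ω z).re = z.re + ω.re * z.im := by
  rw [Bm_apply]; simp

lemma Bm_inj {N : ℕ} {ω : ℂ} (h : Om N ω) : Function.Injective (Bm ω) := by
  intro z w hzw
  have h1 : (Bm ω z).im = (Bm ω w).im := by rw [hzw]
  have h2 : (Bm ω z).re = (Bm ω w).re := by rw [hzw]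
  rw [Bm_im, Bm_im] at h1
  rw [Bm_re, Bm_re] at h2
  have h3 : z.im = w.im := mul_left_cancel₀ h.pos.ne' h1
  rw [h3] at h2
  exact Complex.ext (by linarith) h3

lemma Bm_det {N : ℕ} {ω : ℂ} (h : Om N ω) : (Bm ω).det ≠ 0 := by
  intro h0
  have h1 := LinearMap.bot_lt_ker_of_det_eq_zero (f := (Bm ω : ℂ →ₗ[ℝ] ℂ)) h0
  have h2 : LinearMap.ker (Bm ω : ℂ →ₗ[ℝ] ℂ) = ⊥ := by
    rw [LinearMap.ker_eq_bot]
    exact Bm_inj h
  rw [h2] at h1
  exact lt_irrefl _ h1

lemma image_Sl {N : ℕ} {ω : ℂ} (h : Om N ω) : Bm ω '' Sl = G N ∩ sec ω := by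
  have hp := h.pos
  ext z
  constructor
  · rintro ⟨w, ⟨hw1, hw2, hw3⟩, rfl⟩
    refine ⟨?_, ?_, ?_⟩
    · -- interior
      have hopen : IsOpen {z : ℂ | 0 < z.im / ω.im ∧ 0 < z.re - ω.re * (z.im / ω.im) ∧
          (z.re - ω.re * (z.im / ω.im)) + z.im / ω.im < 1} := by
        have c1 : Continuous fun z : ℂ => z.im / ω.im := Complex.continuous_im.div_const _
        have c2 : Continuous fun z : ℂ => z.re - ω.re * (z.im / ω.im) :=
          Complex.continuous_re.sub (continuous_const.mul c1)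
        exact (isOpen_lt continuous_const c1).inter ((isOpen_lt continuous_const c2).inter
          (isOpen_lt (c2.add c1) continuous_const))
      have hsub : {z : ℂ | 0 < z.im / ω.im ∧ 0 < z.re - ω.re * (z.im / ω.im) ∧
          (z.re - ω.re * (z.im / ω.im)) + z.im / ω.im < 1} ⊆
          convexHull ℝ {w : ℂ | w ^ N = 1} := by
        rintro z ⟨h1, h2, h3⟩
        have := mem_hull h h2.le h1.le h3.le
        convert this using 1
        apply Complex.ext
        · simp
        · simp only [Complex.add_im, Complex.ofReal_im, Complex.mul_im, Complex.ofReal_re]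
          field_simp
          ring
      apply interior_maximal hsub hopen
      change 0 < (Bm ω w).im / ω.im ∧ 0 < (Bm ω w).re - ω.re * ((Bm ω w).im / ω.im) ∧
          ((Bm ω w).re - ω.re * ((Bm ω w).im / ω.im)) + (Bm ω w).im / ω.im < 1
      rw [Bm_im, Bm_re, mul_div_cancel_left₀ _ hp.ne']
      refine ⟨hw2, by linarith, by linarith⟩
    · rw [Bm_im]; positivity
    · rw [Complex.mul_im, Complex.conj_re, Complex.conj_im, Bm_re, Bm_im]
      nlinarith [mul_pos hp hw1]
  · rintro ⟨hz, hz1, hz2⟩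
    have hy : 0 < z.im / ω.im := by positivity
    have hx : 0 < z.re - ω.re * (z.im / ω.im) := by
      rw [Complex.mul_im, Complex.conj_re, Complex.conj_im] at hz2
      have h2 : 0 < ω.im * (z.re - ω.re * (z.im / ω.im)) := by
        have : ω.im * (z.re - ω.re * (z.im / ω.im)) = ω.im * z.re - ω.re * z.im := by
          field_simp
        rw [this]; linarith
      exact (mul_pos_iff_of_pos_left hp).1 h2
    have hlt : (z.re - ω.re * (z.im / ω.im)) + z.im / ω.im < 1 := by
      obtain ⟨r, hr, hball⟩ := Metric.isOpen_iff.1 (G_open N) z hz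
      set t : ℝ := r / (2 * (‖z‖ + 1)) with ht
      have hz0 : 0 < ‖z‖ + 1 := by positivity
      have ht0 : 0 < t := by positivity
      have hmem : ((1 + t : ℝ) : ℂ) * z ∈ G N := by
        apply hball
        rw [mem_ball_iff_norm]
        have : ((1 + t : ℝ) : ℂ) * z - z = (t : ℂ) * z := by push_cast; ring
        rw [this, norm_mul, Complex.norm_real, Real.norm_of_nonneg ht0.le]
        have : t * ‖z‖ ≤ t * (‖z‖ + 1) := by nlinarith
        have h3 : t * (‖z‖ + 1) = r / 2 := by rw [ht]; field_simp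
        linarith
      have h4 := hull_half h (interior_subset hmem)
      change ((((1 + t : ℝ) : ℂ) * z).re - ω.re * ((((1 + t : ℝ) : ℂ) * z).im / ω.im)) +
        (((1 + t : ℝ) : ℂ) * z).im / ω.im ≤ 1 at h4
      rw [Complex.re_ofReal_mul, Complex.im_ofReal_mul] at h4
      have e : ((1 + t) * z.re - ω.re * ((1 + t) * z.im / ω.im)) + (1 + t) * z.im / ω.im =
        (1 + t) * ((z.re - ω.re * (z.im / ω.im)) + z.im / ω.im) := by ring
      rw [e] at h4
      have hpos : 0 < (z.re - ω.re * (z.im / ω.im)) + z.im / ω.im := by linarith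
      nlinarith
    refine ⟨⟨z.re - ω.re * (z.im / ω.im), z.im / ω.im⟩, ⟨hx, hy, hlt⟩, ?_⟩
    apply Complex.ext
    · rw [Bm_re]; ring
    · rw [Bm_im]; field_simp

lemma comb3 (a b : ℝ) (ha : a ≠ 0) (hb : b ≠ 0) (hab : -a - b ≠ 0) :
    (((if 0 < a ∧ -a - b < 0 then (1 : ℂ) else 0) + (if 0 < b ∧ a < 0 then 1 else 0)) +
      (if 0 < -a - b ∧ b < 0 then 1 else 0)) = 1 := by
  rcases lt_or_gt_of_ne ha with a0 | a0 <;> rcases lt_or_gt_of_ne hb with a1 | a1 <;>
    rcases lt_or_gt_of_ne hab with a2 | a2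
  · exfalso; linarith
  · rw [if_neg (fun h => absurd h.1 a0.not_gt), if_neg (fun h => absurd h.1 a1.not_gt),
      if_pos ⟨a2, a1⟩]; norm_num
  · rw [if_neg (fun h => absurd h.1 a0.not_gt), if_pos ⟨a1, a0⟩,
      if_neg (fun h => absurd h.1 a2.not_gt)]; norm_num
  · rw [if_neg (fun h => absurd h.1 a0.not_gt), if_pos ⟨a1, a0⟩,
      if_neg (fun h => absurd h.2 a1.not_gt)]; norm_num
  · rw [if_pos ⟨a0, a2⟩, if_neg (fun h => absurd h.1 a1.not_gt),
      if_neg (fun h => absurd h.1 a2.not_gt)]; norm_num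
  · rw [if_neg (fun h => absurd h.2 a2.not_gt), if_neg (fun h => absurd h.1 a1.not_gt),
      if_pos ⟨a2, a1⟩]; norm_num
  · rw [if_pos ⟨a0, a2⟩, if_neg (fun h => absurd h.2 a0.not_gt),
      if_neg (fun h => absurd h.1 a2.not_gt)]; norm_num
  · exfalso; linarith

lemma comb4 (a b : ℝ) (ha : a ≠ 0) (hb : b ≠ 0) :
    ((((if 0 < a ∧ -b < 0 then (1 : ℂ) else 0) + (if 0 < b ∧ a < 0 then 1 else 0)) +
      (if 0 < -a ∧ b < 0 then 1 else 0)) + (if 0 < -b ∧ -a < 0 then 1 else 0)) = 1 := by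
  rcases lt_or_gt_of_ne ha with a0 | a0 <;> rcases lt_or_gt_of_ne hb with a1 | a1
  · rw [if_neg (fun h => absurd h.1 a0.not_gt), if_neg (fun h => absurd h.1 a1.not_gt),
      if_pos ⟨by linarith, a1⟩, if_neg (fun h => by linarith [h.2])]; norm_num
  · rw [if_neg (fun h => absurd h.1 a0.not_gt), if_pos ⟨a1, a0⟩,
      if_neg (fun h => absurd h.2 a1.not_gt), if_neg (fun h => by linarith [h.2])]; norm_num
  · rw [if_neg (fun h => by linarith [h.2]), if_neg (fun h => absurd h.1 a1.not_gt),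
      if_neg (fun h => by linarith [h.1]), if_pos ⟨by linarith, by linarith⟩]; norm_num
  · rw [if_pos ⟨a0, by linarith⟩, if_neg (fun h => absurd h.2 a0.not_gt),
      if_neg (fun h => absurd h.2 a1.not_gt), if_neg (fun h => by linarith [h.1])]; norm_num

/-- the sectors cover almost everything exactly once -/
lemma cover {N : ℕ} {ω : ℂ} (h : Om N ω) (z : ℂ) (hz : ∀ l, (ω ^ l * z).im ≠ 0) :
    ∑ l ∈ Finset.range N, (sec ω).indicator (fun _ => (1 : ℂ)) (ω ^ l * z) = 1 := by
  classical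
  have hc := h.conj_mul
  have h0 := hz 0
  have h1 := hz 1
  have h2 := hz 2
  rw [pow_zero, one_mul] at h0
  rw [pow_one] at h1
  have hmem : ∀ l w, w = ω ^ l * z → (w ∈ sec ω ↔ 0 < (ω ^ l * z).im ∧ (w * conj ω).im < 0) := by
    intro l w hw
    unfold sec
    subst hw
    rfl
  rcases h.eqn with ⟨rfl, he⟩ | ⟨rfl, he⟩
  · have e2 : ω ^ 2 * z = -z - ω * z := by linear_combination z * he
    have i2 : (ω ^ 2 * z).im = - z.im - (ω * z).im := by rw [e2]; simp
    have c : conj ω = ω ^ 2 := by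
      have h3 : ω ^ 3 = 1 := h.pow
      linear_combination (ω ^ 2) * hc - conj ω * h3
    have m0 : (ω ^ 0 * z) ∈ sec ω ↔ 0 < z.im ∧ (ω ^ 2 * z).im < 0 := by
      unfold sec
      rw [pow_zero, one_mul]
      change _ ∧ (z * conj ω).im < 0 ↔ _
      rw [c, mul_comm z]
    have m1 : (ω ^ 1 * z) ∈ sec ω ↔ 0 < (ω * z).im ∧ z.im < 0 := by
      unfold sec
      rw [pow_one]
      change _ ∧ (ω * z * conj ω).im < 0 ↔ _
      have : ω * z * conj ω = z := by linear_combination z * hc
      rw [this]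
    have m2 : (ω ^ 2 * z) ∈ sec ω ↔ 0 < (ω ^ 2 * z).im ∧ (ω * z).im < 0 := by
      unfold sec
      change _ ∧ (ω ^ 2 * z * conj ω).im < 0 ↔ _
      have : ω ^ 2 * z * conj ω = ω * z := by linear_combination ω * z * hc
      rw [this]
    rw [Finset.sum_range_succ, Finset.sum_range_succ, Finset.sum_range_one]
    simp only [Set.indicator_apply, m0, m1, m2]
    rw [i2] at h2 ⊢
    exact comb3 _ _ h0 h1 h2
  · have i2 : (ω ^ 2 * z).im = - z.im := by rw [he]; simp
    have i3 : (ω ^ 3 * z).im = - (ω * z).im := by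
      have : ω ^ 3 * z = - (ω * z) := by linear_combination ω * z * he
      rw [this]; simp
    have c : conj ω = ω ^ 3 := by
      have h3 : ω ^ 4 = 1 := h.pow
      linear_combination (ω ^ 3) * hc - conj ω * h3
    have m0 : (ω ^ 0 * z) ∈ sec ω ↔ 0 < z.im ∧ (ω ^ 3 * z).im < 0 := by
      unfold sec
      rw [pow_zero, one_mul]
      change _ ∧ (z * conj ω).im < 0 ↔ _
      rw [c, mul_comm z]
    have m1 : (ω ^ 1 * z) ∈ sec ω ↔ 0 < (ω * z).im ∧ z.im < 0 := by
      unfold sec
      rw [pow_one]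
      change _ ∧ (ω * z * conj ω).im < 0 ↔ _
      have : ω * z * conj ω = z := by linear_combination z * hc
      rw [this]
    have m2 : (ω ^ 2 * z) ∈ sec ω ↔ 0 < (ω ^ 2 * z).im ∧ (ω * z).im < 0 := by
      unfold sec
      change _ ∧ (ω ^ 2 * z * conj ω).im < 0 ↔ _
      have : ω ^ 2 * z * conj ω = ω * z := by linear_combination ω * z * hc
      rw [this]
    have m3 : (ω ^ 3 * z) ∈ sec ω ↔ 0 < (ω ^ 3 * z).im ∧ (ω ^ 2 * z).im < 0 := by
      unfold sec
      change _ ∧ (ω ^ 3 * z * conj ω).im < 0 ↔ _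
      have : ω ^ 3 * z * conj ω = ω ^ 2 * z := by linear_combination ω ^ 2 * z * hc
      rw [this]
    rw [Finset.sum_range_succ, Finset.sum_range_succ, Finset.sum_range_succ, Finset.sum_range_one]
    simp only [Set.indicator_apply, m0, m1, m2, m3, i2, i3]
    exact comb4 _ _ h0 h1

lemma ae_im_ne {N : ℕ} {ω : ℂ} (h : Om N ω) : ∀ᵐ z : ℂ, ∀ l : ℕ, (ω ^ l * z).im ≠ 0 := by
  rw [ae_all_iff]
  intro l
  set K : Submodule ℝ ℂ := LinearMap.ker (Complex.imLm.comp (LinearMap.mulLeft ℝ (ω ^ l))) with hK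
  have hmem : ∀ z, z ∈ K ↔ (ω ^ l * z).im = 0 := by
    intro z
    rw [hK, LinearMap.mem_ker]
    rfl
  have hKt : K ≠ ⊤ := by
    intro ht
    have h1 : (ω ^ l)⁻¹ * Complex.I ∈ K := by rw [ht]; trivial
    rw [hmem, mul_inv_cancel_left₀ (pow_ne_zero _ h.ne)] at h1
    simp at h1
  have h0 := Measure.addHaar_submodule (volume : Measure ℂ) K hKt
  rw [ae_iff]
  convert h0 using 2
  ext z
  simp only [ne_eq, not_not]
  exact (hmem z).symm

/-- the integral over the polygon of a rotation invariant function -/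
lemma integral_G_eq {N : ℕ} {ω : ℂ} (h : Om N ω) {f : ℂ → ℂ} (hf : Continuous f)
    (hrot : ∀ z, f (ω * z) = f z) :
    ∫ z in G N, f z = N * ∫ z in G N ∩ sec ω, f z := by
  have hN0 : N ≠ 0 := by rcases h.hN with rfl | rfl <;> norm_num
  have hrotl : ∀ l z, f (ω ^ l * z) = f z := by
    intro l
    induction l with
    | zero => intro z; simp
    | succ l ih => intro z; rw [pow_succ, mul_assoc, ih, hrot]
  have hnl : ∀ l, ‖ω ^ l‖ = 1 := fun l => by rw [norm_pow, h.norm, one_pow]
  have hNl : ∀ l, (ω ^ l) ^ N = 1 := fun l => by rw [← pow_mul, mul_comm, pow_mul, h.pow, one_pow]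
  have h1 : ∫ z in G N, f z =
      ∫ z in G N, ∑ l ∈ Finset.range N, (sec ω).indicator f (ω ^ l * z) := by
    apply integral_congr_ae
    filter_upwards [ae_restrict_of_ae (ae_im_ne h)] with z hz
    have h2 := cover h z hz
    calc f z = 1 * f z := (one_mul _).symm
      _ = (∑ l ∈ Finset.range N, (sec ω).indicator (fun _ => (1 : ℂ)) (ω ^ l * z)) * f z := by
          rw [h2]
      _ = _ := by
          rw [Finset.sum_mul]
          apply Finset.sum_congr rfl
          intro l _
          by_cases hl : ω ^ l * z ∈ sec ω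
          · rw [Set.indicator_of_mem hl, Set.indicator_of_mem hl, hrotl, one_mul]
          · rw [Set.indicator_of_notMem hl, Set.indicator_of_notMem hl, zero_mul]
  have hint : ∀ l, IntegrableOn (fun z => (sec ω).indicator f (ω ^ l * z)) (G N) := by
    intro l
    have e : (fun z => (sec ω).indicator f (ω ^ l * z)) =
        ((fun z => ω ^ l * z) ⁻¹' sec ω).indicator f := by
      ext z
      by_cases hl : ω ^ l * z ∈ sec ω
      · rw [Set.indicator_of_mem hl, Set.indicator_of_mem (by exact hl), hrotl]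
      · rw [Set.indicator_of_notMem hl, Set.indicator_of_notMem (by exact hl)]
    rw [e]
    apply (integrableOn_G hN0 hf).indicator
    exact ((sec_open ω).preimage (continuous_const.mul continuous_id)).measurableSet
  rw [h1, integral_finsetSum _ (fun l _ => hint l)]
  have h3 : ∀ l ∈ Finset.range N, ∫ z in G N, (sec ω).indicator f (ω ^ l * z) =
      ∫ z in G N ∩ sec ω, f z := by
    intro l _
    rw [integral_rot (hnl l) (hNl l) ((sec ω).indicator f),
      setIntegral_indicator (sec_open ω).measurableSet]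
  rw [Finset.sum_congr rfl h3, Finset.sum_const, Finset.card_range, nsmul_eq_mul]

/-- reduction to the simplex -/
lemma integral_Dl_zero {N : ℕ} {ω : ℂ} (h : Om N ω) {f : ℂ → ℂ} (hf : Continuous f)
    (hrot : ∀ z, f (ω * z) = f z) (h0 : ∫ z in G N, f z = 0) :
    ∫ p in Dl, f ((p.1 : ℂ) + ω * p.2) = 0 := by
  have hN0 : (N : ℂ) ≠ 0 := by rcases h.hN with rfl | rfl <;> norm_num
  rw [integral_G_eq h hf hrot] at h0
  have h1 : ∫ z in G N ∩ sec ω, f z = 0 := (mul_eq_zero.1 h0).resolve_left hN0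
  rw [← image_Sl h] at h1
  rw [integral_image_eq_integral_abs_det_fderiv_smul volume Sl_open.measurableSet
    (fun x _ => (Bm ω).hasFDerivWithinAt) (Bm_inj h).injOn] at h1
  rw [integral_smul] at h1
  have h2 : ∫ z in Sl, f (Bm ω z) = 0 :=
    (smul_eq_zero.1 h1).resolve_left (abs_ne_zero.2 (Bm_det h))
  have h3 := Complex.volume_preserving_equiv_real_prod.setIntegral_preimage_emb
    Complex.measurableEquivRealProd.measurableEmbedding
    (fun p : ℝ × ℝ => f ((p.1 : ℂ) + ω * p.2)) Dl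
  rw [← h3]
  exact h2

end Pool.Agent.R263.Ber
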