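import Pool.Agent.R263.BerF

set_option autoImplicit false

/-!
Green's formula on the simplex and reduction to one variable.
-/

open Polynomial MeasureTheory ComplexConjugate

namespace Pool.Agent.R263.Ber

lemma Dl_meas : MeasurableSet Dl := by
  apply IsOpen.measurableSet
  exact (isOpen_lt continuous_const continuous_fst).inter
    ((isOpen_lt continuous_const continuous_snd).inter
      (isOpen_lt (continuous_fst.add continuous_snd) continuous_const))

lemma integrableOn_Dl {f : ℝ × ℝ → ℂ} (hf : Continuous f) : IntegrableOn f Dl := by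
  have h1 : IntegrableOn f (Set.Icc (0 : ℝ) 1 ×ˢ Set.Icc (0 : ℝ) 1) :=
    hf.continuousOn.integrableOn_compact (isCompact_Icc.prod isCompact_Icc)
  apply h1.mono_set
  rintro ⟨x, y⟩ ⟨h1, h2, h3⟩
  simp only at h1 h2 h3
  exact ⟨⟨h1.le, by simp only; linarith⟩, ⟨h2.le, by simp only; linarith⟩⟩

lemma simplex_xy {f : ℝ × ℝ → ℂ} (hf : Continuous f) :
    ∫ p in Dl, f p = ∫ x in (0 : ℝ)..1, ∫ y in (0 : ℝ)..(1 - x), f (x, y) := by
  have hint : Integrable (Dl.indicator f) ((volume : Measure ℝ).prod volume) := by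
    rw [← Measure.volume_eq_prod]
    exact (integrable_indicator_iff Dl_meas).2 (integrableOn_Dl hf)
  rw [← integral_indicator Dl_meas, Measure.volume_eq_prod, integral_prod _ hint,
    intervalIntegral.integral_of_le zero_le_one, integral_Ioc_eq_integral_Ioo,
    ← integral_indicator measurableSet_Ioo]
  apply integral_congr_ae
  filter_upwards with x
  by_cases hx : x ∈ Set.Ioo (0 : ℝ) 1
  · rw [Set.indicator_of_mem hx, intervalIntegral.integral_of_le (by linarith [hx.2]),
      integral_Ioc_eq_integral_Ioo, ← integral_indicator measurableSet_Ioo]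
    apply integral_congr_ae
    filter_upwards with y
    by_cases hy : y ∈ Set.Ioo (0 : ℝ) (1 - x)
    · rw [Set.indicator_of_mem hy, Set.indicator_of_mem]
      exact ⟨hx.1, hy.1, by simp only; linarith [hy.2]⟩
    · rw [Set.indicator_of_notMem hy, Set.indicator_of_notMem]
      rintro ⟨_, h2, h3⟩
      simp only at h2 h3
      exact hy ⟨h2, by linarith⟩
  · rw [Set.indicator_of_notMem hx]
    have : ∀ y, Dl.indicator f (x, y) = 0 := by
      intro y
      rw [Set.indicator_of_notMem]
      rintro ⟨h1, h2, h3⟩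
      simp only at h1 h2 h3
      exact hx ⟨h1, by linarith⟩
    simp [this]

lemma simplex_yx {f : ℝ × ℝ → ℂ} (hf : Continuous f) :
    ∫ p in Dl, f p = ∫ y in (0 : ℝ)..1, ∫ x in (0 : ℝ)..(1 - y), f (x, y) := by
  have h1 := simplex_xy (f := fun p => f (p.2, p.1)) (by fun_prop)
  simp only at h1
  rw [← h1]
  have h2 : MeasurePreserving (Prod.swap : ℝ × ℝ → ℝ × ℝ) volume volume := by
    rw [Measure.volume_eq_prod]
    exact Measure.measurePreserving_swap
  have h3 := h2.setIntegral_preimage_emb
    (MeasurableEquiv.prodComm (α := ℝ) (β := ℝ)).measurableEmbedding f Dl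
  rw [← h3]
  have h4 : (Prod.swap : ℝ × ℝ → ℝ × ℝ) ⁻¹' Dl = Dl := by
    ext ⟨x, y⟩
    constructor
    · rintro ⟨a, b, c⟩
      exact ⟨b, a, by simp only [Prod.fst_swap, Prod.snd_swap] at c; simp only; linarith⟩
    · rintro ⟨a, b, c⟩
      exact ⟨b, a, by simp only [Prod.fst_swap, Prod.snd_swap]; simp only at c; linarith⟩
  rw [h4]
  rfl

lemma hasDerivAt_poly (P : ℂ[X]) {γ : ℝ → ℂ} {g' : ℂ} {x : ℝ} (hγ : HasDerivAt γ g' x) :
    HasDerivAt (fun x => P.eval (γ x)) (g' * (derivative P).eval (γ x)) x :=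
  (P.hasDerivAt (γ x)).scomp x hγ

lemma hasDerivAt_conj {γ : ℝ → ℂ} {g' : ℂ} {x : ℝ} (hγ : HasDerivAt γ g' x) :
    HasDerivAt (fun x => conj (γ x)) (conj g') x :=
  Complex.conjCLE.toContinuousLinearMap.hasFDerivAt.comp_hasDerivAt x hγ

lemma hasDerivAt_prod (P H : ℂ[X]) {γ : ℝ → ℂ} {g' : ℂ} {x : ℝ} (hγ : HasDerivAt γ g' x) :
    HasDerivAt (fun x => P.eval (γ x) * conj (H.eval (γ x)))
      (g' * (derivative P).eval (γ x) * conj (H.eval (γ x)) +
        P.eval (γ x) * conj (g' * (derivative H).eval (γ x))) x :=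
  (hasDerivAt_poly P hγ).mul (hasDerivAt_conj (hasDerivAt_poly H hγ))

lemma cont_poly (P : ℂ[X]) {X : Type*} [TopologicalSpace X] {γ : X → ℂ} (hγ : Continuous γ) :
    Continuous fun x => P.eval (γ x) := P.continuous.comp hγ

/-- Green's formula on the simplex -/
lemma green (ω : ℂ) (P H : ℂ[X]) :
    (ω - conj ω) * ∫ p in Dl, P.eval ((p.1 : ℂ) + ω * p.2) *
        conj ((derivative H).eval ((p.1 : ℂ) + ω * p.2)) =
      ω * (∫ y in (0 : ℝ)..1, (P.eval (((1 - y : ℝ) : ℂ) + ω * y) *
          conj (H.eval (((1 - y : ℝ) : ℂ) + ω * y)) -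
          P.eval (ω * y) * conj (H.eval (ω * y)))) -
      ∫ x in (0 : ℝ)..1, (P.eval ((x : ℂ) + ω * ((1 - x : ℝ) : ℂ)) *
          conj (H.eval ((x : ℂ) + ω * ((1 - x : ℝ) : ℂ))) -
          P.eval (x : ℂ) * conj (H.eval (x : ℂ))) := by
  set V : ℝ × ℝ → ℂ := fun p => (p.1 : ℂ) + ω * p.2 with hV
  have hVc : Continuous V := by rw [hV]; fun_prop
  have cj : Continuous (fun z : ℂ => conj z) := Complex.continuous_conj
  set f1 : ℝ × ℝ → ℂ := fun p => 1 * (derivative P).eval (V p) * conj (H.eval (V p)) +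
    P.eval (V p) * conj (1 * (derivative H).eval (V p)) with hf1
  set f2 : ℝ × ℝ → ℂ := fun p => ω * (derivative P).eval (V p) * conj (H.eval (V p)) +
    P.eval (V p) * conj (ω * (derivative H).eval (V p)) with hf2
  have c1 : Continuous f1 := by
    rw [hf1]
    exact ((continuous_const.mul (cont_poly _ hVc)).mul (cj.comp (cont_poly _ hVc))).add
      ((cont_poly _ hVc).mul (cj.comp (continuous_const.mul (cont_poly _ hVc))))
  have c2 : Continuous f2 := by
    rw [hf2]
    exact ((continuous_const.mul (cont_poly _ hVc)).mul (cj.comp (cont_poly _ hVc))).add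
      ((cont_poly _ hVc).mul (cj.comp (continuous_const.mul (cont_poly _ hVc))))
  have e : ∀ p, (ω - conj ω) * (P.eval (V p) * conj ((derivative H).eval (V p))) =
      ω * f1 p - f2 p := by
    intro p
    rw [hf1, hf2]
    simp only [map_mul, map_one]
    ring
  have e2 : (ω - conj ω) * ∫ p in Dl, P.eval (V p) * conj ((derivative H).eval (V p)) =
      ω * (∫ p in Dl, f1 p) - ∫ p in Dl, f2 p := by
    rw [← integral_const_mul, ← integral_const_mul, ← integral_sub]
    · exact integral_congr_ae (Filter.Eventually.of_forall e)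
    · exact (integrableOn_Dl c1).const_mul _
    · exact integrableOn_Dl c2
  change (ω - conj ω) * ∫ p in Dl, P.eval (V p) * conj ((derivative H).eval (V p)) = _
  rw [e2, simplex_yx c1, simplex_xy c2]
  congr 1
  · congr 1
    apply intervalIntegral.integral_congr
    intro y _
    simp only
    rw [intervalIntegral.integral_eq_sub_of_hasDerivAt
      (f := fun x => P.eval (V (x, y)) * conj (H.eval (V (x, y))))]
    · simp [hV]
    · intro x _
      have hd : HasDerivAt (fun x : ℝ => V (x, y)) 1 x := by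
        rw [hV]
        simp only
        exact (Complex.ofRealCLM.hasDerivAt (x := x)).add_const _
      exact hasDerivAt_prod P H hd
    · exact (c1.comp (Continuous.prodMk_left y)).intervalIntegrable _ _
  · apply intervalIntegral.integral_congr
    intro x _
    simp only
    rw [intervalIntegral.integral_eq_sub_of_hasDerivAt
      (f := fun y => P.eval (V (x, y)) * conj (H.eval (V (x, y))))]
    · simp [hV]
    · intro y _
      have hd : HasDerivAt (fun y : ℝ => V (x, y)) ω y := by
        rw [hV]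
        simp only
        have := ((Complex.ofRealCLM.hasDerivAt (x := y)).const_mul ω).const_add (x : ℂ)
        simpa using this
      exact hasDerivAt_prod P H hd
    · exact (c2.comp (Continuous.prodMk_right x)).intervalIntegrable _ _

lemma antider (Ψ : ℂ[X]) : ∃ Q : ℂ[X], derivative Q = Ψ := by
  induction Ψ using Polynomial.induction_on' with
  | add p q hp hq =>
    obtain ⟨P, rfl⟩ := hp
    obtain ⟨Q, rfl⟩ := hq
    exact ⟨P + Q, derivative_add⟩
  | monomial n a =>
    refine ⟨monomial (n + 1) (a / (n + 1)), ?_⟩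
    rw [derivative_monomial]
    have : ((n : ℂ) + 1) ≠ 0 := by exact_mod_cast Nat.succ_ne_zero n
    simp only [Nat.add_sub_cancel]
    congr 1
    push_cast
    field_simp

lemma line (Q : ℂ[X]) (a b : ℂ) :
    ∫ s in (0 : ℝ)..1, (b - a) * (derivative Q).eval (a + (b - a) * s) = Q.eval b - Q.eval a := by
  have := intervalIntegral.integral_eq_sub_of_hasDerivAt (a := (0 : ℝ)) (b := 1)
    (f := fun s : ℝ => Q.eval (a + (b - a) * s))
    (f' := fun s : ℝ => (b - a) * (derivative Q).eval (a + (b - a) * s)) (by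
      intro s _
      have hd : HasDerivAt (fun s : ℝ => a + (b - a) * (s : ℂ)) (b - a) s := by
        have := ((Complex.ofRealCLM.hasDerivAt (x := s)).const_mul (b - a)).const_add a
        simpa using this
      exact hasDerivAt_poly Q hd) (by
      apply Continuous.intervalIntegrable
      exact continuous_const.mul (cont_poly _ (by fun_prop)))
  rw [this]
  simp

/-- **Reduction of the area orthogonality to one variable.** -/
theorem to_line {N k : ℕ} {ω : ℂ} (h : Om N ω) (P H : ℂ[X])
    (hP : ∀ z, P.eval (ω * z) = ω ^ k * P.eval z)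
    (hH : ∀ z, H.eval (ω * z) = ω ^ (k + 1) * H.eval z)
    (hH' : ∀ z, (derivative H).eval (ω * z) = ω ^ k * (derivative H).eval z)
    (hreal : ∀ z, conj (H.eval z) = H.eval (conj z))
    (h0 : ∫ z in G N, P.eval z * conj ((derivative H).eval z) = 0) :
    ∫ s in (0 : ℝ)..1, P.eval (s : ℂ) * ((H.eval (1 + ω * ((1 - s : ℝ) : ℂ))).im : ℂ) = 0 := by
  have cj : Continuous (fun z : ℂ => conj z) := Complex.continuous_conj
  have hc := h.conj_mul
  have hck : ∀ m : ℕ, ω ^ m * conj (ω ^ m) = 1 := by
    intro m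
    rw [map_pow, ← mul_pow, mul_comm, hc, one_pow]
  -- the integral over the simplex vanishes
  have h1 := integral_Dl_zero h (f := fun z => P.eval z * conj ((derivative H).eval z))
    (P.continuous.mul (cj.comp (derivative H).continuous)) (by
      intro z
      rw [hP, hH', map_mul]
      linear_combination (P.eval z * conj ((derivative H).eval z)) * hck k) h0
  have h2 := green ω P H
  rw [h1, mul_zero] at h2
  -- the two radial sides cancel
  have hrad : ∀ y : ℝ, ω * (P.eval (ω * y) * conj (H.eval (ω * y))) =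
      P.eval (y : ℂ) * conj (H.eval (y : ℂ)) := by
    intro y
    rw [hP, hH, map_mul, pow_succ, map_mul]
    have e1 := hck k
    linear_combination (P.eval (y : ℂ) * conj (H.eval (y : ℂ)) * ω * conj ω) * e1 +
      (P.eval (y : ℂ) * conj (H.eval (y : ℂ))) * hc
  set Φ : ℝ → ℂ := fun y => P.eval (((1 - y : ℝ) : ℂ) + ω * y) *
    conj (H.eval (((1 - y : ℝ) : ℂ) + ω * y)) with hΦ
  have cΦ : Continuous Φ := by
    rw [hΦ]
    exact (cont_poly _ (by fun_prop)).mul (cj.comp (cont_poly _ (by fun_prop)))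
  have cR : Continuous fun y : ℝ => P.eval (y : ℂ) * conj (H.eval (y : ℂ)) :=
    (cont_poly _ (by fun_prop)).mul (cj.comp (cont_poly _ (by fun_prop)))
  have cR' : Continuous fun y : ℝ => P.eval (ω * y) * conj (H.eval (ω * y)) :=
    (cont_poly _ (by fun_prop)).mul (cj.comp (cont_poly _ (by fun_prop)))
  have hflip : ∫ x in (0 : ℝ)..1, P.eval ((x : ℂ) + ω * ((1 - x : ℝ) : ℂ)) *
      conj (H.eval ((x : ℂ) + ω * ((1 - x : ℝ) : ℂ))) = ∫ y in (0 : ℝ)..1, Φ y := by
    have := intervalIntegral.integral_comp_sub_left (a := (0 : ℝ)) (b := 1) Φ 1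
    simp only [sub_self, sub_zero] at this
    rw [← this]
    apply intervalIntegral.integral_congr
    intro x _
    simp only [hΦ]
    congr 2
    · push_cast; ring
    · push_cast; congr 1; ring
  have h3 : (ω - 1) * ∫ y in (0 : ℝ)..1, Φ y = 0 := by
    rw [intervalIntegral.integral_sub (cΦ.intervalIntegrable _ _) (cR'.intervalIntegrable _ _),
      intervalIntegral.integral_sub _ (cR.intervalIntegrable _ _), hflip, mul_sub,
      ← intervalIntegral.integral_const_mul ω fun y : ℝ => P.eval (ω * y) * conj (H.eval (ω * y))]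
      at h2
    · simp_rw [hrad] at h2
      linear_combination -h2
    · apply Continuous.intervalIntegrable
      exact (cont_poly _ (by fun_prop)).mul (cj.comp (cont_poly _ (by fun_prop)))
  -- the slanted side
  set Sc : ℂ[X] := C (1 + conj ω) - C (conj ω) * X with hSc
  obtain ⟨Q, hQ⟩ := antider (P * H.comp Sc)
  have hQe : ∀ z, (derivative Q).eval z = P.eval z * H.eval (1 + conj ω - conj ω * z) := by
    intro z
    rw [hQ, eval_mul, eval_comp, hSc]
    simp
  have l1 := line Q 1 ω
  have l2 := line Q 0 ω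
  have l3 := line Q 0 1
  have e1 : ∫ s in (0 : ℝ)..1, (ω - 1) * (derivative Q).eval (1 + (ω - 1) * s) = 0 := by
    rw [intervalIntegral.integral_const_mul, ← h3]
    congr 1
    apply intervalIntegral.integral_congr
    intro s _
    simp only [hΦ]
    rw [hQe]
    congr 1
    · congr 1; push_cast; ring
    · rw [hreal]
      congr 1
      simp only [map_add, map_mul, Complex.conj_ofReal]
      push_cast
      linear_combination (-(s : ℂ)) * hc
  rw [e1] at l1
  have l4 : Q.eval ω - Q.eval 0 = Q.eval 1 - Q.eval 0 := by linear_combination -l1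
  rw [← l2, ← l3] at l4
  -- identify the two radial integrals
  have r1 : ∀ s : ℝ, (ω - 0) * (derivative Q).eval (0 + (ω - 0) * s) =
      P.eval (s : ℂ) * H.eval (1 + ω * ((1 - s : ℝ) : ℂ)) := by
    intro s
    rw [sub_zero, zero_add, hQe, hP]
    set u : ℂ := 1 + ω * ((1 - s : ℝ) : ℂ) with hu
    have hu2 : 1 + conj ω - conj ω * (ω * s) = conj ω * u := by
      rw [hu]; push_cast
      linear_combination (-1 : ℂ) * hc
    rw [hu2]
    have hu3 : H.eval u = ω ^ (k + 1) * H.eval (conj ω * u) := by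
      rw [← hH]; congr 1; linear_combination (-u) * hc
    rw [hu3, pow_succ]
    ring
  have r2 : ∀ s : ℝ, (1 - 0) * (derivative Q).eval (0 + (1 - 0) * (s : ℂ)) =
      P.eval (s : ℂ) * conj (H.eval (1 + ω * ((1 - s : ℝ) : ℂ))) := by
    intro s
    rw [sub_zero, zero_add, one_mul, one_mul, hQe, hreal]
    congr 2
    simp only [map_add, map_mul, map_one, Complex.conj_ofReal]
    push_cast
    ring
  simp_rw [r1, r2] at l4
  have c3 : Continuous fun s : ℝ => P.eval (s : ℂ) * H.eval (1 + ω * ((1 - s : ℝ) : ℂ)) :=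
    (cont_poly _ (by fun_prop)).mul (cont_poly _ (by fun_prop))
  have c4 : Continuous fun s : ℝ => P.eval (s : ℂ) * conj (H.eval (1 + ω * ((1 - s : ℝ) : ℂ))) :=
    (cont_poly _ (by fun_prop)).mul (cj.comp (cont_poly _ (by fun_prop)))
  have l5 : ∫ s in (0 : ℝ)..1, (P.eval (s : ℂ) * H.eval (1 + ω * ((1 - s : ℝ) : ℂ)) -
      P.eval (s : ℂ) * conj (H.eval (1 + ω * ((1 - s : ℝ) : ℂ)))) = 0 := by
    rw [intervalIntegral.integral_sub (c3.intervalIntegrable _ _) (c4.intervalIntegrable _ _), l4,
      sub_self]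
  have l6 : ∀ s : ℝ, P.eval (s : ℂ) * H.eval (1 + ω * ((1 - s : ℝ) : ℂ)) -
      P.eval (s : ℂ) * conj (H.eval (1 + ω * ((1 - s : ℝ) : ℂ))) =
      (2 * Complex.I) * (P.eval (s : ℂ) * ((H.eval (1 + ω * ((1 - s : ℝ) : ℂ))).im : ℂ)) := by
    intro s
    rw [← mul_sub, Complex.sub_conj]
    push_cast
    ring
  simp_rw [l6] at l5
  rw [intervalIntegral.integral_const_mul] at l5
  exact (mul_eq_zero.1 l5).resolve_left (by simp)

end Pool.Agent.R263.Ber
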