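import Pool.Agent.R263.BerG

set_option autoImplicit false

/-!
Structure of the Bergman orthogonal polynomials on the regular polygon.
-/

open Polynomial MeasureTheory ComplexConjugate

namespace Pool.Agent.R263.Ber

/-- orthogonality on the polygon to all polynomials of degree less than `n` -/
def BOrth (N n : ℕ) (p : ℂ[X]) : Prop :=
  ∀ r : ℂ[X], r.natDegree < n → ∫ z in G N, p.eval z * conj (r.eval z) = 0

lemma G_infinite {N : ℕ} {ω : ℂ} (h : Om N ω) : (G N).Infinite := by
  have h1 : Bm ω '' Sl ⊆ G N := by rw [image_Sl h]; exact Set.inter_subset_left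
  apply Set.Infinite.mono h1
  apply Set.Infinite.image (Bm_inj h).injOn
  have h2 : (fun x : ℝ => (⟨x, 1 / 4⟩ : ℂ)) '' Set.Ioo (0 : ℝ) (1 / 2) ⊆ Sl := by
    rintro _ ⟨x, hx, rfl⟩
    exact ⟨hx.1, by norm_num, by simp only; linarith [hx.2]⟩
  apply Set.Infinite.mono h2
  apply Set.Infinite.image _ (Set.Ioo_infinite (by norm_num))
  intro x _ y _ hxy
  exact congrArg Complex.re hxy

lemma eq_zero_of_norm {N : ℕ} {ω : ℂ} (h : Om N ω) (D : ℂ[X])
    (h0 : ∫ z in G N, D.eval z * conj (D.eval z) = 0) : D = 0 := by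
  have hN0 : N ≠ 0 := by rcases h.hN with rfl | rfl <;> norm_num
  have h1 : ∀ z, D.eval z * conj (D.eval z) = ((‖D.eval z‖ ^ 2 : ℝ) : ℂ) := by
    intro z
    rw [Complex.mul_conj, Complex.normSq_eq_norm_sq]
  simp_rw [h1] at h0
  rw [integral_complex_ofReal] at h0
  have h2 : ∫ z in G N, ‖D.eval z‖ ^ 2 = 0 := by exact_mod_cast h0
  have hc : Continuous fun z : ℂ => ‖D.eval z‖ ^ 2 := (D.continuous.norm).pow 2
  have hi : IntegrableOn (fun z : ℂ => ‖D.eval z‖ ^ 2) (G N) :=
    (hc.continuousOn.integrableOn_compact (isCompact_closedBall 0 1)).mono_set (G_sub_ball hN0)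
  have h3 : (fun z : ℂ => ‖D.eval z‖ ^ 2) =ᵐ[volume.restrict (G N)] 0 :=
    (integral_eq_zero_iff_of_nonneg (fun z => by positivity) hi).1 h2
  have h4 := Measure.eqOn_open_of_ae_eq h3 (G_open N) hc.continuousOn continuousOn_const
  apply eq_zero_of_infinite_isRoot
  apply Set.Infinite.mono _ (G_infinite h)
  intro z hz
  have h5 : ‖D.eval z‖ ^ 2 = 0 := h4 hz
  change D.eval z = 0
  exact norm_eq_zero.1 (pow_eq_zero_iff (two_ne_zero) |>.1 h5)

lemma sym {N : ℕ} {ω : ℂ} (h : Om N ω) {n : ℕ} (hn : 0 < n) (p : ℂ[X]) (hp : p.Monic)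
    (hd : p.natDegree = n) (ho : BOrth N n p) : ∀ m, p.coeff m * ω ^ m = ω ^ n * p.coeff m := by
  have hN0 : N ≠ 0 := by rcases h.hN with rfl | rfl <;> norm_num
  have hω := h.ne
  set p' : ℂ[X] := C ((ω ^ n)⁻¹) * p.comp (C ω * X) with hp'
  set D := p - p' with hD
  have hcoeff : ∀ m, p'.coeff m = (ω ^ n)⁻¹ * (p.coeff m * ω ^ m) := by
    intro m
    rw [hp', coeff_C_mul, comp_C_mul_X_coeff]
  have hDd : D.natDegree < n := by
    have : D.natDegree ≤ n - 1 := by
      rw [natDegree_le_iff_coeff_eq_zero]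
      intro m hm
      rw [hD, coeff_sub, hcoeff]
      rcases Nat.lt_or_ge n m with h1 | h1
      · rw [coeff_eq_zero_of_natDegree_lt (by omega)]; simp
      · have : m = n := by omega
        subst this
        field_simp
        simp
    omega
  have i1 : ∫ z in G N, p.eval z * conj (D.eval z) = 0 := ho D hDd
  have i2 : ∫ z in G N, p'.eval z * conj (D.eval z) = 0 := by
    have e1 : ∀ z, p'.eval z * conj (D.eval z) =
        (ω ^ n)⁻¹ * (fun u => p.eval u * conj ((D.comp (C ω⁻¹ * X)).eval u)) (ω * z) := by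
      intro z
      simp only [hp', eval_mul, eval_C, eval_comp, eval_X]
      rw [inv_mul_cancel_left₀ hω]
      ring
    simp_rw [e1]
    rw [integral_const_mul]
    have e2 := integral_rot (N := N) h.norm h.pow
      (fun u => p.eval u * conj ((D.comp (C ω⁻¹ * X)).eval u))
    rw [e2, ho, mul_zero]
    refine lt_of_le_of_lt (natDegree_comp_le) ?_
    have : (C ω⁻¹ * X : ℂ[X]).natDegree ≤ 1 := by
      have := natDegree_C_mul_X_pow_le (R := ℂ) ω⁻¹ 1
      rwa [pow_one] at this
    calc D.natDegree * (C ω⁻¹ * X : ℂ[X]).natDegree ≤ D.natDegree * 1 :=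
        Nat.mul_le_mul_left _ this
      _ < n := by omega
  have cD : Continuous fun z => conj (D.eval z) := Complex.continuous_conj.comp D.continuous
  have i3 : ∫ z in G N, D.eval z * conj (D.eval z) = 0 := by
    have e : ∀ z, D.eval z * conj (D.eval z) =
        p.eval z * conj (D.eval z) - p'.eval z * conj (D.eval z) := by
      intro z
      have : D.eval z = p.eval z - p'.eval z := by rw [hD, eval_sub]
      rw [← sub_mul, ← this]
    simp_rw [e]
    have e3 := integral_sub (integrableOn_G hN0 (p.continuous.mul cD))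
      (integrableOn_G hN0 (p'.continuous.mul cD))
    simp only [Pi.mul_apply] at e3
    rw [e3, i1, i2, sub_zero]
  have hD0 := eq_zero_of_norm h D i3
  intro m
  have h1 : D.coeff m = 0 := by rw [hD0, coeff_zero]
  rw [hD, coeff_sub, hcoeff] at h1
  have hne : ω ^ n ≠ 0 := pow_ne_zero _ hω
  field_simp at h1
  linear_combination -h1

lemma order {N : ℕ} {ω : ℂ} (h : Om N ω) : orderOf ω = N := by
  have hω1 : ω ≠ 1 := by
    rintro rfl
    have := h.pos
    simp at this
  have hpow := h.pow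
  rcases h.eqn with ⟨rfl, he⟩ | ⟨rfl, he⟩
  · exact orderOf_eq_prime hpow hω1
  · have : (4 : ℕ) = 2 ^ (1 + 1) := by norm_num
    rw [this]
    apply orderOf_eq_prime_pow
    · rw [pow_one, he]; norm_num
    · exact hpow

lemma support {N k j : ℕ} {ω : ℂ} (h : Om N ω) (hk : k < N) (hj : 1 ≤ j) (p : ℂ[X]) (hp : p.Monic)
    (hd : p.natDegree = j * N + k) (ho : BOrth N (j * N + k) p) (m : ℕ) (hm : p.coeff m ≠ 0) :
    k ≤ m ∧ N ∣ m - k := by
  have hN0 : N ≠ 0 := by rcases h.hN with rfl | rfl <;> norm_num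
  have hn : 0 < j * N + k := by positivity
  have h1 := sym h hn p hp hd ho m
  have h2 : ω ^ m = ω ^ k := by
    have h3 : ω ^ (j * N + k) = ω ^ k := by
      rw [pow_add, mul_comm j N, pow_mul, h.pow, one_pow, one_mul]
    rw [h3] at h1
    exact mul_left_cancel₀ hm (by rw [h1]; ring)
  rcases Nat.lt_or_ge m k with hlt | hge
  · exfalso
    obtain ⟨d, rfl⟩ := Nat.exists_eq_add_of_lt hlt
    have h4 : ω ^ (d + 1) = 1 := by
      have : ω ^ m * ω ^ (d + 1) = ω ^ m * 1 := by
        rw [← pow_add, mul_one, h2]; congr 1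
      exact mul_left_cancel₀ (pow_ne_zero _ h.ne) this
    have h5 := orderOf_dvd_of_pow_eq_one h4
    rw [order h] at h5
    have := Nat.le_of_dvd (by omega) h5
    omega
  · obtain ⟨d, rfl⟩ := Nat.exists_eq_add_of_le hge
    refine ⟨by omega, ?_⟩
    have h4 : ω ^ d = 1 := by
      have : ω ^ k * ω ^ d = ω ^ k * 1 := by rw [← pow_add, mul_one, h2]
      exact mul_left_cancel₀ (pow_ne_zero _ h.ne) this
    have h5 := orderOf_dvd_of_pow_eq_one h4
    rw [order h] at h5
    simpa using h5

/-- the test polynomial -/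
noncomputable def Hc (N k : ℕ) (c : ℕ → ℝ) (j : ℕ) : ℂ[X] :=
  ∑ l ∈ Finset.range j, C ((c l : ℝ) : ℂ) * X ^ (k + 1 + l * N)

lemma Hc_eval (N k : ℕ) (c : ℕ → ℝ) (j : ℕ) (z : ℂ) :
    (Hc N k c j).eval z = ∑ l ∈ Finset.range j, (c l : ℂ) * z ^ (k + 1 + l * N) := by
  unfold Hc
  rw [eval_finsetSum]
  simp

lemma Hc_deriv (N k : ℕ) (c : ℕ → ℝ) (j : ℕ) (z : ℂ) :
    (derivative (Hc N k c j)).eval z =
      ∑ l ∈ Finset.range j, (c l : ℂ) * ((k + 1 + l * N : ℕ) * z ^ (k + l * N)) := by
  unfold Hc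
  rw [derivative_sum, eval_finsetSum]
  apply Finset.sum_congr rfl
  intro l _
  rw [derivative_C_mul, derivative_X_pow, eval_mul, eval_mul, eval_C, eval_C, eval_pow, eval_X]
  congr 3
  omega

lemma Hc_im (N k : ℕ) (ω : ℂ) (c : ℕ → ℝ) (j : ℕ) (x : ℝ) :
    ((Hc N k c j).eval (1 + ω * x)).im = (F N k ω c j).eval x := by
  rw [Hc_eval, Complex.im_sum]
  unfold F
  rw [eval_finsetSum]
  apply Finset.sum_congr rfl
  intro l _
  rw [Complex.im_ofReal_mul, eval_mul, eval_C, eval_E]

lemma Hc_natDegree {N k : ℕ} (hN : N ≠ 0) (c : ℕ → ℝ) {j : ℕ} (hj : 1 ≤ j) :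
    (derivative (Hc N k c j)).natDegree < j * N + k := by
  have h1 : (Hc N k c j).natDegree ≤ k + 1 + (j - 1) * N := by
    unfold Hc
    apply natDegree_sum_le_of_forall_le
    intro l hl
    rw [Finset.mem_range] at hl
    refine (natDegree_C_mul_X_pow_le _ _).trans ?_
    have : l * N ≤ (j - 1) * N := Nat.mul_le_mul_right _ (by omega)
    omega
  have h2 := natDegree_derivative_le (Hc N k c j)
  have h3 : (j - 1) * N + N = j * N := by
    obtain ⟨i, rfl⟩ : ∃ i, j = i + 1 := ⟨j - 1, by omega⟩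
    simp only [Nat.add_sub_cancel]; ring
  omega

/-- one-variable orthogonality of all real-linear parts -/
lemma orth_part {N k j : ℕ} {ω : ℂ} (h : Om N ω) (hj : 1 ≤ j) (p q : ℂ[X])
    (hpq : p = X ^ k * q.comp (X ^ N)) (ho : BOrth N (j * N + k) p) (u : ℂ) :
    Orth N k ω j (imP (C u * q)) := by
  have hN0 : N ≠ 0 := by rcases h.hN with rfl | rfl <;> norm_num
  intro c
  have hPz : ∀ z, p.eval z = z ^ k * q.eval (z ^ N) := by
    intro z; rw [hpq]; simp
  have h1 := to_line (k := k) h p (Hc N k c j) (by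
      intro z
      rw [hPz, hPz, mul_pow, mul_pow, h.pow, one_mul]; ring) (by
      intro z
      rw [Hc_eval, Hc_eval, Finset.mul_sum]
      apply Finset.sum_congr rfl
      intro l _
      have : ω ^ (k + 1 + l * N) = ω ^ (k + 1) := by
        rw [pow_add, mul_comm l N, pow_mul ω N, h.pow, one_pow, mul_one]
      rw [mul_pow, this]; ring) (by
      intro z
      rw [Hc_deriv, Hc_deriv, Finset.mul_sum]
      apply Finset.sum_congr rfl
      intro l _
      have : ω ^ (k + l * N) = ω ^ k := by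
        rw [pow_add, mul_comm l N, pow_mul ω N, h.pow, one_pow, mul_one]
      rw [mul_pow, this]; ring) (by
      intro z
      rw [Hc_eval, Hc_eval, map_sum]
      apply Finset.sum_congr rfl
      intro l _
      rw [map_mul, Complex.conj_ofReal, map_pow]) (ho _ (Hc_natDegree hN0 c hj))
  have h2 : ∀ s : ℝ, s ^ k * (imP (C u * q)).eval (s ^ N) * (F N k ω c j).eval (1 - s) =
      Complex.imCLM (u * (p.eval (s : ℂ) *
        (((Hc N k c j).eval (1 + ω * ((1 - s : ℝ) : ℂ))).im : ℂ))) := by
    intro s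
    rw [imP_eval, Hc_im, hPz, Complex.imCLM_apply]
    have : u * ((s : ℂ) ^ k * q.eval ((s : ℂ) ^ N) * (((F N k ω c j).eval (1 - s) : ℝ) : ℂ)) =
        (((s ^ k * (F N k ω c j).eval (1 - s) : ℝ)) : ℂ) * ((C u * q).eval ((s ^ N : ℝ) : ℂ)) := by
      rw [eval_mul, eval_C]; push_cast; ring
    rw [this, Complex.im_ofReal_mul]; ring
  have hcont : Continuous fun s : ℝ => u * (p.eval (s : ℂ) *
        (((Hc N k c j).eval (1 + ω * ((1 - s : ℝ) : ℂ))).im : ℂ)) := by
    refine continuous_const.mul ((cont_poly _ (by fun_prop)).mul ?_)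
    exact Complex.continuous_ofReal.comp (Complex.continuous_im.comp (cont_poly _ (by fun_prop)))
  simp_rw [h2]
  rw [ContinuousLinearMap.intervalIntegral_comp_comm _ (hcont.intervalIntegrable _ _),
    intervalIntegral.integral_const_mul, h1]
  simp

/-- **Structure.** -/
theorem structure_thm {N k j : ℕ} {ω : ℂ} (h : Om N ω) (hk : k < N) (hj : 1 ≤ j) (p : ℂ[X])
    (hp : p.Monic) (hd : p.natDegree = j * N + k) (ho : BOrth N (j * N + k) p) :
    ∃ q : ℝ[X], q.Monic ∧ q.natDegree = j ∧
      p = X ^ k * (q.map Complex.ofRealHom).comp (X ^ N) ∧ Orth N k ω j q := by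
  have hN0 : N ≠ 0 := by rcases h.hN with rfl | rfl <;> norm_num
  have hNp : 0 < N := Nat.pos_of_ne_zero hN0
  set qc : ℂ[X] := ∑ l ∈ Finset.range (j + 1), C (p.coeff (k + l * N)) * X ^ l with hqc
  have hqcoeff : ∀ l, qc.coeff l = p.coeff (k + l * N) := by
    intro l
    rw [hqc, finsetSum_coeff]
    simp_rw [coeff_C_mul_X_pow]
    rw [Finset.sum_ite_eq (Finset.range (j + 1)) l]
    split_ifs with hl
    · rfl
    · rw [Finset.mem_range, not_lt] at hl
      rw [coeff_eq_zero_of_natDegree_lt]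
      rw [hd]
      have : (j + 1) * N ≤ l * N := Nat.mul_le_mul_right _ hl
      rw [add_mul, one_mul] at this
      omega
  have hpq : p = X ^ k * qc.comp (X ^ N) := by
    rw [← expand_eq_comp_X_pow]
    ext m
    rw [coeff_X_pow_mul', coeff_expand hNp]
    by_cases hm : p.coeff m = 0
    · rw [hm]
      split_ifs with h1 h2
      · rw [hqcoeff]
        have : k + (m - k) / N * N = m := by
          rw [Nat.div_mul_cancel h2]; omega
        rw [this, hm]
      · rfl
      · rfl
    · obtain ⟨h1, h2⟩ := support h hk hj p hp hd ho m hm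
      rw [if_pos h1, if_pos h2, hqcoeff]
      have : k + (m - k) / N * N = m := by
        rw [Nat.div_mul_cancel h2]; omega
      rw [this]
  have hqj : qc.coeff j = 1 := by
    rw [hqcoeff]
    have : k + j * N = p.natDegree := by rw [hd]; ring
    rw [this]
    exact hp
  have hqgt : ∀ l, j < l → qc.coeff l = 0 := by
    intro l hl
    rw [hqcoeff, coeff_eq_zero_of_natDegree_lt]
    rw [hd]
    have : (j + 1) * N ≤ l * N := Nat.mul_le_mul_right _ hl
    rw [add_mul, one_mul] at this
    omega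
  -- the imaginary part vanishes
  have hi := orth_part h hj p qc hpq ho 1
  have hr := orth_part h hj p qc hpq ho Complex.I
  set qi := imP (C 1 * qc) with hqi
  set qr := imP (C Complex.I * qc) with hqr
  have hqic : ∀ l, qi.coeff l = (qc.coeff l).im := by
    intro l; rw [hqi, imP_coeff, coeff_C_mul, one_mul]
  have hqrc : ∀ l, qr.coeff l = (qc.coeff l).re := by
    intro l; rw [hqr, imP_coeff, coeff_C_mul]; simp
  have hqi0 : qi = 0 := by
    by_contra hne
    have h1 := odd_roots h hk j qi hne hi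
    have h2 : (O qi).card ≤ qi.natDegree := by
      refine le_trans ?_ (sum_mult_le (p := qi) (O qi))
      rw [Finset.card_eq_sum_ones]
      apply Finset.sum_le_sum
      intro y hy
      exact ((mem_O hne).1 hy).2.pos
    have h3 : qi.natDegree ≤ j - 1 := by
      rw [natDegree_le_iff_coeff_eq_zero]
      intro l hl
      rw [hqic]
      rcases Nat.lt_or_ge j l with h4 | h4
      · rw [hqgt l h4]; simp
      · have : l = j := by omega
        rw [this, hqj]; simp
    omega
  have hqrj : qr.coeff j = 1 := by rw [hqrc, hqj]; simp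
  have hqrd : qr.natDegree = j := by
    apply le_antisymm
    · rw [natDegree_le_iff_coeff_eq_zero]
      intro l hl
      rw [hqrc, hqgt l hl]; simp
    · apply le_natDegree_of_ne_zero
      rw [hqrj]; exact one_ne_zero
  refine ⟨qr, ?_, hqrd, ?_, hr⟩
  · unfold Monic
    rw [leadingCoeff, hqrd, hqrj]
  · have : qr.map Complex.ofRealHom = qc := by
      ext l
      rw [coeff_map, hqrc]
      apply Complex.ext
      · simp
      · have h5 := hqic l
        rw [hqi0, coeff_zero] at h5
        simp [← h5]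
    rw [this]
    exact hpq

end Pool.Agent.R263.Ber
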