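import Mathlib

set_option autoImplicit false

open Set Polynomial

namespace Pool.Agent.R263.Esc

/-- Pole pushing: if `C` is a preconnected unbounded set through `0` disjoint from the compact set
`W`, then `1/z` can be approximated by polynomials on `W`. -/
theorem runge_zero (W : Set ℂ) (hW : IsCompact W) (C : Set ℂ) (hC : IsPreconnected C)
    (hCW : ∀ z ∈ C, z ∉ W) (h0 : (0 : ℂ) ∈ C) (hunb : ∀ R : ℝ, ∃ b ∈ C, R < ‖b‖)
    {ε : ℝ} (hε : 0 < ε) :
    ∃ p : ℂ[X], ∀ z ∈ W, ‖z * p.eval z - 1‖ < ε := by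
  have : CompactSpace W := isCompact_iff_compactSpace.mp hW
  set B : Subalgebra ℂ C(W, ℂ) := (polynomialFunctions W).topologicalClosure with hB
  have hBc : IsClosed (B : Set C(W, ℂ)) := Subalgebra.isClosed_topologicalClosure _
  have : IsClosed (B : Set C(W, ℂ)) := hBc
  have : CompleteSpace B := hBc.completeSpace_coe
  -- the coordinate function
  set X' : C(W, ℂ) := toContinuousMapOnAlgHom W X with hX'
  have hXmem : X' ∈ B := by
    apply Subalgebra.le_topologicalClosure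
    rw [← SetLike.mem_coe, polynomialFunctions_coe]
    exact ⟨X, rfl⟩
  set x : B := ⟨X', hXmem⟩ with hx
  have hfr : frontier (spectrum ℂ x) ⊆ spectrum ℂ X' := Subalgebra.frontier_spectrum B x
  have hspec : spectrum ℂ X' = W := by
    rw [ContinuousMap.spectrum_eq_range]
    ext z
    constructor
    · rintro ⟨w, rfl⟩
      simp [hX']
    · intro hz
      exact ⟨⟨z, hz⟩, by simp [hX']⟩
  have hcl : IsClosed (spectrum ℂ x) := spectrum.isClosed x
  have hbdd : ∀ b ∈ spectrum ℂ x, ‖b‖ ≤ ‖x‖ * ‖(1 : B)‖ := fun b hb => spectrum.norm_le_norm_mul_of_mem hb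
  -- `0` is not in the spectrum
  have h0s : (0 : ℂ) ∉ spectrum ℂ x := by
    intro h
    obtain ⟨b, hb, hbn⟩ := hunb (‖x‖ * ‖(1 : B)‖)
    have hb' : b ∉ spectrum ℂ x := fun hb' => absurd (hbdd b hb') (not_le.mpr hbn)
    have hsub : C ⊆ interior (spectrum ℂ x) ∪ (spectrum ℂ x)ᶜ := by
      intro z hz
      by_cases hzs : z ∈ spectrum ℂ x
      · left
        by_contra hzi
        have : z ∈ frontier (spectrum ℂ x) := by
          rw [hcl.frontier_eq]; exact ⟨hzs, hzi⟩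
        have := hfr this
        rw [hspec] at this
        exact hCW z hz this
      · exact Or.inr hzs
    have h1 : (C ∩ interior (spectrum ℂ x)).Nonempty := by
      refine ⟨0, h0, ?_⟩
      rcases hsub h0 with h2 | h2
      · exact h2
      · exact absurd h h2
    have h2 : (C ∩ (spectrum ℂ x)ᶜ).Nonempty := ⟨b, hb, hb'⟩
    obtain ⟨z, _, hz1, hz2⟩ := hC _ _ isOpen_interior hcl.isOpen_compl hsub h1 h2
    exact hz2 (interior_subset hz1)
  -- the inverse
  rw [spectrum.notMem_iff] at h0s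
  obtain ⟨u, hu⟩ := h0s
  have hucoe : ((u : B) : C(W, ℂ)) = -X' := by
    rw [hu]
    ext z
    simp [hx]
  obtain ⟨y, hyB, hpt⟩ : ∃ y : C(W, ℂ), y ∈ B ∧ ∀ z : W, (z : ℂ) * y z = 1 := by
    refine ⟨-((↑u⁻¹ : B) : C(W, ℂ)), B.neg_mem (↑u⁻¹ : B).2, ?_⟩
    intro z
    have h1 : ((u : B) : C(W, ℂ)) * ((↑u⁻¹ : B) : C(W, ℂ)) = 1 := by
      have := congrArg (fun a : B => (a : C(W, ℂ))) u.mul_inv
      exact this
    rw [hucoe] at h1
    have h2 := congrArg (fun a : C(W, ℂ) => a z) h1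
    simpa [hX'] using h2
  -- approximate
  obtain ⟨M, hM⟩ := hW.isBounded.exists_norm_le
  have hymem : y ∈ closure ((polynomialFunctions W : Subalgebra ℂ C(W, ℂ)) : Set C(W, ℂ)) := by
    rw [hB, ← SetLike.mem_coe, Subalgebra.topologicalClosure_coe] at hyB
    exact hyB
  have hM0 : 0 < |M| + 1 := by positivity
  obtain ⟨q, hq, hqd⟩ := Metric.mem_closure_iff.mp hymem (ε / (|M| + 1)) (by positivity)
  rw [polynomialFunctions_coe] at hq
  obtain ⟨p, rfl⟩ := hq
  refine ⟨p, fun z hz => ?_⟩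
  have h1 : ‖y ⟨z, hz⟩ - p.eval z‖ < ε / (|M| + 1) := by
    have h2 := ContinuousMap.dist_apply_le_dist (f := y)
      (g := toContinuousMapOnAlgHom W p) ⟨z, hz⟩
    rw [dist_eq_norm] at h2
    have h3 := lt_of_le_of_lt h2 hqd
    simpa using h3
  have h4 := hpt ⟨z, hz⟩
  have h5 : z * p.eval z - 1 = - (z * (y ⟨z, hz⟩ - p.eval z)) := by
    have : z * y ⟨z, hz⟩ = 1 := h4
    linear_combination this
  rw [h5, norm_neg, norm_mul]
  have h6 : ‖z‖ ≤ |M| + 1 := (hM z hz).trans ((le_abs_self M).trans (by linarith))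
  rcases eq_or_ne z 0 with h7 | h7
  · have h8 : ‖z‖ = 0 := by rw [h7, norm_zero]
    rw [h8, zero_mul]; exact hε
  · have h8 : 0 < ‖z‖ := norm_pos_iff.mpr h7
    calc ‖z‖ * ‖y ⟨z, hz⟩ - p.eval z‖ < ‖z‖ * (ε / (|M| + 1)) :=
          mul_lt_mul_of_pos_left h1 h8
      _ ≤ (|M| + 1) * (ε / (|M| + 1)) := by gcongr
      _ = ε := by field_simp

end Pool.Agent.R263.Esc
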