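import Pool.Agent.R263.EscA

set_option autoImplicit false

open Set Polynomial ComplexConjugate

namespace Pool.Agent.R263.Esc

/-- the reciprocal polynomial `z^m conj (Q (1 / conj z))` -/
noncomputable def recip (Q : ℂ[X]) : ℂ[X] := (Q.map (starRingEnd ℂ)).reverse

lemma eval_map_conj (Q : ℂ[X]) (z : ℂ) :
    (Q.map (starRingEnd ℂ)).eval z = conj (Q.eval (conj z)) := by
  have h := Polynomial.hom_eval₂ Q (RingHom.id ℂ) (starRingEnd ℂ) (conj z)
  rw [eval_map]
  simpa [eval₂_id] using h.symm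

lemma natDegree_map_conj (Q : ℂ[X]) : (Q.map (starRingEnd ℂ)).natDegree = Q.natDegree :=
  natDegree_map_eq_of_injective (RingHom.injective _) Q

lemma recip_eval (Q : ℂ[X]) {z : ℂ} (hz : z ≠ 0) :
    (recip Q).eval z = z ^ Q.natDegree * conj (Q.eval (conj z⁻¹)) := by
  have hz' : z⁻¹ ≠ 0 := inv_ne_zero hz
  let _ : Invertible z⁻¹ := invertibleOfNonzero hz'
  have h := eval₂_reverse_mul_pow (RingHom.id ℂ) z⁻¹ (Q.map (starRingEnd ℂ))
  rw [invOf_eq_inv, inv_inv, eval₂_id, eval₂_id, natDegree_map_conj, eval_map_conj] at h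
  unfold recip
  have h2 : z ^ Q.natDegree * (z⁻¹) ^ Q.natDegree = 1 := by
    rw [← mul_pow, mul_inv_cancel₀ hz, one_pow]
  calc eval z (Q.map (starRingEnd ℂ)).reverse
      = z ^ Q.natDegree * (eval z (Q.map (starRingEnd ℂ)).reverse * (z⁻¹) ^ Q.natDegree) := by
        linear_combination (-(eval z (Q.map (starRingEnd ℂ)).reverse)) * h2
    _ = _ := by rw [h]

lemma recip_props (Q : ℂ[X]) (h0 : Q.eval 0 = 1) :
    (recip Q).Monic ∧ (recip Q).natDegree = Q.natDegree := by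
  have hc : (Q.map (starRingEnd ℂ)).coeff 0 = 1 := by
    rw [coeff_map, coeff_zero_eq_eval_zero, h0, map_one]
  have ht : (Q.map (starRingEnd ℂ)).natTrailingDegree = 0 := by
    apply natTrailingDegree_eq_zero_of_constantCoeff_ne_zero
    rw [constantCoeff_apply, hc]
    exact one_ne_zero
  constructor
  · rw [Monic, recip, reverse_leadingCoeff, trailingCoeff, ht, hc]
  · rw [recip, reverse_natDegree, ht, natDegree_map_conj]
    rfl

/-- comparison of `Q` with its reciprocal in the unit disc -/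
lemma recip_le (Q : ℂ[X]) (hQ : ∀ z : ℂ, ‖z‖ ≤ 1 → Q.eval z ≠ 0) {z : ℂ} (hz : ‖z‖ ≤ 1) :
    ‖(recip Q).eval z‖ ≤ ‖Q.eval z‖ := by
  have hd : DiffContOnCl ℂ (fun z => (recip Q).eval z / Q.eval z) (Metric.ball 0 1) := by
    apply DifferentiableOn.diffContOnCl
    rw [closure_ball _ one_ne_zero]
    intro w hw
    rw [mem_closedBall_zero_iff] at hw
    exact ((recip Q).differentiable.differentiableAt.div Q.differentiable.differentiableAt
      (hQ w hw)).differentiableWithinAt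
  have h := Complex.norm_le_of_forall_mem_frontier_norm_le (C := 1) Metric.isBounded_ball hd (by
    intro w hw
    rw [frontier_ball _ one_ne_zero, mem_sphere_zero_iff_norm] at hw
    have hw0 : w ≠ 0 := by rw [← norm_pos_iff, hw]; exact one_pos
    have h1 : conj w⁻¹ = w := by
      have h2 : w * conj w = 1 := by
        rw [Complex.mul_conj, Complex.normSq_eq_norm_sq, hw]; norm_num
      rw [map_inv₀]
      exact (eq_inv_of_mul_eq_one_left h2).symm
    rw [norm_div, recip_eval Q hw0, h1, norm_mul, norm_pow, hw, one_pow, one_mul,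
      Complex.norm_conj]
    exact (div_self (norm_ne_zero_iff.mpr (hQ w hw.le))).le) (z := z) (by
      rw [closure_ball _ one_ne_zero, mem_closedBall_zero_iff]; exact hz)
  rw [norm_div, div_le_one (norm_pos_iff.mpr (hQ z hz))] at h
  exact h

/-- The roots of `X^N Q^* + Q` lie in the closed unit disc. -/
lemma roots_le (Q : ℂ[X]) (hQ : ∀ z : ℂ, ‖z‖ ≤ 1 → Q.eval z ≠ 0) {N : ℕ} (hN : 1 ≤ N)
    {z : ℂ} (hz : (X ^ N * recip Q + Q).eval z = 0) : ‖z‖ ≤ 1 := by
  by_contra hcon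
  push Not at hcon
  have hz0 : z ≠ 0 := by
    intro h; rw [h, norm_zero] at hcon; linarith
  set ζ : ℂ := conj z⁻¹ with hζ
  have hζn : ‖ζ‖ = ‖z‖⁻¹ := by rw [hζ, Complex.norm_conj, norm_inv]
  have hζ1 : ‖ζ‖ < 1 := by rw [hζn]; exact inv_lt_one_of_one_lt₀ hcon
  have hζ0 : ζ ≠ 0 := by
    rw [← norm_pos_iff, hζn]; positivity
  have e1 : ‖(recip Q).eval z‖ = ‖z‖ ^ Q.natDegree * ‖Q.eval ζ‖ := by
    rw [recip_eval Q hz0, norm_mul, norm_pow, Complex.norm_conj]
  have e2 : ‖Q.eval z‖ = ‖z‖ ^ Q.natDegree * ‖(recip Q).eval ζ‖ := by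
    have h1 : conj ζ⁻¹ = z := by
      rw [hζ, map_inv₀, Complex.conj_conj, inv_inv]
    rw [recip_eval Q hζ0, h1, norm_mul, norm_pow, hζn, Complex.norm_conj, ← mul_assoc, ← mul_pow,
      mul_inv_cancel₀ (norm_ne_zero_iff.mpr hz0), one_pow, one_mul]
  have e3 := recip_le Q hQ hζ1.le
  have e4 : 0 < ‖Q.eval ζ‖ := norm_pos_iff.mpr (hQ ζ hζ1.le)
  have e5 : 1 < ‖z‖ ^ N := one_lt_pow₀ hcon (by omega)
  have e6 : z ^ N * (recip Q).eval z = - Q.eval z := by
    rw [eval_add, eval_mul, eval_pow, eval_X] at hz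
    linear_combination hz
  have e7 := congrArg norm e6
  rw [norm_mul, norm_pow, norm_neg, e1, e2] at e7
  have e8 : 0 < ‖z‖ ^ Q.natDegree := by positivity
  have e9 : ‖z‖ ^ N * ‖Q.eval ζ‖ = ‖(recip Q).eval ζ‖ := by
    have : ‖z‖ ^ Q.natDegree * (‖z‖ ^ N * ‖Q.eval ζ‖) =
        ‖z‖ ^ Q.natDegree * ‖(recip Q).eval ζ‖ := by rw [← e7]; ring
    exact mul_left_cancel₀ e8.ne' this
  nlinarith

/-- The main construction: walls can be realised by polynomials with roots in the closed disc. -/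
theorem walls (W : Set ℂ) (hW : IsCompact W) (K : Set ℂ) (hK : IsPreconnected K)
    (hKW : ∀ z ∈ K, z ∉ W) (h0 : (0 : ℂ) ∈ K) (hunb : ∀ R : ℝ, ∃ b ∈ K, R < ‖b‖)
    {ρ : ℝ} (hρ0 : 0 ≤ ρ) (hρ : ρ < 1) (hWρ : ∀ z ∈ W, ‖z‖ ≤ ρ) :
    ∃ n₀ : ℕ, ∀ n ≥ n₀, ∃ f : ℂ[X], f.Monic ∧ f.natDegree = n ∧
      (∀ z, f.eval z = 0 → ‖z‖ ≤ 1) ∧ ∀ z ∈ W, 1 < ‖f.eval z‖ := by
  obtain ⟨p, hp⟩ := runge_zero W hW K hK hKW h0 hunb (show (0 : ℝ) < 1 / 2 by norm_num)
  -- a bound on the closed disc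
  obtain ⟨A, hA⟩ : ∃ A : ℝ, ∀ z ∈ Metric.closedBall (0 : ℂ) 1, ‖z * p.eval z‖ ≤ A :=
    (isCompact_closedBall (0 : ℂ) 1).exists_bound_of_continuousOn
      ((continuous_id.mul p.continuous).continuousOn)
  have hA0 : 0 ≤ A := by
    have := hA 0 (by simp)
    simpa using this
  set η : ℝ := 1 / (2 * (A + 1)) with hη
  have hη0 : 0 < η := by positivity
  have hηA : η * A ≤ 1 / 2 := by
    rw [hη, one_div, inv_mul_le_iff₀ (by positivity)]
    nlinarith
  set Q : ℂ[X] := 1 + C (η : ℂ) * (X * p) with hQ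
  have hQe : ∀ z, Q.eval z = 1 + η * (z * p.eval z) := by
    intro z; rw [hQ]; simp
  have hQ0 : Q.eval 0 = 1 := by rw [hQe]; simp
  have hQ1 : ∀ z : ℂ, ‖z‖ ≤ 1 → ‖(η : ℂ) * (z * p.eval z)‖ ≤ 1 / 2 := by
    intro z hz
    rw [norm_mul, Complex.norm_real, Real.norm_eq_abs, abs_of_pos hη0]
    have := hA z (by rw [mem_closedBall_zero_iff]; exact hz)
    nlinarith
  have hQne : ∀ z : ℂ, ‖z‖ ≤ 1 → Q.eval z ≠ 0 := by
    intro z hz h
    rw [hQe] at h
    have h1 : (η : ℂ) * (z * p.eval z) = -1 := by linear_combination h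
    have h2 := hQ1 z hz
    rw [h1, norm_neg, norm_one] at h2
    norm_num at h2
  have hQle : ∀ z : ℂ, ‖z‖ ≤ 1 → ‖Q.eval z‖ ≤ 3 / 2 := by
    intro z hz
    rw [hQe]
    refine (norm_add_le _ _).trans ?_
    rw [norm_one]
    linarith [hQ1 z hz]
  have hQW : ∀ z ∈ W, 1 + η / 2 ≤ ‖Q.eval z‖ := by
    intro z hz
    have h1 := hp z hz
    have h2 : |(z * p.eval z - 1).re| ≤ 1 / 2 := (Complex.abs_re_le_norm _).trans h1.le
    have h3 := (abs_le.mp h2).1
    rw [Complex.sub_re, Complex.one_re] at h3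
    have h4 : (Q.eval z).re = 1 + η * (z * p.eval z).re := by
      rw [hQe, Complex.add_re, Complex.one_re, Complex.re_ofReal_mul]
    have h5 := Complex.re_le_norm (Q.eval z)
    rw [h4] at h5
    nlinarith
  -- the exponent
  obtain ⟨N₀, hN₀⟩ : ∃ N₀ : ℕ, ∀ N ≥ N₀, ρ ^ N * (3 / 2) < η / 2 := by
    have h1 := (tendsto_pow_atTop_nhds_zero_of_lt_one hρ0 hρ).mul_const (3 / 2 : ℝ)
    rw [zero_mul] at h1
    exact Filter.eventually_atTop.mp (h1.eventually (gt_mem_nhds (by positivity)))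
  refine ⟨Q.natDegree + N₀ + 1, fun n hn => ?_⟩
  obtain ⟨hrm, hrd⟩ := recip_props Q hQ0
  set N := n - Q.natDegree with hN
  have hN1 : 1 ≤ N := by omega
  have hdeg : (X ^ N * recip Q).natDegree = N + Q.natDegree := by
    rw [(monic_X_pow N).natDegree_mul hrm, natDegree_X_pow, hrd]
  have hlt : Q.degree < (X ^ N * recip Q).degree := by
    apply degree_lt_degree
    rw [hdeg]; omega
  refine ⟨X ^ N * recip Q + Q, ((monic_X_pow N).mul hrm).add_of_left hlt, ?_, ?_, ?_⟩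
  · rw [natDegree_add_eq_left_of_degree_lt hlt, hdeg]; omega
  · intro z hz
    exact roots_le Q hQne hN1 hz
  · intro z hz
    have hz1 : ‖z‖ ≤ 1 := (hWρ z hz).trans hρ.le
    have h1 := hQW z hz
    have h2 : ‖z ^ N * (recip Q).eval z‖ ≤ ρ ^ N * (3 / 2) := by
      rw [norm_mul, norm_pow]
      apply mul_le_mul (pow_le_pow_left₀ (norm_nonneg _) (hWρ z hz) N)
        ((recip_le Q hQne hz1).trans (hQle z hz1)) (norm_nonneg _) (by positivity)
    have h3 := hN₀ N (by omega)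
    have h4 : ‖Q.eval z‖ ≤ ‖z ^ N * (recip Q).eval z + Q.eval z‖ +
        ‖z ^ N * (recip Q).eval z‖ := by
      have := norm_sub_le (z ^ N * (recip Q).eval z + Q.eval z) (z ^ N * (recip Q).eval z)
      rwa [add_sub_cancel_left] at this
    rw [eval_add, eval_mul, eval_pow, eval_X]
    linarith

end Pool.Agent.R263.Esc
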