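import Pool.Agent.R263.EscB

set_option autoImplicit false

open Set MeasureTheory MeasureTheory.Measure
open scoped ENNReal NNReal

namespace Pool.Agent.R263.Esc

/-- crossing an interval -/
lemma crossing {s : ℝ → ℝ} (hs : Continuous s) {a b : ℝ} (hab : a < b) (h0 : s 0 ≤ a)
    (h1 : b ≤ s 1) : ∃ t₁ t₂ : ℝ, 0 ≤ t₁ ∧ t₁ < t₂ ∧ t₂ ≤ 1 ∧ s t₁ = a ∧ s t₂ = b ∧
      ∀ t ∈ Ioo t₁ t₂, a < s t ∧ s t < b := by
  have hA : IsCompact (Icc (0 : ℝ) 1 ∩ {t | b ≤ s t}) :=
    isCompact_Icc.inter_right (isClosed_le continuous_const hs)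
  obtain ⟨t₂, ⟨ht2, ht2b⟩, hleast⟩ := hA.exists_isLeast ⟨1, ⟨zero_le_one, le_rfl⟩, h1⟩
  have hlt2 : ∀ t, 0 ≤ t → t < t₂ → s t < b := by
    intro t h0t htt
    by_contra hc
    push Not at hc
    have := hleast ⟨⟨h0t, (htt.le).trans ht2.2⟩, hc⟩
    linarith
  have hst2 : s t₂ = b := by
    refine le_antisymm ?_ ht2b
    by_contra hc
    push Not at hc
    have hiv := intermediate_value_Ioo ht2.1 hs.continuousOn
    obtain ⟨t, ht, hst⟩ := hiv ⟨lt_of_le_of_lt h0 hab, hc⟩
    exact absurd hst (hlt2 t ht.1.le ht.2).ne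
  have hB : IsCompact (Icc (0 : ℝ) t₂ ∩ {t | s t ≤ a}) :=
    isCompact_Icc.inter_right (isClosed_le hs continuous_const)
  obtain ⟨t₁, ⟨ht1, ht1a⟩, hgreat⟩ := hB.exists_isGreatest ⟨0, ⟨le_rfl, ht2.1⟩, h0⟩
  have ht1a' : s t₁ ≤ a := ht1a
  have h12 : t₁ < t₂ := by
    refine lt_of_le_of_ne ht1.2 ?_
    intro h
    rw [h, hst2] at ht1a'
    linarith
  have hgt1 : ∀ t, t₁ < t → t ≤ t₂ → a < s t := by
    intro t h1t htt
    by_contra hc
    push Not at hc
    have := hgreat ⟨⟨ht1.1.trans h1t.le, htt⟩, hc⟩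
    linarith
  have hst1 : s t₁ = a := by
    refine le_antisymm ht1a' ?_
    by_contra hc
    push Not at hc
    have hiv := intermediate_value_Ioo h12.le hs.continuousOn
    obtain ⟨t, ht, hst⟩ := hiv ⟨hc, by rw [hst2]; exact hab⟩
    exact absurd hst (hgt1 t ht.1 ht.2.le).ne'
  exact ⟨t₁, t₂, ht1.1, h12, ht2.2, hst1, hst2, fun t ht =>
    ⟨hgt1 t ht.1 ht.2.le, hlt2 t (ht1.1.trans ht.1.le) ht.2⟩⟩

/-- the radii of the walls -/
noncomputable def rr (N j : ℕ) : ℝ := 1 / 2 + j / (4 * (N + 1))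

lemma rr_half (N j : ℕ) : 1 / 2 ≤ rr N j := by unfold rr; have : (0:ℝ) ≤ j / (4 * (N + 1)) := by positivity
                                               linarith

lemma rr_lt (N j : ℕ) (hj : j ≤ N) : rr N j < 3 / 4 := by
  unfold rr
  have : (j : ℝ) / (4 * (N + 1)) < 1 / 4 := by
    rw [div_lt_div_iff₀ (by positivity) (by norm_num)]
    have : (j : ℝ) ≤ N := by exact_mod_cast hj
    linarith
  linarith

lemma rr_mono (N : ℕ) : StrictMono (rr N) := by
  intro i j hij
  unfold rr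
  have : (i : ℝ) < j := by exact_mod_cast hij
  gcongr

/-- the walls: circles with a gap, alternately on the right and on the left. -/
def Wall (N : ℕ) : Set ℂ :=
  ⋃ j ∈ Finset.range (N + 1), {z : ℂ | ‖z‖ = rr N j ∧ (-1 : ℝ) ^ j * z.re ≤ rr N j / 2}

lemma isCompact_wall (N : ℕ) : IsCompact (Wall N) := by
  unfold Wall
  apply (Finset.range (N + 1)).isCompact_biUnion
  intro j _
  have h1 : IsCompact (Metric.closedBall (0 : ℂ) (rr N j)) := isCompact_closedBall _ _
  have h2 : IsClosed {z : ℂ | ‖z‖ = rr N j ∧ (-1 : ℝ) ^ j * z.re ≤ rr N j / 2} :=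
    (isClosed_eq continuous_norm continuous_const).inter
      (isClosed_le (continuous_const.mul Complex.continuous_re) continuous_const)
  refine h1.of_isClosed_subset h2 ?_
  intro z hz
  rw [mem_closedBall_zero_iff]
  exact hz.1.le

/-- the escape route -/
noncomputable def route (N : ℕ) (t : ℝ) : ℂ :=
  (t : ℂ) * Complex.exp (((Real.pi * ((t - 1 / 2) * (4 * (N + 1))) : ℝ) : ℂ) * Complex.I)

lemma continuous_route (N : ℕ) : Continuous (route N) := by unfold route; fun_prop

lemma norm_route (N : ℕ) {t : ℝ} (ht : 0 ≤ t) : ‖route N t‖ = t := by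
  unfold route
  rw [norm_mul, Complex.norm_exp_ofReal_mul_I, mul_one, Complex.norm_real, Real.norm_eq_abs,
    abs_of_nonneg ht]

lemma route_notMem (N : ℕ) {t : ℝ} (ht : 0 ≤ t) : route N t ∉ Wall N := by
  unfold Wall
  simp only [Finset.mem_range, mem_iUnion, mem_ofPred_eq, exists_prop, not_exists, not_and, not_le]
  intro j _ hj
  rw [norm_route N ht] at hj
  have h1 : (t - 1 / 2) * (4 * ((N : ℝ) + 1)) = j := by
    rw [hj]; unfold rr
    field_simp
    ring
  unfold route
  rw [h1, Complex.re_ofReal_mul, Complex.exp_ofReal_mul_I_re, mul_comm Real.pi, Real.cos_nat_mul_pi]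
  have h2 : (-1 : ℝ) ^ j * (t * (-1) ^ j) = t := by
    have : (-1 : ℝ) ^ j * (-1) ^ j = 1 := by rw [← mul_pow]; norm_num
    linear_combination t * this
  rw [h2, ← hj]
  have := rr_half N j
  rw [← hj] at this
  linarith

/-- **Walls force long paths.** -/
theorem long_path (N : ℕ) (γ : C(unitInterval, ℂ)) (h0 : γ 0 = 0) (h1 : ‖γ 1‖ = 1)
    (hW : ∀ t, γ t ∉ Wall N) : (N : ℝ≥0∞) / 2 ≤ μH[1] (range γ) := by
  classical
  set γ' : ℝ → ℂ := IccExtend zero_le_one γ with hγ'
  have hc : Continuous γ' := γ.continuous.Icc_extend'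
  have hmem : ∀ t, γ' t ∈ range γ := fun t => ⟨_, rfl⟩
  have hγ0 : γ' 0 = 0 := by
    rw [hγ', IccExtend_left]; exact h0
  have hγ1 : ‖γ' 1‖ = 1 := by
    rw [hγ', IccExtend_right]; exact h1
  have hnW : ∀ t, γ' t ∉ Wall N := fun t => hW _
  set A : ℕ → Set ℂ := fun j => {z : ℂ | rr N j < ‖z‖ ∧ ‖z‖ < rr N (j + 1)} with hA
  have hAopen : ∀ j, IsOpen (A j) := fun j =>
    (isOpen_lt continuous_const continuous_norm).inter (isOpen_lt continuous_norm continuous_const)
  have hrange : MeasurableSet (range γ) := (isCompact_range γ.continuous).measurableSet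
  -- each annulus contributes
  have hpiece : ∀ j ∈ Finset.range N, (1 / 2 : ℝ≥0∞) ≤ μH[1] (range γ ∩ A j) := by
    intro j hj
    rw [Finset.mem_range] at hj
    have hab : rr N j < rr N (j + 1) := rr_mono N (Nat.lt_succ_self j)
    obtain ⟨t₁, t₂, ht1, h12, ht2, hs1, hs2, hio⟩ := crossing (s := fun t => ‖γ' t‖) hc.norm hab
      (by simp only [hγ0, norm_zero]; linarith [rr_half N j])
      (by simp only [hγ1]; linarith [rr_lt N (j + 1) (by omega)])
    have hgap : ∀ i ≤ N, ∀ t, ‖γ' t‖ = rr N i → rr N i / 2 < (-1 : ℝ) ^ i * (γ' t).re := by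
      intro i hi t ht
      by_contra hcon
      push Not at hcon
      apply hnW t
      unfold Wall
      simp only [Finset.mem_range, mem_iUnion, mem_ofPred_eq, exists_prop]
      exact ⟨i, by omega, ht, hcon⟩
    have g1 := hgap j (by omega) t₁ hs1
    have g2 := hgap (j + 1) (by omega) t₂ hs2
    set u : ℂ → ℝ := fun z => (-1 : ℝ) ^ j * z.re with hu
    have hlip : LipschitzWith 1 u := by
      apply LipschitzWith.of_dist_le_mul
      intro z w
      rw [hu, Real.dist_eq, ← mul_sub, abs_mul, abs_pow, abs_neg, abs_one, one_pow, one_mul,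
        NNReal.coe_one, one_mul, ← Complex.sub_re, dist_eq_norm]
      exact Complex.abs_re_le_norm _
    have hcu : Continuous fun t => u (γ' t) := hlip.continuous.comp hc
    have hsub : Ioo (-(1 / 4 : ℝ)) (1 / 4) ⊆ u '' (range γ ∩ A j) := by
      intro y hy
      have hiv := intermediate_value_Ioo' h12.le hcu.continuousOn
      have e1 : rr N j / 2 < u (γ' t₁) := g1
      have e2 : u (γ' t₂) < - (rr N (j + 1) / 2) := by
        have : u (γ' t₂) = - ((-1 : ℝ) ^ (j + 1) * (γ' t₂).re) := by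
          rw [hu, pow_succ]; ring
        rw [this]; linarith
      have e3 := rr_half N j
      have e4 := rr_half N (j + 1)
      have hy' : y ∈ Ioo (u (γ' t₂)) (u (γ' t₁)) := ⟨by linarith [hy.1], by linarith [hy.2]⟩
      obtain ⟨t, ht, hty⟩ := hiv hy'
      exact ⟨γ' t, ⟨hmem t, hio t ht⟩, hty⟩
    have hle : μH[1] (u '' (range γ ∩ A j)) ≤ μH[1] (range γ ∩ A j) := by
      have := hlip.hausdorffMeasure_image_le zero_le_one (range γ ∩ A j)
      simpa using this
    refine le_trans ?_ hle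
    refine le_trans ?_ (measure_mono hsub)
    rw [hausdorffMeasure_real, Real.volume_Ioo]
    have : (1 / 4 : ℝ) - -(1 / 4) = 1 / 2 := by norm_num
    rw [this, ENNReal.ofReal_div_of_pos (by norm_num)]
    simp
  have hdisj : Set.PairwiseDisjoint (↑(Finset.range N)) (fun j => range γ ∩ A j) := by
    have key : ∀ i j, i < j → Disjoint (A i) (A j) := by
      intro i j hij
      rw [Set.disjoint_left]
      intro z hz hz'
      have : rr N (i + 1) ≤ rr N j := (rr_mono N).monotone hij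
      have h1 := hz.2
      have h2 := hz'.1
      linarith
    intro i _ j _ hij
    rcases lt_or_gt_of_ne hij with h | h
    · exact (key i j h).mono inter_subset_right inter_subset_right
    · exact (key j i h).symm.mono inter_subset_right inter_subset_right
  calc (N : ℝ≥0∞) / 2 = ∑ _j ∈ Finset.range N, (1 / 2 : ℝ≥0∞) := by
        rw [Finset.sum_const, Finset.card_range, nsmul_eq_mul, mul_one_div]
    _ ≤ ∑ j ∈ Finset.range N, μH[1] (range γ ∩ A j) := Finset.sum_le_sum hpiece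
    _ = μH[1] (⋃ j ∈ Finset.range N, range γ ∩ A j) :=
        (measure_biUnion_finset hdisj (fun j _ => hrange.inter (hAopen j).measurableSet)).symm
    _ ≤ μH[1] (range γ) := by
        apply measure_mono
        simp only [iUnion_subset_iff]
        intro j _
        exact inter_subset_left

/-- The polynomials. -/
theorem exists_polys (N : ℕ) : ∃ n₀ : ℕ, ∀ n ≥ n₀, ∃ f : Polynomial ℂ, f.Monic ∧
    f.natDegree = n ∧ (∀ z, f.eval z = 0 → ‖z‖ ≤ 1) ∧
    ∀ γ : C(unitInterval, ℂ), γ 0 = 0 → ‖γ 1‖ = 1 → (∀ t, ‖f.eval (γ t)‖ ≤ 1) →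
      (N : ℝ≥0∞) / 2 ≤ μH[1] (range γ) := by
  obtain ⟨n₀, hn₀⟩ := walls (Wall N) (isCompact_wall N) (route N '' Ici 0)
    (isPreconnected_Ici.image _ (continuous_route N).continuousOn)
    (by rintro _ ⟨t, ht, rfl⟩; exact route_notMem N ht)
    ⟨0, by simp, by simp [route]⟩
    (by
      intro R
      refine ⟨route N (|R| + 1), ⟨|R| + 1, by simp; positivity, rfl⟩, ?_⟩
      rw [norm_route N (by positivity)]
      linarith [le_abs_self R])
    (show (0 : ℝ) ≤ 3 / 4 by norm_num) (by norm_num)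
    (by
      intro z hz
      unfold Wall at hz
      simp only [Finset.mem_range, mem_iUnion, mem_ofPred_eq, exists_prop] at hz
      obtain ⟨j, hj, hzj, _⟩ := hz
      rw [hzj]
      exact (rr_lt N j (by omega)).le)
  refine ⟨n₀, fun n hn => ?_⟩
  obtain ⟨f, hf1, hf2, hf3, hf4⟩ := hn₀ n hn
  refine ⟨f, hf1, hf2, hf3, fun γ h0 h1 hγ => long_path N γ h0 h1 ?_⟩
  intro t ht
  exact absurd (hγ t) (not_le.mpr (hf4 _ ht))

end Pool.Agent.R263.Esc
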