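import Mathlib

/-!
A one-parameter family of symmetric polynomial hypergroups on `ℕ₀`.

For `0 < e < 1/2` let `c₁ = (1-e)/2`, `c₂ = 1-2e` and, for `k ≥ 1`,
`c_{3k} = e`, `c_{3k+1} = 1/2`, `c_{3k+2} = 1-e`; `a_n = 1 - c_n`, `a_0 = 1`, `b_n = 0`.
We prove that the orthogonal polynomials of this recurrence have nonnegative
linearization of products.
-/

namespace Pool.Agent.R263.Hyp

open Polynomial Finset

/-- The orthogonal polynomial sequence of the recurrence
`X P_n = a_n P_{n+1} + b_n P_n + c_n P_{n-1}`, `P_0 = 1`, `a_0 P_1 = X - b_0`. -/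
noncomputable def ops (a b c : ℕ → ℝ) : ℕ → ℝ[X]
  | 0 => 1
  | 1 => C (a 0)⁻¹ * (X - C (b 0))
  | (n + 2) => C (a (n + 1))⁻¹ *
      (X * ops a b c (n + 1) - C (b (n + 1)) * ops a b c (n + 1) - C (c (n + 1)) * ops a b c n)

/-- the coefficients `c_n` -/
noncomputable def cc (e : ℝ) (n : ℕ) : ℝ :=
  if n = 0 then 0 else if n = 1 then (1 - e) / 2 else if n = 2 then 1 - 2 * e else
    if n % 3 = 0 then e else if n % 3 = 1 then 1 / 2 else 1 - e

/-- the coefficients `a_n = 1 - c_n` -/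
noncomputable def aa (e : ℝ) (n : ℕ) : ℝ := 1 - cc e n

/-- value of the `n`-th polynomial at `x` -/
noncomputable def pv (e x : ℝ) (n : ℕ) : ℝ := (ops (aa e) (fun _ => 0) (cc e) n).eval x

/-- the cubic `w` -/
noncomputable def ww (e x : ℝ) : ℝ := (x ^ 3 - (1 - e + e ^ 2) * x) / (e * (1 - e))

/-- `E_k = T_k(w)` -/
noncomputable def ee (e x : ℝ) (k : ℤ) : ℝ := (Chebyshev.T ℝ k).eval (ww e x)

lemma ee_zero (e x : ℝ) : ee e x 0 = 1 := by simp [ee]
lemma ee_one (e x : ℝ) : ee e x 1 = ww e x := by simp [ee]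

lemma ee_rec (e x : ℝ) (k : ℤ) : ee e x (k + 1) + ee e x (k - 1) = 2 * ww e x * ee e x k := by
  have h := congrArg (fun p : ℝ[X] => p.eval (ww e x)) (Chebyshev.T_add_one ℝ k)
  simp only [eval_sub, eval_mul, eval_ofNat, eval_X] at h
  simp only [ee]
  rw [h]; ring

lemma ee_neg (e x : ℝ) (k : ℤ) : ee e x (-k) = ee e x k := by simp [ee]

lemma ee_mul (e x : ℝ) (j k : ℤ) :
    2 * (ee e x j * ee e x k) = ee e x (j + k) + ee e x (j - k) := by
  have h := congrArg (fun p : ℝ[X] => p.eval (ww e x)) (Chebyshev.T_mul_T ℝ j k)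
  simp only [eval_add, eval_mul, eval_ofNat] at h
  simp only [ee]
  rw [← h]; ring

lemma cc_one (e : ℝ) : cc e 1 = (1 - e) / 2 := by simp [cc]
lemma cc_two (e : ℝ) : cc e 2 = 1 - 2 * e := by simp [cc]
lemma cc_3k (e : ℝ) (k : ℕ) : cc e (3 * k + 3) = e := by
  unfold cc
  rw [if_neg (by omega), if_neg (by omega), if_neg (by omega), if_pos (by omega)]
lemma cc_3k1 (e : ℝ) (k : ℕ) : cc e (3 * k + 4) = 1 / 2 := by
  unfold cc
  rw [if_neg (by omega), if_neg (by omega), if_neg (by omega), if_neg (by omega),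
    if_pos (by omega)]
lemma cc_3k2 (e : ℝ) (k : ℕ) : cc e (3 * k + 5) = 1 - e := by
  unfold cc
  rw [if_neg (by omega), if_neg (by omega), if_neg (by omega), if_neg (by omega),
    if_neg (by omega)]

lemma cc_pos {e : ℝ} (h0 : 0 < e) (h1 : e < 1 / 2) (n : ℕ) (hn : 1 ≤ n) : 0 < cc e n := by
  unfold cc
  split_ifs <;> first | omega | linarith

lemma cc_lt_one {e : ℝ} (h0 : 0 < e) (h1 : e < 1 / 2) (n : ℕ) : cc e n < 1 := by
  unfold cc
  split_ifs <;> linarith

lemma aa_pos {e : ℝ} (h0 : 0 < e) (h1 : e < 1 / 2) (n : ℕ) : 0 < aa e n := by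
  have := cc_lt_one h0 h1 n
  unfold aa; linarith

lemma aa_zero (e : ℝ) : aa e 0 = 1 := by simp [aa, cc]

lemma pv_zero (e x : ℝ) : pv e x 0 = 1 := by simp [pv, ops]
lemma pv_one (e x : ℝ) : pv e x 1 = x := by simp [pv, ops, aa_zero]

lemma pv_rec {e : ℝ} (h0 : 0 < e) (h1 : e < 1 / 2) (x : ℝ) (n : ℕ) :
    x * pv e x (n + 1) = aa e (n + 1) * pv e x (n + 2) + cc e (n + 1) * pv e x n := by
  have ha := (aa_pos h0 h1 (n + 1)).ne'
  have : pv e x (n + 2) = (aa e (n + 1))⁻¹ * (x * pv e x (n + 1) - cc e (n + 1) * pv e x n) := by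
    simp [pv, ops]
  rw [this]
  field_simp
  ring

/-- the value `P_2` -/
noncomputable def p2 (e x : ℝ) : ℝ := (2 * x ^ 2 - (1 - e)) / (1 + e)

lemma pv_two {e : ℝ} (h0 : 0 < e) (h1 : e < 1 / 2) (x : ℝ) : pv e x 2 = p2 e x := by
  have h := pv_rec h0 h1 x 0
  simp only [zero_add, pv_one, pv_zero, cc_one, aa] at h
  unfold p2
  have : (1 + e) ≠ 0 := by linarith
  field_simp
  linarith

/-- The explicit formulas, by blocks of three. -/
lemma pv_block {e : ℝ} (h0 : 0 < e) (h1 : e < 1 / 2) (x : ℝ) (k : ℕ) :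
    pv e x (3 * k + 2) = p2 e x * ee e x k ∧
    pv e x (3 * k + 3) = ((1 - e) * ee e x (k + 1) + 2 * e * x * ee e x k) / (1 + e) ∧
    pv e x (3 * k + 4) = (x * ee e x (k + 1) + e * ee e x k) / (1 + e) := by
  have hs : (1 + e) ≠ 0 := by linarith
  have he : e ≠ 0 := h0.ne'
  have he1 : (1 - e) ≠ 0 := by linarith
  induction k with
  | zero =>
    have h2 := pv_two h0 h1 x
    have h3 : pv e x 3 = ((1 - e) * ee e x 1 + 2 * e * x * ee e x 0) / (1 + e) := by
      have h := pv_rec h0 h1 x 1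
      simp only [show 1 + 1 = 2 from rfl, show 1 + 2 = 3 from rfl, pv_one, cc_two, aa, h2] at h
      rw [ee_one, ee_zero]
      unfold p2 at h
      unfold ww
      field_simp at h ⊢
      nlinarith
    have h4 : pv e x 4 = (x * ee e x 1 + e * ee e x 0) / (1 + e) := by
      have h := pv_rec h0 h1 x 2
      have hc := cc_3k e 0
      simp only [mul_zero, zero_add] at hc
      simp only [show 2 + 1 = 3 from rfl, show 2 + 2 = 4 from rfl, hc, aa, h2, h3] at h
      have h' : pv e x 4 = (x * (((1 - e) * ee e x 1 + 2 * e * x * ee e x 0) / (1 + e))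
          - e * p2 e x) / (1 - e) := by
        rw [h]; field_simp; ring
      rw [h', ee_zero]
      unfold p2
      field_simp
      ring
    refine ⟨?_, ?_, ?_⟩
    · simpa [ee_zero] using h2
    · simpa using h3
    · simpa using h4
  | succ k ih =>
    obtain ⟨ihD, ihA, ihB⟩ := ih
    have hE := ee_rec e x (k + 1)
    rw [show (k : ℤ) + 1 - 1 = k by ring] at hE
    have hD : pv e x (3 * (k + 1) + 2) = p2 e x * ee e x ((k : ℤ) + 1) := by
      have h := pv_rec h0 h1 x (3 * k + 3)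
      rw [cc_3k1 e k, aa, cc_3k1 e k, show 3 * k + 3 + 1 = 3 * k + 4 by ring,
        show 3 * k + 3 + 2 = 3 * (k + 1) + 2 by ring, ihA, ihB] at h
      have h' : pv e x (3 * (k + 1) + 2) =
          2 * (x * ((x * ee e x (k + 1) + e * ee e x k) / (1 + e)))
          - ((1 - e) * ee e x (k + 1) + 2 * e * x * ee e x k) / (1 + e) := by linarith
      rw [h']
      unfold p2
      field_simp
      ring
    have hA : pv e x (3 * (k + 1) + 3) =
        ((1 - e) * ee e x ((k : ℤ) + 1 + 1) + 2 * e * x * ee e x ((k : ℤ) + 1)) / (1 + e) := by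
      have h := pv_rec h0 h1 x (3 * k + 4)
      rw [show 3 * k + 4 + 1 = 3 * k + 5 by ring, cc_3k2 e k, aa, cc_3k2 e k,
        show 3 * k + 5 = 3 * (k + 1) + 2 by ring,
        show 3 * k + 4 + 2 = 3 * (k + 1) + 3 by ring, ihB, hD] at h
      have h' : pv e x (3 * (k + 1) + 3) = (x * (p2 e x * ee e x ((k : ℤ) + 1))
          - (1 - e) * ((x * ee e x (k + 1) + e * ee e x k) / (1 + e))) / e := by
        rw [h]; field_simp; ring
      rw [h']
      have hE' : ee e x ((k : ℤ) + 1 + 1) = 2 * ww e x * ee e x (k + 1) - ee e x k := by linarith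
      rw [hE']
      unfold p2 ww
      field_simp
      ring
    have hB : pv e x (3 * (k + 1) + 4) =
        (x * ee e x ((k : ℤ) + 1 + 1) + e * ee e x ((k : ℤ) + 1)) / (1 + e) := by
      have h := pv_rec h0 h1 x (3 * k + 5)
      have hc := cc_3k e (k + 1)
      rw [show 3 * k + 5 + 1 = 3 * (k + 1) + 3 by ring, hc, aa, hc,
        show 3 * k + 5 = 3 * (k + 1) + 2 by ring,
        show 3 * (k + 1) + 2 + 2 = 3 * (k + 1) + 4 by ring, hD, hA] at h
      have h' : pv e x (3 * (k + 1) + 4) = (x * (((1 - e) * ee e x ((k : ℤ) + 1 + 1)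
          + 2 * e * x * ee e x ((k : ℤ) + 1)) / (1 + e))
          - e * (p2 e x * ee e x ((k : ℤ) + 1))) / (1 - e) := by
        rw [h]; field_simp; ring
      rw [h']
      unfold p2
      field_simp
      ring
    refine ⟨?_, ?_, ?_⟩
    · simpa using hD
    · simpa using hA
    · simpa using hB


/-! ### The cone generated by `P_lo, …, P_hi` -/

/-- `f` is a nonnegative combination of `P_lo, …, P_hi`. -/
def InC (e : ℝ) (lo hi : ℕ) (f : ℝ → ℝ) : Prop :=
  ∃ g : ℕ → ℝ, (∀ k, 0 ≤ g k) ∧ ∀ x, f x = ∑ k ∈ Icc lo hi, g k * pv e x k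

variable {e : ℝ} {lo hi : ℕ} {f f₁ f₂ : ℝ → ℝ}

lemma InC.congr (h : InC e lo hi f₁) (hf : ∀ x, f₂ x = f₁ x) : InC e lo hi f₂ := by
  obtain ⟨g, hg, hs⟩ := h
  exact ⟨g, hg, fun x => by rw [hf, hs]⟩

lemma InC.add (h₁ : InC e lo hi f₁) (h₂ : InC e lo hi f₂) :
    InC e lo hi (fun x => f₁ x + f₂ x) := by
  obtain ⟨g₁, hg₁, hs₁⟩ := h₁
  obtain ⟨g₂, hg₂, hs₂⟩ := h₂
  refine ⟨fun k => g₁ k + g₂ k, fun k => add_nonneg (hg₁ k) (hg₂ k), fun x => ?_⟩
  dsimp only
  rw [hs₁, hs₂, ← sum_add_distrib]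
  exact sum_congr rfl fun k _ => by ring

lemma InC.smul {t : ℝ} (ht : 0 ≤ t) (h : InC e lo hi f) : InC e lo hi (fun x => t * f x) := by
  obtain ⟨g, hg, hs⟩ := h
  refine ⟨fun k => t * g k, fun k => mul_nonneg ht (hg k), fun x => ?_⟩
  dsimp only
  rw [hs, mul_sum]
  exact sum_congr rfl fun k _ => by ring

lemma InC.of_mul {t : ℝ} (ht : 0 < t) (h : InC e lo hi (fun x => t * f x)) : InC e lo hi f := by
  have := InC.smul (inv_nonneg.mpr ht.le) h
  refine this.congr fun x => ?_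
  field_simp

lemma InC.atom (i : ℕ) (h1 : lo ≤ i) (h2 : i ≤ hi) : InC e lo hi (fun x => pv e x i) := by
  refine ⟨fun k => if k = i then 1 else 0, fun k => by positivity, fun x => ?_⟩
  simp [h1, h2]

lemma InC.mono {lo' hi' : ℕ} (h : InC e lo hi f) (h1 : lo' ≤ lo) (h2 : hi ≤ hi') :
    InC e lo' hi' f := by
  obtain ⟨g, hg, hs⟩ := h
  refine ⟨fun k => if k ∈ Icc lo hi then g k else 0, fun k => ?_, fun x => ?_⟩
  · dsimp only; split_ifs
    · exact hg k
    · exact le_rfl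
  · rw [hs]
    have hsub : Icc lo hi ⊆ Icc lo' hi' := Icc_subset_Icc h1 h2
    rw [← sum_subset hsub]
    · refine sum_congr rfl fun k hk => ?_
      simp only [if_pos hk]
    · intro k _ hk
      simp only [if_neg hk, zero_mul]

lemma InC.xatom (h0 : 0 < e) (h1 : e < 1 / 2) (i : ℕ) (hlo : lo ≤ i) (hhi : i + 2 ≤ hi) :
    InC e lo hi (fun x => x * pv e x (i + 1)) := by
  have hA := InC.smul (aa_pos h0 h1 (i + 1)).le (InC.atom (e := e) (lo := lo) (hi := hi) (i + 2)
    (by omega) hhi)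
  have hB := InC.smul (cc_pos h0 h1 (i + 1) (by omega)).le
    (InC.atom (e := e) (lo := lo) (hi := hi) i hlo (by omega))
  exact (hA.add hB).congr fun x => pv_rec h0 h1 x i

lemma pvD (h0 : 0 < e) (h1 : e < 1 / 2) (x : ℝ) (k : ℕ) :
    pv e x (3 * k + 2) = p2 e x * ee e x k := (pv_block h0 h1 x k).1

lemma pvA (h0 : 0 < e) (h1 : e < 1 / 2) (x : ℝ) (k : ℕ) :
    (1 + e) * pv e x (3 * k + 3) = (1 - e) * ee e x (k + 1) + 2 * e * x * ee e x k := by
  rw [(pv_block h0 h1 x k).2.1]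
  have : (1 + e) ≠ 0 := by linarith
  field_simp

lemma pvB (h0 : 0 < e) (h1 : e < 1 / 2) (x : ℝ) (k : ℕ) :
    (1 + e) * pv e x (3 * k + 4) = x * ee e x (k + 1) + e * ee e x k := by
  rw [(pv_block h0 h1 x k).2.2]
  have : (1 + e) ≠ 0 := by linarith
  field_simp

lemma p2_eq (h0 : 0 < e) (x : ℝ) : (1 + e) * p2 e x = 2 * x ^ 2 - (1 - e) := by
  unfold p2
  have : (1 + e) ≠ 0 := by linarith
  field_simp

lemma ww_eq (h0 : 0 < e) (h1 : e < 1 / 2) (x : ℝ) :
    e * (1 - e) * ww e x = x ^ 3 - (1 - e + e ^ 2) * x := by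
  unfold ww
  have : e ≠ 0 := h0.ne'
  have : (1 - e) ≠ 0 := by linarith
  field_simp

/-- product with argument bookkeeping -/
lemma ee_mul' (e x : ℝ) (j k s d : ℤ) (hs : j + k = s) (hd : j - k = d ∨ k - j = d) :
    2 * (ee e x j * ee e x k) = ee e x s + ee e x d := by
  rw [ee_mul, hs]
  rcases hd with hd | hd
  · rw [hd]
  · rw [← ee_neg e x (j - k), neg_sub, hd]

/-! ### `P_2² E_n` -/

lemma p2sq_zero (h0 : 0 < e) (h1 : e < 1 / 2) (x : ℝ) :
    (1 + e) * (p2 e x * p2 e x * ee e x 0) = 4 * e * (1 - e) * pv e x 4 + 2 * e ^ 2 * pv e x 2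
      + (1 - e) * (1 - 2 * e) * pv e x 0 := by
  have hB := pvB h0 h1 x 0
  simp only [mul_zero, zero_add, Nat.cast_zero] at hB
  rw [ee_one, ee_zero] at hB
  have h2 := pv_two h0 h1 x
  have hp := p2_eq h0 x
  have hw := ww_eq h0 h1 x
  rw [ee_zero, h2, pv_zero]
  have hs : (1 + e) ≠ 0 := by linarith
  apply mul_left_cancel₀ hs
  linear_combination (((1 + e) * p2 e x) + 2 * x ^ 2 - (1 - e) - 2 * e ^ 2) * hp
    - 4 * e * (1 - e) * hB - 4 * x * hw

lemma p2sq_succ (h0 : 0 < e) (h1 : e < 1 / 2) (x : ℝ) (m : ℕ) :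
    (1 + e) * (p2 e x * p2 e x * ee e x (m + 1)) = 2 * e * (1 - e) * pv e x (3 * (m + 1) + 4)
      + (1 - e) * pv e x (3 * m + 3) + 2 * e ^ 2 * pv e x (3 * (m + 1) + 2) := by
  have hB := pvB h0 h1 x (m + 1)
  have hA := pvA h0 h1 x m
  have hD := pvD h0 h1 x (m + 1)
  have hE := ee_rec e x (m + 1)
  rw [show (m : ℤ) + 1 - 1 = m by ring] at hE
  push_cast at hB hA hD
  rw [hD]
  have hp := p2_eq h0 x
  have hw := ww_eq h0 h1 x
  have hs : (1 + e) ≠ 0 := by linarith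
  apply mul_left_cancel₀ hs
  linear_combination ((((1 + e) * p2 e x) + 2 * x ^ 2 - (1 - e) - 2 * e ^ 2)
      * ee e x (m + 1)) * hp
    - 2 * e * (1 - e) * hB - (1 - e) * hA - 4 * x * ee e x (m + 1) * hw
    - 2 * e * (1 - e) * x * hE

lemma inC_p2sq (h0 : 0 < e) (h1 : e < 1 / 2) (n : ℕ) :
    InC e (3 * n) (3 * n + 4) (fun x => p2 e x * p2 e x * ee e x n) := by
  have hs : 0 < 1 + e := by linarith
  apply InC.of_mul hs
  rcases n with _ | m
  · have a := InC.smul (show 0 ≤ 4 * e * (1 - e) by nlinarith)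
      (InC.atom (e := e) (lo := 3 * 0) (hi := 3 * 0 + 4) 4 (by omega) (by omega))
    have b := InC.smul (show 0 ≤ 2 * e ^ 2 by positivity)
      (InC.atom (e := e) (lo := 3 * 0) (hi := 3 * 0 + 4) 2 (by omega) (by omega))
    have c := InC.smul (show 0 ≤ (1 - e) * (1 - 2 * e) by nlinarith)
      (InC.atom (e := e) (lo := 3 * 0) (hi := 3 * 0 + 4) 0 (by omega) (by omega))
    exact ((a.add b).add c).congr fun x => by
      simpa using p2sq_zero h0 h1 x
  · have a := InC.smul (show 0 ≤ 2 * e * (1 - e) by nlinarith)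
      (InC.atom (e := e) (lo := 3 * (m + 1)) (hi := 3 * (m + 1) + 4) (3 * (m + 1) + 4)
        (by omega) (by omega))
    have b := InC.smul (show 0 ≤ (1 - e) by nlinarith)
      (InC.atom (e := e) (lo := 3 * (m + 1)) (hi := 3 * (m + 1) + 4) (3 * m + 3)
        (by omega) (by omega))
    have c := InC.smul (show 0 ≤ 2 * e ^ 2 by positivity)
      (InC.atom (e := e) (lo := 3 * (m + 1)) (hi := 3 * (m + 1) + 4) (3 * (m + 1) + 2)
        (by omega) (by omega))
    exact ((a.add b).add c).congr fun x => by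
      have := p2sq_succ h0 h1 x m
      push_cast
      linarith


/-! ### The products -/

/-- `D_j D_{j+d}` -/
lemma prodDD (h0 : 0 < e) (h1 : e < 1 / 2) (j d : ℕ) :
    InC e (3 * d) (6 * j + 3 * d + 4)
      (fun x => pv e x (3 * j + 2) * pv e x (3 * (j + d) + 2)) := by
  apply InC.of_mul (t := 2) (by norm_num)
  have a := (inC_p2sq h0 h1 (2 * j + d)).mono (lo' := 3 * d) (hi' := 6 * j + 3 * d + 4)
    (by omega) (by omega)
  have b := (inC_p2sq h0 h1 d).mono (lo' := 3 * d) (hi' := 6 * j + 3 * d + 4)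
    (by omega) (by omega)
  refine (a.add b).congr fun x => ?_
  rw [pvD h0 h1, pvD h0 h1]
  have m := ee_mul' e x j ((j + d : ℕ) : ℤ) ((2 * j + d : ℕ) : ℤ) d (by push_cast; ring)
    (by right; push_cast; ring)
  linear_combination (p2 e x * p2 e x) * m

/-- `A_{j+1} D_k` -/
lemma prodAD_aux (h0 : 0 < e) (h1 : e < 1 / 2) (j k u v : ℕ)
    (hu : ((j : ℤ) + 1 - k = u) ∨ ((k : ℤ) - (j + 1) = u))
    (hv : ((j : ℤ) - k = v) ∨ ((k : ℤ) - j = v)) (x : ℝ) :
    2 * (1 + e) * (pv e x (3 * j + 3) * pv e x (3 * k + 2)) =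
      (1 - e) * (pv e x (3 * (j + k + 1) + 2) + pv e x (3 * u + 2))
        + 2 * e * (x * pv e x (3 * (j + k) + 2) + x * pv e x (3 * v + 2)) := by
  rw [pvD h0 h1 x k, pvD h0 h1 x (j + k + 1), pvD h0 h1 x u, pvD h0 h1 x (j + k),
    pvD h0 h1 x v]
  have hA := pvA h0 h1 x j
  have m1 := ee_mul' e x ((j : ℤ) + 1) k ((j + k + 1 : ℕ) : ℤ) u (by push_cast; ring) hu
  have m2 := ee_mul' e x (j : ℤ) k ((j + k : ℕ) : ℤ) v (by push_cast; ring) hv
  linear_combination (2 * p2 e x * ee e x k) * hA + ((1 - e) * p2 e x) * m1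
    + (2 * e * x * p2 e x) * m2

/-- `B_{j+1} D_k` -/
lemma prodBD_aux (h0 : 0 < e) (h1 : e < 1 / 2) (j k u v : ℕ)
    (hu : ((j : ℤ) + 1 - k = u) ∨ ((k : ℤ) - (j + 1) = u))
    (hv : ((j : ℤ) - k = v) ∨ ((k : ℤ) - j = v)) (x : ℝ) :
    2 * (1 + e) * (pv e x (3 * j + 4) * pv e x (3 * k + 2)) =
      (x * pv e x (3 * (j + k + 1) + 2) + x * pv e x (3 * u + 2))
        + e * (pv e x (3 * (j + k) + 2) + pv e x (3 * v + 2)) := by
  rw [pvD h0 h1 x k, pvD h0 h1 x (j + k + 1), pvD h0 h1 x u, pvD h0 h1 x (j + k),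
    pvD h0 h1 x v]
  have hB := pvB h0 h1 x j
  have m1 := ee_mul' e x ((j : ℤ) + 1) k ((j + k + 1 : ℕ) : ℤ) u (by push_cast; ring) hu
  have m2 := ee_mul' e x (j : ℤ) k ((j + k : ℕ) : ℤ) v (by push_cast; ring) hv
  linear_combination (2 * p2 e x * ee e x k) * hB + (x * p2 e x) * m1
    + (e * p2 e x) * m2

/-- the index interval of a product -/
lemma prodAD (h0 : 0 < e) (h1 : e < 1 / 2) (j k : ℕ) :
    InC e (max (3 * j + 3) (3 * k + 2) - min (3 * j + 3) (3 * k + 2))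
      (3 * j + 3 + (3 * k + 2)) (fun x => pv e x (3 * j + 3) * pv e x (3 * k + 2)) := by
  have hs : 0 < 2 * (1 + e) := by linarith
  apply InC.of_mul hs
  set L := max (3 * j + 3) (3 * k + 2) - min (3 * j + 3) (3 * k + 2) with hL
  set H := 3 * j + 3 + (3 * k + 2) with hH
  rcases Nat.lt_or_ge j k with hjk | hjk
  · obtain ⟨d, rfl⟩ := Nat.exists_eq_add_of_lt hjk
    -- k = j + d + 1
    have a := InC.smul (show 0 ≤ 1 - e by linarith)
      ((InC.atom (e := e) (lo := L) (hi := H) (3 * (j + (j + d + 1) + 1) + 2)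
        (by omega) (by omega)).add
      (InC.atom (e := e) (lo := L) (hi := H) (3 * d + 2) (by omega) (by omega)))
    have b := InC.smul (show 0 ≤ 2 * e by linarith)
      ((InC.xatom (lo := L) (hi := H) h0 h1 (3 * (j + (j + d + 1)) + 1)
        (by omega) (by omega)).add
      (InC.xatom (lo := L) (hi := H) h0 h1 (3 * (d + 1) + 1) (by omega) (by omega)))
    exact (a.add b).congr fun x => prodAD_aux h0 h1 j (j + d + 1) d (d + 1)
      (by right; push_cast; ring) (by right; push_cast; ring) x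
  · obtain ⟨d, rfl⟩ := Nat.exists_eq_add_of_le hjk
    -- j = k + d
    have a := InC.smul (show 0 ≤ 1 - e by linarith)
      ((InC.atom (e := e) (lo := L) (hi := H) (3 * (k + d + k + 1) + 2)
        (by omega) (by omega)).add
      (InC.atom (e := e) (lo := L) (hi := H) (3 * (d + 1) + 2) (by omega) (by omega)))
    have b := InC.smul (show 0 ≤ 2 * e by linarith)
      ((InC.xatom (lo := L) (hi := H) h0 h1 (3 * (k + d + k) + 1)
        (by omega) (by omega)).add
      (InC.xatom (lo := L) (hi := H) h0 h1 (3 * d + 1) (by omega) (by omega)))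
    exact (a.add b).congr fun x => prodAD_aux h0 h1 (k + d) k (d + 1) d
      (by left; push_cast; ring) (by left; push_cast; ring) x

lemma prodBD (h0 : 0 < e) (h1 : e < 1 / 2) (j k : ℕ) :
    InC e (max (3 * j + 4) (3 * k + 2) - min (3 * j + 4) (3 * k + 2))
      (3 * j + 4 + (3 * k + 2)) (fun x => pv e x (3 * j + 4) * pv e x (3 * k + 2)) := by
  have hs : 0 < 2 * (1 + e) := by linarith
  apply InC.of_mul hs
  set L := max (3 * j + 4) (3 * k + 2) - min (3 * j + 4) (3 * k + 2) with hL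
  set H := 3 * j + 4 + (3 * k + 2) with hH
  rcases Nat.lt_or_ge j k with hjk | hjk
  · obtain ⟨d, rfl⟩ := Nat.exists_eq_add_of_lt hjk
    have a := ((InC.xatom (lo := L) (hi := H) h0 h1 (3 * (j + (j + d + 1) + 1) + 1)
        (by omega) (by omega)).add
      (InC.xatom (lo := L) (hi := H) h0 h1 (3 * d + 1) (by omega) (by omega)))
    have b := InC.smul (show 0 ≤ e by linarith)
      ((InC.atom (e := e) (lo := L) (hi := H) (3 * (j + (j + d + 1)) + 2)
        (by omega) (by omega)).add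
      (InC.atom (e := e) (lo := L) (hi := H) (3 * (d + 1) + 2) (by omega) (by omega)))
    exact (a.add b).congr fun x => prodBD_aux h0 h1 j (j + d + 1) d (d + 1)
      (by right; push_cast; ring) (by right; push_cast; ring) x
  · obtain ⟨d, rfl⟩ := Nat.exists_eq_add_of_le hjk
    have a := ((InC.xatom (lo := L) (hi := H) h0 h1 (3 * (k + d + k + 1) + 1)
        (by omega) (by omega)).add
      (InC.xatom (lo := L) (hi := H) h0 h1 (3 * (d + 1) + 1) (by omega) (by omega)))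
    have b := InC.smul (show 0 ≤ e by linarith)
      ((InC.atom (e := e) (lo := L) (hi := H) (3 * (k + d + k) + 2)
        (by omega) (by omega)).add
      (InC.atom (e := e) (lo := L) (hi := H) (3 * d + 2) (by omega) (by omega)))
    exact (a.add b).congr fun x => prodBD_aux h0 h1 (k + d) k (d + 1) d
      (by left; push_cast; ring) (by left; push_cast; ring) x

/-- `A_{j+1} A_{j+1}` -/
lemma prodAA0 (h0 : 0 < e) (h1 : e < 1 / 2) (j : ℕ) (x : ℝ) :
    2 * (1 + e) * (pv e x (3 * j + 3) * pv e x (3 * j + 3)) =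
      (1 - e) * pv e x (3 * (2 * j + 1) + 3) + 2 * e * (x * pv e x (3 * (2 * j) + 3))
      + 2 * e * (x * pv e x 3) + 2 * e * (1 - e) * pv e x 4
      + (1 - e) * (1 - 2 * e) * pv e x 0 := by
  have hs : (1 + e) ≠ 0 := by linarith
  have hA := pvA h0 h1 x j
  have hn := pvA h0 h1 x (2 * j + 1)
  have hn1 := pvA h0 h1 x (2 * j)
  have a3 := pvA h0 h1 x 0
  have a4 := pvB h0 h1 x 0
  simp only [mul_zero, zero_add, Nat.cast_zero] at a3 a4
  rw [ee_one, ee_zero] at a3 a4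
  have m1 := ee_mul' e x ((j : ℤ) + 1) ((j : ℤ) + 1) (((2 * j + 1 : ℕ) : ℤ) + 1) 0
    (by push_cast; ring) (by left; ring)
  have m2 := ee_mul' e x (j : ℤ) (j : ℤ) ((2 * j : ℕ) : ℤ) 0
    (by push_cast; ring) (by left; ring)
  have m3 := ee_mul' e x ((j : ℤ) + 1) (j : ℤ) (((2 * j : ℕ) : ℤ) + 1) 1
    (by push_cast; ring) (by left; ring)
  rw [show (((2 * j + 1 : ℕ) : ℤ)) = ((2 * j : ℕ) : ℤ) + 1 by push_cast; ring] at hn m1
  rw [ee_zero] at m1 m2
  rw [ee_one] at m3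
  rw [pv_zero]
  apply mul_left_cancel₀ hs
  linear_combination (2 * ((1 + e) * pv e x (3 * j + 3)) + 2 * ((1 - e) * ee e x (j + 1)
      + 2 * e * x * ee e x j)) * hA
    + (1 - e) ^ 2 * m1 + 4 * e ^ 2 * x ^ 2 * m2 + 4 * e * (1 - e) * x * m3
    - (1 - e) * hn - 2 * e * x * hn1 - 2 * e * x * a3 - 2 * e * (1 - e) * a4

/-- `A_{j+1} A_{j+d+2}` -/
lemma prodAA1 (h0 : 0 < e) (h1 : e < 1 / 2) (j d : ℕ) (x : ℝ) :
    2 * (1 + e) * (pv e x (3 * j + 3) * pv e x (3 * (j + d + 1) + 3)) =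
      (1 - e) * pv e x (3 * (2 * j + d + 2) + 3) + 2 * e * (x * pv e x (3 * (2 * j + d + 1) + 3))
      + (1 - e) * pv e x (3 * d + 3) + 2 * e * (x * pv e x (3 * (d + 1) + 3)) := by
  have hs : (1 + e) ≠ 0 := by linarith
  have hA := pvA h0 h1 x j
  have hA' := pvA h0 h1 x (j + d + 1)
  have hn := pvA h0 h1 x (2 * j + d + 2)
  have hn1 := pvA h0 h1 x (2 * j + d + 1)
  have a1 := pvA h0 h1 x d
  have a2 := pvA h0 h1 x (d + 1)
  push_cast at hA' hn hn1 a1 a2
  have m1 := ee_mul' e x ((j : ℤ) + 1) ((j : ℤ) + d + 1 + 1) (2 * (j : ℤ) + d + 2 + 1) (d + 1)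
    (by ring) (by right; ring)
  have m2 := ee_mul' e x (j : ℤ) ((j : ℤ) + d + 1) (2 * (j : ℤ) + d + 1) (d + 1)
    (by ring) (by right; ring)
  have m3 := ee_mul' e x ((j : ℤ) + 1) ((j : ℤ) + d + 1) (2 * (j : ℤ) + d + 2) d
    (by ring) (by right; ring)
  have m4 := ee_mul' e x (j : ℤ) ((j : ℤ) + d + 1 + 1) (2 * (j : ℤ) + d + 2) (d + 1 + 1)
    (by ring) (by right; ring)
  rw [show (2 * (j : ℤ) + d + 1 + 1) = 2 * (j : ℤ) + d + 2 by ring] at hn1
  apply mul_left_cancel₀ hs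
  linear_combination (2 * ((1 + e) * pv e x (3 * (j + d + 1) + 3))) * hA
    + 2 * ((1 - e) * ee e x (j + 1) + 2 * e * x * ee e x j) * hA'
    + (1 - e) ^ 2 * m1 + 4 * e ^ 2 * x ^ 2 * m2 + 2 * e * (1 - e) * x * m3
    + 2 * e * (1 - e) * x * m4
    - (1 - e) * hn - 2 * e * x * hn1 - (1 - e) * a1 - 2 * e * x * a2

/-- `B_{j+1} B_{j+1}` -/
lemma prodBB0 (h0 : 0 < e) (h1 : e < 1 / 2) (j : ℕ) (x : ℝ) :
    2 * (1 + e) * (pv e x (3 * j + 4) * pv e x (3 * j + 4)) =
      x * pv e x (3 * (2 * j + 1) + 4) + e * pv e x (3 * (2 * j) + 4)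
      + 1 / 2 * pv e x 2 + 2 * e * pv e x 4 + (1 - 2 * e) / 2 * pv e x 0 := by
  have hs : (1 + e) ≠ 0 := by linarith
  have hA := pvB h0 h1 x j
  have hn := pvB h0 h1 x (2 * j + 1)
  have hn1 := pvB h0 h1 x (2 * j)
  have h2 := pv_two h0 h1 x
  have hp := p2_eq h0 x
  have a4 := pvB h0 h1 x 0
  simp only [mul_zero, zero_add, Nat.cast_zero] at a4
  rw [ee_one, ee_zero] at a4
  have m1 := ee_mul' e x ((j : ℤ) + 1) ((j : ℤ) + 1) (((2 * j + 1 : ℕ) : ℤ) + 1) 0
    (by push_cast; ring) (by left; ring)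
  have m2 := ee_mul' e x (j : ℤ) (j : ℤ) ((2 * j : ℕ) : ℤ) 0
    (by push_cast; ring) (by left; ring)
  have m3 := ee_mul' e x ((j : ℤ) + 1) (j : ℤ) (((2 * j : ℕ) : ℤ) + 1) 1
    (by push_cast; ring) (by left; ring)
  rw [show (((2 * j + 1 : ℕ) : ℤ)) = ((2 * j : ℕ) : ℤ) + 1 by push_cast; ring] at hn m1
  rw [ee_zero] at m1 m2
  rw [ee_one] at m3
  rw [pv_zero, h2]
  apply mul_left_cancel₀ hs
  linear_combination (2 * ((1 + e) * pv e x (3 * j + 4)) + 2 * (x * ee e x (j + 1)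
      + e * ee e x j)) * hA
    + x ^ 2 * m1 + e ^ 2 * m2 + 2 * e * x * m3
    - x * hn - e * hn1 - 1 / 2 * hp - 2 * e * a4

/-- `B_{j+1} B_{j+d+2}` -/
lemma prodBB1 (h0 : 0 < e) (h1 : e < 1 / 2) (j d : ℕ) (x : ℝ) :
    2 * (1 + e) * (pv e x (3 * j + 4) * pv e x (3 * (j + d + 1) + 4)) =
      x * pv e x (3 * (2 * j + d + 2) + 4) + e * pv e x (3 * (2 * j + d + 1) + 4)
      + x * pv e x (3 * d + 4) + e * pv e x (3 * (d + 1) + 4) := by
  have hs : (1 + e) ≠ 0 := by linarith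
  have hA := pvB h0 h1 x j
  have hA' := pvB h0 h1 x (j + d + 1)
  have hn := pvB h0 h1 x (2 * j + d + 2)
  have hn1 := pvB h0 h1 x (2 * j + d + 1)
  have a1 := pvB h0 h1 x d
  have a2 := pvB h0 h1 x (d + 1)
  push_cast at hA' hn hn1 a1 a2
  have m1 := ee_mul' e x ((j : ℤ) + 1) ((j : ℤ) + d + 1 + 1) (2 * (j : ℤ) + d + 2 + 1) (d + 1)
    (by ring) (by right; ring)
  have m2 := ee_mul' e x (j : ℤ) ((j : ℤ) + d + 1) (2 * (j : ℤ) + d + 1) (d + 1)
    (by ring) (by right; ring)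
  have m3 := ee_mul' e x ((j : ℤ) + 1) ((j : ℤ) + d + 1) (2 * (j : ℤ) + d + 2) d
    (by ring) (by right; ring)
  have m4 := ee_mul' e x (j : ℤ) ((j : ℤ) + d + 1 + 1) (2 * (j : ℤ) + d + 2) (d + 1 + 1)
    (by ring) (by right; ring)
  rw [show (2 * (j : ℤ) + d + 1 + 1) = 2 * (j : ℤ) + d + 2 by ring] at hn1
  apply mul_left_cancel₀ hs
  linear_combination (2 * ((1 + e) * pv e x (3 * (j + d + 1) + 4))) * hA
    + 2 * (x * ee e x (j + 1) + e * ee e x j) * hA'
    + x ^ 2 * m1 + e ^ 2 * m2 + e * x * m3 + e * x * m4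
    - x * hn - e * hn1 - x * a1 - e * a2

/-- `A_{j+1} B_{j+1}` -/
lemma prodAB0 (h0 : 0 < e) (h1 : e < 1 / 2) (j : ℕ) (x : ℝ) :
    2 * (1 + e) * (pv e x (3 * j + 3) * pv e x (3 * j + 4)) =
      (1 - e) * pv e x (3 * (2 * j + 1) + 4) + 2 * e * (x * pv e x (3 * (2 * j) + 4))
      + 2 * e * (x * pv e x 4) + (1 - 2 * e) * pv e x 1 + e * pv e x 3 := by
  have hs : (1 + e) ≠ 0 := by linarith
  have hA := pvA h0 h1 x j
  have hB := pvB h0 h1 x j
  have hn := pvB h0 h1 x (2 * j + 1)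
  have hn1 := pvB h0 h1 x (2 * j)
  have a3 := pvA h0 h1 x 0
  have a4 := pvB h0 h1 x 0
  simp only [mul_zero, zero_add, Nat.cast_zero] at a3 a4
  rw [ee_one, ee_zero] at a3 a4
  have m1 := ee_mul' e x ((j : ℤ) + 1) ((j : ℤ) + 1) (((2 * j + 1 : ℕ) : ℤ) + 1) 0
    (by push_cast; ring) (by left; ring)
  have m2 := ee_mul' e x (j : ℤ) (j : ℤ) ((2 * j : ℕ) : ℤ) 0
    (by push_cast; ring) (by left; ring)
  have m3 := ee_mul' e x ((j : ℤ) + 1) (j : ℤ) (((2 * j : ℕ) : ℤ) + 1) 1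
    (by push_cast; ring) (by left; ring)
  rw [show (((2 * j + 1 : ℕ) : ℤ)) = ((2 * j : ℕ) : ℤ) + 1 by push_cast; ring] at hn m1
  rw [ee_zero] at m1 m2
  rw [ee_one] at m3
  rw [pv_one]
  apply mul_left_cancel₀ hs
  linear_combination (2 * ((1 + e) * pv e x (3 * j + 4))) * hA
    + 2 * ((1 - e) * ee e x (j + 1) + 2 * e * x * ee e x j) * hB
    + (1 - e) * x * m1 + 2 * e ^ 2 * x * m2 + (e * (1 - e) + 2 * e * x ^ 2) * m3
    - (1 - e) * hn - 2 * e * x * hn1 - 2 * e * x * a4 - e * a3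

/-- `A_{j+1} B_{j+d+2}` -/
lemma prodAB1 (h0 : 0 < e) (h1 : e < 1 / 2) (j d : ℕ) (x : ℝ) :
    2 * (1 + e) * (pv e x (3 * j + 3) * pv e x (3 * (j + d + 1) + 4)) =
      (1 - e) * pv e x (3 * (2 * j + d + 2) + 4) + 2 * e * (x * pv e x (3 * (2 * j + d + 1) + 4))
      + (1 - e) * pv e x (3 * d + 4) + 2 * e * (x * pv e x (3 * (d + 1) + 4)) := by
  have hs : (1 + e) ≠ 0 := by linarith
  have hA := pvA h0 h1 x j
  have hA' := pvB h0 h1 x (j + d + 1)
  have hn := pvB h0 h1 x (2 * j + d + 2)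
  have hn1 := pvB h0 h1 x (2 * j + d + 1)
  have a1 := pvB h0 h1 x d
  have a2 := pvB h0 h1 x (d + 1)
  push_cast at hA' hn hn1 a1 a2
  have m1 := ee_mul' e x ((j : ℤ) + 1) ((j : ℤ) + d + 1 + 1) (2 * (j : ℤ) + d + 2 + 1) (d + 1)
    (by ring) (by right; ring)
  have m2 := ee_mul' e x (j : ℤ) ((j : ℤ) + d + 1) (2 * (j : ℤ) + d + 1) (d + 1)
    (by ring) (by right; ring)
  have m3 := ee_mul' e x ((j : ℤ) + 1) ((j : ℤ) + d + 1) (2 * (j : ℤ) + d + 2) d
    (by ring) (by right; ring)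
  have m4 := ee_mul' e x (j : ℤ) ((j : ℤ) + d + 1 + 1) (2 * (j : ℤ) + d + 2) (d + 1 + 1)
    (by ring) (by right; ring)
  rw [show (2 * (j : ℤ) + d + 1 + 1) = 2 * (j : ℤ) + d + 2 by ring] at hn1
  apply mul_left_cancel₀ hs
  linear_combination (2 * ((1 + e) * pv e x (3 * (j + d + 1) + 4))) * hA
    + 2 * ((1 - e) * ee e x (j + 1) + 2 * e * x * ee e x j) * hA'
    + (1 - e) * x * m1 + 2 * e ^ 2 * x * m2 + e * (1 - e) * m3 + 2 * e * x ^ 2 * m4
    - (1 - e) * hn - 2 * e * x * hn1 - (1 - e) * a1 - 2 * e * x * a2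

/-- `A_{k+d+2} B_{k+1}` -/
lemma prodAB2 (h0 : 0 < e) (h1 : e < 1 / 2) (k d : ℕ) (x : ℝ) :
    2 * (1 + e) * (pv e x (3 * (k + d + 1) + 3) * pv e x (3 * k + 4)) =
      (1 - e) * pv e x (3 * (2 * k + d + 2) + 4) + 2 * e * (x * pv e x (3 * (2 * k + d + 1) + 4))
      + e * pv e x (3 * (d + 1) + 3) + x * pv e x (3 * d + 3) := by
  have hs : (1 + e) ≠ 0 := by linarith
  have hA := pvA h0 h1 x (k + d + 1)
  have hB := pvB h0 h1 x k
  have hn := pvB h0 h1 x (2 * k + d + 2)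
  have hn1 := pvB h0 h1 x (2 * k + d + 1)
  have a1 := pvA h0 h1 x d
  have a2 := pvA h0 h1 x (d + 1)
  push_cast at hA hn hn1 a1 a2
  have m1 := ee_mul' e x ((k : ℤ) + d + 1 + 1) ((k : ℤ) + 1) (2 * (k : ℤ) + d + 2 + 1) (d + 1)
    (by ring) (by left; ring)
  have m2 := ee_mul' e x ((k : ℤ) + d + 1) (k : ℤ) (2 * (k : ℤ) + d + 1) (d + 1)
    (by ring) (by left; ring)
  have m3 := ee_mul' e x ((k : ℤ) + d + 1) ((k : ℤ) + 1) (2 * (k : ℤ) + d + 2) d
    (by ring) (by left; ring)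
  have m4 := ee_mul' e x ((k : ℤ) + d + 1 + 1) (k : ℤ) (2 * (k : ℤ) + d + 2) (d + 1 + 1)
    (by ring) (by left; ring)
  rw [show (2 * (k : ℤ) + d + 1 + 1) = 2 * (k : ℤ) + d + 2 by ring] at hn1
  apply mul_left_cancel₀ hs
  linear_combination (2 * ((1 + e) * pv e x (3 * k + 4))) * hA
    + 2 * ((1 - e) * ee e x (k + d + 1 + 1) + 2 * e * x * ee e x (k + d + 1)) * hB
    + (1 - e) * x * m1 + 2 * e ^ 2 * x * m2 + 2 * e * x ^ 2 * m3 + e * (1 - e) * m4
    - (1 - e) * hn - 2 * e * x * hn1 - e * a2 - x * a1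


lemma prodAA (h0 : 0 < e) (h1 : e < 1 / 2) (j d : ℕ) :
    InC e (3 * d) (6 * j + 3 * d + 6)
      (fun x => pv e x (3 * j + 3) * pv e x (3 * (j + d) + 3)) := by
  have hs : 0 < 2 * (1 + e) := by linarith
  apply InC.of_mul hs
  rcases d with _ | d
  · set L := 3 * 0 with hL
    set H := 6 * j + 3 * 0 + 6 with hH
    have a := InC.smul (show 0 ≤ 1 - e by linarith)
      (InC.atom (e := e) (lo := L) (hi := H) (3 * (2 * j + 1) + 3) (by omega) (by omega))
    have b := InC.smul (show 0 ≤ 2 * e by linarith)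
      (InC.xatom (lo := L) (hi := H) h0 h1 (3 * (2 * j) + 2) (by omega) (by omega))
    have c := InC.smul (show 0 ≤ 2 * e by linarith)
      (InC.xatom (lo := L) (hi := H) h0 h1 2 (by omega) (by omega))
    have d := InC.smul (show 0 ≤ 2 * e * (1 - e) by nlinarith)
      (InC.atom (e := e) (lo := L) (hi := H) 4 (by omega) (by omega))
    have f := InC.smul (show 0 ≤ (1 - e) * (1 - 2 * e) by nlinarith)
      (InC.atom (e := e) (lo := L) (hi := H) 0 (by omega) (by omega))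
    exact ((((a.add b).add c).add d).add f).congr fun x => prodAA0 h0 h1 j x
  · set L := 3 * (d + 1) with hL
    set H := 6 * j + 3 * (d + 1) + 6 with hH
    have a := InC.smul (show 0 ≤ 1 - e by linarith)
      (InC.atom (e := e) (lo := L) (hi := H) (3 * (2 * j + d + 2) + 3) (by omega) (by omega))
    have b := InC.smul (show 0 ≤ 2 * e by linarith)
      (InC.xatom (lo := L) (hi := H) h0 h1 (3 * (2 * j + d + 1) + 2) (by omega) (by omega))
    have c := InC.smul (show 0 ≤ 1 - e by linarith)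
      (InC.atom (e := e) (lo := L) (hi := H) (3 * d + 3) (by omega) (by omega))
    have f := InC.smul (show 0 ≤ 2 * e by linarith)
      (InC.xatom (lo := L) (hi := H) h0 h1 (3 * (d + 1) + 2) (by omega) (by omega))
    exact (((a.add b).add c).add f).congr fun x => by
      rw [← add_assoc j d 1]; exact prodAA1 h0 h1 j d x

lemma prodBB (h0 : 0 < e) (h1 : e < 1 / 2) (j d : ℕ) :
    InC e (3 * d) (6 * j + 3 * d + 8)
      (fun x => pv e x (3 * j + 4) * pv e x (3 * (j + d) + 4)) := by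
  have hs : 0 < 2 * (1 + e) := by linarith
  apply InC.of_mul hs
  rcases d with _ | d
  · set L := 3 * 0 with hL
    set H := 6 * j + 3 * 0 + 8 with hH
    have a := (InC.xatom (lo := L) (hi := H) h0 h1 (3 * (2 * j + 1) + 3) (by omega) (by omega))
    have b := InC.smul (show 0 ≤ e by linarith)
      (InC.atom (e := e) (lo := L) (hi := H) (3 * (2 * j) + 4) (by omega) (by omega))
    have c := InC.smul (show (0 : ℝ) ≤ 1 / 2 by norm_num)
      (InC.atom (e := e) (lo := L) (hi := H) 2 (by omega) (by omega))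
    have d := InC.smul (show 0 ≤ 2 * e by linarith)
      (InC.atom (e := e) (lo := L) (hi := H) 4 (by omega) (by omega))
    have f := InC.smul (show 0 ≤ (1 - 2 * e) / 2 by linarith)
      (InC.atom (e := e) (lo := L) (hi := H) 0 (by omega) (by omega))
    exact ((((a.add b).add c).add d).add f).congr fun x => prodBB0 h0 h1 j x
  · set L := 3 * (d + 1) with hL
    set H := 6 * j + 3 * (d + 1) + 8 with hH
    have a := (InC.xatom (lo := L) (hi := H) h0 h1 (3 * (2 * j + d + 2) + 3)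
      (by omega) (by omega))
    have b := InC.smul (show 0 ≤ e by linarith)
      (InC.atom (e := e) (lo := L) (hi := H) (3 * (2 * j + d + 1) + 4) (by omega) (by omega))
    have c := (InC.xatom (lo := L) (hi := H) h0 h1 (3 * d + 3) (by omega) (by omega))
    have f := InC.smul (show 0 ≤ e by linarith)
      (InC.atom (e := e) (lo := L) (hi := H) (3 * (d + 1) + 4) (by omega) (by omega))
    exact (((a.add b).add c).add f).congr fun x => by
      rw [← add_assoc j d 1]; exact prodBB1 h0 h1 j d x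

lemma prodAB (h0 : 0 < e) (h1 : e < 1 / 2) (j k : ℕ) :
    InC e (max (3 * j + 3) (3 * k + 4) - min (3 * j + 3) (3 * k + 4))
      (3 * j + 3 + (3 * k + 4)) (fun x => pv e x (3 * j + 3) * pv e x (3 * k + 4)) := by
  have hs : 0 < 2 * (1 + e) := by linarith
  apply InC.of_mul hs
  set L := max (3 * j + 3) (3 * k + 4) - min (3 * j + 3) (3 * k + 4) with hL
  set H := 3 * j + 3 + (3 * k + 4) with hH
  rcases lt_trichotomy j k with hjk | hjk | hjk
  · obtain ⟨d, rfl⟩ := Nat.exists_eq_add_of_lt hjk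
    have a := InC.smul (show 0 ≤ 1 - e by linarith)
      (InC.atom (e := e) (lo := L) (hi := H) (3 * (2 * j + d + 2) + 4) (by omega) (by omega))
    have b := InC.smul (show 0 ≤ 2 * e by linarith)
      (InC.xatom (lo := L) (hi := H) h0 h1 (3 * (2 * j + d + 1) + 3) (by omega) (by omega))
    have c := InC.smul (show 0 ≤ 1 - e by linarith)
      (InC.atom (e := e) (lo := L) (hi := H) (3 * d + 4) (by omega) (by omega))
    have f := InC.smul (show 0 ≤ 2 * e by linarith)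
      (InC.xatom (lo := L) (hi := H) h0 h1 (3 * (d + 1) + 3) (by omega) (by omega))
    exact (((a.add b).add c).add f).congr fun x => prodAB1 h0 h1 j d x
  · subst hjk
    have a := InC.smul (show 0 ≤ 1 - e by linarith)
      (InC.atom (e := e) (lo := L) (hi := H) (3 * (2 * j + 1) + 4) (by omega) (by omega))
    have b := InC.smul (show 0 ≤ 2 * e by linarith)
      (InC.xatom (lo := L) (hi := H) h0 h1 (3 * (2 * j) + 3) (by omega) (by omega))
    have c := InC.smul (show 0 ≤ 2 * e by linarith)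
      (InC.xatom (lo := L) (hi := H) h0 h1 3 (by omega) (by omega))
    have d := InC.smul (show 0 ≤ 1 - 2 * e by linarith)
      (InC.atom (e := e) (lo := L) (hi := H) 1 (by omega) (by omega))
    have f := InC.smul (show 0 ≤ e by linarith)
      (InC.atom (e := e) (lo := L) (hi := H) 3 (by omega) (by omega))
    exact ((((a.add b).add c).add d).add f).congr fun x => prodAB0 h0 h1 j x
  · obtain ⟨d, rfl⟩ := Nat.exists_eq_add_of_lt hjk
    have a := InC.smul (show 0 ≤ 1 - e by linarith)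
      (InC.atom (e := e) (lo := L) (hi := H) (3 * (2 * k + d + 2) + 4) (by omega) (by omega))
    have b := InC.smul (show 0 ≤ 2 * e by linarith)
      (InC.xatom (lo := L) (hi := H) h0 h1 (3 * (2 * k + d + 1) + 3) (by omega) (by omega))
    have c := InC.smul (show 0 ≤ e by linarith)
      (InC.atom (e := e) (lo := L) (hi := H) (3 * (d + 1) + 3) (by omega) (by omega))
    have f := (InC.xatom (lo := L) (hi := H) h0 h1 (3 * d + 2) (by omega) (by omega))
    exact (((a.add b).add c).add f).congr fun x => prodAB2 h0 h1 k d x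

/-- predicate: the product `P_m P_n` lies in the cone of `P_{|m-n|}, …, P_{m+n}` -/
def Good (e : ℝ) (m n : ℕ) : Prop :=
  InC e (max m n - min m n) (m + n) (fun x => pv e x m * pv e x n)

lemma Good.symm {m n : ℕ} (h : Good e m n) : Good e n m := by
  unfold Good at h ⊢
  rw [max_comm, min_comm, add_comm n m]
  exact h.congr fun x => mul_comm _ _

lemma good_zero (n : ℕ) : Good e 0 n := by
  unfold Good
  refine (InC.atom (e := e) n (by omega) (by omega)).congr fun x => ?_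
  rw [pv_zero, one_mul]

lemma good_one (h0 : 0 < e) (h1 : e < 1 / 2) (n : ℕ) : Good e 1 (n + 1) := by
  unfold Good
  refine (InC.xatom h0 h1 n (by omega) (by omega)).congr fun x => ?_
  rw [pv_one]

lemma good_DD (h0 : 0 < e) (h1 : e < 1 / 2) (j k : ℕ) (h : j ≤ k) :
    Good e (3 * j + 2) (3 * k + 2) := by
  obtain ⟨d, rfl⟩ := Nat.exists_eq_add_of_le h
  exact (prodDD h0 h1 j d).mono (by omega) (by omega)

lemma good_AA (h0 : 0 < e) (h1 : e < 1 / 2) (j k : ℕ) (h : j ≤ k) :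
    Good e (3 * j + 3) (3 * k + 3) := by
  obtain ⟨d, rfl⟩ := Nat.exists_eq_add_of_le h
  exact (prodAA h0 h1 j d).mono (by omega) (by omega)

lemma good_BB (h0 : 0 < e) (h1 : e < 1 / 2) (j k : ℕ) (h : j ≤ k) :
    Good e (3 * j + 4) (3 * k + 4) := by
  obtain ⟨d, rfl⟩ := Nat.exists_eq_add_of_le h
  exact (prodBB h0 h1 j d).mono (by omega) (by omega)

lemma nat_cases (m : ℕ) : m = 0 ∨ m = 1 ∨ (∃ j, m = 3 * j + 2) ∨ (∃ j, m = 3 * j + 3) ∨
    ∃ j, m = 3 * j + 4 := by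
  rcases m with _ | _ | m
  · left; rfl
  · right; left; rfl
  · right; right
    have h : m = 3 * (m / 3) + m % 3 := by omega
    have h3 : m % 3 < 3 := Nat.mod_lt _ (by norm_num)
    interval_cases hm : m % 3
    · left; exact ⟨m / 3, by omega⟩
    · right; left; exact ⟨m / 3, by omega⟩
    · right; right; exact ⟨m / 3, by omega⟩

/-- All products have nonnegative linearization. -/
theorem good (h0 : 0 < e) (h1 : e < 1 / 2) (m n : ℕ) : Good e m n := by
  have h1' : ∀ n, Good e 1 n := by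
    intro n
    rcases n with _ | n
    · exact (good_zero 1).symm
    · exact good_one h0 h1 n
  rcases nat_cases m with rfl | rfl | ⟨j, rfl⟩ | ⟨j, rfl⟩ | ⟨j, rfl⟩
  · exact good_zero n
  · exact h1' n
  · rcases nat_cases n with rfl | rfl | ⟨k, rfl⟩ | ⟨k, rfl⟩ | ⟨k, rfl⟩
    · exact (good_zero _).symm
    · exact (h1' _).symm
    · rcases le_total j k with h | h
      · exact good_DD h0 h1 j k h
      · exact (good_DD h0 h1 k j h).symm
    · exact Good.symm (prodAD h0 h1 k j)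
    · exact Good.symm (prodBD h0 h1 k j)
  · rcases nat_cases n with rfl | rfl | ⟨k, rfl⟩ | ⟨k, rfl⟩ | ⟨k, rfl⟩
    · exact (good_zero _).symm
    · exact (h1' _).symm
    · exact prodAD h0 h1 j k
    · rcases le_total j k with h | h
      · exact good_AA h0 h1 j k h
      · exact (good_AA h0 h1 k j h).symm
    · exact prodAB h0 h1 j k
  · rcases nat_cases n with rfl | rfl | ⟨k, rfl⟩ | ⟨k, rfl⟩ | ⟨k, rfl⟩
    · exact (good_zero _).symm
    · exact (h1' _).symm
    · exact prodBD h0 h1 j k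
    · exact Good.symm (prodAB h0 h1 k j)
    · rcases le_total j k with h | h
      · exact good_BB h0 h1 j k h
      · exact (good_BB h0 h1 k j h).symm

/-- Polynomial form of the nonnegative linearization. -/
theorem linearization {e : ℝ} (h0 : 0 < e) (h1 : e < 1 / 2) (m n : ℕ) :
    ∃ g : ℕ → ℝ, (∀ k, 0 ≤ g k) ∧
      ops (aa e) (fun _ => 0) (cc e) m * ops (aa e) (fun _ => 0) (cc e) n =
        ∑ k ∈ Icc (max m n - min m n) (m + n), C (g k) * ops (aa e) (fun _ => 0) (cc e) k := by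
  obtain ⟨g, hg, hs⟩ := good h0 h1 m n
  refine ⟨g, hg, Polynomial.funext fun x => ?_⟩
  have := hs x
  rw [eval_mul, eval_finsetSum]
  simpa [pv] using this

/-- `0` belongs to the dual space: `|P_n(0)| ≤ 1`. -/
theorem abs_eval_zero {e : ℝ} (h0 : 0 < e) (h1 : e < 1 / 2) (n : ℕ) :
    |(ops (aa e) (fun _ => 0) (cc e) n).eval 0| ≤ 1 := by
  change |pv e 0 n| ≤ 1
  have hs : 0 < 1 + e := by linarith
  have hE : ∀ k : ℤ, |ee e 0 k| ≤ 1 := by
    intro k
    have hw : ww e 0 = 0 := by simp [ww]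
    unfold ee
    rw [hw, Chebyshev.T_eval_zero]
    split_ifs
    · rcases Int.even_or_odd (k / 2) with h | h
      · simp [Int.negOnePow_even _ h]
      · simp [Int.negOnePow_odd _ h]
    · simp
  rcases nat_cases n with rfl | rfl | ⟨j, rfl⟩ | ⟨j, rfl⟩ | ⟨j, rfl⟩
  · simp [pv_zero]
  · simp [pv_one]
  · rw [pvD h0 h1, abs_mul]
    have hp : |p2 e 0| ≤ 1 := by
      unfold p2
      rw [abs_le]
      constructor
      · rw [le_div_iff₀ hs]; nlinarith
      · rw [div_le_iff₀ hs]; nlinarith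
    exact mul_le_one₀ hp (abs_nonneg _) (hE _)
  · have hA := pvA h0 h1 0 j
    have : pv e 0 (3 * j + 3) = ((1 - e) / (1 + e)) * ee e 0 (j + 1) := by
      have h' : (1 + e) ≠ 0 := hs.ne'
      field_simp
      linarith
    rw [this, abs_mul]
    refine mul_le_one₀ ?_ (abs_nonneg _) (hE _)
    rw [abs_le]
    constructor
    · rw [le_div_iff₀ hs]; nlinarith
    · rw [div_le_iff₀ hs]; nlinarith
  · have hB := pvB h0 h1 0 j
    have : pv e 0 (3 * j + 4) = (e / (1 + e)) * ee e 0 j := by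
      have h' : (1 + e) ≠ 0 := hs.ne'
      field_simp
      linarith
    rw [this, abs_mul]
    refine mul_le_one₀ ?_ (abs_nonneg _) (hE _)
    rw [abs_le]
    constructor
    · rw [le_div_iff₀ hs]; nlinarith
    · rw [div_le_iff₀ hs]; nlinarith

/-- The value `h(2) = a_0 a_1 / (c_1 c_2)` of the family tends to `1`. -/
theorem h2_lt {δ : ℝ} (hδ : 0 < δ) : ∃ e : ℝ, 0 < e ∧ e < 1 / 2 ∧
    (1 + e) / ((1 - e) * (1 - 2 * e)) < 1 + δ := by
  refine ⟨min (1 / 8) (δ / 32), by positivity, ?_, ?_⟩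
  · exact lt_of_le_of_lt (min_le_left _ _) (by norm_num)
  · set e := min (1 / 8) (δ / 32) with he
    have h0 : 0 < e := by positivity
    have h1 : e ≤ 1 / 8 := min_le_left _ _
    have h2 : e ≤ δ / 32 := min_le_right _ _
    have hp : 0 < (1 - e) * (1 - 2 * e) := by nlinarith
    rw [div_lt_iff₀ hp]
    nlinarith [mul_pos h0 hδ, mul_pos h0 h0]

end Pool.Agent.R263.Hyp
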