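import Mathlib

set_option autoImplicit false

namespace Pool.Agent.R263.Pte

/-- discounted evaluation of a list of integers -/
noncomputable def ev (x : ℝ) : List ℤ → ℝ
  | [] => 0
  | m :: L => m + x * ev x L

/-- the quadratic form attached to the kernel -/
noncomputable def T (x : ℝ) : List ℤ → ℝ
  | [] => 0
  | m :: L => (1 - x)⁻¹ * (m : ℝ) ^ 2 - m * ev x L + T x L

/-- the quadratic form with an incoming field `z` -/
noncomputable def Tl (x : ℝ) : List ℤ → ℝ → ℝ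
  | [], _ => 0
  | m :: L, z => (1 - x)⁻¹ * (m : ℝ) ^ 2 - m * z + Tl x L (x * z + m)

/-- the cost with clamped states -/
noncomputable def cost (x : ℝ) : List ℤ → ℝ → ℝ
  | [], _ => 0
  | m :: L, z => (min |m| 2 : ℤ) * ((1 - x)⁻¹ - (m.sign : ℝ) * z) +
      cost x L (x * z + m.sign)

lemma Tl_eq (x : ℝ) (L : List ℤ) : ∀ z, Tl x L z = T x L - z * ev x L := by
  induction L with
  | nil => intro z; simp [Tl, T, ev]
  | cons m L ih => intro z; simp only [Tl, T, ev, ih]; ring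

lemma T_eq_Tl (x : ℝ) (L : List ℤ) : T x L = Tl x L 0 := by
  rw [Tl_eq]; ring

/-- the perfect square inequality -/
lemma sq_ineq {x k y : ℝ} (hx0 : 0 < x) (hx1 : x < 1) :
    0 ≤ (1 - x)⁻¹ * k ^ 2 - k * y - (x * y + k) ^ 2 / 2 + y ^ 2 / 2 := by
  have h1 : 0 < 1 - x := by linarith
  have : (1 - x)⁻¹ * k ^ 2 - k * y - (x * y + k) ^ 2 / 2 + y ^ 2 / 2
      = (1 + x) / (1 - x) / 2 * (k - (1 - x) * y) ^ 2 := by
    field_simp
    ring
  rw [this]
  positivity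

lemma sign_cases (m : ℤ) : (m = 0) ∨ (m = 1) ∨ (m = -1) ∨
    (2 ≤ m) ∨ (m ≤ -2) := by omega

lemma step_ineq {x z₁ z₂ : ℝ} (hx0 : 0 < x) (hx1 : x < 1) (hz : |z₁| ≤ (1 - x)⁻¹) (m : ℤ) :
    (min |m| 2 : ℤ) * ((1 - x)⁻¹ - (m.sign : ℝ) * z₁) - z₂ ^ 2 / 2 - (1 - x)⁻¹ * |z₂| ≤
      (1 - x)⁻¹ * (m : ℝ) ^ 2 - m * (z₁ + z₂)
       - (x * z₂ + (m - m.sign)) ^ 2 / 2 - (1 - x)⁻¹ * |x * z₂ + (m - m.sign)| := by
  have h1 : 0 < 1 - x := by linarith
  set Z := (1 - x)⁻¹ with hZ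
  have hZx : Z * (1 - x) = 1 := inv_mul_cancel₀ h1.ne'
  have hZ0 : 0 < Z := inv_pos.mpr h1
  have hz1 := abs_le.mp hz
  rcases sign_cases m with h | h | h | h | h
  · subst h
    simp only [abs_zero, Int.sign_zero, Int.cast_zero, sub_zero, add_zero]
    rw [abs_mul, abs_of_pos hx0]
    have : min (0 : ℤ) 2 = 0 := by norm_num
    rw [this]
    have h2 : x ^ 2 ≤ 1 := by nlinarith
    have h3 : 0 ≤ |z₂| := abs_nonneg _
    have h4 : 0 ≤ z₂ ^ 2 := sq_nonneg _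
    nlinarith [mul_nonneg h3 hZ0.le, mul_nonneg (sub_nonneg.mpr h2) h4]
  · subst h
    simp only [abs_one, Int.sign_one, Int.cast_one, sub_self, add_zero]
    rw [abs_mul, abs_of_pos hx0]
    have : min (1 : ℤ) 2 = 1 := by norm_num
    rw [this]
    have h2 : x ^ 2 ≤ 1 := by nlinarith
    have h3 : 0 ≤ |z₂| := abs_nonneg _
    have h4 : 0 ≤ z₂ ^ 2 := sq_nonneg _
    have h5 : z₂ ≤ |z₂| := le_abs_self _
    have h6 : Z * |z₂| - Z * (x * |z₂|) = |z₂| := by
      rw [show Z * |z₂| - Z * (x * |z₂|) = (Z * (1 - x)) * |z₂| by ring, hZx, one_mul]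
    push_cast
    nlinarith [mul_nonneg (sub_nonneg.mpr h2) h4]
  · subst h
    have e1 : |(-1 : ℤ)| = 1 := by norm_num
    have e2 : min (1 : ℤ) 2 = 1 := by norm_num
    have e3 : (-1 : ℤ).sign = -1 := by decide
    rw [e1, e2, e3]
    push_cast
    simp only [sub_self, add_zero]
    rw [abs_mul, abs_of_pos hx0]
    have h2 : x ^ 2 ≤ 1 := by nlinarith
    have h3 : 0 ≤ |z₂| := abs_nonneg _
    have h4 : 0 ≤ z₂ ^ 2 := sq_nonneg _
    have h5 : -z₂ ≤ |z₂| := neg_le_abs _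
    have h6 : Z * |z₂| - Z * (x * |z₂|) = |z₂| := by
      rw [show Z * |z₂| - Z * (x * |z₂|) = (Z * (1 - x)) * |z₂| by ring, hZx, one_mul]
    nlinarith [mul_nonneg (sub_nonneg.mpr h2) h4]
  · have e1 : min |m| 2 = 2 := by
      rw [abs_of_nonneg (by omega)]; exact min_eq_right h
    have e3 : m.sign = 1 := Int.sign_eq_one_of_pos (by omega)
    rw [e1, e3]
    obtain ⟨k, hk⟩ : ∃ k : ℝ, (m : ℝ) = k + 1 := ⟨m - 1, by ring⟩
    have hk1 : 1 ≤ k := by
      have : (2 : ℝ) ≤ m := by exact_mod_cast h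
      linarith
    rw [hk]
    push_cast
    have hs := sq_ineq (k := k) (y := z₂) hx0 hx1
    rw [← hZ] at hs
    have h3 : 0 ≤ |z₂| := abs_nonneg _
    have h5 : z₂ ≤ |z₂| := le_abs_self _
    have h6 : Z * |z₂| - Z * (x * |z₂|) = |z₂| := by
      rw [show Z * |z₂| - Z * (x * |z₂|) = (Z * (1 - x)) * |z₂| by ring, hZx, one_mul]
    have h7 : |x * z₂ + (k + 1 - 1)| ≤ x * |z₂| + k := by
      have : k + 1 - 1 = k := by ring
      rw [this]
      refine (abs_add_le _ _).trans ?_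
      rw [abs_mul, abs_of_pos hx0, abs_of_nonneg (by linarith : 0 ≤ k)]
    have h8 := mul_le_mul_of_nonneg_left h7 hZ0.le
    have h9 : (k - 1) * (Z - z₁) ≥ 0 := mul_nonneg (by linarith) (by linarith [hz1.2])
    have h10 : (k + 1 - 1) = k := by ring
    rw [h10] at h8 ⊢
    nlinarith
  · have e1 : min |m| 2 = 2 := by
      rw [abs_of_nonpos (by omega)]; exact min_eq_right (by omega)
    have e3 : m.sign = -1 := Int.sign_eq_neg_one_of_neg (by omega)
    rw [e1, e3]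
    obtain ⟨k, hk⟩ : ∃ k : ℝ, (m : ℝ) = -k - 1 := ⟨-m - 1, by ring⟩
    have hk1 : 1 ≤ k := by
      have : (m : ℝ) ≤ -2 := by exact_mod_cast h
      linarith
    rw [hk]
    push_cast
    have hs := sq_ineq (k := k) (y := -z₂) hx0 hx1
    rw [← hZ] at hs
    have h3 : 0 ≤ |z₂| := abs_nonneg _
    have h5 : -z₂ ≤ |z₂| := neg_le_abs _
    have h6 : Z * |z₂| - Z * (x * |z₂|) = |z₂| := by
      rw [show Z * |z₂| - Z * (x * |z₂|) = (Z * (1 - x)) * |z₂| by ring, hZx, one_mul]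
    have h7 : |x * z₂ + (-k - 1 - -1)| ≤ x * |z₂| + k := by
      have : -k - 1 - -1 = -k := by ring
      rw [this]
      refine (abs_add_le _ _).trans ?_
      rw [abs_mul, abs_of_pos hx0, abs_neg, abs_of_nonneg (by linarith : 0 ≤ k)]
    have h8 := mul_le_mul_of_nonneg_left h7 hZ0.le
    have h9 : (k - 1) * (Z + z₁) ≥ 0 := mul_nonneg (by linarith) (by linarith [hz1.1])
    have h10 : (-k - 1 - -1) = -k := by ring
    rw [h10] at h8 ⊢
    nlinarith

lemma state_bound {x z : ℝ} (hx0 : 0 < x) (hx1 : x < 1) (hz : |z| ≤ (1 - x)⁻¹) (m : ℤ) :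
    |x * z + (m.sign : ℝ)| ≤ (1 - x)⁻¹ := by
  have h1 : 0 < 1 - x := by linarith
  set Z := (1 - x)⁻¹ with hZ
  have hZx : Z * (1 - x) = 1 := inv_mul_cancel₀ h1.ne'
  have hs : |(m.sign : ℝ)| ≤ 1 := by
    have : |m.sign| ≤ 1 := by
      rcases lt_trichotomy m 0 with h | h | h
      · rw [Int.sign_eq_neg_one_of_neg h]; decide
      · subst h; decide
      · rw [Int.sign_eq_one_of_pos h]; decide
    exact_mod_cast this
  refine (abs_add_le _ _).trans ?_
  rw [abs_mul, abs_of_pos hx0]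
  nlinarith [mul_le_mul_of_nonneg_left hz hx0.le]

lemma Tl_ge_cost {x : ℝ} (hx0 : 0 < x) (hx1 : x < 1) (L : List ℤ) :
    ∀ z₁ z₂ : ℝ, |z₁| ≤ (1 - x)⁻¹ →
      cost x L z₁ - z₂ ^ 2 / 2 - (1 - x)⁻¹ * |z₂| ≤ Tl x L (z₁ + z₂) := by
  induction L with
  | nil =>
    intro z₁ z₂ _
    simp only [cost, Tl]
    have h1 : 0 < 1 - x := by linarith
    have : 0 ≤ (1 - x)⁻¹ * |z₂| := by positivity
    nlinarith [sq_nonneg z₂]
  | cons m L ih =>
    intro z₁ z₂ hz
    simp only [cost, Tl]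
    have h1 := ih (x * z₁ + m.sign) (x * z₂ + (m - m.sign)) (state_bound hx0 hx1 hz m)
    have h2 : x * z₁ + (m.sign : ℝ) + (x * z₂ + (m - m.sign)) = x * (z₁ + z₂) + m := by ring
    rw [h2] at h1
    have h3 := step_ineq (z₂ := z₂) hx0 hx1 hz m
    linarith

lemma T_ge_cost {x : ℝ} (hx0 : 0 < x) (hx1 : x < 1) (L : List ℤ) :
    cost x L 0 ≤ T x L := by
  have h := Tl_ge_cost hx0 hx1 L 0 0 (by
    simp only [abs_zero]
    have : 0 < 1 - x := by linarith
    positivity)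
  rw [T_eq_Tl]
  simpa using h

/-- Greedy pattern predicates.  `N true s k L`: the list `L` contains, in order, `k`
pairs of alternating signs starting with sign `s`, and then a single entry.
`N false s k L`: the list contains a single entry of sign `s` and then
`N true (-s) k`. -/
inductive N : Bool → ℤ → ℕ → List ℤ → Prop
  | skip {b : Bool} {s : ℤ} {k : ℕ} {m : ℤ} {L : List ℤ} : N b s k L → N b s k (m :: L)
  | F0 {s m : ℤ} {L : List ℤ} : 1 ≤ s * m → N true s 0 (m :: L)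
  | F1 {s m : ℤ} {k : ℕ} {L : List ℤ} : 1 ≤ s * m → N false s k L → N true s (k + 1) (m :: L)
  | F2 {s m : ℤ} {k : ℕ} {L : List ℤ} : 2 ≤ s * m → N true (-s) k L → N true s (k + 1) (m :: L)
  | S1 {s m : ℤ} {k : ℕ} {L : List ℤ} : 1 ≤ s * m → N true (-s) k L → N false s k (m :: L)

end Pool.Agent.R263.Pte
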