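import Pool.Agent.R263.PteA

set_option autoImplicit false

namespace Pool.Agent.R263.Pte

/-- potential in state F -/
noncomputable def phiF (x ζ : ℝ) : ℝ := (1 + x) * max ζ 0

/-- potential in state S -/
noncomputable def phiS (x ζ : ℝ) : ℝ := max (max ζ 0) ((1 - x - x ^ 2) * ζ - (1 + x))

/-- optimal cost constants -/
noncomputable def CF (x : ℝ) (k : ℕ) : ℝ := k * (2 * (1 - x)⁻¹ - 1) + (1 - x)⁻¹

noncomputable def CS (x : ℝ) (k : ℕ) : ℝ := k * (2 * (1 - x)⁻¹ - 1) + 2 * (1 - x)⁻¹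

/-- potential, indexed by the mode -/
noncomputable def phi (x : ℝ) : Bool → ℝ → ℝ
  | true => phiF x
  | false => phiS x

noncomputable def CC (x : ℝ) : Bool → ℕ → ℝ
  | true => CF x
  | false => CS x

lemma phiF_nonneg {x ζ : ℝ} (hx0 : 0 < x) : 0 ≤ phiF x ζ := by
  unfold phiF; positivity

lemma phiF_of_nonneg {x ζ : ℝ} (h : 0 ≤ ζ) : phiF x ζ = (1 + x) * ζ := by
  unfold phiF; rw [max_eq_left h]

lemma phiF_of_nonpos {x ζ : ℝ} (h : ζ ≤ 0) : phiF x ζ = 0 := by
  unfold phiF; rw [max_eq_right h]; ring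

lemma le_phiF {x ζ : ℝ} (hx0 : 0 < x) : ζ ≤ phiF x ζ := by
  rcases le_total 0 ζ with h | h
  · rw [phiF_of_nonneg h]; nlinarith
  · rw [phiF_of_nonpos h]; exact h

lemma phiS_nonneg {x ζ : ℝ} : 0 ≤ phiS x ζ :=
  le_max_of_le_left (le_max_right _ _)

lemma le_phiS {x ζ : ℝ} : ζ ≤ phiS x ζ :=
  le_max_of_le_left (le_max_left _ _)

lemma le_phiS' {x ζ : ℝ} : (1 - x - x ^ 2) * ζ - (1 + x) ≤ phiS x ζ :=
  le_max_right _ _

lemma phiS_le {x ζ B : ℝ} (h1 : ζ ≤ B) (h2 : 0 ≤ B) (h3 : (1 - x - x ^ 2) * ζ - (1 + x) ≤ B) :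
    phiS x ζ ≤ B := max_le (max_le h1 h2) h3

section bellman

variable {x ζ : ℝ}

lemma F_zero (hx0 : 0 < x) (hx1 : x < 1) : phiF x (x * ζ) ≤ phiF x ζ := by
  rcases le_total 0 ζ with h | h
  · rw [phiF_of_nonneg h, phiF_of_nonneg (by positivity)]
    nlinarith [mul_nonneg hx0.le h]
  · rw [phiF_of_nonpos h, phiF_of_nonpos (by nlinarith)]

/-- mode F, entry of the wrong sign -/
lemma F_neg (hx0 : 0 < x) (_hx1 : x < 1) (hz : |ζ| ≤ (1 - x)⁻¹) :
    phiF x (x * ζ - 1) ≤ (1 - x)⁻¹ + ζ + phiF x ζ := by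
  have hz1 := abs_le.mp hz
  rcases le_total (x * ζ - 1) 0 with h | h
  · rw [phiF_of_nonpos h]
    have := phiF_nonneg (ζ := ζ) hx0
    linarith [hz1.1]
  · have hp : 0 ≤ ζ := by
      by_contra hc
      push Not at hc
      nlinarith
    rw [phiF_of_nonneg h, phiF_of_nonneg hp]
    nlinarith [hz1.1, mul_nonneg hx0.le hp]

/-- mode F, skip an entry of the right sign -/
lemma F_skip (hx0 : 0 < x) (hx1 : x < 1) (hz : |ζ| ≤ (1 - x)⁻¹) :
    phiF x (x * ζ + 1) ≤ (1 - x)⁻¹ - ζ + phiF x ζ := by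
  have hz1 := abs_le.mp hz
  have h1 : 0 < 1 - x := by linarith
  set Z := (1 - x)⁻¹ with hZ
  have hZx : Z * (1 - x) = 1 := inv_mul_cancel₀ h1.ne'
  have hZ1 : 1 + x ≤ Z := by nlinarith [sq_nonneg x]
  rcases le_total (x * ζ + 1) 0 with h | h
  · rw [phiF_of_nonpos h]
    have := phiF_nonneg (ζ := ζ) hx0
    linarith [hz1.2]
  · rw [phiF_of_nonneg h]
    rcases le_total 0 ζ with h2 | h2
    · rw [phiF_of_nonneg h2]
      nlinarith [mul_nonneg (mul_nonneg hx0.le hx0.le) (sub_nonneg.mpr hz1.2)]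
    · rw [phiF_of_nonpos h2]
      nlinarith [mul_nonneg hx0.le (neg_nonneg.mpr h2)]

/-- mode F with at least one pair to come, use a single entry of the right sign -/
lemma F_one (hx0 : 0 < x) (hx1 : x < 1) :
    phiS x (x * ζ + 1) ≤ 1 - ζ + phiF x ζ := by
  rcases le_total 0 ζ with h2 | h2
  · rw [phiF_of_nonneg h2]
    apply phiS_le
    · nlinarith
    · nlinarith [mul_nonneg hx0.le h2]
    · nlinarith [mul_nonneg hx0.le h2, mul_nonneg (mul_nonneg hx0.le hx0.le) h2,
        mul_nonneg (mul_nonneg (mul_nonneg hx0.le hx0.le) hx0.le) h2, mul_nonneg hx0.le hx0.le]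
  · rw [phiF_of_nonpos h2]
    apply phiS_le
    · nlinarith
    · nlinarith
    · have h3 : 0 ≤ -ζ := by linarith
      have h4 : (1 - x - x ^ 2) * (x * ζ + 1) - (1 + x) = -(1 - x - x^2) * x * (-ζ)
        + (1 - x - x^2) - (1 + x) := by ring
      rw [h4]
      have h5 : -(1 - x - x^2) * x ≤ 1 := by nlinarith [mul_nonneg hx0.le hx0.le]
      have h6 := mul_le_mul_of_nonneg_right h5 h3
      nlinarith [mul_nonneg hx0.le hx0.le]

/-- mode F with at least one pair to come, use a double entry of the right sign -/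
lemma F_two (hx0 : 0 < x) (hx1 : x < 1) (hz : |ζ| ≤ (1 - x)⁻¹) :
    phiF x (-(x * ζ + 1)) ≤ 1 - 2 * ζ + phiF x ζ := by
  have hz1 := abs_le.mp hz
  have h1 : 0 < 1 - x := by linarith
  set Z := (1 - x)⁻¹ with hZ
  have hZx : Z * (1 - x) = 1 := inv_mul_cancel₀ h1.ne'
  rcases le_total 0 ζ with h2 | h2
  · rw [phiF_of_nonneg h2, phiF_of_nonpos (by nlinarith)]
    nlinarith [mul_nonneg h1.le (sub_nonneg.mpr hz1.2)]
  · rw [phiF_of_nonpos h2]
    have h3 : 0 ≤ -ζ := by linarith
    rcases le_total (-(x * ζ + 1)) 0 with h | h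
    · rw [phiF_of_nonpos h]; linarith
    · rw [phiF_of_nonneg h]
      nlinarith [mul_nonneg hx0.le h3, mul_nonneg (mul_nonneg hx0.le hx0.le) h3]

lemma S_zero (hx0 : 0 < x) (hx1 : x < 1) : phiS x (x * ζ) ≤ phiS x ζ := by
  rcases le_total 0 ζ with h2 | h2
  · have h3 : ζ ≤ phiS x ζ := le_phiS
    apply phiS_le
    · nlinarith
    · linarith
    · nlinarith [mul_nonneg hx0.le h2, mul_nonneg (mul_nonneg hx0.le hx0.le) h2,
        mul_nonneg (mul_nonneg (mul_nonneg hx0.le hx0.le) hx0.le) h2]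
  · have h3 : 0 ≤ phiS x ζ := phiS_nonneg
    apply phiS_le
    · nlinarith
    · exact h3
    · rcases le_total 0 (1 - x - x ^ 2) with h4 | h4
      · nlinarith [mul_nonneg (mul_nonneg h4 hx0.le) (neg_nonneg.mpr h2)]
      · have h5 : (1 - x - x ^ 2) * ζ - (1 + x) ≤ phiS x ζ := le_phiS'
        have h6 : 0 ≤ (1 - x - x ^ 2) * ζ := by nlinarith
        nlinarith [mul_nonneg (by linarith : 0 ≤ 1 - x) h6]

/-- mode S, entry of the wrong sign -/
lemma S_neg (hx0 : 0 < x) (hx1 : x < 1) (hz : |ζ| ≤ (1 - x)⁻¹) :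
    phiS x (x * ζ - 1) ≤ (1 - x)⁻¹ + ζ + phiS x ζ := by
  have hz1 := abs_le.mp hz
  have h1 : 0 < 1 - x := by linarith
  set Z := (1 - x)⁻¹ with hZ
  have hZx : Z * (1 - x) = 1 := inv_mul_cancel₀ h1.ne'
  have h3 : ζ ≤ phiS x ζ := le_phiS
  have h4 : 0 ≤ phiS x ζ := phiS_nonneg
  have h5 : (1 - x - x ^ 2) * ζ - (1 + x) ≤ phiS x ζ := le_phiS'
  have h6 : 0 ≤ Z + ζ := by linarith [hz1.1]
  apply phiS_le
  · rcases le_total 0 ζ with h2 | h2
    · nlinarith
    · nlinarith
  · linarith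
  · rcases le_total 0 ζ with h2 | h2
    · nlinarith [mul_nonneg hx0.le h2, mul_nonneg (mul_nonneg hx0.le hx0.le) h2,
        mul_nonneg (mul_nonneg (mul_nonneg hx0.le hx0.le) hx0.le) h2, mul_nonneg hx0.le hx0.le]
    · rcases le_total 0 (1 - x - x ^ 2) with h7 | h7
      · nlinarith [mul_nonneg (mul_nonneg h7 hx0.le) (neg_nonneg.mpr h2),
          mul_nonneg hx0.le hx0.le]
      · -- difference equals (Z+ζ)(1 + a(1-x))
        have h8 : 0 ≤ (Z + ζ) * (1 + (1 - x - x ^ 2) * (1 - x)) := by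
          apply mul_nonneg h6
          nlinarith [mul_nonneg hx0.le hx0.le, mul_nonneg (mul_nonneg hx0.le hx0.le) hx0.le]
        have h9 : (Z + ζ) * (1 + (1 - x - x ^ 2) * (1 - x)) =
            Z + ζ + (1 - x - x^2) * (Z * (1 - x)) + (1 - x - x^2) * (1 - x) * ζ := by ring
        rw [h9, hZx] at h8
        nlinarith

/-- mode S, skip an entry of the right sign -/
lemma S_skip (hx0 : 0 < x) (hx1 : x < 1) (hz : |ζ| ≤ (1 - x)⁻¹) :
    phiS x (x * ζ + 1) ≤ (1 - x)⁻¹ - ζ + phiS x ζ := by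
  have hz1 := abs_le.mp hz
  have h1 : 0 < 1 - x := by linarith
  set Z := (1 - x)⁻¹ with hZ
  have hZx : Z * (1 - x) = 1 := inv_mul_cancel₀ h1.ne'
  have h3 : ζ ≤ phiS x ζ := le_phiS
  have h7 : x * ζ + 1 ≤ Z := by nlinarith [mul_le_mul_of_nonneg_left hz1.2 hx0.le]
  have h8 : -Z ≤ x * ζ + 1 := by nlinarith [mul_le_mul_of_nonneg_left hz1.1 hx0.le]
  have hZ0 : 0 < Z := inv_pos.mpr h1
  apply phiS_le
  · linarith
  · linarith
  · have h9 : |(1 - x - x ^ 2) * (x * ζ + 1)| ≤ 1 * Z := by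
      rw [abs_mul]
      apply mul_le_mul _ (abs_le.mpr ⟨h8, h7⟩) (abs_nonneg _) zero_le_one
      rw [abs_le]
      constructor <;> nlinarith [mul_nonneg hx0.le hx0.le]
    have h10 := (abs_le.mp h9).2
    linarith

/-- mode S, use an entry of the right sign -/
lemma S_one : phiF x (-(x * ζ + 1)) + ζ ≤ phiS x ζ := by
  rcases le_total (-(x * ζ + 1)) 0 with h | h
  · rw [phiF_of_nonpos h]
    have h3 : ζ ≤ phiS x ζ := le_phiS
    linarith
  · rw [phiF_of_nonneg h]
    have h5 : (1 - x - x ^ 2) * ζ - (1 + x) ≤ phiS x ζ := le_phiS'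
    nlinarith

end bellman

/-- one-step skip inequality in both modes, in terms of the signed entry. -/
lemma skip_ineq {x z : ℝ} (hx0 : 0 < x) (hx1 : x < 1) (hz : |z| ≤ (1 - x)⁻¹) (b : Bool)
    (s m : ℤ) (hs : s = 1 ∨ s = -1) :
    phi x b (s * (x * z + m.sign)) ≤
      (min |m| 2 : ℤ) * ((1 - x)⁻¹ - (m.sign : ℝ) * z) + phi x b (s * z) := by
  have hz1 := abs_le.mp hz
  have hsz : |(s : ℝ) * z| ≤ (1 - x)⁻¹ := by
    rcases hs with rfl | rfl
    · simpa using hz
    · simpa using hz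
  rcases lt_trichotomy m 0 with hm | hm | hm
  · have e1 : m.sign = -1 := Int.sign_eq_neg_one_of_neg hm
    have e2 : (1 : ℝ) ≤ ((min |m| 2 : ℤ) : ℝ) := by
      have : 1 ≤ min |m| 2 := by
        rw [abs_of_neg hm]; omega
      exact_mod_cast this
    have key : phi x b (s * (x * z + m.sign)) ≤ ((1 - x)⁻¹ - (m.sign : ℝ) * z) +
        phi x b (s * z) := by
      rw [e1]
      rcases hs with rfl | rfl
      · have e3 : (((1 : ℤ) : ℝ)) * (x * z + ((-1 : ℤ) : ℝ)) = x * (((1:ℤ):ℝ) * z) - 1 := by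
          push_cast; ring
        rw [e3]
        have e4 : (1 - x)⁻¹ - (((-1 : ℤ)) : ℝ) * z = (1 - x)⁻¹ + ((1 : ℤ) : ℝ) * z := by
          push_cast; ring
        rw [e4]
        cases b
        · exact S_neg hx0 hx1 hsz
        · exact F_neg hx0 hx1 hsz
      · have e3 : (((-1 : ℤ) : ℝ)) * (x * z + ((-1 : ℤ) : ℝ)) = x * (((-1:ℤ):ℝ) * z) + 1 := by
          push_cast; ring
        rw [e3]
        cases b
        · exact S_skip hx0 hx1 hsz
        · exact F_skip hx0 hx1 hsz
    have h5 : 0 ≤ (1 - x)⁻¹ - (m.sign : ℝ) * z := by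
      rw [e1]; push_cast; linarith [hz1.1]
    nlinarith
  · subst hm
    simp only [Int.sign_zero, Int.cast_zero, add_zero, abs_zero, zero_mul, sub_zero]
    have e3 : (s : ℝ) * (x * z) = x * (s * z) := by ring
    have e4 : ((min (0 : ℤ) 2 : ℤ) : ℝ) = 0 := by norm_num
    rw [e3, e4, zero_mul, zero_add]
    cases b
    · exact S_zero hx0 hx1
    · exact F_zero hx0 hx1
  · have e1 : m.sign = 1 := Int.sign_eq_one_of_pos hm
    have e2 : (1 : ℝ) ≤ ((min |m| 2 : ℤ) : ℝ) := by
      have : 1 ≤ min |m| 2 := by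
        rw [abs_of_pos hm]; omega
      exact_mod_cast this
    have key : phi x b (s * (x * z + m.sign)) ≤ ((1 - x)⁻¹ - (m.sign : ℝ) * z) +
        phi x b (s * z) := by
      rw [e1]
      rcases hs with rfl | rfl
      · have e3 : (((1 : ℤ) : ℝ)) * (x * z + ((1 : ℤ) : ℝ)) = x * (((1:ℤ):ℝ) * z) + 1 := by
          push_cast; ring
        rw [e3]
        cases b
        · exact S_skip hx0 hx1 hsz
        · exact F_skip hx0 hx1 hsz
      · have e3 : (((-1 : ℤ) : ℝ)) * (x * z + ((1 : ℤ) : ℝ)) = x * (((-1:ℤ):ℝ) * z) - 1 := by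
          push_cast; ring
        rw [e3]
        have e4 : (1 - x)⁻¹ - (((1 : ℤ)) : ℝ) * z = (1 - x)⁻¹ + ((-1 : ℤ) : ℝ) * z := by
          push_cast; ring
        rw [e4]
        cases b
        · exact S_neg hx0 hx1 hsz
        · exact F_neg hx0 hx1 hsz
    have h5 : 0 ≤ (1 - x)⁻¹ - (m.sign : ℝ) * z := by
      rw [e1]; push_cast; linarith [hz1.2]
    nlinarith

lemma cost_nonneg {x : ℝ} (hx0 : 0 < x) (hx1 : x < 1) (L : List ℤ) :
    ∀ z, |z| ≤ (1 - x)⁻¹ → 0 ≤ cost x L z := by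
  induction L with
  | nil => intro z _; simp [cost]
  | cons m L ih =>
    intro z hz
    simp only [cost]
    have h1 := ih _ (state_bound hx0 hx1 hz m)
    have hz1 := abs_le.mp hz
    have h2 : 0 ≤ (1 - x)⁻¹ - (m.sign : ℝ) * z := by
      rcases lt_trichotomy m 0 with h | h | h
      · rw [Int.sign_eq_neg_one_of_neg h]; push_cast; linarith
      · subst h
        simp only [Int.sign_zero, Int.cast_zero, zero_mul, sub_zero]
        have : 0 < 1 - x := by linarith
        positivity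
      · rw [Int.sign_eq_one_of_pos h]; push_cast; linarith
    have h3 : (0 : ℝ) ≤ ((min |m| 2 : ℤ) : ℝ) := by
      have : 0 ≤ min |m| 2 := le_min (abs_nonneg _) (by norm_num)
      exact_mod_cast this
    positivity

/-- Facts for an entry of the right sign. -/
lemma right_sign {s m : ℤ} (hs : s = 1 ∨ s = -1) (h : 1 ≤ s * m) :
    m.sign = s ∧ 1 ≤ min |m| 2 := by
  rcases hs with rfl | rfl
  · refine ⟨Int.sign_eq_one_of_pos (by omega), ?_⟩
    rw [abs_of_pos (by omega)]; omega
  · refine ⟨Int.sign_eq_neg_one_of_neg (by omega), ?_⟩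
    rw [abs_of_neg (by omega)]; omega

lemma right_sign2 {s m : ℤ} (hs : s = 1 ∨ s = -1) (h : 2 ≤ s * m) :
    min |m| 2 = 2 := by
  rcases hs with rfl | rfl
  · rw [abs_of_pos (by omega)]; omega
  · rw [abs_of_neg (by omega)]; omega

/-- The main dynamic programming inequality. -/
theorem dp {x : ℝ} (hx0 : 0 < x) (hx1 : x < 1) {b : Bool} {s : ℤ} {k : ℕ} {L : List ℤ}
    (h : N b s k L) : (s = 1 ∨ s = -1) → ∀ z, |z| ≤ (1 - x)⁻¹ →
      CC x b k - phi x b (s * z) ≤ cost x L z := by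
  induction h with
  | @skip b s k m L _ ih =>
    intro hs z hz
    simp only [cost]
    have h1 := ih hs _ (state_bound hx0 hx1 hz m)
    have h2 := skip_ineq hx0 hx1 hz b s m hs
    linarith
  | @F0 s m L hm =>
    intro hs z hz
    simp only [cost]
    have h1 := cost_nonneg hx0 hx1 L _ (state_bound hx0 hx1 hz m)
    obtain ⟨e1, e2⟩ := right_sign hs hm
    have e3 : (1 : ℝ) ≤ ((min |m| 2 : ℤ) : ℝ) := by exact_mod_cast e2
    rw [e1] at h1 ⊢
    have h3 : s * z ≤ phiF x (s * z) := le_phiF hx0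
    have h4 : 0 ≤ (1 - x)⁻¹ - (s : ℝ) * z := by
      have hz1 := abs_le.mp hz
      rcases hs with rfl | rfl
      · push_cast; linarith
      · push_cast; linarith
    have h5 : (1 - x)⁻¹ - (s : ℝ) * z ≤
        ((min |m| 2 : ℤ) : ℝ) * ((1 - x)⁻¹ - (s : ℝ) * z) := by nlinarith
    simp only [CC, CF, phi]
    push_cast
    push_cast at h5
    linarith
  | @F1 s m k L hm _ ih =>
    intro hs z hz
    simp only [cost]
    have h1 := ih hs _ (state_bound hx0 hx1 hz m)
    obtain ⟨e1, e2⟩ := right_sign hs hm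
    have e3 : (1 : ℝ) ≤ ((min |m| 2 : ℤ) : ℝ) := by exact_mod_cast e2
    rw [e1] at h1 ⊢
    have h4 : 0 ≤ (1 - x)⁻¹ - (s : ℝ) * z := by
      have hz1 := abs_le.mp hz
      rcases hs with rfl | rfl
      · push_cast; linarith
      · push_cast; linarith
    have h5 : (1 - x)⁻¹ - (s : ℝ) * z ≤
        ((min |m| 2 : ℤ) : ℝ) * ((1 - x)⁻¹ - (s : ℝ) * z) := by nlinarith
    have h6 : (s : ℝ) * (x * z + s) = x * (s * z) + 1 := by
      have : (s : ℝ) * s = 1 := by
        rcases hs with rfl | rfl <;> norm_num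
      linear_combination this
    rw [h6] at h1
    have h7 := F_one (ζ := s * z) hx0 hx1
    simp only [CC, CF, CS, phi] at h1 ⊢
    push_cast at h1 h5 ⊢
    linarith
  | @F2 s m k L hm _ ih =>
    intro hs z hz
    simp only [cost]
    have h1 := ih (by rcases hs with rfl | rfl <;> simp) _ (state_bound hx0 hx1 hz m)
    obtain ⟨e1, e2⟩ := right_sign hs (by omega : 1 ≤ s * m)
    have e3 := right_sign2 hs hm
    rw [e1] at h1 ⊢
    rw [e3]
    have h6 : ((-s : ℤ) : ℝ) * (x * z + s) = -(x * (s * z) + 1) := by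
      have : (s : ℝ) * s = 1 := by
        rcases hs with rfl | rfl <;> norm_num
      push_cast
      linear_combination -this
    rw [h6] at h1
    have hsz : |(s : ℝ) * z| ≤ (1 - x)⁻¹ := by
      rcases hs with rfl | rfl
      · simpa using hz
      · simpa using hz
    have h7 := F_two (ζ := s * z) hx0 hx1 hsz
    simp only [CC, CF, phi] at h1 ⊢
    push_cast at h1 ⊢
    linarith
  | @S1 s m k L hm _ ih =>
    intro hs z hz
    simp only [cost]
    have h1 := ih (by rcases hs with rfl | rfl <;> simp) _ (state_bound hx0 hx1 hz m)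
    obtain ⟨e1, e2⟩ := right_sign hs hm
    have e3 : (1 : ℝ) ≤ ((min |m| 2 : ℤ) : ℝ) := by exact_mod_cast e2
    rw [e1] at h1 ⊢
    have h4 : 0 ≤ (1 - x)⁻¹ - (s : ℝ) * z := by
      have hz1 := abs_le.mp hz
      rcases hs with rfl | rfl
      · push_cast; linarith
      · push_cast; linarith
    have h5 : (1 - x)⁻¹ - (s : ℝ) * z ≤
        ((min |m| 2 : ℤ) : ℝ) * ((1 - x)⁻¹ - (s : ℝ) * z) := by nlinarith
    have h6 : ((-s : ℤ) : ℝ) * (x * z + s) = -(x * (s * z) + 1) := by
      have : (s : ℝ) * s = 1 := by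
        rcases hs with rfl | rfl <;> norm_num
      push_cast
      linear_combination -this
    rw [h6] at h1
    have h7 := S_one (x := x) (ζ := s * z)
    simp only [CC, CF, CS, phi] at h1 ⊢
    push_cast at h1 h5 ⊢
    linarith

/-- lower bounds for the form -/
theorem T_ge_F {x : ℝ} (hx0 : 0 < x) (hx1 : x < 1) {s : ℤ} {k : ℕ} {L : List ℤ}
    (h : N true s k L) (hs : s = 1 ∨ s = -1) :
    k * (2 * (1 - x)⁻¹ - 1) + (1 - x)⁻¹ ≤ T x L := by
  have h0 : |(0 : ℝ)| ≤ (1 - x)⁻¹ := by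
    simp only [abs_zero]
    have : 0 < 1 - x := by linarith
    positivity
  have h1 := dp hx0 hx1 h hs 0 h0
  have h2 := T_ge_cost hx0 hx1 L
  simp only [CC, CF, phi, mul_zero, phiF_of_nonpos le_rfl, sub_zero] at h1
  linarith

theorem T_ge_S {x : ℝ} (hx0 : 0 < x) (hx1 : x < 1) {s : ℤ} {k : ℕ} {L : List ℤ}
    (h : N false s k L) (hs : s = 1 ∨ s = -1) :
    k * (2 * (1 - x)⁻¹ - 1) + 2 * (1 - x)⁻¹ ≤ T x L := by
  have h0 : |(0 : ℝ)| ≤ (1 - x)⁻¹ := by
    simp only [abs_zero]
    have : 0 < 1 - x := by linarith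
    positivity
  have h1 := dp hx0 hx1 h hs 0 h0
  have h2 := T_ge_cost hx0 hx1 L
  have h3 : phiS x 0 = 0 := by
    unfold phiS
    simp only [max_self, mul_zero, zero_sub]
    exact max_eq_left (by linarith)
  simp only [CC, CS, phi, mul_zero, h3, sub_zero] at h1
  linarith

/-- alternation -/
inductive Alt : ℤ → ℕ → List ℤ → Prop
  | skip {s : ℤ} {k : ℕ} {m : ℤ} {L : List ℤ} : Alt s k L → Alt s k (m :: L)
  | last {s m : ℤ} {L : List ℤ} : 1 ≤ s * m → Alt s 0 (m :: L)
  | step {s m : ℤ} {k : ℕ} {L : List ℤ} : 1 ≤ s * m → Alt (-s) k L → Alt s (k + 1) (m :: L)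

/-- coefficients of `(1 - X) Q` -/
def diff : ℤ → List ℤ → List ℤ
  | c, [] => [-c]
  | c, m :: L => (m - c) :: diff m L

lemma Alt.drop {s : ℤ} {k : ℕ} {L : List ℤ} (h : Alt s (k + 1) L) : Alt (-s) k L := by
  generalize hk : k + 1 = k' at h
  induction h with
  | skip _ ih => exact Alt.skip (ih hk)
  | last _ => omega
  | @step s m k₂ L _ h2 _ =>
    obtain rfl : k = k₂ := by omega
    exact Alt.skip h2

lemma diff_three {s : ℤ} (L : List ℤ) : ∀ c, 1 ≤ s * c → N true (-s) 0 (diff c L) := by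
  induction L with
  | nil => intro c h; exact N.F0 (by linarith)
  | cons m L ih =>
    intro c h
    simp only [diff]
    by_cases hm : 1 ≤ s * m
    · exact N.skip (ih m hm)
    · refine N.F0 ?_
      have : -s * (m - c) = s * c - s * m := by ring
      rw [this]; omega

/-- the two pattern claims -/
lemma diff_pattern (L : List ℤ) : ∀ (s : ℤ) (k : ℕ) (c : ℤ), Alt s k L →
    (s * c ≤ 0 → N false s k (diff c L)) ∧ (s * c ≤ -1 → N true s (k + 1) (diff c L)) := by
  induction L with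
  | nil => intro s k c h; cases h
  | cons m L ih =>
    intro s k c h
    -- continuation after an entry `m` with `s * m ≥ 1`
    have cont : 1 ≤ s * m → N true (-s) k (diff m L) := by
      intro hm
      cases k with
      | zero => exact diff_three L m hm
      | succ k' =>
        have h1 : Alt (-s) k' L := by
          cases h with
          | skip h' => exact h'.drop
          | step _ h' => exact h'
        exact ((ih (-s) k' m h1).2 (by linarith))
    have hskip : ¬ (1 ≤ s * m) → Alt s k L := by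
      intro hm
      cases h with
      | skip h' => exact h'
      | last h' => exact absurd h' hm
      | step h' _ => exact absurd h' hm
    constructor
    · intro hc
      simp only [diff]
      by_cases hm : 1 ≤ s * m
      · refine N.S1 ?_ (cont hm)
        have : s * (m - c) = s * m - s * c := by ring
        rw [this]; omega
      · exact N.skip ((ih s k m (hskip hm)).1 (by omega))
    · intro hc
      simp only [diff]
      by_cases hm : 1 ≤ s * m
      · refine N.F2 ?_ (cont hm)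
        have : s * (m - c) = s * m - s * c := by ring
        rw [this]; omega
      · by_cases hm2 : s * m ≤ -1
        · exact N.skip ((ih s k m (hskip hm)).2 hm2)
        · refine N.F1 ?_ ((ih s k m (hskip hm)).1 (by omega))
          have : s * (m - c) = s * m - s * c := by ring
          rw [this]; omega

/-- from the greedy pattern to alternation -/
lemma N.toAlt {b : Bool} {s : ℤ} {k : ℕ} {L : List ℤ} (h : N b s k L) :
    Alt s (k + (if b then 0 else 1)) L := by
  induction h with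
  | skip _ ih => exact Alt.skip ih
  | F0 h => exact Alt.last h
  | F1 _ _ ih => exact Alt.skip (by simpa using ih)
  | @F2 s m k L h _ ih => exact Alt.step (show 1 ≤ s * m by omega) (by simpa using ih)
  | S1 h _ ih => exact Alt.step h (by simpa using ih)

lemma Alt.diff {s : ℤ} {k : ℕ} {L : List ℤ} (h : Alt s k L) :
    Alt s (k + 1) (diff 0 L) := by
  have := ((diff_pattern L s k 0 h).1 (by simp)).toAlt
  simpa using this

/-- The pattern of the coefficient list of `(1 - X)^(k+1) P`. -/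
lemma pattern_iter {s : ℤ} {L : List ℤ} (h : Alt s 0 L) (k : ℕ) :
    Alt s k ((Pte.diff 0)^[k] L) := by
  induction k with
  | zero => exact h
  | succ k ih =>
    rw [Function.iterate_succ_apply']
    exact ih.diff

lemma pattern_N {s : ℤ} {L : List ℤ} (h : Alt s 0 L) (k : ℕ) :
    N false s k ((Pte.diff 0)^[k + 1] L) := by
  rw [Function.iterate_succ_apply']
  exact (diff_pattern _ s k 0 (pattern_iter h k)).1 (by simp)

lemma Alt.to_N {s : ℤ} {L : List ℤ} (h : Alt s 0 L) : N true s 0 L := by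
  generalize hk : 0 = k' at h
  induction h with
  | skip _ ih => exact N.skip (by subst hk; exact ih rfl)
  | last h => exact N.F0 h
  | step _ _ _ => omega

lemma exists_alt {L : List ℤ} (h : ∃ m ∈ L, m ≠ 0) : ∃ s : ℤ, (s = 1 ∨ s = -1) ∧ Alt s 0 L := by
  induction L with
  | nil => simp at h
  | cons m L ih =>
    rcases lt_trichotomy m 0 with hm | hm | hm
    · exact ⟨-1, Or.inr rfl, Alt.last (by omega)⟩
    · subst hm
      obtain ⟨m', h1, h2⟩ := h
      rcases List.mem_cons.mp h1 with h3 | h3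
      · exact absurd h3 h2
      · obtain ⟨s, hs, ha⟩ := ih ⟨m', h3, h2⟩
        exact ⟨s, hs, Alt.skip ha⟩
    · exact ⟨1, Or.inl rfl, Alt.last (by omega)⟩

/-- absolute sums -/
lemma N.abs_sum {b : Bool} {s : ℤ} {k : ℕ} {L : List ℤ} (h : N b s k L) :
    (s = 1 ∨ s = -1) → (2 * k + (if b then 1 else 2) : ℤ) ≤ (L.map (fun m => |m|)).sum := by
  have key : ∀ {s m : ℤ}, (s = 1 ∨ s = -1) → s * m ≤ |m| := by
    intro s m hs
    rcases hs with rfl | rfl
    · simpa using le_abs_self m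
    · simpa using neg_le_abs m
  have nn : ∀ L : List ℤ, 0 ≤ (L.map (fun m => |m|)).sum := by
    intro L
    apply List.sum_nonneg
    intro x hx
    obtain ⟨m, _, rfl⟩ := List.mem_map.mp hx
    exact abs_nonneg _
  have hneg : ∀ {s : ℤ}, (s = 1 ∨ s = -1) → (-s = 1 ∨ -s = -1) := by
    intro s hs; rcases hs with rfl | rfl <;> simp
  induction h with
  | @skip b s k m L _ ih =>
    intro hs
    simp only [List.map_cons, List.sum_cons]
    linarith [ih hs, abs_nonneg m]
  | @F0 s m L hm =>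
    intro hs
    simp only [List.map_cons, List.sum_cons]
    have := key (m := m) hs
    have := nn L
    simp
    omega
  | @F1 s m k L hm _ ih =>
    intro hs
    simp only [List.map_cons, List.sum_cons]
    have := key (m := m) hs
    have := ih hs
    simp at this ⊢
    omega
  | @F2 s m k L hm _ ih =>
    intro hs
    simp only [List.map_cons, List.sum_cons]
    have := key (m := m) hs
    have := ih (hneg hs)
    simp at this ⊢
    omega
  | @S1 s m k L hm _ ih =>
    intro hs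
    simp only [List.map_cons, List.sum_cons]
    have := key (m := m) hs
    have := ih (hneg hs)
    simp at this ⊢
    omega

end Pool.Agent.R263.Pte
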