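import Pool.Agent.R263.PteB

set_option autoImplicit false

open MeasureTheory Real Set intervalIntegral

namespace Pool.Agent.R263.Pte

/-- the kernel -/
noncomputable def g (x θ : ℝ) : ℝ := x * (2 - 2 * cos θ) / (1 - 2 * x * cos θ + x ^ 2)

lemma denom_pos {x : ℝ} (hx0 : 0 < x) (hx1 : x < 1) (θ : ℝ) :
    0 < 1 - 2 * x * cos θ + x ^ 2 := by
  nlinarith [cos_le_one θ, sq_nonneg (1 - x), mul_nonneg hx0.le (sub_nonneg.mpr (cos_le_one θ)),
    mul_pos (sub_pos.mpr hx1) (sub_pos.mpr hx1)]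

lemma continuous_g {x : ℝ} (hx0 : 0 < x) (hx1 : x < 1) : Continuous (g x) := by
  unfold g
  refine Continuous.div (by fun_prop) (by fun_prop) (fun θ => (denom_pos hx0 hx1 θ).ne')

/-- Poisson integral on `[-π, π]`. -/
lemma poisson_cos {x : ℝ} (hx0 : 0 < x) (hx1 : x < 1) (n : ℕ) :
    ∫ θ in (-π)..π, (1 - x ^ 2) / (1 - 2 * x * cos θ + x ^ 2) * cos (n * θ) = 2 * π * x ^ n := by
  have hf : DiffContOnCl ℂ (fun z : ℂ => z ^ n) (Metric.ball 0 1) :=
    (Differentiable.diffContOnCl (by fun_prop))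
  have hw : (x : ℂ) ∈ Metric.ball (0 : ℂ) 1 := by
    simp only [mem_ball_zero_iff, Complex.norm_real, norm_eq_abs, abs_of_pos hx0]
    exact hx1
  have h := hf.circleAverage_poissonKernel_smul' hw
  rw [Real.circleAverage_def] at h
  have e1 : ∀ θ : ℝ, ((‖circleMap 0 1 θ - 0‖ ^ 2 - ‖(x : ℂ) - 0‖ ^ 2) /
      ‖circleMap 0 1 θ - 0 - ((x : ℂ) - 0)‖ ^ 2) • (circleMap 0 1 θ) ^ n =
      (((1 - x ^ 2) / (1 - 2 * x * cos θ + x ^ 2) : ℝ) : ℂ) * Complex.exp ((n * θ : ℝ) * Complex.I) := by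
    intro θ
    have e2 : circleMap 0 1 θ = Complex.exp (θ * Complex.I) := by simp [circleMap]
    rw [e2]
    have e3 : ‖Complex.exp (θ * Complex.I) - 0 - ((x : ℂ) - 0)‖ ^ 2 =
        1 - 2 * x * cos θ + x ^ 2 := by
      rw [sub_zero, sub_zero, ← Complex.normSq_eq_norm_sq, Complex.normSq_apply]
      simp only [Complex.sub_re, Complex.sub_im, Complex.exp_ofReal_mul_I_re,
        Complex.exp_ofReal_mul_I_im, Complex.ofReal_re, Complex.ofReal_im]
      nlinarith [sin_sq_add_cos_sq θ]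
    rw [e3, sub_zero, sub_zero, Complex.norm_exp_ofReal_mul_I, Complex.norm_real, norm_eq_abs,
      sq_abs, one_pow, Complex.real_smul, ← Complex.exp_nat_mul]
    congr 2
    push_cast
    ring
  simp_rw [e1] at h
  have e4 : ∫ θ in (0 : ℝ)..(2 * π), ((((1 - x ^ 2) / (1 - 2 * x * cos θ + x ^ 2) : ℝ) : ℂ) *
      Complex.exp ((n * θ : ℝ) * Complex.I)) = 2 * π * (x : ℂ) ^ n := by
    have h5 : (2 * π : ℝ) ≠ 0 := by positivity
    have h6 := congrArg (fun y : ℂ => ((2 * π : ℝ) : ℂ) * y) h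
    simp only [Complex.real_smul] at h6
    rw [← mul_assoc, ← Complex.ofReal_mul, mul_inv_cancel₀ h5, Complex.ofReal_one, one_mul] at h6
    rw [h6]
    push_cast
    ring
  have hper : Function.Periodic (fun θ : ℝ => (1 - x ^ 2) / (1 - 2 * x * cos θ + x ^ 2) * cos (n * θ))
      (2 * π) := by
    intro θ
    have : cos (n * (θ + 2 * π)) = cos (n * θ) := by
      rw [mul_add]
      exact cos_add_nat_mul_two_pi _ n
    simp only [cos_add_two_pi, this]
  have e5 := hper.intervalIntegral_add_eq (-π) 0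
  rw [show -π + 2 * π = π by ring, zero_add] at e5
  rw [e5]
  have e6 : (∫ θ in (0 : ℝ)..(2 * π), ((((1 - x ^ 2) / (1 - 2 * x * cos θ + x ^ 2) : ℝ) : ℂ) *
      Complex.exp ((n * θ : ℝ) * Complex.I))).re =
      ∫ θ in (0 : ℝ)..(2 * π), (1 - x ^ 2) / (1 - 2 * x * cos θ + x ^ 2) * cos (n * θ) := by
    have hc : Continuous fun θ : ℝ => ((((1 - x ^ 2) / (1 - 2 * x * cos θ + x ^ 2) : ℝ) : ℂ) *
      Complex.exp ((n * θ : ℝ) * Complex.I)) := by
      refine Continuous.mul (Complex.continuous_ofReal.comp ?_) (by fun_prop)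
      exact Continuous.div (by fun_prop) (by fun_prop) (fun θ => (denom_pos hx0 hx1 θ).ne')
    have h7 := Complex.reCLM.intervalIntegral_comp_comm
      (hc.intervalIntegrable (μ := volume) 0 (2 * π))
    simp only [Complex.reCLM_apply] at h7
    rw [← h7]
    apply intervalIntegral.integral_congr
    intro θ _
    simp only [Complex.mul_re, Complex.ofReal_re, Complex.ofReal_im, zero_mul, sub_zero,
      Complex.exp_ofReal_mul_I_re]
  rw [← e6, e4]
  have : (2 * (π : ℂ) * (x : ℂ) ^ n) = ((2 * π * x ^ n : ℝ) : ℂ) := by push_cast; ring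
  rw [this, Complex.ofReal_re]

lemma g_eq {x : ℝ} (hx0 : 0 < x) (hx1 : x < 1) (θ : ℝ) :
    g x θ = 1 - (1 - x) / (1 + x) * ((1 - x ^ 2) / (1 - 2 * x * cos θ + x ^ 2)) := by
  have h1 := (denom_pos hx0 hx1 θ).ne'
  have h2 : (1 + x) ≠ 0 := by positivity
  unfold g
  rw [div_mul_div_comm, eq_sub_iff_add_eq, div_add_div _ _ h1 (mul_ne_zero h2 h1),
    div_eq_one_iff_eq (mul_ne_zero h1 (mul_ne_zero h2 h1))]
  ring

lemma integral_cos_nat_mul (n : ℕ) (hn : 1 ≤ n) : ∫ θ in (-π)..π, cos (n * θ) = 0 := by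
  have hn0 : (n : ℝ) ≠ 0 := by positivity
  rw [intervalIntegral.integral_comp_mul_left (fun y => cos y) hn0, integral_cos]
  simp [sin_nat_mul_pi, mul_neg]

lemma g_cos {x : ℝ} (hx0 : 0 < x) (hx1 : x < 1) (n : ℕ) (hn : 1 ≤ n) :
    ∫ θ in (-π)..π, g x θ * cos (n * θ) = - (2 * π * ((1 - x) / (1 + x)) * x ^ n) := by
  have hc : Continuous fun θ : ℝ => (1 - x ^ 2) / (1 - 2 * x * cos θ + x ^ 2) * cos (n * θ) := by
    refine Continuous.mul ?_ (by fun_prop)
    exact Continuous.div (by fun_prop) (by fun_prop) (fun θ => (denom_pos hx0 hx1 θ).ne')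
  have e1 : ∀ θ, g x θ * cos (n * θ) = cos (n * θ) -
      (1 - x) / (1 + x) * ((1 - x ^ 2) / (1 - 2 * x * cos θ + x ^ 2) * cos (n * θ)) := by
    intro θ; rw [g_eq hx0 hx1]; ring
  simp_rw [e1]
  rw [intervalIntegral.integral_sub (Continuous.intervalIntegrable (by fun_prop) _ _)
    ((hc.intervalIntegrable _ _).const_mul _), integral_cos_nat_mul n hn,
    intervalIntegral.integral_const_mul, poisson_cos hx0 hx1]
  ring

lemma g_int {x : ℝ} (hx0 : 0 < x) (hx1 : x < 1) :
    ∫ θ in (-π)..π, g x θ = 4 * π * x / (1 + x) := by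
  have hc : Continuous fun θ : ℝ => (1 - x ^ 2) / (1 - 2 * x * cos θ + x ^ 2) := by
    exact Continuous.div (by fun_prop) (by fun_prop) (fun θ => (denom_pos hx0 hx1 θ).ne')
  have h0 := poisson_cos hx0 hx1 0
  simp only [Nat.cast_zero, zero_mul, cos_zero, mul_one, pow_zero] at h0
  simp_rw [g_eq hx0 hx1]
  rw [intervalIntegral.integral_sub (Continuous.intervalIntegrable (by fun_prop) _ _)
    ((hc.intervalIntegrable _ _).const_mul _),
    intervalIntegral.integral_const_mul, h0]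
  simp only [intervalIntegral.integral_const, smul_eq_mul]
  have h2 : (1 + x) ≠ 0 := by positivity
  field_simp
  ring

/-- polynomial evaluation of a coefficient list -/
noncomputable def E : List ℤ → ℂ → ℂ
  | [], _ => 0
  | m :: L, z => m + z * E L z

lemma continuous_E (L : List ℤ) : Continuous (E L) := by
  induction L with
  | nil => simpa [E] using continuous_const
  | cons m L ih => simp only [E]; fun_prop

/-- the point on the circle -/
noncomputable def cz (θ : ℝ) : ℂ := Complex.exp (θ * Complex.I)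

lemma continuous_cz : Continuous cz := by unfold cz; fun_prop

lemma norm_cz (θ : ℝ) : ‖cz θ‖ = 1 := Complex.norm_exp_ofReal_mul_I θ

lemma cz_pow_re (n : ℕ) (θ : ℝ) : ((cz θ) ^ n).re = cos (n * θ) := by
  unfold cz
  rw [← Complex.exp_nat_mul]
  have : (n : ℂ) * (θ * Complex.I) = ((n * θ : ℝ) : ℂ) * Complex.I := by push_cast; ring
  rw [this, Complex.exp_ofReal_mul_I_re]

lemma g_E {x : ℝ} (hx0 : 0 < x) (hx1 : x < 1) (L : List ℤ) : ∀ k : ℕ,
    ∫ θ in (-π)..π, g x θ * ((cz θ) ^ (k + 1) * E L (cz θ)).re =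
      - (2 * π * ((1 - x) / (1 + x)) * x ^ (k + 1) * ev x L) := by
  induction L with
  | nil => intro k; simp [E, ev]
  | cons m L ih =>
    intro k
    have e1 : ∀ θ, g x θ * ((cz θ) ^ (k + 1) * E (m :: L) (cz θ)).re =
        m * (g x θ * cos ((k + 1 : ℕ) * θ)) +
          g x θ * ((cz θ) ^ (k + 1 + 1) * E L (cz θ)).re := by
      intro θ
      simp only [E]
      have : (cz θ) ^ (k + 1) * ((m : ℂ) + cz θ * E L (cz θ)) =
        ((m : ℝ) : ℂ) * (cz θ) ^ (k + 1) + (cz θ) ^ (k + 1 + 1) * E L (cz θ) := by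
        push_cast; ring
      rw [this, Complex.add_re, Complex.re_ofReal_mul, cz_pow_re]
      ring
    simp_rw [e1]
    have c1 := continuous_g hx0 hx1
    have c2 := continuous_cz
    have c3 := continuous_E L
    rw [intervalIntegral.integral_add (Continuous.intervalIntegrable (by fun_prop) _ _)
      (Continuous.intervalIntegrable (by
        refine c1.mul (Complex.continuous_re.comp ?_)
        exact (c2.pow _).mul (c3.comp c2)) _ _), intervalIntegral.integral_const_mul,
      g_cos hx0 hx1 (k + 1) (by omega), ih (k + 1)]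
    simp only [ev]
    ring

lemma g_normSq {x : ℝ} (hx0 : 0 < x) (hx1 : x < 1) (L : List ℤ) :
    ∫ θ in (-π)..π, g x θ * ‖E L (cz θ)‖ ^ 2 = 4 * π * x * (1 - x) / (1 + x) * T x L := by
  induction L with
  | nil => simp [E, T]
  | cons m L ih =>
    have e1 : ∀ θ, g x θ * ‖E (m :: L) (cz θ)‖ ^ 2 =
        (m : ℝ) ^ 2 * g x θ + (2 * m * (g x θ * ((cz θ) ^ (0 + 1) * E L (cz θ)).re) +
          g x θ * ‖E L (cz θ)‖ ^ 2) := by
      intro θ
      simp only [E]
      have h1 : ‖(m : ℂ) + cz θ * E L (cz θ)‖ ^ 2 = (m : ℝ) ^ 2 +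
          2 * m * (cz θ * E L (cz θ)).re + ‖E L (cz θ)‖ ^ 2 := by
        rw [← Complex.normSq_eq_norm_sq, Complex.normSq_add, Complex.normSq_eq_norm_sq,
          Complex.normSq_eq_norm_sq, norm_mul, norm_cz, one_mul]
        have h2 : ‖(m : ℂ)‖ = |(m : ℝ)| := by
          rw [← Complex.ofReal_intCast, Complex.norm_real, norm_eq_abs]
        rw [h2, sq_abs]
        have h3 : ((m : ℂ) * (starRingEnd ℂ) (cz θ * E L (cz θ))).re =
            m * (cz θ * E L (cz θ)).re := by
          rw [← Complex.ofReal_intCast, Complex.re_ofReal_mul, Complex.conj_re]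
        rw [h3]
        ring
      rw [h1]
      simp only [zero_add, pow_one]
      ring
    simp_rw [e1]
    have c1 := continuous_g hx0 hx1
    have c2 := continuous_cz
    have c3 := continuous_E L
    have c4 : Continuous fun θ => 2 * m * (g x θ * ((cz θ) ^ (0 + 1) * E L (cz θ)).re) := by
      refine continuous_const.mul (c1.mul (Complex.continuous_re.comp ?_))
      exact (c2.pow _).mul (c3.comp c2)
    have c5 : Continuous fun θ => g x θ * ‖E L (cz θ)‖ ^ 2 :=
      c1.mul (((c3.comp c2).norm).pow 2)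
    have c6 : Continuous fun θ => 2 * m * (g x θ * ((cz θ) ^ (0 + 1) * E L (cz θ)).re) +
        g x θ * ‖E L (cz θ)‖ ^ 2 := c4.add c5
    have c7 : Continuous fun θ => (m : ℝ) ^ 2 * g x θ := continuous_const.mul c1
    rw [intervalIntegral.integral_add (c7.intervalIntegrable _ _)
      (c6.intervalIntegrable _ _),
      intervalIntegral.integral_add (c4.intervalIntegrable _ _) (c5.intervalIntegrable _ _), ih,
      intervalIntegral.integral_const_mul, intervalIntegral.integral_const_mul,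
      g_E hx0 hx1 L 0, g_int hx0 hx1]
    simp only [T]
    have h2 : (1 + x) ≠ 0 := by positivity
    have h3 : (1 - x) ≠ 0 := by linarith
    field_simp
    ring

/-- the comparison trigonometric polynomial -/
noncomputable def Bd (d : ℕ) (θ : ℝ) : ℝ := 2 * d + 2 * ((d : ℝ) - 1) * cos θ

lemma g_Bd {x : ℝ} (hx0 : 0 < x) (hx1 : x < 1) (d : ℕ) :
    ∫ θ in (-π)..π, g x θ * Bd d θ =
      4 * π * x * (1 - x) / (1 + x) * (2 * d * (1 - x)⁻¹ - (d - 1)) := by
  have c1 := continuous_g hx0 hx1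
  have e1 : ∀ θ, g x θ * Bd d θ = 2 * d * g x θ + 2 * ((d : ℝ) - 1) * (g x θ * cos ((1 : ℕ) * θ)) := by
    intro θ; unfold Bd; simp only [Nat.cast_one, one_mul]; ring
  simp_rw [e1]
  rw [intervalIntegral.integral_add (Continuous.intervalIntegrable (by fun_prop) _ _)
    (Continuous.intervalIntegrable (by fun_prop) _ _), intervalIntegral.integral_const_mul,
    intervalIntegral.integral_const_mul, g_cos hx0 hx1 1 le_rfl, g_int hx0 hx1]
  have h2 : (1 + x) ≠ 0 := by positivity
  have h3 : (1 - x) ≠ 0 := by linarith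
  field_simp
  ring

end Pool.Agent.R263.Pte
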