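import Pool.Agent.R263.PteC

set_option autoImplicit false

open MeasureTheory Real Set intervalIntegral

namespace Pool.Agent.R263.Pte

/-- the squared modulus of `1 - e^{iθ}` -/
noncomputable def ww (θ : ℝ) : ℝ := 2 - 2 * cos θ

lemma ww_nonneg (θ : ℝ) : 0 ≤ ww θ := by unfold ww; linarith [cos_le_one θ]

lemma ww_le (θ : ℝ) : ww θ ≤ 4 := by unfold ww; linarith [neg_one_le_cos θ]

lemma continuous_ww : Continuous ww := by unfold ww; fun_prop

lemma exists_x (t : ℝ) (ht : 0 < t) : ∃ x : ℝ, 0 < x ∧ x < 1 ∧ t * x = (1 - x) ^ 2 := by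
  have h1 : 0 < t ^ 2 + 4 * t := by positivity
  have h2 := Real.sq_sqrt h1.le
  have h3 := Real.sqrt_nonneg (t ^ 2 + 4 * t)
  set r := √(t ^ 2 + 4 * t) with hr
  have h4 : t < r := by
    by_contra hc
    push Not at hc
    nlinarith
  have h5 : r < t + 2 := by
    by_contra hc
    push Not at hc
    nlinarith
  exact ⟨(2 + t - r) / 2, by linarith, by linarith, by nlinarith⟩

lemma kernel_eq {t x : ℝ} (ht : 0 < t) (hx0 : 0 < x) (hx1 : x < 1)
    (htx : t * x = (1 - x) ^ 2) (θ : ℝ) : ww θ / (t + ww θ) = g x θ := by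
  unfold g ww
  have h1 := denom_pos hx0 hx1 θ
  have h2 : 0 < t + (2 - 2 * cos θ) := by linarith [cos_le_one θ]
  rw [div_eq_div_iff h2.ne' h1.ne']
  have h3 : 1 - 2 * x * cos θ + x ^ 2 = x * (t + (2 - 2 * cos θ)) := by
    linear_combination -htx
  rw [h3]
  ring

/-- positivity transfer: from the kernels `g x` to the weight `w^μ`. -/
theorem transfer {μ : ℝ} (h0 : 0 < μ) (h1 : μ < 1) {F : ℝ → ℝ} (hF : Continuous F)
    (hpos : ∀ x, 0 < x → x < 1 → 0 ≤ ∫ θ in (-π)..π, g x θ * F θ) :
    0 ≤ ∫ θ in (-π)..π, (ww θ) ^ μ * F θ := by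
  have hp : μ ∈ Ioo (0 : ℝ) 1 := ⟨h0, h1⟩
  have hpi : -π ≤ π := by linarith [pi_pos]
  set c := (∫ t in Ioi 0, rpowIntegrand₀₁ μ t 1)⁻¹ with hc
  have hcpos : 0 < c := inv_pos.mpr (integral_rpowIntegrand₀₁_one_pos hp)
  -- bound on F
  obtain ⟨M, hM⟩ : ∃ M, ∀ θ ∈ Icc (-π) π, ‖F θ‖ ≤ M :=
    isCompact_Icc.exists_bound_of_continuousOn hF.continuousOn
  have e1 : ∀ θ, (ww θ) ^ μ * F θ = c * ∫ t in Ioi 0, rpowIntegrand₀₁ μ t (ww θ) * F θ := by
    intro θ
    rw [rpow_eq_const_mul_integral hp (ww_nonneg θ), MeasureTheory.integral_mul_const, mul_assoc]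
  simp_rw [e1]
  rw [intervalIntegral.integral_const_mul, intervalIntegral.integral_of_le hpi]
  refine mul_nonneg hcpos.le ?_
  have hmeas : Measurable (fun p : ℝ × ℝ => rpowIntegrand₀₁ μ p.2 (ww p.1) * F p.1) := by
    unfold rpowIntegrand₀₁
    have := continuous_ww.measurable
    have := hF.measurable
    fun_prop
  have hint : Integrable (Function.uncurry fun θ t => rpowIntegrand₀₁ μ t (ww θ) * F θ)
      ((volume.restrict (Ioc (-π) π)).prod (volume.restrict (Ioi 0))) := by
    have hdom : Integrable (fun p : ℝ × ℝ => M * rpowIntegrand₀₁ μ p.2 4)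
        ((volume.restrict (Ioc (-π) π)).prod (volume.restrict (Ioi 0))) := by
      have i1 : Integrable (fun _ : ℝ => M) (volume.restrict (Ioc (-π) π)) :=
        integrable_const _
      have i2 : Integrable (fun t => rpowIntegrand₀₁ μ t 4) (volume.restrict (Ioi 0)) :=
        integrableOn_rpowIntegrand₀₁_Ioi hp (by norm_num)
      exact i1.mul_prod i2
    refine hdom.mono' hmeas.aestronglyMeasurable ?_
    rw [Measure.prod_restrict]
    refine ae_restrict_of_forall_mem (measurableSet_Ioc.prod measurableSet_Ioi) ?_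
    rintro ⟨θ, t⟩ ⟨hθ, ht⟩
    simp only [Function.uncurry]
    have h2 : 0 ≤ rpowIntegrand₀₁ μ t (ww θ) :=
      rpowIntegrand₀₁_nonneg h0 (le_of_lt ht) (ww_nonneg θ)
    have h3 : rpowIntegrand₀₁ μ t (ww θ) ≤ rpowIntegrand₀₁ μ t 4 :=
      rpowIntegrand₀₁_monotoneOn hp (le_of_lt ht) (ww_nonneg θ) (by norm_num : (0:ℝ) ≤ 4) (ww_le θ)
    rw [norm_mul, norm_of_nonneg h2, mul_comm]
    have h4 := hM θ ⟨hθ.1.le, hθ.2⟩
    gcongr
    exact (norm_nonneg _).trans h4
  rw [MeasureTheory.integral_integral_swap hint]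
  refine setIntegral_nonneg measurableSet_Ioi ?_
  intro t ht
  have ht' : 0 < t := ht
  obtain ⟨x, hx0, hx1, hx⟩ := exists_x t ht'
  have e2 : ∀ θ, rpowIntegrand₀₁ μ t (ww θ) * F θ = t ^ (μ - 1) * (g x θ * F θ) := by
    intro θ
    rw [rpowIntegrand₀₁_eq_pow_div hp ht'.le (ww_nonneg θ), mul_div_assoc,
      kernel_eq ht' hx0 hx1 hx]
    ring
  simp_rw [e2]
  rw [MeasureTheory.integral_const_mul, ← intervalIntegral.integral_of_le hpi]
  exact mul_nonneg (rpow_nonneg ht'.le _) (hpos x hx0 hx1)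

/-- integrals of `‖R‖²` against Lebesgue measure -/
lemma one_E (L : List ℤ) : ∀ k : ℕ,
    ∫ θ in (-π)..π, ((cz θ) ^ (k + 1) * E L (cz θ)).re = 0 := by
  induction L with
  | nil => intro k; simp [E]
  | cons m L ih =>
    intro k
    have e1 : ∀ θ, ((cz θ) ^ (k + 1) * E (m :: L) (cz θ)).re =
        m * cos ((k + 1 : ℕ) * θ) + ((cz θ) ^ (k + 1 + 1) * E L (cz θ)).re := by
      intro θ
      simp only [E]
      have : (cz θ) ^ (k + 1) * ((m : ℂ) + cz θ * E L (cz θ)) =
        ((m : ℝ) : ℂ) * (cz θ) ^ (k + 1) + (cz θ) ^ (k + 1 + 1) * E L (cz θ) := by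
        push_cast; ring
      rw [this, Complex.add_re, Complex.re_ofReal_mul, cz_pow_re]
    simp_rw [e1]
    have c2 := continuous_cz
    have c3 := continuous_E L
    rw [intervalIntegral.integral_add (Continuous.intervalIntegrable (by fun_prop) _ _)
      (Continuous.intervalIntegrable (by
        refine (Complex.continuous_re.comp ?_)
        exact (c2.pow _).mul (c3.comp c2)) _ _), intervalIntegral.integral_const_mul,
      integral_cos_nat_mul (k + 1) (by omega), ih (k + 1)]
    ring

lemma one_normSq (L : List ℤ) :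
    ∫ θ in (-π)..π, ‖E L (cz θ)‖ ^ 2 = 2 * π * ((L.map (fun m => m ^ 2)).sum : ℤ) := by
  induction L with
  | nil => simp [E]
  | cons m L ih =>
    have e1 : ∀ θ, ‖E (m :: L) (cz θ)‖ ^ 2 =
        (m : ℝ) ^ 2 + (2 * m * (((cz θ) ^ (0 + 1) * E L (cz θ)).re) +
          ‖E L (cz θ)‖ ^ 2) := by
      intro θ
      simp only [E]
      have h1 : ‖(m : ℂ) + cz θ * E L (cz θ)‖ ^ 2 = (m : ℝ) ^ 2 +
          2 * m * (cz θ * E L (cz θ)).re + ‖E L (cz θ)‖ ^ 2 := by
        rw [← Complex.normSq_eq_norm_sq, Complex.normSq_add, Complex.normSq_eq_norm_sq,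
          Complex.normSq_eq_norm_sq, norm_mul, norm_cz, one_mul]
        have h2 : ‖(m : ℂ)‖ = |(m : ℝ)| := by
          rw [← Complex.ofReal_intCast, Complex.norm_real, norm_eq_abs]
        rw [h2, sq_abs]
        have h3 : ((m : ℂ) * (starRingEnd ℂ) (cz θ * E L (cz θ))).re =
            m * (cz θ * E L (cz θ)).re := by
          rw [← Complex.ofReal_intCast, Complex.re_ofReal_mul, Complex.conj_re]
        rw [h3]
        ring
      rw [h1]
      simp only [zero_add, pow_one]
      ring
    simp_rw [e1]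
    have c2 := continuous_cz
    have c3 := continuous_E L
    have c4 : Continuous fun θ => 2 * m * (((cz θ) ^ (0 + 1) * E L (cz θ)).re) := by
      refine continuous_const.mul (Complex.continuous_re.comp ?_)
      exact (c2.pow _).mul (c3.comp c2)
    have c5 : Continuous fun θ => ‖E L (cz θ)‖ ^ 2 := (((c3.comp c2).norm).pow 2)
    have c6 : Continuous fun θ => 2 * m * (((cz θ) ^ (0 + 1) * E L (cz θ)).re) +
        ‖E L (cz θ)‖ ^ 2 := c4.add c5
    rw [intervalIntegral.integral_add (continuous_const.intervalIntegrable _ _)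
      (c6.intervalIntegrable _ _),
      intervalIntegral.integral_add (c4.intervalIntegrable _ _) (c5.intervalIntegrable _ _), ih,
      intervalIntegral.integral_const_mul, one_E L 0]
    simp only [intervalIntegral.integral_const, smul_eq_mul, List.map_cons, List.sum_cons]
    push_cast
    ring

/-- the coefficient list of a polynomial -/
noncomputable def clist (P : Polynomial ℤ) : List ℤ :=
  (List.range (P.natDegree + 1)).map P.coeff

lemma E_append (L : List ℤ) (m : ℤ) (z : ℂ) :
    E (L ++ [m]) z = E L z + m * z ^ L.length := by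
  induction L with
  | nil => simp [E]
  | cons a L ih =>
    simp only [List.cons_append, E, ih, List.length_cons]
    ring

lemma E_map_range (f : ℕ → ℤ) (n : ℕ) (z : ℂ) :
    E ((List.range n).map f) z = ∑ i ∈ Finset.range n, (f i : ℂ) * z ^ i := by
  induction n with
  | zero => simp [E]
  | succ n ih =>
    rw [List.range_succ, List.map_append, List.map_cons, List.map_nil, E_append, ih,
      Finset.sum_range_succ]
    simp

lemma E_clist (P : Polynomial ℤ) (z : ℂ) :
    E (clist P) z = Polynomial.aeval z P := by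
  unfold clist
  rw [E_map_range, Polynomial.aeval_eq_sum_range]
  apply Finset.sum_congr rfl
  intro i _
  rw [zsmul_eq_mul]

lemma E_diff (L : List ℤ) : ∀ (c : ℤ) (z : ℂ), E (diff c L) z = (1 - z) * E L z - c := by
  induction L with
  | nil => intro c z; simp [diff, E]
  | cons m L ih =>
    intro c z
    simp only [diff, E, ih]
    push_cast
    ring

lemma E_iter (L : List ℤ) (d : ℕ) (z : ℂ) :
    E ((diff 0)^[d] L) z = (1 - z) ^ d * E L z := by
  induction d with
  | zero => simp
  | succ d ih =>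
    rw [Function.iterate_succ_apply', E_diff, ih]
    push_cast
    ring

lemma clist_alt (P : Polynomial ℤ) (hP : P ≠ 0) :
    ∃ s : ℤ, (s = 1 ∨ s = -1) ∧ Alt s 0 (clist P) := by
  apply exists_alt
  refine ⟨P.leadingCoeff, ?_, Polynomial.leadingCoeff_ne_zero.mpr hP⟩
  unfold clist
  rw [List.mem_map]
  exact ⟨P.natDegree, by simp, rfl⟩

lemma sum_sq_ge (L : List ℤ) : (L.map (fun m => |m|)).sum ≤ (L.map (fun m => m ^ 2)).sum := by
  induction L with
  | nil => simp
  | cons m L ih =>
    simp only [List.map_cons, List.sum_cons]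
    have : |m| ≤ m ^ 2 := by
      rw [← sq_abs]
      have h0 := abs_nonneg m
      rcases h0.eq_or_lt with h | h
      · rw [← h]; norm_num
      · nlinarith
    linarith

lemma int_mul_sub {a f h : ℝ → ℝ} (ha : Continuous a) (hf : Continuous f) (hh : Continuous h) :
    ∫ θ in (-π)..π, a θ * (f θ - h θ) =
      (∫ θ in (-π)..π, a θ * f θ) - ∫ θ in (-π)..π, a θ * h θ := by
  have e1 : ∀ θ, a θ * (f θ - h θ) = a θ * f θ - a θ * h θ := by intro θ; ring
  have h1 : Continuous fun θ => a θ * f θ := ha.mul hf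
  have h2 : Continuous fun θ => a θ * h θ := ha.mul hh
  simp_rw [e1]
  exact intervalIntegral.integral_sub (h1.intervalIntegrable _ _) (h2.intervalIntegrable _ _)

/-- Comparison with the trigonometric polynomial, `d ≥ 1`. -/
theorem lower {μ : ℝ} (h0 : 0 ≤ μ) (h1 : μ < 1) (d : ℕ) (P : Polynomial ℤ) (hP : P ≠ 0) :
    ∫ θ in (-π)..π, (ww θ) ^ μ * Bd (d + 1) θ ≤
      ∫ θ in (-π)..π, (ww θ) ^ μ * ‖(1 - cz θ) ^ (d + 1) * Polynomial.aeval (cz θ) P‖ ^ 2 := by
  obtain ⟨s, hs, halt⟩ := clist_alt P hP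
  have hN := pattern_N halt d
  set L := (diff 0)^[d + 1] (clist P) with hL
  have hE : ∀ θ, (1 - cz θ) ^ (d + 1) * Polynomial.aeval (cz θ) P = E L (cz θ) := by
    intro θ
    rw [hL, E_iter, E_clist]
  simp_rw [hE]
  have c2 := continuous_cz
  have c3 := continuous_E L
  have c5 : Continuous fun θ => ‖E L (cz θ)‖ ^ 2 := (((c3.comp c2).norm).pow 2)
  have c6 : Continuous (Bd (d + 1)) := by unfold Bd; fun_prop
  have c7 : Continuous fun θ => (ww θ) ^ μ := continuous_ww.rpow_const (fun _ => Or.inr h0)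
  have key : 0 ≤ ∫ θ in (-π)..π, (ww θ) ^ μ * (‖E L (cz θ)‖ ^ 2 - Bd (d + 1) θ) := by
    rcases h0.eq_or_lt with h | h
    · rw [← h]
      simp only [rpow_zero, one_mul]
      rw [intervalIntegral.integral_sub (c5.intervalIntegrable _ _) (c6.intervalIntegrable _ _),
        one_normSq]
      have e1 : ∫ θ in (-π)..π, Bd (d + 1) θ = 2 * π * (2 * (d + 1)) := by
        unfold Bd
        rw [intervalIntegral.integral_add (continuous_const.intervalIntegrable _ _)
          (Continuous.intervalIntegrable (by fun_prop) _ _),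
          intervalIntegral.integral_const_mul (2 * (((d + 1 : ℕ) : ℝ) - 1)),
          integral_cos]
        simp only [intervalIntegral.integral_const, smul_eq_mul, sin_neg, sin_pi]
        push_cast
        ring
      rw [e1]
      have h2 := hN.abs_sum hs
      have h3 := sum_sq_ge L
      have h4 : (2 * ((d : ℝ) + 1)) ≤ (((L.map (fun m => m ^ 2)).sum : ℤ) : ℝ) := by
        have : (2 * ((d : ℤ) + 1)) ≤ (L.map (fun m => m ^ 2)).sum := by
          simp at h2; linarith
        exact_mod_cast this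
      have := pi_pos
      nlinarith
    · apply transfer h h1 (c5.sub c6)
      intro x hx0 hx1
      have c1 := continuous_g hx0 hx1
      have e2 := int_mul_sub c1 c5 c6
      simp only [Pi.sub_apply]
      rw [e2, g_normSq hx0 hx1, g_Bd hx0 hx1]
      have h2 := T_ge_S hx0 hx1 hN hs
      have h3 : 0 < 4 * π * x * (1 - x) / (1 + x) := by
        have : 0 < 1 - x := by linarith
        positivity
      rw [← mul_sub]
      refine mul_nonneg h3.le ?_
      push_cast
      linarith
  rw [int_mul_sub c7 c5 c6] at key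
  linarith

/-- Comparison for `d = 0`. -/
theorem lower0 {μ : ℝ} (h0 : 0 ≤ μ) (h1 : μ < 1) (P : Polynomial ℤ) (hP : P ≠ 0) :
    ∫ θ in (-π)..π, (ww θ) ^ μ ≤
      ∫ θ in (-π)..π, (ww θ) ^ μ * ‖Polynomial.aeval (cz θ) P‖ ^ 2 := by
  obtain ⟨s, hs, halt⟩ := clist_alt P hP
  have hN := halt.to_N
  set L := clist P with hL
  have hE : ∀ θ, Polynomial.aeval (cz θ) P = E L (cz θ) := by
    intro θ
    rw [hL, E_clist]
  simp_rw [hE]
  have c2 := continuous_cz
  have c3 := continuous_E L
  have c5 : Continuous fun θ => ‖E L (cz θ)‖ ^ 2 := (((c3.comp c2).norm).pow 2)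
  have c6 : Continuous (fun _ : ℝ => (1 : ℝ)) := continuous_const
  have c7 : Continuous fun θ => (ww θ) ^ μ := continuous_ww.rpow_const (fun _ => Or.inr h0)
  have key : 0 ≤ ∫ θ in (-π)..π, (ww θ) ^ μ * (‖E L (cz θ)‖ ^ 2 - 1) := by
    rcases h0.eq_or_lt with h | h
    · rw [← h]
      simp only [rpow_zero, one_mul]
      rw [intervalIntegral.integral_sub (c5.intervalIntegrable _ _) (c6.intervalIntegrable _ _),
        one_normSq]
      simp only [intervalIntegral.integral_const, smul_eq_mul]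
      have h2 := hN.abs_sum hs
      have h3 := sum_sq_ge L
      have h4 : (1 : ℝ) ≤ (((L.map (fun m => m ^ 2)).sum : ℤ) : ℝ) := by
        have : (1 : ℤ) ≤ (L.map (fun m => m ^ 2)).sum := by
          simp at h2; linarith
        exact_mod_cast this
      have := pi_pos
      nlinarith
    · apply transfer h h1 (c5.sub c6)
      intro x hx0 hx1
      have c1 := continuous_g hx0 hx1
      have e2 := int_mul_sub c1 c5 c6
      simp only [Pi.sub_apply]
      rw [e2, g_normSq hx0 hx1]
      simp only [mul_one]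
      rw [g_int hx0 hx1]
      have h2 := T_ge_F hx0 hx1 hN hs
      have h5 : 0 < 1 - x := by linarith
      have h3 : 0 < 4 * π * x * (1 - x) / (1 + x) := by positivity
      have h4 : 4 * π * x / (1 + x) = 4 * π * x * (1 - x) / (1 + x) * (1 - x)⁻¹ := by
        field_simp
      rw [h4, ← mul_sub]
      refine mul_nonneg h3.le ?_
      push_cast at h2
      linarith
  rw [int_mul_sub c7 c5 c6] at key
  simp only [mul_one] at key
  linarith

end Pool.Agent.R263.Pte
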