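import Pool.Agent.R263.PteD

set_option autoImplicit false

open MeasureTheory Real Set intervalIntegral

namespace Pool.Agent.R263.Pte

/-- real beta integral -/
lemma real_beta {α β : ℝ} (hα : 0 < α) (hβ : 0 < β) :
    ∫ y in Ioo (0 : ℝ) 1, y ^ (α - 1) * (1 - y) ^ (β - 1) =
      Gamma α * Gamma β / Gamma (α + β) := by
  have h1 := ProbabilityTheory.beta_eq_betaIntegralReal α β hα hβ
  unfold ProbabilityTheory.beta at h1
  rw [h1, Complex.betaIntegral, intervalIntegral.integral_of_le (by norm_num),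
      ← integral_Ioc_eq_integral_Ioo, ← RCLike.re_to_complex, ← integral_re]
  · refine setIntegral_congr_fun measurableSet_Ioc fun x ⟨hx1, hx₂⟩ ↦ ?_
    norm_cast
    rw [← Complex.ofReal_cpow, ← Complex.ofReal_cpow, RCLike.re_to_complex,
      Complex.re_mul_ofReal, Complex.ofReal_re]
    all_goals linarith
  convert! Complex.betaIntegral_convergent (u := α) (v := β) (by simpa) (by simpa)
  rw [intervalIntegrable_iff_integrableOn_Ioc_of_le (by simp), IntegrableOn]

lemma image_half_cos : (fun θ : ℝ => (1 - cos θ) / 2) '' (Ioo 0 π) = Ioo 0 1 := by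
  ext y
  constructor
  · rintro ⟨θ, ⟨h1, h2⟩, rfl⟩
    have h3 : cos θ < 1 := by
      have := Real.strictAntiOn_cos (left_mem_Icc.mpr pi_pos.le) ⟨h1.le, h2.le⟩ h1
      simpa using this
    have h4 : -1 < cos θ := by
      have := Real.strictAntiOn_cos ⟨h1.le, h2.le⟩ (right_mem_Icc.mpr pi_pos.le) h2
      simpa using this
    constructor <;> simp only [] <;> linarith
  · rintro ⟨h1, h2⟩
    refine ⟨arccos (1 - 2 * y), ⟨?_, ?_⟩, ?_⟩
    · rw [arccos_pos]; linarith
    · have h3 : arccos (1 - 2 * y) ≤ π := arccos_le_pi _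
      refine lt_of_le_of_ne h3 ?_
      intro h4
      rw [arccos_eq_pi] at h4
      linarith
    · simp only []
      rw [cos_arccos (by linarith) (by linarith)]
      ring

lemma J_half {μ : ℝ} (h0 : 0 ≤ μ) :
    ∫ θ in Ioo 0 π, (ww θ) ^ μ =
      4 ^ μ * (Gamma (μ + 1 / 2) * Gamma (1 / 2) / Gamma (μ + 1)) := by
  have h1 := integral_image_eq_integral_abs_deriv_smul (s := Ioo 0 π)
    (f := fun θ : ℝ => (1 - cos θ) / 2) (f' := fun θ => sin θ / 2) measurableSet_Ioo
    (by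
      intro θ _
      have := (((hasDerivAt_cos θ).const_sub 1).div_const 2).hasDerivWithinAt (s := Ioo 0 π)
      simpa using this)
    (by
      intro a ha b hb hab
      simp only [] at hab
      exact Real.injOn_cos ⟨ha.1.le, ha.2.le⟩ ⟨hb.1.le, hb.2.le⟩ (by linarith))
    (fun y : ℝ => y ^ (μ + 1 / 2 - 1) * (1 - y) ^ ((1 : ℝ) / 2 - 1))
  rw [image_half_cos, real_beta (by positivity) (by positivity)] at h1
  rw [show μ + 1 / 2 + 1 / 2 = μ + 1 by ring] at h1
  rw [h1, ← MeasureTheory.integral_const_mul]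
  refine setIntegral_congr_fun measurableSet_Ioo ?_
  intro θ ⟨h2, h3⟩
  simp only [smul_eq_mul]
  have hs : 0 < sin θ := sin_pos_of_pos_of_lt_pi h2 h3
  have h5 : cos θ < 1 := by
    have := Real.strictAntiOn_cos (left_mem_Icc.mpr pi_pos.le) ⟨h2.le, h3.le⟩ h2
    simpa using this
  have h6 : -1 < cos θ := by
    have := Real.strictAntiOn_cos ⟨h2.le, h3.le⟩ (right_mem_Icc.mpr pi_pos.le) h3
    simpa using this
  set u := (1 - cos θ) / 2 with hu
  have hu0 : 0 < u := by rw [hu]; linarith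
  have hv0 : 0 < 1 - u := by rw [hu]; linarith
  have e1 : ww θ = 4 * u := by unfold ww; rw [hu]; ring
  have e2 : sin θ / 2 = √(u * (1 - u)) := by
    rw [eq_comm, Real.sqrt_eq_iff_mul_self_eq (by positivity) (by positivity)]
    rw [hu]
    nlinarith [sin_sq_add_cos_sq θ]
  rw [abs_of_pos (by positivity), e2, e1, mul_rpow (by norm_num) hu0.le,
    Real.sqrt_eq_rpow, mul_rpow hu0.le hv0.le]
  have e3 : u ^ (1 / 2 : ℝ) * u ^ (μ + 1 / 2 - 1) = u ^ μ := by
    rw [← rpow_add hu0]; congr 1; ring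
  have e4 : (1 - u) ^ (1 / 2 : ℝ) * (1 - u) ^ ((1 : ℝ) / 2 - 1) = 1 := by
    rw [← rpow_add hv0]
    rw [show (1 : ℝ) / 2 + (1 / 2 - 1) = 0 by norm_num, rpow_zero]
  calc 4 ^ μ * u ^ μ = 4 ^ μ * (u ^ (1 / 2 : ℝ) * u ^ (μ + 1 / 2 - 1)) *
        ((1 - u) ^ (1 / 2 : ℝ) * (1 - u) ^ ((1 : ℝ) / 2 - 1)) := by rw [e3, e4, mul_one]
    _ = _ := by ring

/-- closed form of the constant term -/
theorem J_eq {μ : ℝ} (h0 : 0 ≤ μ) :
    ∫ θ in (-π)..π, (ww θ) ^ μ = 2 * π * Gamma (2 * μ + 1) / Gamma (μ + 1) ^ 2 := by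
  have c7 : Continuous fun θ => (ww θ) ^ μ := continuous_ww.rpow_const (fun _ => Or.inr h0)
  have h1 : ∫ θ in (-π)..π, (ww θ) ^ μ = 2 * ∫ θ in (0 : ℝ)..π, (ww θ) ^ μ := by
    rw [← intervalIntegral.integral_add_adjacent_intervals (b := 0)
      (c7.intervalIntegrable _ _) (c7.intervalIntegrable _ _)]
    have h2 : ∫ θ in (-π)..0, (ww θ) ^ μ = ∫ θ in (0 : ℝ)..π, (ww θ) ^ μ := by
      have := intervalIntegral.integral_comp_neg (a := 0) (b := π) (fun θ => (ww θ) ^ μ)
      rw [neg_zero] at this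
      rw [← this]
      apply intervalIntegral.integral_congr
      intro θ _
      simp only [ww, cos_neg]
    rw [h2]; ring
  rw [h1, intervalIntegral.integral_of_le pi_pos.le, integral_Ioc_eq_integral_Ioo, J_half h0]
  have h3 := Real.Gamma_mul_Gamma_add_half (μ + 1 / 2)
  rw [show μ + 1 / 2 + 1 / 2 = μ + 1 by ring, show 2 * (μ + 1 / 2) = 2 * μ + 1 by ring,
    show 1 - (2 * μ + 1) = -(2 * μ) by ring] at h3
  have hg : 0 < Gamma (μ + 1) := Gamma_pos_of_pos (by linarith)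
  have h4 : Gamma (μ + 1 / 2) = Gamma (2 * μ + 1) * 2 ^ (-(2 * μ)) * √π / Gamma (μ + 1) := by
    rw [eq_div_iff hg.ne', h3]
  rw [h4, Real.Gamma_one_half_eq]
  have h5 : (4 : ℝ) ^ μ * 2 ^ (-(2 * μ)) = 1 := by
    rw [rpow_neg (by norm_num), rpow_mul (by norm_num)]
    norm_num
    have : (4 : ℝ) ^ μ ≠ 0 := by positivity
    field_simp
  have h6 : √π * √π = π := Real.mul_self_sqrt pi_pos.le
  calc 2 * ((4 : ℝ) ^ μ * (Gamma (2 * μ + 1) * 2 ^ (-(2 * μ)) * √π / Gamma (μ + 1) * √π /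
        Gamma (μ + 1)))
      = 2 * ((4 : ℝ) ^ μ * 2 ^ (-(2 * μ))) * (√π * √π) * Gamma (2 * μ + 1) /
        Gamma (μ + 1) ^ 2 := by
        field_simp
    _ = _ := by rw [h5, h6]; ring

/-- closed form of the first cosine moment -/
theorem J1_eq {μ : ℝ} (h0 : 0 ≤ μ) :
    ∫ θ in (-π)..π, (ww θ) ^ μ * cos θ =
      - (μ / (μ + 1)) * (2 * π * Gamma (2 * μ + 1) / Gamma (μ + 1) ^ 2) := by
  have c7 : Continuous fun θ => (ww θ) ^ μ := continuous_ww.rpow_const (fun _ => Or.inr h0)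
  have h1 : ∫ θ in (-π)..π, (ww θ) ^ (μ + 1) =
      2 * (∫ θ in (-π)..π, (ww θ) ^ μ) - 2 * ∫ θ in (-π)..π, (ww θ) ^ μ * cos θ := by
    rw [← intervalIntegral.integral_const_mul, ← intervalIntegral.integral_const_mul,
      ← intervalIntegral.integral_sub (Continuous.intervalIntegrable (by fun_prop) _ _)
        (Continuous.intervalIntegrable (by fun_prop) _ _)]
    apply intervalIntegral.integral_congr
    intro θ _
    simp only []
    rw [rpow_add' (ww_nonneg θ) (by linarith), rpow_one]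
    unfold ww
    ring
  rw [J_eq h0, J_eq (by linarith : 0 ≤ μ + 1)] at h1
  have e1 : Gamma (2 * (μ + 1) + 1) = (2 * μ + 2) * ((2 * μ + 1) * Gamma (2 * μ + 1)) := by
    rw [show 2 * (μ + 1) + 1 = (2 * μ + 1 + 1) + 1 by ring, Gamma_add_one (by positivity),
      Gamma_add_one (by positivity)]
    ring
  have e2 : Gamma (μ + 1 + 1) = (μ + 1) * Gamma (μ + 1) := Gamma_add_one (by positivity)
  rw [e1, e2] at h1
  have hg : 0 < Gamma (μ + 1) := Gamma_pos_of_pos (by linarith)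
  have hm : 0 < μ + 1 := by linarith
  have e3 : ∫ θ in (-π)..π, (ww θ) ^ μ * cos θ =
      (2 * π * Gamma (2 * μ + 1) / Gamma (μ + 1) ^ 2) -
      (2 * π * ((2 * μ + 2) * ((2 * μ + 1) * Gamma (2 * μ + 1))) /
        ((μ + 1) * Gamma (μ + 1)) ^ 2) / 2 := by linarith
  rw [e3]
  field_simp
  ring

/-- the value of the comparison integral -/
theorem JB_eq {μ : ℝ} (h0 : 0 ≤ μ) (d : ℕ) :
    ∫ θ in (-π)..π, (ww θ) ^ μ * Bd d θ =
      4 * π * (d + μ) * Gamma (2 * μ + 1) / (Gamma (μ + 1) * Gamma (μ + 2)) := by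
  have c7 : Continuous fun θ => (ww θ) ^ μ := continuous_ww.rpow_const (fun _ => Or.inr h0)
  have e1 : ∀ θ, (ww θ) ^ μ * Bd d θ = 2 * d * (ww θ) ^ μ +
      2 * ((d : ℝ) - 1) * ((ww θ) ^ μ * cos θ) := by
    intro θ; unfold Bd; ring
  simp_rw [e1]
  rw [intervalIntegral.integral_add (Continuous.intervalIntegrable (by fun_prop) _ _)
        (Continuous.intervalIntegrable (by fun_prop) _ _), intervalIntegral.integral_const_mul,
        intervalIntegral.integral_const_mul, J_eq h0, J1_eq h0]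
  have hg : 0 < Gamma (μ + 1) := Gamma_pos_of_pos (by linarith)
  have hm : 0 < μ + 1 := by linarith
  have e2 : Gamma (μ + 2) = (μ + 1) * Gamma (μ + 1) := by
    rw [show μ + 2 = μ + 1 + 1 by ring]; exact Gamma_add_one (by positivity)
  rw [e2]
  field_simp
  ring

end Pool.Agent.R263.Pte
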