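import Pool.Agent.R263.PteE

set_option autoImplicit false

open MeasureTheory Real Set intervalIntegral

namespace Pool.Agent.R263.Pte

open Polynomial in
/-- a sparse integer polynomial -/
noncomputable def Rp (s : Finset ℕ) (ε : ℕ → ℤ) (p : ℕ → ℕ) : Polynomial ℤ :=
  ∑ i ∈ s, C (ε i) * X ^ (p i)

section algebra
open Polynomial

variable {s : Finset ℕ} {ε : ℕ → ℤ} {p : ℕ → ℕ}

lemma Rp_deriv_eval (k : ℕ) :
    (derivative^[k] (Rp s ε p)).eval 1 = ∑ i ∈ s, ε i * (p i).descFactorial k := by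
  unfold Rp
  rw [iterate_derivative_sum, eval_finsetSum]
  apply Finset.sum_congr rfl
  intro i _
  rw [iterate_derivative_C_mul, iterate_derivative_X_pow_eq_natCast_mul]
  simp

lemma sum_eval_descPoch (k : ℕ) :
    ∑ i ∈ s, ε i * ((p i).descFactorial k : ℤ) =
      ∑ i ∈ s, ε i * (descPochhammer ℤ k).eval ((p i : ℕ) : ℤ) := by
  apply Finset.sum_congr rfl
  intro i _
  rw [descPochhammer_eval_eq_descFactorial]

lemma sum_eval_poly (f : ℤ[X]) :
    ∑ i ∈ s, ε i * f.eval ((p i : ℕ) : ℤ) =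
      ∑ j ∈ Finset.range (f.natDegree + 1), f.coeff j * ∑ i ∈ s, ε i * ((p i : ℕ) : ℤ) ^ j := by
  simp_rw [eval_eq_sum_range, Finset.mul_sum]
  rw [Finset.sum_comm]
  apply Finset.sum_congr rfl
  intro j _
  apply Finset.sum_congr rfl
  intro i _
  ring

lemma Rp_dvd_of_power_sums (d : ℕ)
    (h : ∀ k < d, ∑ i ∈ s, ε i * ((p i : ℕ) : ℤ) ^ k = 0) :
    (X - 1) ^ d ∣ Rp s ε p := by
  by_cases hR : Rp s ε p = 0
  · rw [hR]; exact dvd_zero _
  rcases Nat.eq_zero_or_pos d with rfl | hd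
  · simp
  have h1 : d - 1 < (Rp s ε p).rootMultiplicity 1 := by
    rw [lt_rootMultiplicity_iff_isRoot_iterate_derivative hR]
    intro m hm
    rw [IsRoot, Rp_deriv_eval, sum_eval_descPoch, sum_eval_poly]
    apply Finset.sum_eq_zero
    intro j hj
    rw [descPochhammer_natDegree, Finset.mem_range] at hj
    rw [h j (by omega), mul_zero]
  have h2 : d ≤ (Rp s ε p).rootMultiplicity 1 := by omega
  have h3 := (le_rootMultiplicity_iff hR).mp h2
  simpa using h3

lemma power_sums_of_Rp_dvd (d : ℕ) (h : (X - 1) ^ d ∣ Rp s ε p) (hR : Rp s ε p ≠ 0) :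
    ∀ k < d, ∑ i ∈ s, ε i * ((p i : ℕ) : ℤ) ^ k = 0 := by
  have h2 : d ≤ (Rp s ε p).rootMultiplicity 1 := by
    rw [le_rootMultiplicity_iff hR]
    simpa using h
  intro k
  induction k using Nat.strong_induction_on with
  | _ k ih =>
    intro hk
    have h3 : k < (Rp s ε p).rootMultiplicity 1 := by omega
    rw [lt_rootMultiplicity_iff_isRoot_iterate_derivative hR] at h3
    have h4 := h3 k le_rfl
    rw [IsRoot, Rp_deriv_eval, sum_eval_descPoch, sum_eval_poly, descPochhammer_natDegree,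
      Finset.sum_range_succ] at h4
    have h5 : (descPochhammer ℤ k).coeff k = 1 := by
      have := monic_descPochhammer ℤ k
      rw [Monic, leadingCoeff, descPochhammer_natDegree] at this
      exact this
    rw [h5, one_mul, Finset.sum_eq_zero, zero_add] at h4
    · exact h4
    · intro j hj
      rw [Finset.mem_range] at hj
      rw [ih j hj (by omega), mul_zero]

lemma Rp_coeff (n : ℕ) : (Rp s ε p).coeff n = ∑ i ∈ s, if p i = n then ε i else 0 := by
  unfold Rp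
  rw [finsetSum_coeff]
  apply Finset.sum_congr rfl
  intro i _
  rw [coeff_C_mul, coeff_X_pow]
  by_cases h : n = p i
  · rw [if_pos h, if_pos h.symm, mul_one]
  · rw [if_neg h, if_neg (fun h' => h h'.symm), mul_zero]

lemma Rp_coeff_mem (hp : Set.InjOn p s) (hε : ∀ i ∈ s, ε i = 1 ∨ ε i = -1) (n : ℕ) :
    (Rp s ε p).coeff n = 0 ∨ (Rp s ε p).coeff n = 1 ∨ (Rp s ε p).coeff n = -1 := by
  rw [Rp_coeff]
  by_cases h : ∃ i ∈ s, p i = n
  · obtain ⟨i, hi, hin⟩ := h
    rw [Finset.sum_eq_single i]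
    · rw [if_pos hin]; exact Or.inr (hε i hi)
    · intro j hj hji
      rw [if_neg]
      intro h2
      exact hji (hp hj hi (by rw [h2, hin]))
    · intro h2; exact absurd hi h2
  · left
    apply Finset.sum_eq_zero
    intro i hi
    rw [if_neg]
    intro h2; exact h ⟨i, hi, h2⟩

lemma Rp_ne_zero (hs : s.Nonempty) (hp : Set.InjOn p s) (hε : ∀ i ∈ s, ε i = 1 ∨ ε i = -1) :
    Rp s ε p ≠ 0 := by
  obtain ⟨i, hi⟩ := hs
  intro h
  have h1 : (Rp s ε p).coeff (p i) = 0 := by rw [h]; simp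
  rw [Rp_coeff, Finset.sum_eq_single i] at h1
  · rw [if_pos rfl] at h1
    rcases hε i hi with h2 | h2 <;> omega
  · intro j hj hji
    rw [if_neg]
    intro h2
    exact hji (hp hj hi h2)
  · intro h2; exact absurd hi h2

/-- extraction of a monic quotient -/
lemma exists_monic (hs : s.Nonempty) (hp : Set.InjOn p s) (hε : ∀ i ∈ s, ε i = 1 ∨ ε i = -1)
    (d : ℕ) (h : ∀ k < d, ∑ i ∈ s, ε i * ((p i : ℕ) : ℤ) ^ k = 0) :
    ∃ P : ℤ[X], P.Monic ∧ ∀ z : ℂ, ‖(1 - z) ^ d * aeval z P‖ = ‖aeval z (Rp s ε p)‖ := by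
  have hR := Rp_ne_zero hs hp hε
  obtain ⟨P, hP⟩ := Rp_dvd_of_power_sums d h
  have hmon : ((X - 1 : ℤ[X]) ^ d).Monic := by
    have : (X - 1 : ℤ[X]) = X - C 1 := by simp
    rw [this]
    exact (monic_X_sub_C 1).pow d
  have hlc : (Rp s ε p).leadingCoeff = P.leadingCoeff := by
    rw [hP, leadingCoeff_mul, hmon.leadingCoeff, one_mul]
  have hnorm : ∀ z : ℂ, ‖(1 - z) ^ d * aeval z P‖ = ‖aeval z (Rp s ε p)‖ := by
    intro z
    rw [hP, map_mul, map_pow, norm_mul, norm_mul, norm_pow, norm_pow]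
    simp only [map_sub, aeval_X, map_one]
    rw [norm_sub_rev]
  have h1 : (Rp s ε p).leadingCoeff ≠ 0 := leadingCoeff_ne_zero.mpr hR
  rcases Rp_coeff_mem hp hε (Rp s ε p).natDegree with h2 | h2 | h2
  · exact absurd h2 h1
  · exact ⟨P, by rw [Monic, ← hlc]; exact h2, hnorm⟩
  · refine ⟨-P, by rw [Monic, leadingCoeff_neg, ← hlc]; rw [leadingCoeff, h2]; norm_num, ?_⟩
    intro z
    rw [← hnorm z, map_neg, mul_neg, norm_neg]

end algebra

/-- cosine moments of the weight -/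
noncomputable def cm (μ : ℝ) (k : ℤ) : ℝ := ∫ θ in (-π)..π, (ww θ) ^ μ * cos (k * θ)

lemma aeval_Rp (s : Finset ℕ) (ε : ℕ → ℤ) (p : ℕ → ℕ) (z : ℂ) :
    Polynomial.aeval z (Rp s ε p) = ∑ i ∈ s, (ε i : ℂ) * z ^ (p i) := by
  unfold Rp
  simp

lemma normSq_Rp (s : Finset ℕ) (ε : ℕ → ℤ) (p : ℕ → ℕ) (θ : ℝ) :
    ‖Polynomial.aeval (cz θ) (Rp s ε p)‖ ^ 2 =
      ∑ i ∈ s, ∑ j ∈ s, ((ε i * ε j : ℤ) : ℝ) * cos (((p i : ℤ) - (p j : ℤ) : ℤ) * θ) := by
  rw [aeval_Rp]
  have h1 : ((‖∑ i ∈ s, (ε i : ℂ) * (cz θ) ^ (p i)‖ ^ 2 : ℝ) : ℂ) =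
      (∑ i ∈ s, (ε i : ℂ) * (cz θ) ^ (p i)) *
        (starRingEnd ℂ) (∑ i ∈ s, (ε i : ℂ) * (cz θ) ^ (p i)) := by
    rw [Complex.mul_conj, Complex.normSq_eq_norm_sq]
  have h2 := congrArg Complex.re h1
  rw [Complex.ofReal_re] at h2
  rw [h2, map_sum, Finset.sum_mul_sum, Complex.re_sum]
  apply Finset.sum_congr rfl
  intro i _
  rw [Complex.re_sum]
  apply Finset.sum_congr rfl
  intro j _
  have h3 : (ε i : ℂ) * (cz θ) ^ (p i) * (starRingEnd ℂ) ((ε j : ℂ) * (cz θ) ^ (p j)) =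
      (((ε i * ε j : ℤ) : ℝ) : ℂ) *
        Complex.exp ((((((p i : ℤ) - (p j : ℤ) : ℤ) : ℝ) * θ : ℝ) : ℂ) * Complex.I) := by
    unfold cz
    rw [map_mul, map_pow, ← Complex.exp_conj, map_mul, Complex.conj_ofReal, Complex.conj_I,
      ← Complex.exp_nat_mul, ← Complex.exp_nat_mul]
    have h4 : (starRingEnd ℂ) (ε j : ℂ) = (ε j : ℂ) := by simp
    rw [h4]
    have h5 : Complex.exp ((((((p i : ℤ) - (p j : ℤ) : ℤ) : ℝ) * θ : ℝ) : ℂ) * Complex.I) =
        Complex.exp ((p i : ℂ) * (θ * Complex.I)) * Complex.exp ((p j : ℂ) * (θ * -Complex.I)) := by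
      rw [← Complex.exp_add]
      congr 1
      push_cast
      ring
    rw [h5]
    push_cast
    ring
  rw [h3, Complex.re_ofReal_mul, Complex.exp_ofReal_mul_I_re]

lemma integral_Rp {μ : ℝ} (h0 : 0 ≤ μ) (s : Finset ℕ) (ε : ℕ → ℤ) (p : ℕ → ℕ) :
    ∫ θ in (-π)..π, (ww θ) ^ μ * ‖Polynomial.aeval (cz θ) (Rp s ε p)‖ ^ 2 =
      ∑ i ∈ s, ∑ j ∈ s, ((ε i * ε j : ℤ) : ℝ) * cm μ ((p i : ℤ) - (p j : ℤ)) := by
  have c7 : Continuous fun θ => (ww θ) ^ μ := continuous_ww.rpow_const (fun _ => Or.inr h0)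
  have e1 : ∀ θ, (ww θ) ^ μ * ‖Polynomial.aeval (cz θ) (Rp s ε p)‖ ^ 2 =
      ∑ i ∈ s, ∑ j ∈ s, ((ε i * ε j : ℤ) : ℝ) *
        ((ww θ) ^ μ * cos (((p i : ℤ) - (p j : ℤ) : ℤ) * θ)) := by
    intro θ
    rw [normSq_Rp, Finset.mul_sum]
    apply Finset.sum_congr rfl
    intro i _
    rw [Finset.mul_sum]
    apply Finset.sum_congr rfl
    intro j _
    ring
  simp_rw [e1]
  rw [intervalIntegral.integral_finsetSum]
  · apply Finset.sum_congr rfl
    intro i _
    rw [intervalIntegral.integral_finsetSum]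
    · apply Finset.sum_congr rfl
      intro j _
      rw [intervalIntegral.integral_const_mul]
      rfl
    · intro j _
      exact Continuous.intervalIntegrable (by fun_prop) _ _
  · intro i _
    exact Continuous.intervalIntegrable (by fun_prop) _ _

lemma cm_neg (μ : ℝ) (k : ℤ) : cm μ (-k) = cm μ k := by
  unfold cm
  apply intervalIntegral.integral_congr
  intro θ _
  simp only []
  push_cast
  rw [neg_mul, cos_neg]

lemma cm_zero (μ : ℝ) : cm μ 0 = ∫ θ in (-π)..π, (ww θ) ^ μ := by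
  unfold cm
  apply intervalIntegral.integral_congr
  intro θ _
  simp

lemma cm_one (μ : ℝ) : cm μ 1 = ∫ θ in (-π)..π, (ww θ) ^ μ * cos θ := by
  unfold cm
  apply intervalIntegral.integral_congr
  intro θ _
  simp

/-- Riemann–Lebesgue -/
lemma cm_small {μ : ℝ} (_h0 : 0 ≤ μ) {η : ℝ} (hη : 0 < η) :
    ∃ N : ℕ, ∀ k : ℤ, (N : ℤ) ≤ |k| → |cm μ k| ≤ η := by
  set f : ℝ → ℂ := (Ioc (-π) π).indicator (fun θ => (((ww θ) ^ μ : ℝ) : ℂ)) with hf
  have h1 := Real.tendsto_integral_exp_smul_cocompact f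
  have h2 := (NormedAddGroup.tendsto_nhds_zero.mp h1) η hη
  rw [cocompact_eq_atBot_atTop, Filter.eventually_sup] at h2
  obtain ⟨a, ha⟩ := Filter.eventually_atBot.mp h2.1
  obtain ⟨b, hb⟩ := Filter.eventually_atTop.mp h2.2
  have key : ∀ k : ℤ, ‖∫ v : ℝ, Real.fourierChar (-(v * ((k : ℝ) / (2 * π)))) • f v‖ < η →
      |cm μ k| ≤ η := by
    intro k hk
    have e1 : ∫ v : ℝ, Real.fourierChar (-(v * ((k : ℝ) / (2 * π)))) • f v =
        ∫ θ in (-π)..π, Complex.exp (((-(k * θ) : ℝ) : ℂ) * Complex.I) * (((ww θ) ^ μ : ℝ) : ℂ) := by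
      rw [intervalIntegral.integral_of_le (by linarith [pi_pos]),
        ← MeasureTheory.integral_indicator measurableSet_Ioc]
      congr 1
      ext v
      rw [hf]
      by_cases hv : v ∈ Ioc (-π) π
      · rw [indicator_of_mem hv, indicator_of_mem hv, Circle.smul_def, Real.fourierChar_apply,
          smul_eq_mul]
        congr 2
        push_cast
        have : (π : ℂ) ≠ 0 := by exact_mod_cast pi_ne_zero
        field_simp
      · rw [indicator_of_notMem hv, indicator_of_notMem hv, smul_zero]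
    have c7 : Continuous fun θ => (ww θ) ^ μ := continuous_ww.rpow_const (fun _ => Or.inr _h0)
    have hc : Continuous fun θ : ℝ =>
        Complex.exp (((-(k * θ) : ℝ) : ℂ) * Complex.I) * (((ww θ) ^ μ : ℝ) : ℂ) := by
      refine Continuous.mul (by fun_prop) (Complex.continuous_ofReal.comp c7)
    have h7 := Complex.reCLM.intervalIntegral_comp_comm
      (hc.intervalIntegrable (μ := volume) (-π) π)
    simp only [Complex.reCLM_apply] at h7
    have h8 : cm μ k = (∫ θ in (-π)..π, Complex.exp (((-(k * θ) : ℝ) : ℂ) * Complex.I) *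
        (((ww θ) ^ μ : ℝ) : ℂ)).re := by
      rw [← h7]
      unfold cm
      apply intervalIntegral.integral_congr
      intro θ _
      simp only [Complex.mul_re, Complex.ofReal_re, Complex.ofReal_im, mul_zero, sub_zero,
        Complex.exp_ofReal_mul_I_re, cos_neg]
      ring
    rw [h8]
    rw [e1] at hk
    exact (Complex.abs_re_le_norm _).trans hk.le
  obtain ⟨N, hN⟩ := exists_nat_ge (2 * π * max (-a) b)
  refine ⟨N, fun k hk => ?_⟩
  have hpi := pi_pos
  have hk' : (N : ℝ) ≤ |(k : ℝ)| := by exact_mod_cast hk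
  rcases le_total 0 (k : ℝ) with h0 | h0
  · rw [abs_of_nonneg h0] at hk'
    apply key
    apply hb
    rw [le_div_iff₀ (by positivity)]
    have := le_max_right (-a) b
    nlinarith
  · rw [abs_of_nonpos h0] at hk'
    apply key
    apply ha
    rw [div_le_iff₀ (by positivity)]
    have := le_max_left (-a) b
    nlinarith

/-- The weight: relation with the given form -/
lemma norm_one_sub_cz (θ : ℝ) : ‖1 - cz θ‖ ^ 2 = ww θ := by
  unfold cz ww
  rw [← Complex.normSq_eq_norm_sq, Complex.normSq_apply]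
  simp only [Complex.sub_re, Complex.sub_im, Complex.one_re, Complex.one_im,
    Complex.exp_ofReal_mul_I_re, Complex.exp_ofReal_mul_I_im]
  nlinarith [sin_sq_add_cos_sq θ]

lemma weight_split {lam μ : ℝ} (d : ℕ) (h0 : 0 ≤ μ) (hl : lam = d + μ) (θ : ℝ) (y : ℂ)
    (_hlam : 0 < lam) :
    ‖1 - cz θ‖ ^ (2 * lam) * ‖y‖ ^ 2 = (ww θ) ^ μ * ‖(1 - cz θ) ^ d * y‖ ^ 2 := by
  have h1 : ‖1 - cz θ‖ ^ (2 * lam) = (ww θ) ^ lam := by
    rw [rpow_mul (norm_nonneg _), rpow_two, norm_one_sub_cz]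
  have h2 : (ww θ) ^ lam = (ww θ) ^ d * (ww θ) ^ μ := by
    rcases eq_or_lt_of_le h0 with h | h
    · rw [hl, ← h, add_zero, rpow_natCast, rpow_zero, mul_one]
    · rw [hl, rpow_add' (ww_nonneg θ) (by positivity), rpow_natCast]
  rw [h1, h2, norm_mul, norm_pow, mul_pow, ← pow_mul, mul_comm d 2, pow_mul, norm_one_sub_cz]
  ring

end Pool.Agent.R263.Pte
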