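import Pool.Agent.R263.PteF

set_option autoImplicit false

open MeasureTheory Real Set intervalIntegral

namespace Pool.Agent.R263.Pte

/-- the sign pattern `+ - - + + - - + + -` -/
def sg (i : ℕ) : ℤ := (-1) ^ ((i + 1) / 2)

lemma sg_cases (i : ℕ) : sg i = 1 ∨ sg i = -1 := by
  unfold sg
  rcases neg_one_pow_eq_or ℤ ((i + 1) / 2) with h | h
  · exact Or.inl h
  · exact Or.inr h

/-- `p` is a cluster configuration of size `2 d` with gaps at least `N`. -/
structure Config (d N : ℕ) (p : ℕ → ℕ) : Prop where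
  far : ∀ j < d, p (2 * j) + N ≤ p (2 * j + 1)
  near : ∀ j, j + 1 < d → p (2 * j + 2) = p (2 * j + 1) + 1
  pow : ∀ k < d, ∑ i ∈ Finset.range (2 * d), sg i * ((p i : ℕ) : ℤ) ^ k = 0

lemma Config.mono_step {d N : ℕ} {p : ℕ → ℕ} (h : Config d N p) (i : ℕ) (hi : i + 1 < 2 * d) :
    p i ≤ p (i + 1) := by
  rcases Nat.even_or_odd' i with ⟨a, ha | ha⟩
  · subst ha
    have := h.far a (by omega)
    omega
  · subst ha
    have h1 := h.near a (by omega)
    have h2 : p (2 * a + 1 + 1) = p (2 * a + 2) := rfl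
    rw [h2]
    omega

lemma Config.mono {d N : ℕ} {p : ℕ → ℕ} (h : Config d N p) (i j : ℕ) (hij : i ≤ j)
    (hj : j < 2 * d) : p i ≤ p j := by
  induction j, hij using Nat.le_induction with
  | base => exact le_rfl
  | succ j hij ih => exact (ih (by omega)).trans (h.mono_step j (by omega))

/-- adjacency inside a cluster -/
def adj (i j : ℕ) : Prop := i % 2 = 1 ∧ j = i + 1

instance (i j : ℕ) : Decidable (adj i j) := by unfold adj; infer_instance

lemma Config.gap {d N : ℕ} {p : ℕ → ℕ} (h : Config d N p) (i j : ℕ) (hij : i < j)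
    (hj : j < 2 * d) : (adj i j ∧ p j = p i + 1) ∨ (¬ adj i j ∧ p i + N ≤ p j) := by
  rcases Nat.even_or_odd' i with ⟨a, ha | ha⟩
  · subst ha
    right
    refine ⟨fun h' => by have := h'.1; omega, ?_⟩
    have h1 := h.far a (by omega)
    have h2 := h.mono (2 * a + 1) j (by omega) hj
    omega
  · subst ha
    by_cases hj2 : j = 2 * a + 2
    · left
      subst hj2
      exact ⟨⟨by omega, by omega⟩, h.near a (by omega)⟩
    · right
      refine ⟨fun h' => hj2 (by have := h'.2; omega), ?_⟩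
      have h1 := h.near a (by omega)
      have h2 := h.far (a + 1) (by omega)
      have h3 := h.mono (2 * (a + 1) + 1) j (by omega) hj
      have h4 : p (2 * (a + 1)) = p (2 * a + 2) := by congr 1
      omega

lemma Config.injOn {d N : ℕ} {p : ℕ → ℕ} (h : Config d N p) (hN : 0 < N) :
    Set.InjOn p (Finset.range (2 * d)) := by
  intro i hi j hj hij
  simp only [Finset.coe_range, mem_Iio] at hi hj
  rcases lt_trichotomy i j with h1 | h1 | h1
  · rcases h.gap i j h1 hj with h2 | h2 <;> omega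
  · exact h1
  · rcases h.gap j i h1 hi with h2 | h2 <;> omega

lemma Config.close {d N : ℕ} {p : ℕ → ℕ} (h : Config d N p) {μ η : ℝ}
    (hN : ∀ k : ℤ, (N : ℤ) ≤ |k| → |cm μ k| ≤ η) (hη : 0 ≤ η) (i j : ℕ) (hi : i < 2 * d)
    (hj : j < 2 * d) :
    |cm μ ((p i : ℤ) - (p j : ℤ)) - ((if i = j then (1 : ℤ) else 0 : ℤ) * cm μ 0 +
      (if adj i j ∨ adj j i then (1 : ℤ) else 0 : ℤ) * cm μ 1)| ≤ η := by
  rcases lt_trichotomy i j with h1 | h1 | h1
  · rw [if_neg (by omega : ¬ i = j)]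
    have hn : ¬ adj j i := fun h' => by have := h'.2; omega
    rcases h.gap i j h1 hj with ⟨h2, h3⟩ | ⟨h2, h3⟩
    · rw [if_pos (Or.inl h2), h3]
      have : (p i : ℤ) - ((p i + 1 : ℕ) : ℤ) = -1 := by push_cast; ring
      rw [this, cm_neg]
      simpa using hη
    · rw [if_neg (by tauto)]
      simp only [Int.cast_zero, zero_mul, add_zero, sub_zero]
      apply hN
      rw [abs_of_nonpos (by omega)]
      omega
  · subst h1
    rw [if_pos rfl, if_neg (by rintro (h' | h') <;> (have := h'.2; omega))]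
    simpa using hη
  · rw [if_neg (by omega : ¬ i = j)]
    have hn : ¬ adj i j := fun h' => by have := h'.2; omega
    rcases h.gap j i h1 hi with ⟨h2, h3⟩ | ⟨h2, h3⟩
    · rw [if_pos (Or.inr h2), h3]
      have : ((p j + 1 : ℕ) : ℤ) - (p j : ℤ) = 1 := by push_cast; ring
      rw [this]
      simpa using hη
    · rw [if_neg (by tauto)]
      simp only [Int.cast_zero, zero_mul, add_zero, sub_zero]
      apply hN
      rw [abs_of_nonneg (by omega)]
      omega

/-- the combinatorial counts -/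
def countEq (d : ℕ) : ℤ :=
  ∑ i ∈ Finset.range (2 * d), ∑ j ∈ Finset.range (2 * d), sg i * sg j * (if i = j then 1 else 0)

def countAdj (d : ℕ) : ℤ :=
  ∑ i ∈ Finset.range (2 * d), ∑ j ∈ Finset.range (2 * d),
    sg i * sg j * (if adj i j ∨ adj j i then 1 else 0)

lemma counts (d : ℕ) (h1 : 1 ≤ d) (h5 : d ≤ 5) :
    countEq d = 2 * d ∧ countAdj d = 2 * (d - 1) := by
  interval_cases d <;> decide +kernel

lemma Config.total {d N : ℕ} {p : ℕ → ℕ} (h : Config d N p) {μ η : ℝ}
    (hN : ∀ k : ℤ, (N : ℤ) ≤ |k| → |cm μ k| ≤ η) (hη : 0 ≤ η) :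
    (∑ i ∈ Finset.range (2 * d), ∑ j ∈ Finset.range (2 * d),
      ((sg i * sg j : ℤ) : ℝ) * cm μ ((p i : ℤ) - (p j : ℤ))) ≤
      countEq d * cm μ 0 + countAdj d * cm μ 1 + (2 * d) * (2 * d) * η := by
  have e1 : (countEq d : ℝ) * cm μ 0 + countAdj d * cm μ 1 =
      ∑ i ∈ Finset.range (2 * d), ∑ j ∈ Finset.range (2 * d), ((sg i * sg j : ℤ) : ℝ) *
        ((if i = j then (1 : ℤ) else 0 : ℤ) * cm μ 0 +
      (if adj i j ∨ adj j i then (1 : ℤ) else 0 : ℤ) * cm μ 1) := by
    unfold countEq countAdj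
    push_cast
    rw [Finset.sum_mul, Finset.sum_mul, ← Finset.sum_add_distrib]
    apply Finset.sum_congr rfl
    intro i _
    rw [Finset.sum_mul, Finset.sum_mul, ← Finset.sum_add_distrib]
    apply Finset.sum_congr rfl
    intro j _
    ring
  have e2 : ((2 * d : ℝ) * (2 * d)) * η =
      ∑ i ∈ Finset.range (2 * d), ∑ j ∈ Finset.range (2 * d), η := by
    simp only [Finset.sum_const, Finset.card_range, nsmul_eq_mul]
    push_cast
    ring
  rw [e1, e2, ← Finset.sum_add_distrib]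
  apply Finset.sum_le_sum
  intro i hi
  rw [← Finset.sum_add_distrib]
  apply Finset.sum_le_sum
  intro j hj
  rw [Finset.mem_range] at hi hj
  have h1 := h.close hN hη i j hi hj
  have h2 := abs_le.mp h1
  have h3 : ((sg i * sg j : ℤ) : ℝ) = 1 ∨ ((sg i * sg j : ℤ) : ℝ) = -1 := by
    rcases sg_cases i with h | h <;> rcases sg_cases j with h' | h' <;> rw [h, h'] <;> norm_num
  rcases h3 with h3 | h3 <;> rw [h3] <;> linarith [h2.1, h2.2]

/-- The upper bound from cluster configurations. -/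
theorem upper_config {d : ℕ} (hd1 : 1 ≤ d) (hd5 : d ≤ 5)
    (hex : ∀ N : ℕ, ∃ p, Config d N p) {μ : ℝ} (h0 : 0 ≤ μ) {δ : ℝ} (hδ : 0 < δ) :
    ∃ P : Polynomial ℤ, P.Monic ∧
      ∫ θ in (-π)..π, (ww θ) ^ μ * ‖(1 - cz θ) ^ d * Polynomial.aeval (cz θ) P‖ ^ 2 ≤
        (∫ θ in (-π)..π, (ww θ) ^ μ * Bd d θ) + δ := by
  have hd0 : (0 : ℝ) < d := by exact_mod_cast hd1
  obtain ⟨N, hN⟩ := cm_small h0 (η := δ / ((2 * d) * (2 * d))) (by positivity)
  obtain ⟨p, hp⟩ := hex (N + 1)
  have hN' : ∀ k : ℤ, ((N + 1 : ℕ) : ℤ) ≤ |k| → |cm μ k| ≤ δ / ((2 * d) * (2 * d)) := by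
    intro k hk
    exact hN k (by push_cast at hk; omega)
  obtain ⟨P, hP, hn⟩ := exists_monic (s := Finset.range (2 * d)) (ε := sg) (p := p)
    ⟨0, by rw [Finset.mem_range]; omega⟩ (hp.injOn (by omega)) (fun i _ => sg_cases i) d hp.pow
  refine ⟨P, hP, ?_⟩
  simp_rw [hn]
  rw [integral_Rp h0]
  refine (hp.total hN' (by positivity)).trans ?_
  obtain ⟨e1, e2⟩ := counts d hd1 hd5
  rw [e1, e2]
  have c7 : Continuous fun θ => (ww θ) ^ μ := continuous_ww.rpow_const (fun _ => Or.inr h0)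
  have e3 : ∫ θ in (-π)..π, (ww θ) ^ μ * Bd d θ =
      2 * d * cm μ 0 + 2 * ((d : ℝ) - 1) * cm μ 1 := by
    have e1 : ∀ θ, (ww θ) ^ μ * Bd d θ = 2 * d * (ww θ) ^ μ +
        2 * ((d : ℝ) - 1) * ((ww θ) ^ μ * cos θ) := by
      intro θ; unfold Bd; ring
    simp_rw [e1]
    rw [intervalIntegral.integral_add (Continuous.intervalIntegrable (by fun_prop) _ _)
          (Continuous.intervalIntegrable (by fun_prop) _ _), intervalIntegral.integral_const_mul,
          intervalIntegral.integral_const_mul, cm_zero, cm_one]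
  rw [e3]
  have e4 : (2 * (d : ℝ)) * (2 * d) * (δ / ((2 * d) * (2 * d))) = δ := by
    field_simp
  rw [e4]
  push_cast
  linarith

/-! ### The families -/

lemma config1 (N : ℕ) : ∃ p, Config 1 N p := by
  refine ⟨fun i => ([0, N] : List ℕ).getD i 0, ?_, ?_, ?_⟩
  · intro j hj
    interval_cases j
    simp
  · intro j hj; omega
  · intro k hk
    interval_cases k
    simp [Finset.sum_range_succ, sg]

lemma config2 (N : ℕ) : ∃ p, Config 2 N p := by
  refine ⟨fun i => ([0, N, N + 1, 2 * N + 1] : List ℕ).getD i 0, ?_, ?_, ?_⟩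
  · intro j hj
    interval_cases j
    · simp
    · simp; omega
  · intro j hj
    have : j < 1 := by omega
    interval_cases j
    simp
  · intro k hk
    interval_cases k
    · simp [Finset.sum_range_succ, sg]
    · simp [Finset.sum_range_succ, sg]; ring

lemma config3 (N : ℕ) : ∃ p, Config 3 N p := by
  refine ⟨fun i => ([0, N, N + 1, 3 * N + 1, 3 * N + 2, 4 * N + 2] : List ℕ).getD i 0, ?_, ?_, ?_⟩
  · intro j hj
    interval_cases j <;> simp <;> omega
  · intro j hj
    have : j < 2 := by omega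
    interval_cases j <;> simp
  · intro k hk
    interval_cases k <;> simp [Finset.sum_range_succ, sg] <;> ring

lemma pell4 (N : ℕ) : ∃ a b : ℕ, N ≤ a ∧ N + 1 ≤ b ∧ (a + b) * (a + b + 1) = 2 * b ^ 2 := by
  induction N with
  | zero => exact ⟨0, 1, le_rfl, le_rfl, by norm_num⟩
  | succ N ih =>
    obtain ⟨a, b, h1, h2, h3⟩ := ih
    refine ⟨a + 2 * b, 2 * a + 5 * b + 1, by omega, by omega, ?_⟩
    zify at h3 ⊢
    linear_combination h3

lemma config4 (N : ℕ) : ∃ p, Config 4 N p := by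
  obtain ⟨a, b, h1, h2, h3⟩ := pell4 N
  refine ⟨fun i => ([0, a, a + 1, a + b, a + b + 1, a + 2 * b, a + 2 * b + 1,
    2 * a + 2 * b + 1] : List ℕ).getD i 0, ?_, ?_, ?_⟩
  · intro j hj
    interval_cases j <;> simp <;> omega
  · intro j hj
    have : j < 3 := by omega
    interval_cases j <;> simp
  · have h4 : ((a : ℤ) + b) * (a + b + 1) = 2 * b ^ 2 := by exact_mod_cast h3
    intro k hk
    interval_cases k
    · simp [Finset.sum_range_succ, sg]
    · simp [Finset.sum_range_succ, sg]; ring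
    · simp [Finset.sum_range_succ, sg]; linear_combination 2 * h4
    · simp [Finset.sum_range_succ, sg]; linear_combination (6 * a + 6 * b + 3 : ℤ) * h4

lemma pell5 (N : ℕ) : ∃ t e : ℕ, N ≤ t ∧ N ≤ e ∧
    2 * e ^ 2 + e = 2 * t ^ 2 + 2 * t * e + 3 * t := by
  induction N with
  | zero => exact ⟨0, 0, le_rfl, le_rfl, by norm_num⟩
  | succ N ih =>
    obtain ⟨t, e, h1, h2, h3⟩ := ih
    refine ⟨5 * t + 8 * e + 6, 8 * t + 13 * e + 10, by omega, by omega, ?_⟩
    zify at h3 ⊢
    linear_combination h3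

lemma config5 (N : ℕ) : ∃ p, Config 5 N p := by
  obtain ⟨t, e, h1, h2, h3⟩ := pell5 (N + 1)
  refine ⟨fun i => ([0, t, t + 1, 2 * t + 1 + e, 2 * t + 2 + e, 2 * t + 2 + 3 * e,
    2 * t + 3 + 3 * e, 3 * t + 3 + 4 * e, 3 * t + 4 + 4 * e, 4 * t + 4 + 4 * e] :
    List ℕ).getD i 0, ?_, ?_, ?_⟩
  · intro j hj
    interval_cases j <;> simp <;> omega
  · intro j hj
    have : j < 4 := by omega
    interval_cases j <;> simp <;> omega
  · have h4 : 2 * (e : ℤ) ^ 2 + e = 2 * t ^ 2 + 2 * t * e + 3 * t := by exact_mod_cast h3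
    intro k hk
    interval_cases k
    · simp [Finset.sum_range_succ, sg]
    · simp [Finset.sum_range_succ, sg]; ring
    · simp [Finset.sum_range_succ, sg]; ring
    · simp [Finset.sum_range_succ, sg]; linear_combination (6 * t + 6 * e + 6 : ℤ) * h4
    · simp [Finset.sum_range_succ, sg]
      linear_combination (48 * (t + e + 1) ^ 2 : ℤ) * h4

lemma config_exists (d : ℕ) (hd1 : 1 ≤ d) (hd5 : d ≤ 5) (N : ℕ) : ∃ p, Config d N p := by
  interval_cases d
  · exact config1 N
  · exact config2 N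
  · exact config3 N
  · exact config4 N
  · exact config5 N

end Pool.Agent.R263.Pte
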