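import Pool.Agent.R263.PteG

set_option autoImplicit false

open MeasureTheory Real Set intervalIntegral

namespace Pool.Agent.R263.Pte

lemma cm_mu0 (k : ℤ) : cm 0 k = if k = 0 then 2 * π else 0 := by
  unfold cm
  simp only [rpow_zero, one_mul]
  split_ifs with h
  · subst h
    simp only [Int.cast_zero, zero_mul, cos_zero, intervalIntegral.integral_const, smul_eq_mul]
    ring
  · have hk : (k : ℝ) ≠ 0 := by exact_mod_cast h
    rw [intervalIntegral.integral_comp_mul_left (fun y => cos y) hk, integral_cos]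
    simp [sin_int_mul_pi, mul_neg]

/-- integral of the squared modulus of a sparse polynomial with distinct exponents -/
lemma integral_Rp0 (s : Finset ℕ) (ε : ℕ → ℤ) (p : ℕ → ℕ) (hp : Set.InjOn p s) :
    ∫ θ in (-π)..π, ‖Polynomial.aeval (cz θ) (Rp s ε p)‖ ^ 2 =
      2 * π * ((∑ i ∈ s, ε i ^ 2 : ℤ) : ℝ) := by
  have h := integral_Rp le_rfl s ε p
  simp only [rpow_zero, one_mul] at h
  rw [h]
  push_cast
  rw [Finset.mul_sum]
  apply Finset.sum_congr rfl
  intro i hi
  rw [Finset.sum_eq_single i]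
  · rw [sub_self, cm_mu0, if_pos rfl]; ring
  · intro j hj hji
    rw [cm_mu0, if_neg, mul_zero]
    intro h2
    apply hji
    have h3 : p i = p j := by omega
    exact (hp hi hj h3).symm
  · intro h2; exact absurd hi h2

lemma poly_eq_Rp (R : Polynomial ℤ) :
    R = Rp (Finset.range (R.natDegree + 1)) R.coeff id := by
  unfold Rp
  exact R.as_sum_range_C_mul_X_pow

/-- scaling `z ↦ z^N` -/
theorem upper_scale {n : ℕ} (P : Polynomial ℤ) (hP : P.Monic) {μ : ℝ} (h0 : 0 ≤ μ)
    {δ : ℝ} (hδ : 0 < δ) :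
    ∃ P' : Polynomial ℤ, P'.Monic ∧
      ∫ θ in (-π)..π, (ww θ) ^ μ * ‖(1 - cz θ) ^ n * Polynomial.aeval (cz θ) P'‖ ^ 2 ≤
        (∫ θ in (-π)..π, (ww θ) ^ μ) *
          ((∫ θ in (-π)..π, ‖(1 - cz θ) ^ n * Polynomial.aeval (cz θ) P‖ ^ 2) / (2 * π)) + δ := by
  classical
  set R : Polynomial ℤ := (Polynomial.X - 1) ^ n * P with hR
  have hmon1 : (Polynomial.X - 1 : Polynomial ℤ).Monic := by
    have : (Polynomial.X - 1 : Polynomial ℤ) = Polynomial.X - Polynomial.C 1 := by simp
    rw [this]; exact Polynomial.monic_X_sub_C 1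
  have hRm : R.Monic := (hmon1.pow n).mul hP
  set D := R.natDegree + 1 with hD
  set A : ℝ := ∑ i ∈ Finset.range D, ∑ j ∈ Finset.range D, |((R.coeff i * R.coeff j : ℤ) : ℝ)|
    with hA
  have hA0 : 0 ≤ A := Finset.sum_nonneg fun i _ => Finset.sum_nonneg fun j _ => abs_nonneg _
  obtain ⟨N, hN⟩ := cm_small h0 (η := δ / (A + 1)) (by positivity)
  set M := N + 1 with hM
  have hM0 : 0 < M := by omega
  set Q : Polynomial ℤ := ∑ i ∈ Finset.range M, Polynomial.X ^ i with hQ
  have hQ1 : (Polynomial.X - 1) * Q = Polynomial.X ^ M - 1 := by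
    rw [mul_comm]; exact geom_sum_mul _ _
  have hexp : Polynomial.expand ℤ M R =
      (Polynomial.X - 1) ^ n * (Q ^ n * Polynomial.expand ℤ M P) := by
    rw [hR, map_mul, map_pow, map_sub, Polynomial.expand_X, map_one, ← hQ1, mul_pow]
    ring
  have hmonP' : (Q ^ n * Polynomial.expand ℤ M P).Monic := by
    refine Polynomial.Monic.of_mul_monic_left (hmon1.pow n) ?_
    rw [← hexp]
    exact hRm.expand hM0
  refine ⟨Q ^ n * Polynomial.expand ℤ M P, hmonP', ?_⟩
  have hn1 : ∀ θ, ‖(1 - cz θ) ^ n * Polynomial.aeval (cz θ) (Q ^ n * Polynomial.expand ℤ M P)‖ =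
      ‖Polynomial.aeval (cz θ) (Rp (Finset.range D) R.coeff (fun i => M * i))‖ := by
    intro θ
    have e1 : ‖(1 - cz θ) ^ n *
        Polynomial.aeval (cz θ) (Q ^ n * Polynomial.expand ℤ M P)‖ =
        ‖Polynomial.aeval (cz θ) (Polynomial.expand ℤ M R)‖ := by
      rw [hexp, map_mul _ ((Polynomial.X - 1) ^ n), map_pow, norm_mul, norm_mul, norm_pow, norm_pow]
      simp only [map_sub, Polynomial.aeval_X, map_one]
      rw [norm_sub_rev]
    rw [e1, Polynomial.expand_aeval, Polynomial.aeval_eq_sum_range, aeval_Rp]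
    congr 1
    apply Finset.sum_congr rfl
    intro i _
    rw [zsmul_eq_mul, ← pow_mul]
  have hn2 : ∀ θ, ‖(1 - cz θ) ^ n * Polynomial.aeval (cz θ) P‖ =
      ‖Polynomial.aeval (cz θ) (Rp (Finset.range D) R.coeff id)‖ := by
    intro θ
    rw [hD, ← poly_eq_Rp R, hR, map_mul, map_pow, norm_mul, norm_mul, norm_pow, norm_pow]
    simp only [map_sub, Polynomial.aeval_X, map_one]
    rw [norm_sub_rev]
  simp_rw [hn1, hn2]
  rw [integral_Rp0 _ _ _ (Set.injOn_id _), integral_Rp h0, ← cm_zero]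
  have e5 : 2 * π * ((∑ i ∈ Finset.range D, R.coeff i ^ 2 : ℤ) : ℝ) / (2 * π) =
      ∑ i ∈ Finset.range D, (R.coeff i : ℝ) ^ 2 := by
    have := pi_pos
    rw [mul_div_cancel_left₀ _ (by positivity)]
    push_cast
    rfl
  rw [e5]
  have hstep : ∑ i ∈ Finset.range D, ∑ j ∈ Finset.range D,
      ((R.coeff i * R.coeff j : ℤ) : ℝ) * cm μ (((M * i : ℕ) : ℤ) - ((M * j : ℕ) : ℤ)) ≤
      ∑ i ∈ Finset.range D, ((R.coeff i : ℝ) ^ 2 * cm μ 0 +
        ∑ j ∈ Finset.range D, |((R.coeff i * R.coeff j : ℤ) : ℝ)| * (δ / (A + 1))) := by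
    apply Finset.sum_le_sum
    intro i hi
    have e6 : (R.coeff i : ℝ) ^ 2 * cm μ 0 = ∑ j ∈ Finset.range D,
        (if j = i then (R.coeff i : ℝ) ^ 2 * cm μ 0 else 0) := by
      rw [Finset.sum_ite_eq' (Finset.range D) i, if_pos hi]
    rw [e6, ← Finset.sum_add_distrib]
    apply Finset.sum_le_sum
    intro j hj
    by_cases hij : j = i
    · subst hij
      rw [if_pos rfl, sub_self]
      have : 0 ≤ |((R.coeff j * R.coeff j : ℤ) : ℝ)| * (δ / (A + 1)) := by positivity
      push_cast at this ⊢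
      nlinarith
    · rw [if_neg hij, zero_add]
      have h7 : |cm μ (((M * i : ℕ) : ℤ) - ((M * j : ℕ) : ℤ))| ≤ δ / (A + 1) := by
        apply hN
        have e8 : ((M * i : ℕ) : ℤ) - ((M * j : ℕ) : ℤ) = (M : ℤ) * ((i : ℤ) - j) := by
          push_cast; ring
        rw [e8, abs_mul]
        have h9 : 1 ≤ |(i : ℤ) - j| := by
          apply Int.one_le_abs
          omega
        have h10 : |(M : ℤ)| = M := abs_of_nonneg (by positivity)
        rw [h10]
        have h11 : (N : ℤ) ≤ M := by rw [hM]; push_cast; omega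
        nlinarith
      calc ((R.coeff i * R.coeff j : ℤ) : ℝ) * cm μ (((M * i : ℕ) : ℤ) - ((M * j : ℕ) : ℤ))
          ≤ |((R.coeff i * R.coeff j : ℤ) : ℝ) * cm μ (((M * i : ℕ) : ℤ) - ((M * j : ℕ) : ℤ))| :=
            le_abs_self _
        _ = |((R.coeff i * R.coeff j : ℤ) : ℝ)| * |cm μ (((M * i : ℕ) : ℤ) - ((M * j : ℕ) : ℤ))| :=
            abs_mul _ _
        _ ≤ _ := mul_le_mul_of_nonneg_left h7 (abs_nonneg _)
  refine hstep.trans ?_
  rw [Finset.sum_add_distrib, ← Finset.sum_mul]
  have e9 : ∑ i ∈ Finset.range D, ∑ j ∈ Finset.range D,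
      |((R.coeff i * R.coeff j : ℤ) : ℝ)| * (δ / (A + 1)) = A * (δ / (A + 1)) := by
    rw [hA, Finset.sum_mul]
    apply Finset.sum_congr rfl
    intro i _
    rw [Finset.sum_mul]
  rw [e9]
  have e10 : A * (δ / (A + 1)) ≤ δ := by
    rw [← mul_div_assoc, div_le_iff₀ (by positivity)]
    nlinarith
  linarith

/-! ### Sets with equal power sums -/

/-- Two disjoint sets of `n` natural numbers with equal power sums of exponents `< n`:
an ideal solution of the Prouhet–Tarry–Escott problem with distinct entries. -/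
def IdealPTE (n : ℕ) : Prop :=
  ∃ A B : Finset ℕ, Disjoint A B ∧ A.card = n ∧ B.card = n ∧
    ∀ k < n, ∑ a ∈ A, a ^ k = ∑ b ∈ B, b ^ k

lemma sets_poly (A B : Finset ℕ) (hAB : Disjoint A B) (hne : (A ∪ B).Nonempty) (n : ℕ)
    (h : ∀ k < n, ∑ a ∈ A, a ^ k = ∑ b ∈ B, b ^ k) :
    ∃ P : Polynomial ℤ, P.Monic ∧
      ∫ θ in (-π)..π, ‖(1 - cz θ) ^ n * Polynomial.aeval (cz θ) P‖ ^ 2 =
        2 * π * (A.card + B.card) := by
  classical
  set ε : ℕ → ℤ := fun i => if i ∈ A then 1 else -1 with hε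
  have hε1 : ∀ i ∈ A ∪ B, ε i = 1 ∨ ε i = -1 := by
    intro i _
    rw [hε]
    by_cases h : i ∈ A
    · simp [h]
    · simp [h]
  have hs : ∀ f : ℕ → ℤ, ∑ i ∈ A ∪ B, ε i * f i = ∑ a ∈ A, f a - ∑ b ∈ B, f b := by
    intro f
    rw [Finset.sum_union hAB]
    have e1 : ∑ a ∈ A, ε a * f a = ∑ a ∈ A, f a := by
      apply Finset.sum_congr rfl
      intro a ha
      simp [hε, ha]
    have e2 : ∑ b ∈ B, ε b * f b = - ∑ b ∈ B, f b := by
      rw [← Finset.sum_neg_distrib]
      apply Finset.sum_congr rfl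
      intro b hb
      have : b ∉ A := fun h' => (Finset.disjoint_left.mp hAB) h' hb
      simp [hε, this]
    rw [e1, e2]; ring
  have hpow : ∀ k < n, ∑ i ∈ A ∪ B, ε i * ((id i : ℕ) : ℤ) ^ k = 0 := by
    intro k hk
    have := hs (fun i => (i : ℤ) ^ k)
    simp only [id] at this ⊢
    rw [this]
    have h2 := h k hk
    have h3 : (∑ a ∈ A, (a : ℤ) ^ k) = ∑ b ∈ B, (b : ℤ) ^ k := by exact_mod_cast h2
    rw [h3]; ring
  obtain ⟨P, hP, hn⟩ := exists_monic (s := A ∪ B) (ε := ε) (p := id) hne (Set.injOn_id _) hε1 n hpow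
  refine ⟨P, hP, ?_⟩
  simp_rw [hn]
  rw [integral_Rp0 _ _ _ (Set.injOn_id _)]
  have e3 : ∑ i ∈ A ∪ B, ε i ^ 2 = A.card + B.card := by
    rw [← Nat.cast_add, ← Finset.card_union_of_disjoint hAB, Finset.card_eq_sum_ones]
    push_cast
    apply Finset.sum_congr rfl
    intro i hi
    rcases hε1 i hi with h | h <;> rw [h] <;> norm_num
  rw [e3]
  push_cast
  ring

/-- pigeonhole -/
lemma pigeonhole (m : ℕ) : ∃ A B : Finset ℕ, A ≠ B ∧ A.card = B.card ∧
    A.card = m * (m + 1) / 2 + 1 ∧ ∀ k < m + 1, ∑ a ∈ A, a ^ k = ∑ b ∈ B, b ^ k := by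
  classical
  set s := m * (m + 1) / 2 + 1 with hs
  set M := 2 ^ s * (s.factorial * s ^ m) + 2 * s with hM
  have hs1 : 1 ≤ s := by omega
  have hM1 : 1 ≤ M := by omega
  set Sset := Finset.powersetCard s (Finset.range M) with hS
  set Tset : Finset (Fin m → ℕ) :=
    Fintype.piFinset (fun k : Fin m => Finset.range (s * M ^ ((k : ℕ) + 1))) with hT
  have hTcard : Tset.card = s ^ m * M ^ (s - 1) := by
    rw [hT, Fintype.card_piFinset]
    simp only [Finset.card_range]
    rw [Finset.prod_mul_distrib, Finset.prod_const, Finset.card_univ, Fintype.card_fin]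
    congr 1
    rw [Finset.prod_pow_eq_pow_sum]
    congr 1
    rw [Fin.sum_univ_eq_sum_range (fun k => k + 1) m]
    have : ∀ m : ℕ, ∑ i ∈ Finset.range m, (i + 1) = m * (m + 1) / 2 := by
      intro m
      have h1 := Finset.sum_range_succ' (fun i => i) m
      have h2 := Finset.sum_range_id_mul_two (m + 1)
      simp only [add_zero] at h1
      rw [← h1]
      have h3 : (∑ i ∈ Finset.range (m + 1), i) * 2 = m * (m + 1) := by
        rw [h2]; simp only [Nat.add_sub_cancel]; ring
      omega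
    rw [this, hs]
    simp
  have hcard : Tset.card < Sset.card := by
    rw [hTcard, hS, Finset.card_powersetCard, Finset.card_range]
    have h1 : (M + 1 - s) ^ s ≤ s.factorial * M.choose s := by
      have := Nat.pow_sub_le_descFactorial M s
      rw [Nat.descFactorial_eq_factorial_mul_choose] at this
      exact this
    have h2 : M ≤ 2 * (M + 1 - s) := by omega
    have h3 : M ^ s ≤ 2 ^ s * (M + 1 - s) ^ s := by
      rw [← mul_pow]; exact Nat.pow_le_pow_left h2 s
    have h4 : 2 ^ s * (s.factorial * (s ^ m * M ^ (s - 1))) < M ^ s := by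
      have h5 : M ^ s = M * M ^ (s - 1) := by
        rw [← pow_succ', Nat.sub_add_cancel hs1]
      rw [h5]
      have h6 : 2 ^ s * (s.factorial * (s ^ m * M ^ (s - 1))) =
          (2 ^ s * (s.factorial * s ^ m)) * M ^ (s - 1) := by ring
      rw [h6]
      have h7 : 2 ^ s * (s.factorial * s ^ m) < M := by omega
      exact Nat.mul_lt_mul_of_pos_right h7 (by positivity)
    have h8 : 2 ^ s * (s.factorial * (s ^ m * M ^ (s - 1))) <
        2 ^ s * (s.factorial * M.choose s) :=
      lt_of_lt_of_le h4 (h3.trans (Nat.mul_le_mul_left _ h1))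
    have h9 := Nat.lt_of_mul_lt_mul_left h8
    exact Nat.lt_of_mul_lt_mul_left h9
  obtain ⟨A, hA, B, hB, hne, heq⟩ := Finset.exists_ne_map_eq_of_card_lt_of_maps_to hcard
    (f := fun A : Finset ℕ => fun k : Fin m => ∑ a ∈ A, a ^ ((k : ℕ) + 1)) (by
      intro A hA
      have hA' := Finset.mem_powersetCard.mp (Finset.mem_coe.mp hA)
      rw [hT, Finset.mem_coe, Fintype.mem_piFinset]
      intro k
      rw [Finset.mem_range]
      calc ∑ a ∈ A, a ^ ((k : ℕ) + 1) < ∑ a ∈ A, M ^ ((k : ℕ) + 1) := by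
            apply Finset.sum_lt_sum_of_nonempty
            · rw [← Finset.card_pos]; omega
            · intro a ha
              have := Finset.mem_range.mp (hA'.1 ha)
              exact Nat.pow_lt_pow_left this (by omega)
        _ = s * M ^ ((k : ℕ) + 1) := by
            rw [Finset.sum_const, hA'.2, smul_eq_mul])
  have hA' := Finset.mem_powersetCard.mp hA
  have hB' := Finset.mem_powersetCard.mp hB
  refine ⟨A, B, hne, by rw [hA'.2, hB'.2], hA'.2, ?_⟩
  intro k hk
  rcases Nat.eq_zero_or_pos k with rfl | hk0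
  · simp [hA'.2, hB'.2]
  · have := congrFun heq ⟨k - 1, by omega⟩
    simp only [] at this
    rw [Nat.sub_add_cancel hk0] at this
    exact this

lemma exists_small_int (n : ℕ) (hn : 1 ≤ n) : ∃ P : Polynomial ℤ, P.Monic ∧
      ∫ θ in (-π)..π, ‖(1 - cz θ) ^ n * Polynomial.aeval (cz θ) P‖ ^ 2 ≤
        2 * π * ((n : ℝ) ^ 2 - n + 2) := by
  classical
  obtain ⟨m, rfl⟩ : ∃ m, n = m + 1 := ⟨n - 1, by omega⟩
  obtain ⟨A, B, hne, hc, hcs, hpow⟩ := pigeonhole m
  have hsub : ∀ k, ∑ a ∈ A, a ^ k = ∑ a ∈ A \ B, a ^ k + ∑ a ∈ A ∩ B, a ^ k := by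
    intro k; rw [add_comm]; exact (Finset.sum_inter_add_sum_sdiff A B _).symm
  have hsub' : ∀ k, ∑ a ∈ B, a ^ k = ∑ a ∈ B \ A, a ^ k + ∑ a ∈ A ∩ B, a ^ k := by
    intro k; rw [add_comm, Finset.inter_comm]; exact (Finset.sum_inter_add_sum_sdiff B A _).symm
  have hdis : Disjoint (A \ B) (B \ A) := by
    rw [Finset.disjoint_left]
    intro x hx hx'
    rw [Finset.mem_sdiff] at hx hx'
    exact hx.2 hx'.1
  have hnon : (A \ B ∪ B \ A).Nonempty := by
    rw [Finset.nonempty_iff_ne_empty]
    intro h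
    apply hne
    ext x
    constructor
    · intro hx
      by_contra hx'
      have : x ∈ A \ B ∪ B \ A := Finset.mem_union_left _ (Finset.mem_sdiff.mpr ⟨hx, hx'⟩)
      rw [h] at this
      exact absurd this (Finset.notMem_empty x)
    · intro hx
      by_contra hx'
      have : x ∈ A \ B ∪ B \ A := Finset.mem_union_right _ (Finset.mem_sdiff.mpr ⟨hx, hx'⟩)
      rw [h] at this
      exact absurd this (Finset.notMem_empty x)
  obtain ⟨P, hP, hval⟩ := sets_poly (A \ B) (B \ A) hdis hnon (m + 1) (by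
    intro k hk
    have h1 := hpow k hk
    rw [hsub, hsub'] at h1
    omega)
  refine ⟨P, hP, ?_⟩
  rw [hval]
  have h1 : (A \ B).card ≤ m * (m + 1) / 2 + 1 := by
    rw [← hcs]; exact Finset.card_le_card Finset.sdiff_subset
  have h2 : (B \ A).card ≤ m * (m + 1) / 2 + 1 := by
    rw [← hcs, hc]; exact Finset.card_le_card Finset.sdiff_subset
  have h3 : (A \ B).card + (B \ A).card ≤ m * (m + 1) + 2 := by omega
  have h4 : (((A \ B).card : ℝ) + (B \ A).card) ≤ m * (m + 1) + 2 := by exact_mod_cast h3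
  have := pi_pos
  push_cast
  nlinarith

/-! ### The converse: small values at integers give ideal solutions -/

/-- the polynomial of a coefficient list -/
noncomputable def poly : List ℤ → Polynomial ℤ
  | [] => 0
  | m :: L => Polynomial.C m + Polynomial.X * poly L

lemma poly_diff (L : List ℤ) : ∀ c : ℤ, poly (diff c L) =
    (1 - Polynomial.X) * poly L - Polynomial.C c := by
  induction L with
  | nil => intro c; simp [diff, poly]
  | cons m L ih =>
    intro c
    simp only [diff, poly, ih, map_sub]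
    ring

lemma poly_coeff (L : List ℤ) : ∀ i, (poly L).coeff i = L.getD i 0 := by
  induction L with
  | nil => intro i; simp [poly]
  | cons m L ih =>
    intro i
    cases i with
    | zero => simp [poly]
    | succ i =>
      simp only [poly, Polynomial.coeff_add, Polynomial.coeff_X_mul, ih, List.getD_cons_succ]
      rw [Polynomial.coeff_C, if_neg (by omega), zero_add]

lemma poly_clist (P : Polynomial ℤ) : poly (clist P) = P := by
  ext i
  rw [poly_coeff]
  unfold clist
  by_cases h : i < P.natDegree + 1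
  · rw [List.getD_eq_getElem _ _ (by simpa using h)]
    simp
  · rw [List.getD_eq_default _ _ (by simpa using h)]
    rw [Polynomial.coeff_eq_zero_of_natDegree_lt (by omega)]

lemma poly_iter (L : List ℤ) (d : ℕ) : poly ((diff 0)^[d] L) = (1 - Polynomial.X) ^ d * poly L := by
  induction d with
  | zero => simp
  | succ d ih =>
    rw [Function.iterate_succ_apply', poly_diff, ih]
    simp only [map_zero, sub_zero]
    ring

lemma sum_map_eq (L : List ℤ) (f : ℤ → ℤ) :
    (L.map f).sum = ∑ i ∈ Finset.range L.length, f (L.getD i 0) := by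
  induction L with
  | nil => simp
  | cons m L ih =>
    rw [List.map_cons, List.sum_cons, List.length_cons, Finset.sum_range_succ', ih]
    simp [add_comm]

lemma abs_one_of_sum (L : List ℤ) (h : (L.map (fun m => m ^ 2)).sum ≤ (L.map (fun m => |m|)).sum) :
    ∀ m ∈ L, m = 0 ∨ m = 1 ∨ m = -1 := by
  induction L with
  | nil => simp
  | cons a L ih =>
    simp only [List.map_cons, List.sum_cons] at h
    have h1 := sum_sq_ge L
    have h2 : |a| ≤ a ^ 2 := by
      rw [← sq_abs]
      have h0 := abs_nonneg a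
      rcases h0.eq_or_lt with h | h
      · rw [← h]; norm_num
      · nlinarith
    have h3 : a ^ 2 ≤ |a| := by linarith
    intro m hm
    rcases List.mem_cons.mp hm with h4 | h4
    · subst h4
      rw [← sq_abs] at h3
      have h5 : |m| ≤ 1 := by
        by_contra hc
        push Not at hc
        nlinarith
      rw [abs_le] at h5
      omega
    · exact ih (by linarith) m h4

lemma pte_of_value (n : ℕ) (hn : 1 ≤ n) (P : Polynomial ℤ) (hP : P ≠ 0)
    (h : ∫ θ in (-π)..π, ‖(1 - cz θ) ^ n * Polynomial.aeval (cz θ) P‖ ^ 2 <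
      2 * π * (2 * n + 1)) : IdealPTE n := by
  classical
  obtain ⟨d, rfl⟩ : ∃ d, n = d + 1 := ⟨n - 1, by omega⟩
  obtain ⟨s, hs, halt⟩ := clist_alt P hP
  have hN := pattern_N halt d
  set L := (diff 0)^[d + 1] (clist P) with hL
  have hE : ∀ θ, (1 - cz θ) ^ (d + 1) * Polynomial.aeval (cz θ) P = E L (cz θ) := by
    intro θ
    rw [hL, E_iter, E_clist]
  simp_rw [hE] at h
  rw [one_normSq] at h
  have hpi := pi_pos
  have h1 : (((L.map (fun m => m ^ 2)).sum : ℤ) : ℝ) < 2 * ((d + 1 : ℕ) : ℝ) + 1 := by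
    by_contra hc
    push Not at hc
    have : 2 * π * (2 * ((d + 1 : ℕ) : ℝ) + 1) ≤ 2 * π * (((L.map (fun m => m ^ 2)).sum : ℤ) : ℝ) := by
      apply mul_le_mul_of_nonneg_left hc (by positivity)
    linarith
  have h2 : (L.map (fun m => m ^ 2)).sum < 2 * ((d : ℤ) + 1) + 1 := by exact_mod_cast h1
  have h3 := hN.abs_sum hs
  have h3' : 2 * ((d : ℤ) + 1) ≤ (L.map (fun m => |m|)).sum := by simp at h3; linarith
  have h4 := abs_one_of_sum L (by omega)
  have h5 := sum_sq_ge L
  have h6 : (L.map (fun m => m ^ 2)).sum = 2 * ((d : ℤ) + 1) := by omega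
  -- the sets
  set A := (Finset.range L.length).filter (fun i => L.getD i 0 = 1) with hA
  set B := (Finset.range L.length).filter (fun i => L.getD i 0 = -1) with hB
  have hdis : Disjoint A B := by
    rw [Finset.disjoint_left]
    intro x hx hx'
    rw [hA, Finset.mem_filter] at hx
    rw [hB, Finset.mem_filter] at hx'
    omega
  have hval : ∀ i, L.getD i 0 = 0 ∨ L.getD i 0 = 1 ∨ L.getD i 0 = -1 := by
    intro i
    by_cases hi : i < L.length
    · rw [List.getD_eq_getElem _ _ hi]
      exact h4 _ (List.getElem_mem hi)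
    · rw [List.getD_eq_default _ _ (by omega)]
      exact Or.inl rfl
  have hsum : ∀ f : ℕ → ℤ, ∑ i ∈ Finset.range L.length, L.getD i 0 * f i =
      ∑ a ∈ A, f a - ∑ b ∈ B, f b := by
    intro f
    rw [hA, hB, Finset.sum_filter, Finset.sum_filter, ← Finset.sum_sub_distrib]
    apply Finset.sum_congr rfl
    intro i _
    rcases hval i with h | h | h <;> rw [h] <;> simp
  have hsq : (A.card : ℤ) + B.card = 2 * ((d : ℤ) + 1) := by
    rw [← h6, sum_map_eq, hA, hB, Finset.card_filter, Finset.card_filter]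
    push_cast
    rw [← Finset.sum_add_distrib]
    apply Finset.sum_congr rfl
    intro i _
    rcases hval i with h | h | h <;> rw [h] <;> simp
  -- divisibility
  have hpoly : poly L = (1 - Polynomial.X) ^ (d + 1) * P := by
    rw [hL, poly_iter, poly_clist]
  have hRp : poly L = Rp (Finset.range L.length) (fun i => L.getD i 0) id := by
    ext i
    rw [poly_coeff, Rp_coeff]
    simp only [id]
    by_cases hi : i < L.length
    · rw [Finset.sum_eq_single i]
      · rw [if_pos rfl]
      · intro j _ hji; rw [if_neg hji]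
      · intro h'; exact absurd (Finset.mem_range.mpr hi) h'
    · rw [List.getD_eq_default _ _ (by omega), eq_comm]
      apply Finset.sum_eq_zero
      intro j hj
      rw [if_neg]
      intro h'
      subst h'
      exact hi (Finset.mem_range.mp hj)
  have hdvd : (Polynomial.X - 1) ^ (d + 1) ∣
      Rp (Finset.range L.length) (fun i => L.getD i 0) id := by
    rw [← hRp, hpoly]
    have : (1 - Polynomial.X : Polynomial ℤ) = -(Polynomial.X - 1) := by ring
    rw [this, neg_pow]
    exact Dvd.intro_left ((-1) ^ (d + 1) * P) (by ring)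
  have hne : Rp (Finset.range L.length) (fun i => L.getD i 0) id ≠ 0 := by
    rw [← hRp, hpoly]
    apply mul_ne_zero _ hP
    apply pow_ne_zero
    intro h'
    have := congrArg (fun q : Polynomial ℤ => q.eval 0) h'
    simp at this
  have hps := power_sums_of_Rp_dvd (d + 1) hdvd hne
  have hps' : ∀ k < d + 1, ∑ a ∈ A, (a : ℤ) ^ k = ∑ b ∈ B, (b : ℤ) ^ k := by
    intro k hk
    have h7 := hps k hk
    simp only [id] at h7
    rw [hsum] at h7
    linarith
  have hcard := hps' 0 (by omega)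
  simp at hcard
  refine ⟨A, B, hdis, by omega, by omega, ?_⟩
  intro k hk
  have := hps' k hk
  exact_mod_cast this

end Pool.Agent.R263.Pte
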