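import Mathlib

set_option autoImplicit false
open Polynomial

namespace Pool.Agent.R263.Sob

/-- The bilinear form `Lp (f' g') + Le (f'' g'')`. -/
noncomputable def B (Lp Le : ℝ[X] →ₗ[ℝ] ℝ) (f g : ℝ[X]) : ℝ :=
  Lp (derivative f * derivative g) + Le (derivative (derivative f) * derivative (derivative g))

lemma B_add_left (Lp Le : ℝ[X] →ₗ[ℝ] ℝ) (f f' g : ℝ[X]) :
    B Lp Le (f + f') g = B Lp Le f g + B Lp Le f' g := by
  simp only [B, add_mul, map_add]; ring

lemma B_smul_left (Lp Le : ℝ[X] →ₗ[ℝ] ℝ) (c : ℝ) (f g : ℝ[X]) :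
    B Lp Le (c • f) g = c * B Lp Le f g := by
  simp only [B, smul_mul_assoc, map_smul, smul_eq_mul]; ring

lemma B_add_right (Lp Le : ℝ[X] →ₗ[ℝ] ℝ) (f g g' : ℝ[X]) :
    B Lp Le f (g + g') = B Lp Le f g + B Lp Le f g' := by
  simp only [B, mul_add, map_add]; ring

lemma B_smul_right (Lp Le : ℝ[X] →ₗ[ℝ] ℝ) (c : ℝ) (f g : ℝ[X]) :
    B Lp Le f (c • g) = c * B Lp Le f g := by
  simp only [B, mul_smul_comm, map_smul, smul_eq_mul]; ring

lemma B_zero_left (Lp Le : ℝ[X] →ₗ[ℝ] ℝ) (g : ℝ[X]) : B Lp Le 0 g = 0 := by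
  simp [B]

lemma B_zero_right (Lp Le : ℝ[X] →ₗ[ℝ] ℝ) (f : ℝ[X]) : B Lp Le f 0 = 0 := by
  simp [B]

/-- The sequence structure. -/
noncomputable def seqOf (p : ℕ → ℝ[X]) (hdeg : ∀ n : ℕ, (p n).degree = ((n : ℕ) : WithBot ℕ)) :
    Polynomial.Sequence ℝ where
  elems' := p
  degree_eq' := hdeg

lemma isUnit_lc (p : ℕ → ℝ[X]) (hdeg : ∀ n : ℕ, (p n).degree = ((n : ℕ) : WithBot ℕ)) (n : ℕ) :
    IsUnit (p n).leadingCoeff := by
  rw [isUnit_iff_ne_zero, Ne, leadingCoeff_eq_zero]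
  intro h
  have := hdeg n
  rw [h] at this
  simp at this

lemma span_top (p : ℕ → ℝ[X]) (hdeg : ∀ n : ℕ, (p n).degree = ((n : ℕ) : WithBot ℕ)) :
    Submodule.span ℝ (Set.range p) = ⊤ :=
  (seqOf p hdeg).span (fun i => isUnit_lc p hdeg i)

lemma span_lt (p : ℕ → ℝ[X]) (hdeg : ∀ n : ℕ, (p n).degree = ((n : ℕ) : WithBot ℕ)) (m : ℕ) :
    Submodule.span ℝ (p '' Set.Iio m) = degreeLT ℝ m :=
  (seqOf p hdeg).span_degreeLT (fun i _ => isUnit_lc p hdeg i)

theorem exists_T (L Lp Le : ℝ[X] →ₗ[ℝ] ℝ) (p : ℕ → ℝ[X])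
    (hdeg : ∀ n : ℕ, (p n).degree = ((n : ℕ) : WithBot ℕ))
    (horth : ∀ n m : ℕ, n ≠ m → L (p n * p m) = 0)
    (hnz : ∀ n : ℕ, L (p n * p n) ≠ 0)
    (hB : ∀ n m : ℕ, n ≠ m → B Lp Le (p n) (p m) = 0) (m : ℕ) (f : ℝ[X])
    (hf : f.degree < m) :
    ∃ τ : ℝ[X], τ.degree < m ∧ ∀ g, B Lp Le f g = L (τ * g) := by
  -- eigen relation
  have eig : ∀ n, ∀ g, B Lp Le (p n) g = (B Lp Le (p n) (p n) / L (p n * p n)) * L (p n * g) := by
    intro n g
    have hg : g ∈ Submodule.span ℝ (Set.range p) := by rw [span_top p hdeg]; trivial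
    induction hg using Submodule.span_induction with
    | mem x hx =>
      obtain ⟨k, rfl⟩ := hx
      by_cases hk : n = k
      · subst hk
        field_simp [hnz n]
      · rw [hB n k hk, horth n k hk, mul_zero]
    | zero => simp [B_zero_right]
    | add x y _ _ hx hy =>
      rw [B_add_right, hx, hy, mul_add, map_add, mul_add]
    | smul a x _ hx =>
      rw [B_smul_right, hx, mul_smul_comm, map_smul, smul_eq_mul]; ring
  have hf' : f ∈ Submodule.span ℝ (p '' Set.Iio m) := by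
    rw [span_lt p hdeg, mem_degreeLT]; exact hf
  clear hf
  induction hf' using Submodule.span_induction with
  | mem x hx =>
    obtain ⟨k, hk, rfl⟩ := hx
    refine ⟨(B Lp Le (p k) (p k) / L (p k * p k)) • p k, ?_, ?_⟩
    · refine (degree_smul_le _ _).trans_lt ?_
      rw [hdeg]
      exact_mod_cast hk
    · intro g
      rw [eig k g, smul_mul_assoc, map_smul, smul_eq_mul]
  | zero => exact ⟨0, by rw [degree_zero]; exact WithBot.bot_lt_coe m, fun g => by simp [B_zero_left]⟩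
  | add x y _ _ hx hy =>
    obtain ⟨τ, hτ, h1⟩ := hx
    obtain ⟨σ, hσ, h2⟩ := hy
    exact ⟨τ + σ, (degree_add_le _ _).trans_lt (max_lt hτ hσ), fun g => by
      rw [B_add_left, h1, h2, add_mul, map_add]⟩
  | smul a x _ hx =>
    obtain ⟨τ, hτ, h1⟩ := hx
    exact ⟨a • τ, (degree_smul_le _ _).trans_lt hτ, fun g => by
      rw [B_smul_left, h1, smul_mul_assoc, map_smul, smul_eq_mul]⟩

lemma C2' : (C (2 : ℝ) : ℝ[X]) = 2 := map_ofNat C 2
lemma C3' : (C (3 : ℝ) : ℝ[X]) = 3 := map_ofNat C 3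
lemma C4' : (C (4 : ℝ) : ℝ[X]) = 4 := map_ofNat C 4
lemma C6' : (C (6 : ℝ) : ℝ[X]) = 6 := map_ofNat C 6
lemma C24' : (C (24 : ℝ) : ℝ[X]) = 24 := map_ofNat C 24
lemma C12' : (C (12 : ℝ) : ℝ[X]) = 12 := map_ofNat C 12

lemma dX2 : derivative (X ^ 2 : ℝ[X]) = 2 * X := by
  rw [derivative_X_pow]; norm_num [C2']
lemma dX3 : derivative (X ^ 3 : ℝ[X]) = 3 * X ^ 2 := by
  rw [derivative_X_pow]; norm_num [C3']
lemma dX4 : derivative (X ^ 4 : ℝ[X]) = 4 * X ^ 3 := by
  rw [derivative_X_pow]; norm_num [C4']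

lemma comb4 (Lp Le : ℝ[X] →ₗ[ℝ] ℝ) (g : ℝ[X]) :
    B Lp Le (X ^ 4) g - 4 * B Lp Le (X ^ 3) (X * g) + 6 * B Lp Le (X ^ 2) (X ^ 2 * g)
      - 4 * B Lp Le X (X ^ 3 * g) = 24 * Le g := by
  have e1 : (derivative (X ^ 4 : ℝ[X]) * derivative g)
      - (4 : ℝ) • (derivative (X ^ 3 : ℝ[X]) * derivative (X * g))
      + (6 : ℝ) • (derivative (X ^ 2 : ℝ[X]) * derivative (X ^ 2 * g))
      - (4 : ℝ) • (derivative (X : ℝ[X]) * derivative (X ^ 3 * g)) = 0 := by
    simp only [smul_eq_C_mul, derivative_mul, dX2, dX3, dX4, derivative_X, C4', C6']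
    ring
  have e2 : (derivative (derivative (X ^ 4 : ℝ[X])) * derivative (derivative g))
      - (4 : ℝ) • (derivative (derivative (X ^ 3 : ℝ[X])) * derivative (derivative (X * g)))
      + (6 : ℝ) • (derivative (derivative (X ^ 2 : ℝ[X])) * derivative (derivative (X ^ 2 * g)))
      - (4 : ℝ) • (derivative (derivative (X : ℝ[X])) * derivative (derivative (X ^ 3 * g)))
      = (24 : ℝ) • g := by
    simp only [smul_eq_C_mul, derivative_mul, dX2, dX3, dX4, derivative_X, C4', C6', C24',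
      derivative_add, derivative_one, derivative_ofNat]
    ring
  have h1 := congrArg Lp e1
  have h2 := congrArg Le e2
  simp only [map_sub, map_add, map_smul, smul_eq_mul, map_zero] at h1 h2
  simp only [B]
  linarith

lemma comb3 (Lp Le : ℝ[X] →ₗ[ℝ] ℝ) (g : ℝ[X]) :
    B Lp Le (X ^ 3) g - 3 * B Lp Le (X ^ 2) (X * g) + 3 * B Lp Le X (X ^ 2 * g)
      = - (12 * Le (derivative g)) := by
  have e1 : (derivative (X ^ 3 : ℝ[X]) * derivative g)
      - (3 : ℝ) • (derivative (X ^ 2 : ℝ[X]) * derivative (X * g))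
      + (3 : ℝ) • (derivative (X : ℝ[X]) * derivative (X ^ 2 * g)) = 0 := by
    simp only [smul_eq_C_mul, derivative_mul, dX2, dX3, derivative_X, C3']
    ring
  have e2 : (derivative (derivative (X ^ 3 : ℝ[X])) * derivative (derivative g))
      - (3 : ℝ) • (derivative (derivative (X ^ 2 : ℝ[X])) * derivative (derivative (X * g)))
      + (3 : ℝ) • (derivative (derivative (X : ℝ[X])) * derivative (derivative (X ^ 2 * g)))
      = - ((12 : ℝ) • derivative g) := by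
    simp only [smul_eq_C_mul, derivative_mul, dX2, dX3, derivative_X, C3', C12',
      derivative_add, derivative_one, derivative_ofNat]
    ring
  have h1 := congrArg Lp e1
  have h2 := congrArg Le e2
  simp only [map_sub, map_add, map_smul, smul_eq_mul, map_zero, map_neg] at h1 h2
  simp only [B]
  linarith

lemma comb2 (Lp Le : ℝ[X] →ₗ[ℝ] ℝ) (g : ℝ[X]) :
    B Lp Le (X ^ 2) g - 2 * B Lp Le X (X * g)
      = 2 * Le (derivative (derivative g)) - 2 * Lp g := by
  have e1 : (derivative (X ^ 2 : ℝ[X]) * derivative g)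
      - (2 : ℝ) • (derivative (X : ℝ[X]) * derivative (X * g)) = - ((2 : ℝ) • g) := by
    simp only [smul_eq_C_mul, derivative_mul, dX2, derivative_X, C2']
    ring
  have e2 : (derivative (derivative (X ^ 2 : ℝ[X])) * derivative (derivative g))
      - (2 : ℝ) • (derivative (derivative (X : ℝ[X])) * derivative (derivative (X * g)))
      = (2 : ℝ) • derivative (derivative g) := by
    simp only [smul_eq_C_mul, derivative_mul, dX2, derivative_X, C2', derivative_one,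
      derivative_add, derivative_ofNat]
    ring
  have h1 := congrArg Lp e1
  have h2 := congrArg Le e2
  simp only [map_sub, map_smul, smul_eq_mul, map_neg] at h1 h2
  simp only [B]
  linarith

lemma comb1 (Lp Le : ℝ[X] →ₗ[ℝ] ℝ) (g : ℝ[X]) :
    B Lp Le X g = Lp (derivative g) := by
  simp [B]

theorem extract (L Lp Le : ℝ[X] →ₗ[ℝ] ℝ) (p : ℕ → ℝ[X])
    (hdeg : ∀ n : ℕ, (p n).degree = ((n : ℕ) : WithBot ℕ))
    (horth : ∀ n m : ℕ, n ≠ m → L (p n * p m) = 0)
    (hnz : ∀ n : ℕ, L (p n * p n) ≠ 0)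
    (hB : ∀ n m : ℕ, n ≠ m → B Lp Le (p n) (p m) = 0) :
    ∃ A b a₂ a₁ : ℝ[X], A.natDegree ≤ 4 ∧ b.natDegree ≤ 3 ∧ a₂.natDegree ≤ 2 ∧ a₁.natDegree ≤ 1 ∧
      (∀ g, Le g = L (A * g)) ∧ (∀ g, L (A * derivative g + b * g) = 0) ∧
      (∀ g, L (b * derivative (derivative g) + a₂ * derivative g + a₁ * g) = 0) := by
  have key := exists_T L Lp Le p hdeg horth hnz hB
  obtain ⟨t1, d1, h1⟩ := key 2 X (by rw [degree_X]; norm_num)
  obtain ⟨t2, d2, h2⟩ := key 3 (X ^ 2) (by rw [degree_X_pow]; norm_num)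
  obtain ⟨t3, d3, h3⟩ := key 4 (X ^ 3) (by rw [degree_X_pow]; norm_num)
  obtain ⟨t4, d4, h4⟩ := key 5 (X ^ 4) (by rw [degree_X_pow]; norm_num)
  have nd : ∀ (m : ℕ) (t : ℝ[X]), t.degree < ((m + 1 : ℕ) : WithBot ℕ) → t.natDegree ≤ m := by
    intro m t ht
    apply natDegree_le_of_degree_le
    exact Order.le_of_lt_succ ht
  have n1 := nd 1 t1 d1
  have n2 := nd 2 t2 d2
  have n3 := nd 3 t3 d3
  have n4 := nd 4 t4 d4
  have hA : ∀ g, Le g = L (((1 / 24 : ℝ) • (t4 - (4 : ℝ) • (X * t3) + (6 : ℝ) • (X ^ 2 * t2)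
      - (4 : ℝ) • (X ^ 3 * t1))) * g) := by
    intro g
    have := comb4 Lp Le g
    rw [h4, h3, h2, h1] at this
    have e : ((1 / 24 : ℝ) • (t4 - (4 : ℝ) • (X * t3) + (6 : ℝ) • (X ^ 2 * t2)
      - (4 : ℝ) • (X ^ 3 * t1))) * g = (1 / 24 : ℝ) • (t4 * g - (4 : ℝ) • (t3 * (X * g))
        + (6 : ℝ) • (t2 * (X ^ 2 * g)) - (4 : ℝ) • (t1 * (X ^ 3 * g))) := by
      simp only [smul_eq_C_mul]; ring
    rw [e]
    simp only [map_sub, map_add, map_smul, smul_eq_mul]
    linarith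
  have hb : ∀ g, Le (derivative g) = - L (((1 / 12 : ℝ) • (t3 - (3 : ℝ) • (X * t2)
      + (3 : ℝ) • (X ^ 2 * t1))) * g) := by
    intro g
    have := comb3 Lp Le g
    rw [h3, h2, h1] at this
    have e : ((1 / 12 : ℝ) • (t3 - (3 : ℝ) • (X * t2)
      + (3 : ℝ) • (X ^ 2 * t1))) * g = (1 / 12 : ℝ) • (t3 * g - (3 : ℝ) • (t2 * (X * g))
        + (3 : ℝ) • (t1 * (X ^ 2 * g))) := by
      simp only [smul_eq_C_mul]; ring
    rw [e]
    simp only [map_sub, map_add, map_smul, smul_eq_mul]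
    linarith
  have h2' : ∀ g, L (((1 / 2 : ℝ) • (t2 - (2 : ℝ) • (X * t1))) * g)
      = Le (derivative (derivative g)) - Lp g := by
    intro g
    have := comb2 Lp Le g
    rw [h2, h1] at this
    have e : ((1 / 2 : ℝ) • (t2 - (2 : ℝ) • (X * t1))) * g
        = (1 / 2 : ℝ) • (t2 * g - (2 : ℝ) • (t1 * (X * g))) := by
      simp only [smul_eq_C_mul]; ring
    rw [e]
    simp only [map_sub, map_smul, smul_eq_mul]
    linarith
  refine ⟨_, (1 / 12 : ℝ) • (t3 - (3 : ℝ) • (X * t2) + (3 : ℝ) • (X ^ 2 * t1)),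
    (1 / 2 : ℝ) • (t2 - (2 : ℝ) • (X * t1)), t1, ?_, ?_, ?_, n1, hA, ?_, ?_⟩
  · refine (natDegree_smul_le _ _).trans ?_
    have k3 : (X * t3).natDegree ≤ 4 := (natDegree_mul_le).trans (by rw [natDegree_X]; omega)
    have k2 : (X ^ 2 * t2).natDegree ≤ 4 :=
      (natDegree_mul_le).trans (by rw [natDegree_X_pow]; omega)
    have k1 : (X ^ 3 * t1).natDegree ≤ 4 :=
      (natDegree_mul_le).trans (by rw [natDegree_X_pow]; omega)
    refine (natDegree_sub_le _ _).trans (max_le ?_ ((natDegree_smul_le _ _).trans k1))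
    refine (natDegree_add_le _ _).trans (max_le ?_ ((natDegree_smul_le _ _).trans k2))
    exact (natDegree_sub_le _ _).trans (max_le n4 ((natDegree_smul_le _ _).trans k3))
  · refine (natDegree_smul_le _ _).trans ?_
    have k2 : (X * t2).natDegree ≤ 3 := (natDegree_mul_le).trans (by rw [natDegree_X]; omega)
    have k1 : (X ^ 2 * t1).natDegree ≤ 3 :=
      (natDegree_mul_le).trans (by rw [natDegree_X_pow]; omega)
    refine (natDegree_add_le _ _).trans (max_le ?_ ((natDegree_smul_le _ _).trans k1))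
    exact (natDegree_sub_le _ _).trans (max_le n3 ((natDegree_smul_le _ _).trans k2))
  · refine (natDegree_smul_le _ _).trans ?_
    have k1 : (X * t1).natDegree ≤ 2 := (natDegree_mul_le).trans (by rw [natDegree_X]; omega)
    exact (natDegree_sub_le _ _).trans (max_le n2 ((natDegree_smul_le _ _).trans k1))
  · intro g
    rw [map_add, ← hA, hb g]; ring
  · intro g
    rw [map_add, map_add, h2' (derivative g)]
    have := hb (derivative (derivative g))
    have h := h1 g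
    rw [comb1] at h
    linarith

end Pool.Agent.R263.Sob
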