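import Mathlib

set_option autoImplicit false
open Polynomial MeasureTheory

namespace Pool.Agent.R263.Sob

lemma integrable_poly {ρ : Measure ℝ} (h : ∀ k : ℕ, Integrable (fun x : ℝ => x ^ k) ρ)
    (g : ℝ[X]) : Integrable (fun x => g.eval x) ρ := by
  have : (fun x => g.eval x) = fun x => ∑ i ∈ Finset.range (g.natDegree + 1), g.coeff i * x ^ i := by
    funext x; exact eval_eq_sum_range x
  rw [this]
  exact integrable_finsetSum _ (fun i _ => (h i).const_mul _)

/-- Integration of polynomials as a linear map. -/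
noncomputable def mom (ρ : Measure ℝ) (h : ∀ k : ℕ, Integrable (fun x : ℝ => x ^ k) ρ) :
    ℝ[X] →ₗ[ℝ] ℝ where
  toFun g := ∫ x, g.eval x ∂ρ
  map_add' f g := by
    simp only [eval_add]
    exact integral_add (integrable_poly h f) (integrable_poly h g)
  map_smul' c g := by
    simp only [eval_smul, smul_eq_mul, RingHom.id_apply]
    exact integral_const_mul _ _

lemma mom_apply (ρ : Measure ℝ) (h : ∀ k : ℕ, Integrable (fun x : ℝ => x ^ k) ρ) (g : ℝ[X]) :
    mom ρ h g = ∫ x, g.eval x ∂ρ := rfl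

lemma mom_shift {ρ : Measure ℝ} (h : ∀ k : ℕ, Integrable (fun x : ℝ => x ^ k) ρ)
    (P : ℝ[X]) (m d : ℕ) (hd : P.natDegree ≤ d) :
    ∫ x, (X ^ m * P).eval x ∂ρ
      = ∑ j ∈ Finset.range (d + 1), P.coeff j * ∫ x, x ^ (m + j) ∂ρ := by
  have : (fun x => (X ^ m * P).eval x)
      = fun x => ∑ j ∈ Finset.range (d + 1), P.coeff j * x ^ (m + j) := by
    funext x
    rw [eval_mul, eval_pow, eval_X, eval_eq_sum_range' (Nat.lt_succ_of_le hd), Finset.mul_sum]
    exact Finset.sum_congr rfl (fun j _ => by rw [pow_add]; ring)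
  rw [this, integral_finsetSum _ (fun i _ => (h _).const_mul _)]
  exact Finset.sum_congr rfl (fun j _ => integral_const_mul _ _)

theorem growth {ρ : Measure ℝ} (h : ∀ k : ℕ, Integrable (fun x : ℝ => x ^ k) ρ)
    (A b : ℝ[X]) (hA : A ≠ 0) (h0 : ∫ x, (1 : ℝ) ∂ρ ≠ 0)
    (hF : ∀ g : ℝ[X], ∫ x, (A * derivative g + b * g).eval x ∂ρ = 0) :
    ∃ C : ℝ, 1 ≤ C ∧ ∀ n : ℕ, |∫ x, x ^ n ∂ρ| ≤ C ^ (n + 1) * n.factorial := by
  set μ : ℕ → ℝ := fun n => ∫ x, x ^ n ∂ρ with hμ
  set Bq : ℝ[X] := X * b with hBq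
  set d : ℕ := max A.natDegree Bq.natDegree with hd
  -- the recurrence
  have hrec : ∀ m : ℕ, ∑ j ∈ Finset.range (d + 1), ((m + 1 : ℝ) * A.coeff j + Bq.coeff j) * μ (m + j)
      = 0 := by
    intro m
    have h1 := hF (X ^ (m + 1))
    have h2 : A * derivative (X ^ (m + 1) : ℝ[X]) + b * X ^ (m + 1)
        = X ^ m * (C ((m : ℝ) + 1) * A + Bq) := by
      rw [derivative_X_pow, hBq]
      simp only [Nat.cast_add, Nat.cast_one, Nat.add_sub_cancel]
      ring
    rw [h2, mom_shift h _ m d ?_] at h1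
    · rw [← h1]
      refine Finset.sum_congr rfl (fun j _ => ?_)
      rw [coeff_add, coeff_C_mul]
    · refine (natDegree_add_le _ _).trans (max_le_max ?_ le_rfl)
      exact natDegree_C_mul_le _ _
  have hd1 : 1 ≤ d := by
    by_contra hlt
    have hd0 : d = 0 := by omega
    have hA0 : A.natDegree = 0 := by omega
    have hB0 : Bq.natDegree = 0 := by omega
    have hb0 : b = 0 := by
      by_contra hb
      rw [hBq, natDegree_X_mul hb] at hB0
      omega
    have := hrec 0
    rw [hd0] at this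
    simp only [zero_add, Finset.range_one, Finset.sum_singleton, Nat.cast_zero, one_mul] at this
    rw [hBq, hb0, mul_zero, coeff_zero, add_zero] at this
    have h3 : A.coeff 0 ≠ 0 := by
      intro h4
      apply hA
      rw [eq_C_of_natDegree_eq_zero hA0, h4, C_0]
    have h4 : μ 0 ≠ 0 := by simpa [hμ] using h0
    exact (mul_ne_zero h3 h4) this
  -- lower bound on the leading coefficient
  obtain ⟨n₀, c, hc, hlow⟩ : ∃ (n₀ : ℕ) (c : ℝ), 0 < c ∧ ∀ m : ℕ, n₀ ≤ m →
      c ≤ |(m + 1 : ℝ) * A.coeff d + Bq.coeff d| := by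
    by_cases hAd : A.coeff d = 0
    · have hne : A.natDegree ≠ d := by
        intro he
        rw [← he] at hAd
        exact hA (leadingCoeff_eq_zero.mp hAd)
      have hBd : Bq.natDegree = d := by omega
      have hB0 : Bq ≠ 0 := by
        intro h5
        rw [h5, natDegree_zero] at hBd
        omega
      have hBc : Bq.coeff d ≠ 0 := by
        rw [← hBd]
        exact leadingCoeff_ne_zero.mpr hB0
      exact ⟨0, |Bq.coeff d|, abs_pos.mpr hBc, fun m _ => by rw [hAd, mul_zero, zero_add]⟩
    · obtain ⟨n₀, hn₀⟩ := exists_nat_gt (|Bq.coeff d| / |A.coeff d|)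
      have hpos := abs_pos.mpr hAd
      refine ⟨n₀, |A.coeff d|, hpos, fun m hm => ?_⟩
      have h1 : |Bq.coeff d| ≤ m * |A.coeff d| := by
        have : |Bq.coeff d| < n₀ * |A.coeff d| := by rwa [div_lt_iff₀ hpos] at hn₀
        have h2 : (n₀ : ℝ) ≤ m := by exact_mod_cast hm
        nlinarith
      have h2 : |(m + 1 : ℝ) * A.coeff d| = (m + 1) * |A.coeff d| := by
        rw [abs_mul, abs_of_pos (by positivity)]
      have h3 := abs_add_le ((m + 1 : ℝ) * A.coeff d + Bq.coeff d) (- Bq.coeff d)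
      rw [add_neg_cancel_right, abs_neg, h2] at h3
      nlinarith
  set S : ℝ := ∑ j ∈ Finset.range d, (|A.coeff j| + |Bq.coeff j|) with hS
  have hS0 : 0 ≤ S := Finset.sum_nonneg (fun j _ => by positivity)
  set M : ℝ := ∑ k ∈ Finset.range (n₀ + d), |μ k| with hM
  have hM0 : 0 ≤ M := Finset.sum_nonneg (fun j _ => abs_nonneg _)
  refine ⟨1 + M + S / c, by have : 0 ≤ S / c := by positivity
                            linarith, ?_⟩
  set C' : ℝ := 1 + M + S / c with hC'
  have hSc : 0 ≤ S / c := by positivity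
  have hC1 : 1 ≤ C' := by linarith
  intro n
  induction n using Nat.strong_induction_on with
  | _ n ih =>
    by_cases hn : n < n₀ + d
    · have h1 : |μ n| ≤ M := by
        rw [hM]
        exact Finset.single_le_sum (f := fun k => |μ k|) (fun k _ => abs_nonneg _)
          (Finset.mem_range.mpr hn)
      have h2 : M ≤ C' := by linarith
      have h3 : C' ≤ C' ^ (n + 1) := le_self_pow₀ hC1 (by omega)
      have h4 : (1 : ℝ) ≤ n.factorial := by exact_mod_cast Nat.one_le_iff_ne_zero.mpr (Nat.factorial_ne_zero n)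
      have h5 : (0 : ℝ) ≤ C' ^ (n + 1) := by positivity
      nlinarith
    · push Not at hn
      obtain ⟨m, hm⟩ : ∃ m, n = m + d := ⟨n - d, by omega⟩
      have hm0 : n₀ ≤ m := by omega
      have hr := hrec m
      rw [Finset.sum_range_succ] at hr
      have h1 : c * |μ n| ≤ |∑ j ∈ Finset.range d, ((m + 1 : ℝ) * A.coeff j + Bq.coeff j) * μ (m + j)| := by
        have : ∑ j ∈ Finset.range d, ((m + 1 : ℝ) * A.coeff j + Bq.coeff j) * μ (m + j)
            = - (((m + 1 : ℝ) * A.coeff d + Bq.coeff d) * μ (m + d)) := by linarith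
        rw [this, abs_neg, abs_mul, hm]
        exact mul_le_mul_of_nonneg_right (hlow m hm0) (abs_nonneg _)
      have h2 : |∑ j ∈ Finset.range d, ((m + 1 : ℝ) * A.coeff j + Bq.coeff j) * μ (m + j)|
          ≤ ∑ j ∈ Finset.range d, (m + 1 : ℝ) * (|A.coeff j| + |Bq.coeff j|)
            * (C' ^ n * (n - 1).factorial) := by
        refine (Finset.abs_sum_le_sum_abs _ _).trans (Finset.sum_le_sum (fun j hj => ?_))
        rw [Finset.mem_range] at hj
        rw [abs_mul]
        have hk : |μ (m + j)| ≤ C' ^ n * (n - 1).factorial := by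
          refine (ih (m + j) (by omega)).trans ?_
          have e1 : C' ^ (m + j + 1) ≤ C' ^ n := pow_le_pow_right₀ hC1 (by omega)
          have e2 : ((m + j).factorial : ℝ) ≤ ((n - 1).factorial : ℝ) := by
            exact_mod_cast Nat.factorial_le (by omega)
          gcongr
        have hq : |(m + 1 : ℝ) * A.coeff j + Bq.coeff j| ≤ (m + 1 : ℝ) * (|A.coeff j| + |Bq.coeff j|) := by
          refine (abs_add_le _ _).trans ?_
          rw [abs_mul, abs_of_pos (by positivity : (0 : ℝ) < m + 1)]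
          have : 0 ≤ (m : ℝ) * |Bq.coeff j| := by positivity
          nlinarith
        gcongr
      have h3 : ∑ j ∈ Finset.range d, (m + 1 : ℝ) * (|A.coeff j| + |Bq.coeff j|)
            * (C' ^ n * (n - 1).factorial) = (m + 1) * S * (C' ^ n * (n - 1).factorial) := by
        rw [hS, Finset.mul_sum, Finset.sum_mul]
      have h4 : ((m : ℝ) + 1) * (n - 1).factorial ≤ n.factorial := by
        have hfac : n.factorial = n * (n - 1).factorial := (Nat.mul_factorial_pred (by omega)).symm
        rw [hfac]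
        have : ((m : ℝ) + 1) ≤ n := by exact_mod_cast (by omega : m + 1 ≤ n)
        push_cast
        gcongr
      have h5 : c * |μ n| ≤ S * C' ^ n * n.factorial := by
        calc c * |μ n| ≤ (m + 1) * S * (C' ^ n * (n - 1).factorial) := (h1.trans h2).trans_eq h3
          _ = S * C' ^ n * (((m : ℝ) + 1) * (n - 1).factorial) := by ring
          _ ≤ S * C' ^ n * n.factorial :=
            mul_le_mul_of_nonneg_left h4 (mul_nonneg hS0 (pow_nonneg (by linarith) _))
      have h6 : |μ n| ≤ (S / c) * (C' ^ n * n.factorial) := by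
        rw [div_mul_eq_mul_div, le_div_iff₀ hc]
        linarith
      have h7 : (S / c) * (C' ^ n * n.factorial) ≤ C' * (C' ^ n * n.factorial) := by
        refine mul_le_mul_of_nonneg_right (by linarith)
          (mul_nonneg (pow_nonneg (by linarith) _) (Nat.cast_nonneg _))
      calc |μ n| ≤ C' * (C' ^ n * n.factorial) := h6.trans h7
        _ = C' ^ (n + 1) * n.factorial := by ring

theorem exp_moment {ρ : Measure ℝ} (h : ∀ k : ℕ, Integrable (fun x : ℝ => x ^ k) ρ)
    (hg : ∃ C : ℝ, 1 ≤ C ∧ ∀ n : ℕ, |∫ x, x ^ n ∂ρ| ≤ C ^ (n + 1) * n.factorial) :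
    ∃ t : ℝ, 0 < t ∧ Integrable (fun x : ℝ => Real.exp (t * |x|)) ρ := by
  obtain ⟨C, hC, hb⟩ := hg
  set t : ℝ := 1 / (2 * C) with ht
  have htpos : 0 < t := by positivity
  have htC : t * C = 1 / 2 := by rw [ht]; field_simp
  refine ⟨t, htpos, ?_⟩
  -- integrability of cosh
  have hcosh : Integrable (fun x : ℝ => Real.cosh (t * x)) ρ := by
    refine ⟨(by fun_prop), ?_⟩
    rw [hasFiniteIntegral_iff_ofReal (Filter.Eventually.of_forall (fun x => (Real.cosh_pos _).le))]
    have e1 : ∀ x : ℝ, ENNReal.ofReal (Real.cosh (t * x))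
        = ∑' k : ℕ, ENNReal.ofReal ((t * x) ^ (2 * k) / (2 * k).factorial) := by
      intro x
      rw [← (Real.hasSum_cosh (t * x)).tsum_eq, ENNReal.ofReal_tsum_of_nonneg]
      · intro k
        have : 0 ≤ (t * x) ^ (2 * k) := by rw [pow_mul]; positivity
        positivity
      · exact (Real.hasSum_cosh (t * x)).summable
    simp_rw [e1]
    rw [lintegral_tsum (fun k => by fun_prop)]
    have e2 : ∀ k : ℕ, ∫⁻ x, ENNReal.ofReal ((t * x) ^ (2 * k) / (2 * k).factorial) ∂ρ
        ≤ ENNReal.ofReal (C * (1 / 4) ^ k) := by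
      intro k
      have hint : Integrable (fun x : ℝ => (t * x) ^ (2 * k) / (2 * k).factorial) ρ := by
        simp_rw [mul_pow, mul_div_assoc]
        exact ((h (2 * k)).div_const _).const_mul _
      rw [← ofReal_integral_eq_lintegral_ofReal hint]
      · apply ENNReal.ofReal_le_ofReal
        have e3 : ∫ x, (t * x) ^ (2 * k) / (2 * k).factorial ∂ρ
            = t ^ (2 * k) / (2 * k).factorial * ∫ x, x ^ (2 * k) ∂ρ := by
          rw [← integral_const_mul]
          congr 1
          funext x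
          rw [mul_pow]; ring
        rw [e3]
        have e4 := (le_abs_self _).trans (hb (2 * k))
        have e5 : (0 : ℝ) < (2 * k).factorial := by exact_mod_cast Nat.factorial_pos _
        calc t ^ (2 * k) / (2 * k).factorial * ∫ x, x ^ (2 * k) ∂ρ
            ≤ t ^ (2 * k) / (2 * k).factorial * (C ^ (2 * k + 1) * (2 * k).factorial) := by gcongr
          _ = C * (t * C) ^ (2 * k) := by field_simp; ring
          _ = C * (1 / 4) ^ k := by rw [htC, pow_mul]; norm_num
      · exact Filter.Eventually.of_forall (fun x => by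
          have : 0 ≤ (t * x) ^ (2 * k) := by rw [pow_mul]; positivity
          show 0 ≤ (t * x) ^ (2 * k) / (2 * k).factorial
          positivity)
    refine (ENNReal.tsum_le_tsum e2).trans_lt ?_
    have hs : Summable (fun k : ℕ => C * (1 / 4 : ℝ) ^ k) :=
      (summable_geometric_of_lt_one (by norm_num) (by norm_num)).mul_left C
    rw [← ENNReal.ofReal_tsum_of_nonneg (fun k => by positivity) hs]
    exact ENNReal.ofReal_lt_top
  refine (hcosh.const_mul 2).mono (by fun_prop) (Filter.Eventually.of_forall (fun x => ?_))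
  have hc0 : 0 ≤ 2 * Real.cosh (t * x) := mul_nonneg zero_le_two (Real.cosh_pos _).le
  rw [Real.norm_of_nonneg (Real.exp_pos _).le, Real.norm_of_nonneg hc0, Real.cosh_eq]
  have h1 : Real.exp (t * |x|) ≤ Real.exp (t * x) + Real.exp (-(t * x)) := by
    rcases abs_cases x with ⟨hx, _⟩ | ⟨hx, _⟩
    · rw [hx]; linarith [Real.exp_pos (-(t * x))]
    · rw [hx, mul_neg]; linarith [Real.exp_pos (t * x)]
  linarith

end Pool.Agent.R263.Sob
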