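import Mathlib

set_option autoImplicit false
open MeasureTheory ProbabilityTheory Complex

namespace Pool.Agent.R263.Sob

lemma mem_integrableExpSet {μ : Measure ℝ} {t : ℝ} (h : Integrable (fun x : ℝ => Real.exp (t * |x|)) μ)
    {s : ℝ} (hs : |s| ≤ t) : s ∈ integrableExpSet id μ := by
  refine h.mono (by fun_prop) (Filter.Eventually.of_forall (fun x => ?_))
  rw [Real.norm_of_nonneg (Real.exp_pos _).le, Real.norm_of_nonneg (Real.exp_pos _).le]
  apply Real.exp_le_exp.mpr
  calc s * id x ≤ |s * x| := le_abs_self _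
    _ = |s| * |x| := abs_mul _ _
    _ ≤ t * |x| := mul_le_mul_of_nonneg_right hs (abs_nonneg _)

lemma mem_interior_integrableExpSet {μ : Measure ℝ} {t : ℝ}
    (h : Integrable (fun x : ℝ => Real.exp (t * |x|)) μ)
    {s : ℝ} (hs : |s| < t) : s ∈ interior (integrableExpSet id μ) := by
  rw [mem_interior]
  refine ⟨Set.Ioo (-t) t, fun u hu => mem_integrableExpSet h (abs_le.mpr ⟨hu.1.le, hu.2.le⟩),
    isOpen_Ioo, abs_lt.mp hs⟩

theorem ext_of_moments {μ₁ μ₂ : Measure ℝ} [IsFiniteMeasure μ₁] [IsFiniteMeasure μ₂] {t : ℝ}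
    (ht : 0 < t) (h1 : Integrable (fun x : ℝ => Real.exp (t * |x|)) μ₁)
    (h2 : Integrable (fun x : ℝ => Real.exp (t * |x|)) μ₂)
    (hm : ∀ n : ℕ, ∫ x, x ^ n ∂μ₁ = ∫ x, x ^ n ∂μ₂) : μ₁ = μ₂ := by
  set S : Set ℂ := {z | z.re ∈ Set.Ioo (-t) t} with hS
  have hS1 : S ⊆ {z | z.re ∈ interior (integrableExpSet id μ₁)} :=
    fun z hz => mem_interior_integrableExpSet h1 (abs_lt.mpr hz)
  have hS2 : S ⊆ {z | z.re ∈ interior (integrableExpSet id μ₂)} :=
    fun z hz => mem_interior_integrableExpSet h2 (abs_lt.mpr hz)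
  have hF1 : AnalyticOnNhd ℂ (complexMGF id μ₁) S := analyticOnNhd_complexMGF.mono hS1
  have hF2 : AnalyticOnNhd ℂ (complexMGF id μ₂) S := analyticOnNhd_complexMGF.mono hS2
  have h0 : (0 : ℂ) ∈ S := by
    rw [hS]; exact ⟨by simpa using ht, by simpa using ht⟩
  have hS1' : (0 : ℂ).re ∈ interior (integrableExpSet id μ₁) := hS1 h0
  have hS2' : (0 : ℂ).re ∈ interior (integrableExpSet id μ₂) := hS2 h0
  have hconv : Convex ℝ S := by
    rw [hS]
    exact (convex_Ioo (-t) t).linear_preimage reLm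
  have e1 : ∀ n, iteratedDeriv n (complexMGF id μ₁) 0 = ((∫ x, x ^ n ∂μ₁ : ℝ) : ℂ) := by
    intro n
    rw [iteratedDeriv_complexMGF hS1' n, ← integral_complex_ofReal]
    simp
  have e2 : ∀ n, iteratedDeriv n (complexMGF id μ₂) 0 = ((∫ x, x ^ n ∂μ₂ : ℝ) : ℂ) := by
    intro n
    rw [iteratedDeriv_complexMGF hS2' n, ← integral_complex_ofReal]
    simp
  have hp1 := (hF1 0 h0).hasFPowerSeriesAt
  have hp2 := (hF2 0 h0).hasFPowerSeriesAt
  have hev : complexMGF id μ₁ =ᶠ[nhds 0] complexMGF id μ₂ := by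
    have hsub := hp1.sub hp2
    have hz : (FormalMultilinearSeries.ofScalars ℂ
        (fun n ↦ iteratedDeriv n (complexMGF id μ₁) 0 / (n.factorial : ℂ)))
        - (FormalMultilinearSeries.ofScalars ℂ
        (fun n ↦ iteratedDeriv n (complexMGF id μ₂) 0 / (n.factorial : ℂ))) = 0 := by
      have : (fun n : ℕ ↦ iteratedDeriv n (complexMGF id μ₁) 0 / (n.factorial : ℂ))
          = (fun n : ℕ ↦ iteratedDeriv n (complexMGF id μ₂) 0 / (n.factorial : ℂ)) := by
        funext n; rw [e1, e2, hm]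
      rw [this, sub_self]
    rw [hz] at hsub
    filter_upwards [hsub.eventually_eq_zero] with z hz
    exact sub_eq_zero.mp hz
  have heq := hF1.eqOn_of_preconnected_of_eventuallyEq hF2 hconv.isPreconnected h0 hev
  apply Measure.ext_of_charFun
  funext s
  have hs : ((s : ℂ) * I) ∈ S := by
    rw [hS]
    constructor
    · simpa using ht
    · simpa using ht
  have := heq hs
  rw [complexMGF_id_mul_I, complexMGF_id_mul_I] at this
  exact this

lemma abs_pow_le_exp {t : ℝ} (ht : 0 < t) (n : ℕ) (x : ℝ) :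
    |x ^ n| ≤ (n.factorial / t ^ n) * Real.exp (t * |x|) := by
  have h := Real.pow_div_factorial_le_exp (t * |x|) (by positivity) n
  have h1 : (0 : ℝ) < n.factorial := by exact_mod_cast Nat.factorial_pos _
  rw [div_le_iff₀ h1, mul_pow] at h
  rw [abs_pow, div_mul_eq_mul_div, le_div_iff₀ (by positivity)]
  linarith

lemma dens_integrable {φ : Measure ℝ} {h : ℝ → ℝ} (m : Measurable h) {g : ℝ → ℝ}
    (hg : Integrable (fun x => h x * g x) φ) :
    Integrable g (φ.withDensity (fun x => ENNReal.ofReal (h x))) ∧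
    ∫ x, g x ∂(φ.withDensity (fun x => ENNReal.ofReal (h x)))
      = ∫ x, Set.indicator {x | 0 < h x} (fun x => h x * g x) x ∂φ := by
  have mm : Measurable (fun x => ENNReal.ofReal (h x)) := m.ennreal_ofReal
  have e : (fun x => (ENNReal.ofReal (h x)).toReal • g x)
      = Set.indicator {x | 0 < h x} (fun x => h x * g x) := by
    funext x
    by_cases hx : 0 < h x
    · rw [Set.indicator_of_mem (by exact hx), ENNReal.toReal_ofReal hx.le, smul_eq_mul]
    · rw [Set.indicator_of_notMem (by exact hx), ENNReal.ofReal_of_nonpos (not_lt.mp hx)]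
      simp
  have hs : MeasurableSet {x | 0 < h x} := measurableSet_lt measurable_const m
  constructor
  · rw [integrable_withDensity_iff_integrable_smul' mm (Filter.Eventually.of_forall
      (fun x => ENNReal.ofReal_lt_top)), e]
    exact hg.indicator hs
  · rw [integral_withDensity_eq_integral_toReal_smul mm (Filter.Eventually.of_forall
      (fun x => ENNReal.ofReal_lt_top)), e]

lemma dens_split {φ : Measure ℝ} {h : ℝ → ℝ} (m : Measurable h) {g : ℝ → ℝ}
    (hg : Integrable (fun x => h x * g x) φ) :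
    Integrable g (φ.withDensity (fun x => ENNReal.ofReal (h x))) ∧
    Integrable g (φ.withDensity (fun x => ENNReal.ofReal (- h x))) ∧
    ∫ x, h x * g x ∂φ = ∫ x, g x ∂(φ.withDensity (fun x => ENNReal.ofReal (h x)))
      - ∫ x, g x ∂(φ.withDensity (fun x => ENNReal.ofReal (- h x))) := by
  obtain ⟨a1, a2⟩ := dens_integrable m hg
  have hg' : Integrable (fun x => (- h x) * g x) φ :=
    hg.neg.congr (Filter.Eventually.of_forall (fun x => by
      show -(h x * g x) = (- h x) * g x
      ring))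
  have mneg : Measurable (fun x => - h x) := m.neg
  obtain ⟨b1, b2⟩ := dens_integrable mneg hg'
  refine ⟨a1, b1, ?_⟩
  have s1 : MeasurableSet {x | 0 < h x} := measurableSet_lt measurable_const m
  have s2 : MeasurableSet {x | 0 < - h x} := measurableSet_lt measurable_const m.neg
  rw [a2, b2, ← integral_sub (hg.indicator s1) (hg'.indicator s2)]
  refine integral_congr_ae (Filter.Eventually.of_forall (fun x => ?_))
  rcases lt_trichotomy (h x) 0 with hx | hx | hx
  · have n1 : x ∉ {x | 0 < h x} := not_lt.mpr hx.le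
    have n2 : x ∈ {x | 0 < - h x} := neg_pos.mpr hx
    simp only [Set.indicator_of_mem n2, Set.indicator_of_notMem n1]
    ring
  · have n1 : x ∉ {x | 0 < h x} := not_lt.mpr hx.le
    have n2 : x ∉ {x | 0 < - h x} := by
      show ¬ (0 < - h x)
      rw [hx]; simp
    simp only [Set.indicator_of_notMem n2, Set.indicator_of_notMem n1]
    rw [hx]; ring
  · have n1 : x ∈ {x | 0 < h x} := hx
    have n2 : x ∉ {x | 0 < - h x} := by
      show ¬ (0 < - h x)
      linarith
    simp only [Set.indicator_of_notMem n2, Set.indicator_of_mem n1]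
    ring

lemma integrable_mul_pow {φ : Measure ℝ} {h : ℝ → ℝ} (m : Measurable h) {t : ℝ} (ht : 0 < t)
    (i : Integrable (fun x : ℝ => h x * Real.exp (t * |x|)) φ) (n : ℕ) :
    Integrable (fun x => h x * x ^ n) φ := by
  refine (i.norm.const_mul (n.factorial / t ^ n)).mono (by fun_prop)
    (Filter.Eventually.of_forall (fun x => ?_))
  rw [norm_mul, Real.norm_eq_abs (x ^ n)]
  have h1 := abs_pow_le_exp ht n x
  have h2 : 0 ≤ (n.factorial / t ^ n) * ‖h x * Real.exp (t * |x|)‖ := by positivity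
  rw [Real.norm_of_nonneg h2, norm_mul, Real.norm_of_nonneg (Real.exp_pos _).le]
  calc ‖h x‖ * |x ^ n| ≤ ‖h x‖ * ((n.factorial / t ^ n) * Real.exp (t * |x|)) :=
        mul_le_mul_of_nonneg_left h1 (norm_nonneg _)
    _ = _ := by ring

/-- Signed version: two signed measures `h₁ φ₁`, `h₂ φ₂` with exponential moments and the same
moments integrate every function in the same way. -/
theorem signed_unique {φ₁ φ₂ : Measure ℝ} {h₁ h₂ : ℝ → ℝ} (m1 : Measurable h₁) (m2 : Measurable h₂)
    {t : ℝ} (ht : 0 < t)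
    (i1 : Integrable (fun x : ℝ => h₁ x * Real.exp (t * |x|)) φ₁)
    (i2 : Integrable (fun x : ℝ => h₂ x * Real.exp (t * |x|)) φ₂)
    (hm : ∀ n : ℕ, ∫ x, h₁ x * x ^ n ∂φ₁ = ∫ x, h₂ x * x ^ n ∂φ₂)
    (f : ℝ → ℝ) (hf1 : Integrable (fun x => h₁ x * f x) φ₁)
    (hf2 : Integrable (fun x => h₂ x * f x) φ₂) :
    ∫ x, h₁ x * f x ∂φ₁ = ∫ x, h₂ x * f x ∂φ₂ := by
  set P₁ := φ₁.withDensity (fun x => ENNReal.ofReal (h₁ x)) with hP₁
  set Q₁ := φ₁.withDensity (fun x => ENNReal.ofReal (- h₁ x)) with hQ₁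
  set P₂ := φ₂.withDensity (fun x => ENNReal.ofReal (h₂ x)) with hP₂
  set Q₂ := φ₂.withDensity (fun x => ENNReal.ofReal (- h₂ x)) with hQ₂
  obtain ⟨c1, c2, c3⟩ := dens_split m1 (integrable_mul_pow m1 ht i1 0)
  obtain ⟨d1, d2, d3⟩ := dens_split m2 (integrable_mul_pow m2 ht i2 0)
  have fin : ∀ ν : Measure ℝ, Integrable (fun x : ℝ => x ^ 0) ν → IsFiniteMeasure ν := by
    intro ν hν
    simp only [pow_zero] at hν
    have := (integrable_const_iff (μ := ν) (c := (1 : ℝ))).mp hν
    rcases this with h | h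
    · exact absurd h one_ne_zero
    · exact h
  have := fin _ c1
  have := fin _ c2
  have := fin _ d1
  have := fin _ d2
  obtain ⟨e1, e2, -⟩ := dens_split m1 i1
  obtain ⟨e3, e4, -⟩ := dens_split m2 i2
  have heq : P₁ + Q₂ = Q₁ + P₂ := by
    refine ext_of_moments ht (e1.add_measure e4) (e2.add_measure e3) (fun n => ?_)
    obtain ⟨a1, a2, a3⟩ := dens_split m1 (integrable_mul_pow m1 ht i1 n)
    obtain ⟨b1, b2, b3⟩ := dens_split m2 (integrable_mul_pow m2 ht i2 n)
    rw [integral_add_measure a1 b2, integral_add_measure a2 b1]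
    have := hm n
    rw [a3, b3] at this
    linarith
  obtain ⟨a1, a2, a3⟩ := dens_split m1 hf1
  obtain ⟨b1, b2, b3⟩ := dens_split m2 hf2
  have h1 : ∫ x, f x ∂(P₁ + Q₂) = ∫ x, f x ∂(Q₁ + P₂) := by rw [heq]
  rw [integral_add_measure a1 b2, integral_add_measure a2 b1] at h1
  rw [a3, b3]
  linarith

end Pool.Agent.R263.Sob
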