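import Pool.Agent.R263.SobB
import Pool.Agent.R263.SobC

set_option autoImplicit false
open Polynomial MeasureTheory

namespace Pool.Agent.R263.Sob

lemma poly_exp_integrable {φ : Measure ℝ} {t₀ s : ℝ} (hs : s < t₀)
    (h : Integrable (fun x : ℝ => Real.exp (t₀ * |x|)) φ) (P : ℝ[X]) :
    Integrable (fun y => P.eval y * Real.exp (s * |y|)) φ := by
  have hmono : ∀ n : ℕ, Integrable (fun y : ℝ => y ^ n * Real.exp (s * |y|)) φ := by
    intro n
    refine (h.const_mul (n.factorial / (t₀ - s) ^ n)).mono (by fun_prop)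
      (Filter.Eventually.of_forall (fun x => ?_))
    have h0 : 0 < t₀ - s := by linarith
    have h1 := abs_pow_le_exp h0 n x
    rw [norm_mul, Real.norm_eq_abs (x ^ n), Real.norm_of_nonneg (Real.exp_pos _).le,
      Real.norm_of_nonneg (by positivity)]
    calc |x ^ n| * Real.exp (s * |x|)
        ≤ ((n.factorial / (t₀ - s) ^ n) * Real.exp ((t₀ - s) * |x|)) * Real.exp (s * |x|) :=
          mul_le_mul_of_nonneg_right h1 (Real.exp_pos _).le
      _ = (n.factorial / (t₀ - s) ^ n) * Real.exp (t₀ * |x|) := by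
          rw [mul_assoc, ← Real.exp_add]; ring_nf
  have : (fun y => P.eval y * Real.exp (s * |y|))
      = fun y => ∑ i ∈ Finset.range (P.natDegree + 1), P.coeff i * (y ^ i * Real.exp (s * |y|)) := by
    funext y
    rw [eval_eq_sum_range, Finset.sum_mul]
    exact Finset.sum_congr rfl (fun i _ => by ring)
  rw [this]
  exact integrable_finsetSum _ (fun i _ => (hmono i).const_mul _)

/-- the integrand `q₀(y) + q₁(y)(y - t)` -/
noncomputable def uu (q₀ q₁ : ℝ[X]) (y t : ℝ) : ℝ := q₀.eval y + q₁.eval y * (y - t)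

/-- the distribution function -/
noncomputable def WW (φ : Measure ℝ) (q₀ q₁ : ℝ[X]) (t : ℝ) : ℝ :=
  ∫ y in Set.Iic t, uu q₀ q₁ y t ∂φ

/-- the kernel -/
noncomputable def kk (q₀ q₁ : ℝ[X]) (t y : ℝ) : ℝ :=
  if t < 0 then (if y ≤ t then uu q₀ q₁ y t else 0) else (if t < y then - uu q₀ q₁ y t else 0)

lemma uu_cont (q₀ q₁ : ℝ[X]) : Continuous (fun p : ℝ × ℝ => uu q₀ q₁ p.2 p.1) := by
  unfold uu
  fun_prop

lemma uu_meas (q₀ q₁ : ℝ[X]) : Measurable (fun p : ℝ × ℝ => uu q₀ q₁ p.2 p.1) :=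
  (uu_cont q₀ q₁).measurable

lemma kk_meas (q₀ q₁ : ℝ[X]) : Measurable (fun p : ℝ × ℝ => kk q₀ q₁ p.1 p.2) := by
  unfold kk
  refine Measurable.ite (measurableSet_lt measurable_fst measurable_const) ?_ ?_
  · exact Measurable.ite (measurableSet_le measurable_snd measurable_fst) (uu_meas q₀ q₁)
      measurable_const
  · exact Measurable.ite (measurableSet_lt measurable_fst measurable_snd) (uu_meas q₀ q₁).neg
      measurable_const

lemma kk_bound (q₀ q₁ : ℝ[X]) (t y : ℝ) :
    |kk q₀ q₁ t y| ≤ Set.indicator (Set.uIcc 0 y) (fun _ => |q₀.eval y| + |q₁.eval y| * |y|) t := by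
  have hu : t ∈ Set.uIcc 0 y → |uu q₀ q₁ y t| ≤ |q₀.eval y| + |q₁.eval y| * |y| := by
    intro ht
    unfold uu
    refine (abs_add_le _ _).trans ?_
    rw [abs_mul]
    have : |y - t| ≤ |y| := by
      rcases le_total 0 y with h | h
      · rw [Set.uIcc_of_le h] at ht
        rw [abs_of_nonneg (by linarith [ht.2]), abs_of_nonneg h]; linarith [ht.1]
      · rw [Set.uIcc_of_ge h] at ht
        rw [abs_of_nonpos (by linarith [ht.1]), abs_of_nonpos h]; linarith [ht.2]
    gcongr
  unfold kk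
  split_ifs with h1 h2 h2
  · have ht : t ∈ Set.uIcc 0 y := by
      rw [Set.uIcc_of_ge (by linarith)]; exact ⟨h2, h1.le⟩
    rw [Set.indicator_of_mem ht]
    exact hu ht
  · rw [abs_zero]
    exact Set.indicator_nonneg (fun _ _ => by positivity) _
  · have ht : t ∈ Set.uIcc 0 y := by
      rw [Set.uIcc_of_le (by linarith)]; exact ⟨by linarith, h2.le⟩
    rw [Set.indicator_of_mem ht, abs_neg]
    exact hu ht
  · rw [abs_zero]
    exact Set.indicator_nonneg (fun _ _ => by positivity) _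

lemma WW_eq {φ : Measure ℝ} (hmom : ∀ k : ℕ, Integrable (fun x : ℝ => x ^ k) φ) (q₀ q₁ : ℝ[X])
    (h1 : ∫ y, q₁.eval y ∂φ = 0) (h0 : ∫ y, (q₀ + X * q₁).eval y ∂φ = 0) (t : ℝ) :
    WW φ q₀ q₁ t = ∫ y, kk q₀ q₁ t y ∂φ := by
  have hint : Integrable (fun y => uu q₀ q₁ y t) φ := by
    have : (fun y => uu q₀ q₁ y t) = fun y => (q₀ + q₁ * (X - C t)).eval y := by
      funext y; simp [uu]
    rw [this]
    exact integrable_poly hmom _
  have htot : ∫ y, uu q₀ q₁ y t ∂φ = 0 := by
    have : (fun y => uu q₀ q₁ y t) = fun y => (q₀ + X * q₁).eval y - t * q₁.eval y := by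
      funext y; simp [uu]; ring
    rw [this, integral_sub (integrable_poly hmom _) ((integrable_poly hmom _).const_mul _),
      integral_const_mul, h1, h0]
    ring
  unfold WW
  by_cases ht : t < 0
  · have : (fun y => kk q₀ q₁ t y) = Set.indicator (Set.Iic t) (fun y => uu q₀ q₁ y t) := by
      funext y
      unfold kk
      rw [if_pos ht]
      by_cases hy : y ≤ t
      · rw [if_pos hy, Set.indicator_of_mem (by exact hy)]
      · rw [if_neg hy, Set.indicator_of_notMem (by exact hy)]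
    rw [this, integral_indicator measurableSet_Iic]
  · have : (fun y => kk q₀ q₁ t y) = Set.indicator (Set.Ioi t) (fun y => - uu q₀ q₁ y t) := by
      funext y
      unfold kk
      rw [if_neg ht]
      by_cases hy : t < y
      · rw [if_pos hy, Set.indicator_of_mem (by exact hy)]
      · rw [if_neg hy, Set.indicator_of_notMem (by exact hy)]
    rw [this, integral_indicator measurableSet_Ioi, integral_neg]
    have h2 := integral_add_compl (μ := φ) (measurableSet_Iic (a := t)) hint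
    rw [htot, Set.compl_Iic] at h2
    linarith

lemma WW_fubini {φ : Measure ℝ} [SFinite φ] {t₀ s : ℝ} (hs0 : 0 ≤ s) (hs : s < t₀)
    (h : Integrable (fun x : ℝ => Real.exp (t₀ * |x|)) φ)
    (q₀ q₁ : ℝ[X]) {g : ℝ → ℝ} (mg : Measurable g) {C : ℝ}
    (hg : ∀ t, |g t| ≤ C * Real.exp (s * |t|)) :
    Integrable (fun p : ℝ × ℝ => kk q₀ q₁ p.1 p.2 * g p.1) (volume.prod φ) := by
  have hC : 0 ≤ C := by
    have := hg 0
    simp only [abs_zero, mul_zero, Real.exp_zero, mul_one] at this
    exact (abs_nonneg _).trans this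
  have hmeas : Measurable (fun p : ℝ × ℝ => kk q₀ q₁ p.1 p.2 * g p.1) :=
    (kk_meas q₀ q₁).mul (mg.comp measurable_fst)
  have hb : ∀ t y, ‖kk q₀ q₁ t y * g t‖ ≤ Set.indicator (Set.uIcc 0 y)
      (fun _ => (|q₀.eval y| + |q₁.eval y| * |y|) * (C * Real.exp (s * |y|))) t := by
    intro t y
    rw [norm_mul, Real.norm_eq_abs, Real.norm_eq_abs]
    have hk := kk_bound q₀ q₁ t y
    by_cases ht : t ∈ Set.uIcc 0 y
    · rw [Set.indicator_of_mem ht] at hk ⊢
      have h1 : |t| ≤ |y| := by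
        rcases le_total 0 y with h | h
        · rw [Set.uIcc_of_le h] at ht
          rw [abs_of_nonneg ht.1, abs_of_nonneg h]; exact ht.2
        · rw [Set.uIcc_of_ge h] at ht
          rw [abs_of_nonpos ht.2, abs_of_nonpos h]; linarith [ht.1]
      have h2 : |g t| ≤ C * Real.exp (s * |y|) := by
        refine (hg t).trans ?_
        gcongr
      gcongr
    · rw [Set.indicator_of_notMem ht] at hk ⊢
      have h3 : |kk q₀ q₁ t y| = 0 := le_antisymm hk (abs_nonneg _)
      rw [h3, zero_mul]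
  rw [integrable_prod_iff' hmeas.aestronglyMeasurable]
  have hind : ∀ y : ℝ, Integrable (Set.indicator (Set.uIcc 0 y)
      (fun _ : ℝ => (|q₀.eval y| + |q₁.eval y| * |y|) * (C * Real.exp (s * |y|)))) volume := by
    intro y
    rw [integrable_indicator_iff measurableSet_uIcc]
    exact continuousOn_const.integrableOn_uIcc
  constructor
  · refine Filter.Eventually.of_forall (fun y => ?_)
    exact (hind y).mono' (hmeas.comp (measurable_id.prodMk measurable_const)).aestronglyMeasurable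
      (Filter.Eventually.of_forall (fun t => hb t y))
  · have hU : Integrable (fun y => C * (|(X * q₀).eval y * Real.exp (s * |y|)|
        + |(X ^ 2 * q₁).eval y * Real.exp (s * |y|)|)) φ :=
      (((poly_exp_integrable hs h _).norm).add ((poly_exp_integrable hs h _).norm)).const_mul C
    refine hU.mono' ?_ (Filter.Eventually.of_forall (fun y => ?_))
    · exact (hmeas.norm.stronglyMeasurable.integral_prod_left').aestronglyMeasurable
    · rw [Real.norm_of_nonneg (integral_nonneg (fun _ => norm_nonneg _))]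
      calc ∫ t, ‖kk q₀ q₁ t y * g t‖ ≤ ∫ t, Set.indicator (Set.uIcc 0 y)
            (fun _ => (|q₀.eval y| + |q₁.eval y| * |y|) * (C * Real.exp (s * |y|))) t :=
            integral_mono_of_nonneg (Filter.Eventually.of_forall (fun _ => norm_nonneg _)) (hind y)
              (Filter.Eventually.of_forall (fun t => hb t y))
        _ = |y| * ((|q₀.eval y| + |q₁.eval y| * |y|) * (C * Real.exp (s * |y|))) := by
            rw [integral_indicator measurableSet_uIcc, setIntegral_const, smul_eq_mul]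
            congr 1
            show (volume (Set.uIcc 0 y)).toReal = |y|
            rw [Real.volume_interval, sub_zero, ENNReal.toReal_ofReal (abs_nonneg _)]
        _ = _ := by
            rw [abs_mul, abs_mul, eval_mul, eval_mul, eval_pow, eval_X, abs_mul, abs_mul, abs_pow,
              abs_of_pos (Real.exp_pos _)]
            ring

lemma WW_meas {φ : Measure ℝ} [SFinite φ]
    (hmom : ∀ k : ℕ, Integrable (fun x : ℝ => x ^ k) φ) (q₀ q₁ : ℝ[X])
    (h1 : ∫ y, q₁.eval y ∂φ = 0) (h0 : ∫ y, (q₀ + X * q₁).eval y ∂φ = 0) :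
    Measurable (WW φ q₀ q₁) := by
  have : WW φ q₀ q₁ = fun t => ∫ y, kk q₀ q₁ t y ∂φ := by
    funext t; exact WW_eq hmom q₀ q₁ h1 h0 t
  rw [this]
  exact ((kk_meas q₀ q₁).stronglyMeasurable.integral_prod_right').measurable

lemma WW_integrable {φ : Measure ℝ} [SFinite φ] {t₀ s : ℝ} (hs0 : 0 ≤ s) (hs : s < t₀)
    (hmom : ∀ k : ℕ, Integrable (fun x : ℝ => x ^ k) φ)
    (h : Integrable (fun x : ℝ => Real.exp (t₀ * |x|)) φ)
    (q₀ q₁ : ℝ[X]) (h1 : ∫ y, q₁.eval y ∂φ = 0) (h0 : ∫ y, (q₀ + X * q₁).eval y ∂φ = 0)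
    {g : ℝ → ℝ} (mg : Measurable g) {C : ℝ} (hg : ∀ t, |g t| ≤ C * Real.exp (s * |t|)) :
    Integrable (fun t => WW φ q₀ q₁ t * g t) volume := by
  have := (WW_fubini hs0 hs h q₀ q₁ mg hg).integral_prod_left
  refine this.congr (Filter.Eventually.of_forall (fun t => ?_))
  show ∫ y, kk q₀ q₁ t y * g t ∂φ = WW φ q₀ q₁ t * g t
  rw [integral_mul_const, WW_eq hmom q₀ q₁ h1 h0]

lemma inner_eq (q₀ q₁ : ℝ[X]) (g : ℝ → ℝ) (y : ℝ) :
    ∫ t, kk q₀ q₁ t y * g t = - ∫ t in (0 : ℝ)..y, uu q₀ q₁ y t * g t := by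
  rcases le_total 0 y with hy | hy
  · have : (fun t => kk q₀ q₁ t y * g t)
        = Set.indicator (Set.Ico 0 y) (fun t => - (uu q₀ q₁ y t * g t)) := by
      funext t
      unfold kk
      by_cases h1 : t < 0
      · have h2 : ¬ (y ≤ t) := by linarith
        rw [if_pos h1, if_neg h2, Set.indicator_of_notMem (fun h => by linarith [h.1]), zero_mul]
      · rw [if_neg h1]
        by_cases h2 : t < y
        · have h3 : t ∈ Set.Ico 0 y := ⟨not_lt.mp h1, h2⟩
          rw [if_pos h2, Set.indicator_of_mem h3]; ring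
        · rw [if_neg h2, Set.indicator_of_notMem (fun h => h2 h.2), zero_mul]
    rw [this, integral_indicator measurableSet_Ico, integral_neg, integral_Ico_eq_integral_Ioc,
      intervalIntegral.integral_of_le hy]
  · have : (fun t => kk q₀ q₁ t y * g t)
        = Set.indicator (Set.Ico y 0) (fun t => uu q₀ q₁ y t * g t) := by
      funext t
      unfold kk
      by_cases h1 : t < 0
      · rw [if_pos h1]
        by_cases h2 : y ≤ t
        · have h3 : t ∈ Set.Ico y 0 := ⟨h2, h1⟩
          rw [if_pos h2, Set.indicator_of_mem h3]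
        · rw [if_neg h2, Set.indicator_of_notMem (fun h => h2 h.1), zero_mul]
      · have h2 : ¬ (t < y) := by linarith
        rw [if_neg h1, if_neg h2, Set.indicator_of_notMem (fun h => h1 h.2), zero_mul]
    rw [this, integral_indicator measurableSet_Ico, integral_Ico_eq_integral_Ioc,
      intervalIntegral.integral_of_ge hy, neg_neg]

lemma inner_pow (q₀ q₁ : ℝ[X]) (n : ℕ) (y : ℝ) :
    ∫ t in (0 : ℝ)..y, uu q₀ q₁ y t * t ^ n
      = q₀.eval y * (y ^ (n + 1) / (n + 1)) + q₁.eval y * (y ^ (n + 2) / ((n + 1) * (n + 2))) := by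
  have e : ∀ t, uu q₀ q₁ y t * t ^ n
      = (q₀.eval y + q₁.eval y * y) * t ^ n - q₁.eval y * t ^ (n + 1) := by
    intro t; unfold uu; rw [pow_succ]; ring
  simp_rw [e]
  rw [intervalIntegral.integral_sub (by apply Continuous.intervalIntegrable; fun_prop)
    (by apply Continuous.intervalIntegrable; fun_prop), intervalIntegral.integral_const_mul,
    intervalIntegral.integral_const_mul, integral_pow, integral_pow]
  have h1 : (n : ℝ) + 1 ≠ 0 := by positivity
  have h2 : (n : ℝ) + 2 ≠ 0 := by positivity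
  have h3 : (n : ℝ) + 1 + 1 ≠ 0 := by positivity
  push_cast
  rw [zero_pow (by omega), zero_pow (by omega)]
  field_simp
  ring

lemma WW_moment {φ : Measure ℝ} [SFinite φ] {t₀ : ℝ} (ht₀ : 0 < t₀)
    (hmom : ∀ k : ℕ, Integrable (fun x : ℝ => x ^ k) φ)
    (h : Integrable (fun x : ℝ => Real.exp (t₀ * |x|)) φ)
    (q₀ q₁ : ℝ[X]) (h1 : ∫ y, q₁.eval y ∂φ = 0) (h0 : ∫ y, (q₀ + X * q₁).eval y ∂φ = 0) (n : ℕ) :
    ∫ t, WW φ q₀ q₁ t * t ^ n
      = - ∫ y, (q₀.eval y * (y ^ (n + 1) / (n + 1))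
          + q₁.eval y * (y ^ (n + 2) / ((n + 1) * (n + 2)))) ∂φ := by
  have hs : t₀ / 2 < t₀ := by linarith
  have hs0 : 0 < t₀ / 2 := by linarith
  have hg : ∀ t : ℝ, |t ^ n| ≤ (n.factorial / (t₀ / 2) ^ n) * Real.exp (t₀ / 2 * |t|) :=
    fun t => abs_pow_le_exp hs0 n t
  have mg : Measurable (fun t : ℝ => t ^ n) := by fun_prop
  have hF := WW_fubini hs0.le hs h q₀ q₁ mg hg
  have hsw := integral_integral_swap (f := fun t y => kk q₀ q₁ t y * t ^ n) hF
  have e1 : ∀ t, ∫ y, kk q₀ q₁ t y * t ^ n ∂φ = WW φ q₀ q₁ t * t ^ n := by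
    intro t
    rw [integral_mul_const, WW_eq hmom q₀ q₁ h1 h0]
  simp_rw [e1] at hsw
  rw [hsw, ← integral_neg]
  refine integral_congr_ae (Filter.Eventually.of_forall (fun y => ?_))
  show ∫ t, kk q₀ q₁ t y * t ^ n = _
  rw [inner_eq q₀ q₁ (fun t => t ^ n) y, inner_pow]

end Pool.Agent.R263.Sob
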