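import Pool.Agent.R263.SobD

set_option autoImplicit false
open Polynomial MeasureTheory

namespace Pool.Agent.R263.Sob

lemma meas_eval (P : ℝ[X]) : Measurable (fun x => P.eval x) := P.continuous.measurable

/-- The moment-level data. -/
structure Sol (φ : Measure ℝ) (A b a₂ a₁ : ℝ[X]) : Prop where
  mom : ∀ k : ℕ, Integrable (fun x : ℝ => x ^ k) φ
  inf : ∀ s : Finset ℝ, φ ((↑s : Set ℝ)ᶜ) ≠ 0
  eta : ∃ η : Measure ℝ, (∀ k : ℕ, Integrable (fun x : ℝ => x ^ k) η) ∧ (∫ _x, (1 : ℝ) ∂η ≠ 0) ∧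
    (∀ g : ℝ[X], ∫ x, g.eval x ∂η = ∫ x, (A * g).eval x ∂φ)
  A0 : A ≠ 0
  dA : A.natDegree ≤ 4
  db : b.natDegree ≤ 3
  da₂ : a₂.natDegree ≤ 2
  da₁ : a₁.natDegree ≤ 1
  F1 : ∀ g : ℝ[X], ∫ x, (A * derivative g + b * g).eval x ∂φ = 0
  F3 : ∀ g : ℝ[X], ∫ x, (b * derivative (derivative g) + a₂ * derivative g + a₁ * g).eval x ∂φ = 0

variable {φ : Measure ℝ} {A b a₂ a₁ : ℝ[X]}

lemma Sol.finite (S : Sol φ A b a₂ a₁) : IsFiniteMeasure φ := by
  have h := S.mom 0
  simp only [pow_zero] at h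
  have := (integrable_const_iff (μ := φ) (c := (1 : ℝ))).mp h
  rcases this with h | h
  · exact absurd h one_ne_zero
  · exact h

lemma Sol.exp (S : Sol φ A b a₂ a₁) : ∃ t : ℝ, 0 < t ∧ Integrable (fun x : ℝ => Real.exp (t * |x|)) φ := by
  refine exp_moment S.mom (growth S.mom A b S.A0 ?_ S.F1)
  have := S.finite
  rw [integral_const, smul_eq_mul, mul_one]
  have h0 := S.inf ∅
  simp only [Finset.coe_empty, Set.compl_empty] at h0
  intro h
  rw [Measure.real, ENNReal.toReal_eq_zero_iff] at h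
  rcases h with h | h
  · exact h0 h
  · exact measure_ne_top φ _ h

lemma exp_le_of_le {η : Measure ℝ} {s t : ℝ} (hs : s ≤ t)
    (h : Integrable (fun x : ℝ => Real.exp (t * |x|)) η) :
    Integrable (fun x : ℝ => Real.exp (s * |x|)) η := by
  refine h.mono (by fun_prop) (Filter.Eventually.of_forall (fun x => ?_))
  rw [Real.norm_of_nonneg (Real.exp_pos _).le, Real.norm_of_nonneg (Real.exp_pos _).le]
  exact Real.exp_le_exp.mpr (mul_le_mul_of_nonneg_right hs (abs_nonneg _))

lemma poly_le_exp (P : ℝ[X]) {s : ℝ} (hs : 0 < s) : ∃ C : ℝ, ∀ t : ℝ, |P.eval t| ≤ C * Real.exp (s * |t|) := by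
  refine ⟨∑ i ∈ Finset.range (P.natDegree + 1), |P.coeff i| * (i.factorial / s ^ i), fun t => ?_⟩
  rw [eval_eq_sum_range, Finset.sum_mul]
  refine (Finset.abs_sum_le_sum_abs _ _).trans (Finset.sum_le_sum (fun i _ => ?_))
  rw [abs_mul, mul_assoc]
  exact mul_le_mul_of_nonneg_left (abs_pow_le_exp hs i t) (abs_nonneg _)

/-- `η` is concentrated where `A ≥ 0`; hence so is `φ`. -/
lemma Sol.neg_null (S : Sol φ A b a₂ a₁) : φ {x | A.eval x < 0} = 0 := by
  obtain ⟨t, ht, he⟩ := S.exp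
  obtain ⟨η, hm, h1, hη⟩ := S.eta
  -- Pearson relation for η
  have hF : ∀ g : ℝ[X], ∫ x, (A * derivative g + (derivative A + b) * g).eval x ∂η = 0 := by
    intro g
    rw [hη]
    have := S.F1 (A * g)
    rw [← this]
    congr 1
    funext x
    rw [derivative_mul]
    simp only [eval_mul, eval_add]
    ring
  obtain ⟨t', ht', he'⟩ := exp_moment hm (growth hm A _ S.A0 h1 hF)
  set s := min t t' / 2 with hs
  have hspos : 0 < s := by positivity
  have hst : s < t := by
    have : min t t' ≤ t := min_le_left _ _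
    have h3 : 0 < min t t' := by positivity
    linarith
  have hst' : s ≤ t' := by
    have : min t t' ≤ t' := min_le_right _ _
    have h3 : 0 < min t t' := by positivity
    linarith
  have fin : IsFiniteMeasure η := by
    have h := hm 0
    simp only [pow_zero] at h
    have := (integrable_const_iff (μ := η) (c := (1 : ℝ))).mp h
    rcases this with h | h
    · exact absurd h one_ne_zero
    · exact h
  have hT : MeasurableSet {x : ℝ | A.eval x < 0} :=
    measurableSet_lt (meas_eval A) measurable_const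
  set T := {x : ℝ | A.eval x < 0} with hTdef
  have i2 : Integrable (fun x => A.eval x * T.indicator (fun _ => (1 : ℝ)) x) φ := by
    have : (fun x => A.eval x * T.indicator (fun _ => (1 : ℝ)) x)
        = T.indicator (fun x => A.eval x) := by
      funext x
      by_cases hx : x ∈ T
      · rw [Set.indicator_of_mem hx, Set.indicator_of_mem hx, mul_one]
      · rw [Set.indicator_of_notMem hx, Set.indicator_of_notMem hx, mul_zero]
    rw [this]
    exact (integrable_poly S.mom A).indicator hT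
  have key := signed_unique (φ₁ := η) (φ₂ := φ) (h₁ := fun _ => 1) (h₂ := fun x => A.eval x)
    measurable_const (meas_eval A) hspos
    (by simpa only [one_mul] using exp_le_of_le hst' he')
    (poly_exp_integrable hst he A)
    (fun n => by
      have := hη (X ^ n)
      simp only [eval_mul, eval_pow, eval_X] at this
      simpa only [one_mul] using this)
    (T.indicator (fun _ => (1 : ℝ)))
    (by
      simp only [one_mul]
      exact (integrable_const 1).indicator hT)
    i2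
  have hpos : 0 ≤ ∫ x, A.eval x * T.indicator (fun _ => (1 : ℝ)) x ∂φ := by
    rw [← key]
    refine integral_nonneg (fun x => ?_)
    simp only [one_mul]
    exact Set.indicator_nonneg (fun _ _ => zero_le_one) x
  have hnonpos : ∀ x, A.eval x * T.indicator (fun _ => (1 : ℝ)) x ≤ 0 := by
    intro x
    by_cases hx : x ∈ T
    · rw [Set.indicator_of_mem hx, mul_one]; exact le_of_lt hx
    · rw [Set.indicator_of_notMem hx, mul_zero]
  have hzero : ∫ x, - (A.eval x * T.indicator (fun _ => (1 : ℝ)) x) ∂φ = 0 := by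
    rw [integral_neg]
    have h5 : ∫ x, A.eval x * T.indicator (fun _ => (1 : ℝ)) x ∂φ ≤ 0 :=
      integral_nonpos (fun x => hnonpos x)
    linarith
  rw [integral_eq_zero_iff_of_nonneg (fun x => neg_nonneg.mpr (hnonpos x)) i2.neg] at hzero
  have : ∀ᵐ x ∂φ, x ∉ T := by
    filter_upwards [hzero] with x hx hxT
    simp only [Pi.zero_apply, neg_eq_zero] at hx
    rw [Set.indicator_of_mem hxT, mul_one] at hx
    exact absurd hx (ne_of_lt hxT)
  rw [ae_iff] at this
  simpa using this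

lemma Sol.bint (S : Sol φ A b a₂ a₁) : ∫ y, b.eval y ∂φ = 0 := by
  have := S.F1 1
  simpa using this

lemma Sol.a₁int (S : Sol φ A b a₂ a₁) : ∫ y, a₁.eval y ∂φ = 0 := by
  have := S.F3 1
  simpa using this

lemma Sol.a₂int (S : Sol φ A b a₂ a₁) : ∫ y, (a₂ + X * a₁).eval y ∂φ = 0 := by
  have := S.F3 X
  rw [← this]
  congr 1
  funext x
  simp
  ring

lemma Sol.hb1 (_S : Sol φ A b a₂ a₁) : ∫ y, (0 : ℝ[X]).eval y ∂φ = 0 := by simp

lemma Sol.hb0 (S : Sol φ A b a₂ a₁) : ∫ y, (b + X * (0 : ℝ[X])).eval y ∂φ = 0 := by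
  simpa using S.bint

/-- `A φ = N dx`. -/
lemma Sol.M1 (S : Sol φ A b a₂ a₁) (f : ℝ → ℝ) (hf1 : Integrable (fun x => A.eval x * f x) φ)
    (hf2 : Integrable (fun x => WW φ b 0 x * f x) volume) :
    ∫ x, A.eval x * f x ∂φ = ∫ x, WW φ b 0 x * f x := by
  obtain ⟨t, ht, he⟩ := S.exp
  have := S.finite
  have hs : t / 2 < t := by linarith
  have hs0 : 0 < t / 2 := by linarith
  refine signed_unique (meas_eval A) (WW_meas S.mom b 0 S.hb1 S.hb0) hs0
    (poly_exp_integrable hs he A)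
    (WW_integrable hs0.le hs S.mom he b 0 S.hb1 S.hb0 (by fun_prop) (C := 1) (fun x => by
      rw [one_mul, abs_of_pos (Real.exp_pos _)])) (fun n => ?_) f hf1 hf2
  rw [WW_moment ht S.mom he b 0 S.hb1 S.hb0 n]
  have h := S.F1 (X ^ (n + 1))
  have e : ∀ x : ℝ, (A * derivative (X ^ (n + 1) : ℝ[X]) + b * X ^ (n + 1)).eval x
      = ((n : ℝ) + 1) * ((A * X ^ n).eval x + (C (1 / ((n : ℝ) + 1)) * (b * X ^ (n + 1))).eval x) := by
    intro x
    rw [derivative_X_pow]
    simp only [Nat.cast_add, Nat.cast_one, Nat.add_sub_cancel, eval_mul, eval_add, eval_pow, eval_X,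
      eval_C, map_add, map_one, eval_one, map_natCast, eval_natCast]
    have : (n : ℝ) + 1 ≠ 0 := by positivity
    field_simp
  simp_rw [e] at h
  rw [integral_const_mul, integral_add (integrable_poly S.mom _) (integrable_poly S.mom _)] at h
  have h2 : (n : ℝ) + 1 ≠ 0 := by positivity
  have h3 := (mul_eq_zero.mp h).resolve_left h2
  have e1 : ∫ x, (A * X ^ n).eval x ∂φ = ∫ x, A.eval x * x ^ n ∂φ := by
    congr 1; funext x; simp
  have e2 : ∫ x, (C (1 / ((n : ℝ) + 1)) * (b * X ^ (n + 1))).eval x ∂φ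
      = ∫ y, b.eval y * (y ^ (n + 1) / (n + 1))
          + (0 : ℝ[X]).eval y * (y ^ (n + 2) / ((n + 1) * (n + 2))) ∂φ := by
    congr 1; funext x; simp; ring
  rw [e1, e2] at h3
  linarith

/-- `b φ = K dx`. -/
lemma Sol.M3 (S : Sol φ A b a₂ a₁) (f : ℝ → ℝ) (hf1 : Integrable (fun x => b.eval x * f x) φ)
    (hf2 : Integrable (fun x => WW φ a₂ a₁ x * f x) volume) :
    ∫ x, b.eval x * f x ∂φ = ∫ x, WW φ a₂ a₁ x * f x := by
  obtain ⟨t, ht, he⟩ := S.exp
  have := S.finite
  have hs : t / 2 < t := by linarith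
  have hs0 : 0 < t / 2 := by linarith
  refine signed_unique (meas_eval b) (WW_meas S.mom a₂ a₁ S.a₁int S.a₂int) hs0
    (poly_exp_integrable hs he b)
    (WW_integrable hs0.le hs S.mom he a₂ a₁ S.a₁int S.a₂int (by fun_prop) (C := 1) (fun x => by
      rw [one_mul, abs_of_pos (Real.exp_pos _)])) (fun n => ?_) f hf1 hf2
  rw [WW_moment ht S.mom he a₂ a₁ S.a₁int S.a₂int n]
  have h := S.F3 (X ^ (n + 2))
  have e : ∀ x : ℝ, (b * derivative (derivative (X ^ (n + 2) : ℝ[X])) + a₂ * derivative (X ^ (n + 2) : ℝ[X])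
      + a₁ * X ^ (n + 2)).eval x
      = (((n : ℝ) + 1) * ((n : ℝ) + 2)) * ((b * X ^ n).eval x + (C (1 / ((n : ℝ) + 1)) * (a₂ * X ^ (n + 1))
        + C (1 / (((n : ℝ) + 1) * (n + 2))) * (a₁ * X ^ (n + 2))).eval x) := by
    intro x
    have e3 : derivative (X ^ (n + 2) : ℝ[X]) = C ((n : ℝ) + 2) * X ^ (n + 1) := by
      rw [derivative_X_pow]
      simp
    have e4 : derivative (derivative (X ^ (n + 2) : ℝ[X])) = C (((n : ℝ) + 2) * (n + 1)) * X ^ n := by
      rw [e3, derivative_C_mul, derivative_X_pow, C_mul]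
      simp [mul_assoc]
    rw [e4, e3]
    simp only [eval_mul, eval_add, eval_pow, eval_X, eval_C]
    have h1 : (n : ℝ) + 1 ≠ 0 := by positivity
    have h2 : (n : ℝ) + 2 ≠ 0 := by positivity
    field_simp
    ring
  simp_rw [e] at h
  rw [integral_const_mul, integral_add (integrable_poly S.mom _) (integrable_poly S.mom _)] at h
  have h2 : ((n : ℝ) + 1) * (n + 2) ≠ 0 := by positivity
  have h3 := (mul_eq_zero.mp h).resolve_left h2
  have e1 : ∫ x, (b * X ^ n).eval x ∂φ = ∫ x, b.eval x * x ^ n ∂φ := by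
    congr 1; funext x; simp
  have e2 : ∫ x, (C (1 / ((n : ℝ) + 1)) * (a₂ * X ^ (n + 1))
        + C (1 / (((n : ℝ) + 1) * (n + 2))) * (a₁ * X ^ (n + 2))).eval x ∂φ
      = ∫ y, a₂.eval y * (y ^ (n + 1) / (n + 1))
          + a₁.eval y * (y ^ (n + 2) / ((n + 1) * (n + 2))) ∂φ := by
    congr 1; funext x
    simp only [eval_mul, eval_add, eval_pow, eval_X, eval_C]
    ring
  rw [e1, e2] at h3
  linarith

end Pool.Agent.R263.Sob
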