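import Pool.Agent.R263.SobE

set_option autoImplicit false
open Polynomial MeasureTheory

namespace Pool.Agent.R263.Sob

variable {φ : Measure ℝ} {A b a₂ a₁ : ℝ[X]}

/-- the density of `η` -/
noncomputable def NN (φ : Measure ℝ) (b : ℝ[X]) : ℝ → ℝ := WW φ b 0

/-- the density of `b φ` -/
noncomputable def KK (φ : Measure ℝ) (a₂ a₁ : ℝ[X]) : ℝ → ℝ := WW φ a₂ a₁

lemma Sol.N_int_poly (S : Sol φ A b a₂ a₁) (P : ℝ[X]) :
    Integrable (fun x => NN φ b x * P.eval x) volume := by
  obtain ⟨t, ht, he⟩ := S.exp
  have := S.finite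
  obtain ⟨C, hC⟩ := poly_le_exp P (half_pos ht)
  exact WW_integrable (half_pos ht).le (half_lt_self ht) S.mom he b 0 S.hb1 S.hb0 (meas_eval P) hC

lemma Sol.K_int_poly (S : Sol φ A b a₂ a₁) (P : ℝ[X]) :
    Integrable (fun x => KK φ a₂ a₁ x * P.eval x) volume := by
  obtain ⟨t, ht, he⟩ := S.exp
  have := S.finite
  obtain ⟨C, hC⟩ := poly_le_exp P (half_pos ht)
  exact WW_integrable (half_pos ht).le (half_lt_self ht) S.mom he a₂ a₁ S.a₁int S.a₂int
    (meas_eval P) hC

lemma Sol.N_int (S : Sol φ A b a₂ a₁) : Integrable (NN φ b) volume := by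
  have := S.N_int_poly 1
  simpa using this

lemma Sol.K_int (S : Sol φ A b a₂ a₁) : Integrable (KK φ a₂ a₁) volume := by
  have := S.K_int_poly 1
  simpa using this

lemma N_eq_b (x : ℝ) : NN φ b x = ∫ y in Set.Iic x, b.eval y ∂φ := by
  simp [NN, WW, uu]

lemma Sol.N_prim (S : Sol φ A b a₂ a₁) (x : ℝ) : NN φ b x = ∫ t in Set.Iic x, KK φ a₂ a₁ t := by
  rw [N_eq_b]
  have e1 : (fun y => b.eval y * (Set.Iic x).indicator (fun _ => (1 : ℝ)) y)
      = (Set.Iic x).indicator (fun y => b.eval y) := by
    funext y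
    by_cases hy : y ∈ Set.Iic x
    · rw [Set.indicator_of_mem hy, Set.indicator_of_mem hy, mul_one]
    · rw [Set.indicator_of_notMem hy, Set.indicator_of_notMem hy, mul_zero]
  have e2 : (fun y => WW φ a₂ a₁ y * (Set.Iic x).indicator (fun _ => (1 : ℝ)) y)
      = (Set.Iic x).indicator (fun y => KK φ a₂ a₁ y) := by
    funext y
    by_cases hy : y ∈ Set.Iic x
    · rw [Set.indicator_of_mem hy, Set.indicator_of_mem hy, mul_one]; rfl
    · rw [Set.indicator_of_notMem hy, Set.indicator_of_notMem hy, mul_zero]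
  have h := S.M3 ((Set.Iic x).indicator (fun _ => (1 : ℝ)))
    (by rw [e1]; exact (integrable_poly S.mom b).indicator measurableSet_Iic)
    (by rw [e2]; exact S.K_int.indicator measurableSet_Iic)
  rw [e1, e2, integral_indicator measurableSet_Iic, integral_indicator measurableSet_Iic] at h
  exact h

lemma Sol.N_sub (S : Sol φ A b a₂ a₁) (x y : ℝ) :
    NN φ b y - NN φ b x = ∫ t in x..y, KK φ a₂ a₁ t := by
  rw [S.N_prim, S.N_prim]
  exact intervalIntegral.integral_Iic_sub_Iic S.K_int.integrableOn S.K_int.integrableOn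

lemma Sol.N_cont (S : Sol φ A b a₂ a₁) : Continuous (NN φ b) := by
  have : NN φ b = fun x => NN φ b 0 + ∫ t in (0 : ℝ)..x, KK φ a₂ a₁ t := by
    funext x
    rw [← S.N_sub 0 x]; ring
  rw [this]
  exact continuous_const.add (intervalIntegral.continuous_primitive
    (fun a b => S.K_int.intervalIntegrable) 0)

lemma Sol.M1_set (S : Sol φ A b a₂ a₁) {T : Set ℝ} (hT : MeasurableSet T) :
    ∫ x in T, A.eval x ∂φ = ∫ x in T, NN φ b x := by
  have e1 : (fun y => A.eval y * T.indicator (fun _ => (1 : ℝ)) y)
      = T.indicator (fun y => A.eval y) := by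
    funext y
    by_cases hy : y ∈ T
    · rw [Set.indicator_of_mem hy, Set.indicator_of_mem hy, mul_one]
    · rw [Set.indicator_of_notMem hy, Set.indicator_of_notMem hy, mul_zero]
  have e2 : (fun y => WW φ b 0 y * T.indicator (fun _ => (1 : ℝ)) y)
      = T.indicator (fun y => NN φ b y) := by
    funext y
    by_cases hy : y ∈ T
    · rw [Set.indicator_of_mem hy, Set.indicator_of_mem hy, mul_one]; rfl
    · rw [Set.indicator_of_notMem hy, Set.indicator_of_notMem hy, mul_zero]
  have h := S.M1 (T.indicator (fun _ => (1 : ℝ)))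
    (by rw [e1]; exact (integrable_poly S.mom A).indicator hT)
    (by rw [e2]; exact S.N_int.indicator hT)
  rw [e1, e2, integral_indicator hT, integral_indicator hT] at h
  exact h

lemma Sol.A_nonneg_ae (S : Sol φ A b a₂ a₁) : ∀ᵐ x ∂φ, 0 ≤ A.eval x := by
  rw [ae_iff]
  simpa using S.neg_null

lemma Sol.N_nonneg (S : Sol φ A b a₂ a₁) (x : ℝ) : 0 ≤ NN φ b x := by
  have h1 : 0 ≤ᵐ[volume] NN φ b := by
    refine ae_nonneg_of_forall_setIntegral_nonneg S.N_int (fun T hT _ => ?_)
    rw [← S.M1_set hT]
    exact setIntegral_nonneg_of_ae S.A_nonneg_ae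
  have h2 : NN φ b =ᵐ[volume] fun x => max (NN φ b x) 0 := by
    filter_upwards [h1] with x hx
    exact (max_eq_left hx).symm
  have h3 := (Continuous.ae_eq_iff_eq volume S.N_cont (S.N_cont.max continuous_const)).mp h2
  rw [h3]
  exact le_max_right _ _

lemma Sol.N_zero_of_neg (S : Sol φ A b a₂ a₁) {x : ℝ} (hx : A.eval x < 0) : NN φ b x = 0 := by
  set U : Set ℝ := {x | A.eval x < 0} with hU
  have hUo : IsOpen U := isOpen_lt A.continuous continuous_const
  have h1 : ∫ x in U, NN φ b x = 0 := by
    rw [← S.M1_set hUo.measurableSet, Measure.restrict_eq_zero.mpr S.neg_null]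
    simp
  rw [setIntegral_eq_zero_iff_of_nonneg_ae (Filter.Eventually.of_forall (fun x => S.N_nonneg x))
    S.N_int.integrableOn] at h1
  have h2 := Measure.eqOn_open_of_ae_eq (μ := volume) h1 hUo S.N_cont.continuousOn
    continuousOn_const
  exact h2 hx

lemma Sol.AK (S : Sol φ A b a₂ a₁) :
    ∀ᵐ x, A.eval x * KK φ a₂ a₁ x = b.eval x * NN φ b x := by
  have hi : Integrable (fun x => A.eval x * KK φ a₂ a₁ x - b.eval x * NN φ b x) volume := by
    have h1 := S.K_int_poly A
    have h2 := S.N_int_poly b
    refine (h1.sub h2).congr (Filter.Eventually.of_forall (fun x => ?_))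
    show KK φ a₂ a₁ x * A.eval x - NN φ b x * b.eval x = _
    ring
  have hz := hi.ae_eq_zero_of_forall_setIntegral_eq_zero (fun T hT _ => by
    have e1 : (fun y => A.eval y * T.indicator (fun y => b.eval y) y)
        = T.indicator (fun y => (A * b).eval y) := by
      funext y
      by_cases hy : y ∈ T
      · rw [Set.indicator_of_mem hy, Set.indicator_of_mem hy, eval_mul]
      · rw [Set.indicator_of_notMem hy, Set.indicator_of_notMem hy, mul_zero]
    have e1' : (fun y => b.eval y * T.indicator (fun y => A.eval y) y)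
        = T.indicator (fun y => (A * b).eval y) := by
      funext y
      by_cases hy : y ∈ T
      · rw [Set.indicator_of_mem hy, Set.indicator_of_mem hy, eval_mul]; ring
      · rw [Set.indicator_of_notMem hy, Set.indicator_of_notMem hy, mul_zero]
    have e2 : (fun y => WW φ b 0 y * T.indicator (fun y => b.eval y) y)
        = T.indicator (fun y => b.eval y * NN φ b y) := by
      funext y
      by_cases hy : y ∈ T
      · rw [Set.indicator_of_mem hy, Set.indicator_of_mem hy]; exact mul_comm _ _
      · rw [Set.indicator_of_notMem hy, Set.indicator_of_notMem hy, mul_zero]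
    have e3 : (fun y => WW φ a₂ a₁ y * T.indicator (fun y => A.eval y) y)
        = T.indicator (fun y => A.eval y * KK φ a₂ a₁ y) := by
      funext y
      by_cases hy : y ∈ T
      · rw [Set.indicator_of_mem hy, Set.indicator_of_mem hy]; exact mul_comm _ _
      · rw [Set.indicator_of_notMem hy, Set.indicator_of_notMem hy, mul_zero]
    have iN : Integrable (fun y => b.eval y * NN φ b y) volume :=
      (S.N_int_poly b).congr (Filter.Eventually.of_forall (fun x => mul_comm _ _))
    have iK : Integrable (fun y => A.eval y * KK φ a₂ a₁ y) volume :=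
      (S.K_int_poly A).congr (Filter.Eventually.of_forall (fun x => mul_comm _ _))
    have h1 := S.M1 (T.indicator (fun y => b.eval y))
      (by rw [e1]; exact (integrable_poly S.mom _).indicator hT)
      (by rw [e2]; exact iN.indicator hT)
    have h3 := S.M3 (T.indicator (fun y => A.eval y))
      (by rw [e1']; exact (integrable_poly S.mom _).indicator hT)
      (by rw [e3]; exact iK.indicator hT)
    rw [e1, e2] at h1
    rw [e1', e3] at h3
    rw [h1] at h3
    rw [integral_sub iK.integrableOn iN.integrableOn]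
    rw [integral_indicator hT, integral_indicator hT] at h3
    linarith)
  filter_upwards [hz] with x hx
  simp only [Pi.zero_apply] at hx
  linarith

lemma Sol.N_deriv (S : Sol φ A b a₂ a₁) {x : ℝ} (hx : A.eval x ≠ 0) :
    HasDerivAt (NN φ b) (b.eval x / A.eval x * NN φ b x) x := by
  -- neighborhood where `A ≠ 0`
  have hev : ∀ᶠ y in nhds x, A.eval y ≠ 0 := A.continuous.continuousAt.eventually_ne hx
  obtain ⟨ε, hε, hball⟩ := Metric.eventually_nhds_iff_ball.mp hev
  set F : ℝ → ℝ := fun y => b.eval y / A.eval y * NN φ b y with hF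
  have hFc : ContinuousOn F (Metric.ball x ε) :=
    (b.continuous.continuousOn.div A.continuous.continuousOn hball).mul S.N_cont.continuousOn
  have hFx : ContinuousAt F x := hFc.continuousAt (Metric.ball_mem_nhds x hε)
  have hsub : ∀ y ∈ Metric.ball x ε, Set.uIcc x y ⊆ Metric.ball x ε := fun y hy =>
    (convex_ball x ε).ordConnected.uIcc_subset (Metric.mem_ball_self hε) hy
  have hNF : ∀ y ∈ Metric.ball x ε, NN φ b y = NN φ b x + ∫ t in x..y, F t := by
    intro y hy
    have h1 : ∫ t in x..y, KK φ a₂ a₁ t = ∫ t in x..y, F t := by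
      refine intervalIntegral.integral_congr_ae ?_
      filter_upwards [S.AK] with t ht htm
      have htb : t ∈ Metric.ball x ε := hsub y hy (Set.uIoc_subset_uIcc htm)
      have hAt := hball t htb
      rw [hF]
      simp only
      rw [div_mul_eq_mul_div, eq_div_iff hAt, ← ht]; ring
    rw [← h1, ← S.N_sub x y]; ring
  have hG : HasDerivAt (fun y => NN φ b x + ∫ t in x..y, F t) (F x) x := by
    refine HasDerivAt.const_add _ ?_
    refine intervalIntegral.integral_hasDerivAt_right (by simp) ?_ hFx
    exact hFc.stronglyMeasurableAtFilter Metric.isOpen_ball x (Metric.mem_ball_self hε)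
  refine hG.congr_of_eventuallyEq ?_
  filter_upwards [Metric.ball_mem_nhds x hε] with y hy using hNF y hy

lemma Sol.dens (S : Sol φ A b a₂ a₁) {T : Set ℝ} (hT : MeasurableSet T)
    (hpos : ∀ x ∈ T, 0 < A.eval x) :
    φ.restrict T = (volume.restrict T).withDensity (fun x => ENNReal.ofReal (NN φ b x / A.eval x)) := by
  have mA : Measurable (fun x => ENNReal.ofReal (A.eval x)) := (meas_eval A).ennreal_ofReal
  have mN : Measurable (fun x => ENNReal.ofReal (NN φ b x)) :=
    S.N_cont.measurable.ennreal_ofReal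
  have hEq : φ.withDensity (fun x => ENNReal.ofReal (A.eval x))
      = volume.withDensity (fun x => ENNReal.ofReal (NN φ b x)) := by
    ext U hU
    rw [withDensity_apply _ hU, withDensity_apply _ hU,
      ← ofReal_integral_eq_lintegral_ofReal (integrable_poly S.mom A).integrableOn
        (ae_restrict_of_ae S.A_nonneg_ae),
      ← ofReal_integral_eq_lintegral_ofReal S.N_int.integrableOn
        (Filter.Eventually.of_forall (fun x => S.N_nonneg x)), S.M1_set hU]
  ext U hU
  rw [Measure.restrict_apply hU, withDensity_apply _ hU, Measure.restrict_restrict hU]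
  have hUT : MeasurableSet (U ∩ T) := hU.inter hT
  have mAi : Measurable (fun x => (ENNReal.ofReal (A.eval x))⁻¹) := mA.inv
  have h1 : φ (U ∩ T) = ∫⁻ x in U ∩ T, (ENNReal.ofReal (A.eval x))⁻¹
      ∂(φ.withDensity (fun x => ENNReal.ofReal (A.eval x))) := by
    rw [setLIntegral_withDensity_eq_setLIntegral_mul _ mA mAi hUT]
    have : ∀ x ∈ U ∩ T, ((fun x => ENNReal.ofReal (A.eval x)) * fun x => (ENNReal.ofReal (A.eval x))⁻¹) x
        = 1 := by
      intro x hx
      simp only [Pi.mul_apply]
      refine ENNReal.mul_inv_cancel ?_ ENNReal.ofReal_ne_top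
      rw [Ne, ENNReal.ofReal_eq_zero, not_le]
      exact hpos x hx.2
    rw [setLIntegral_congr_fun hUT this]
    simp
  rw [h1, hEq, setLIntegral_withDensity_eq_setLIntegral_mul _ mN mAi hUT]
  refine setLIntegral_congr_fun hUT (fun x hx => ?_)
  simp only [Pi.mul_apply]
  rw [ENNReal.ofReal_div_of_pos (hpos x hx.2), div_eq_mul_inv]

end Pool.Agent.R263.Sob
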