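import Pool.Agent.R263.SobF

set_option autoImplicit false
open Polynomial MeasureTheory Set

namespace Pool.Agent.R263.Sob

variable {φ : Measure ℝ} {A b a₂ a₁ : ℝ[X]}

lemma volterra (f : ℝ → ℝ) (r ε C : ℝ) (hε : 0 < ε) (hC : 0 ≤ C)
    (hf : ContinuousOn f (Icc (r - ε) (r + ε)))
    (h : ∀ x ∈ Icc (r - ε) (r + ε), ∀ M : ℝ, (∀ t ∈ uIcc r x, |f t| ≤ M) → |f x| ≤ C * |x - r| * M) :
    ∃ δ > 0, δ ≤ ε ∧ ∀ x ∈ Icc (r - δ) (r + δ), f x = 0 := by
  set δ := min ε (1 / (2 * (C + 1))) with hδ
  have hδ0 : 0 < δ := lt_min hε (by positivity)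
  have hδε : δ ≤ ε := min_le_left _ _
  have hCδ : C * δ ≤ 1 / 2 := by
    have h1 : δ ≤ 1 / (2 * (C + 1)) := min_le_right _ _
    have h2 : C * δ ≤ (C + 1) * (1 / (2 * (C + 1))) := by
      apply mul_le_mul (by linarith) h1 hδ0.le (by linarith)
    have h3 : (C + 1) * (1 / (2 * (C + 1))) = 1 / 2 := by field_simp
    linarith
  refine ⟨δ, hδ0, hδε, ?_⟩
  have hsub : Icc (r - δ) (r + δ) ⊆ Icc (r - ε) (r + ε) :=
    Icc_subset_Icc (by linarith) (by linarith)
  have hcont : ContinuousOn (fun x => |f x|) (Icc (r - δ) (r + δ)) := (hf.mono hsub).abs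
  obtain ⟨x₀, hx₀, hmax⟩ := isCompact_Icc.exists_isMaxOn (⟨r, by constructor <;> linarith⟩) hcont
  have hrI : r ∈ Icc (r - δ) (r + δ) := ⟨by linarith, by linarith⟩
  have hb := h x₀ (hsub hx₀) |f x₀| (fun t ht => by
    have htI : t ∈ Icc (r - δ) (r + δ) := (ordConnected_Icc.uIcc_subset hrI hx₀) ht
    exact hmax htI)
  have hx₀r : |x₀ - r| ≤ δ := by
    rw [abs_le]; constructor <;> linarith [hx₀.1, hx₀.2]
  have h0 : |f x₀| ≤ 0 := by
    have h1 : C * |x₀ - r| * |f x₀| ≤ C * δ * |f x₀| := by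
      gcongr
    have h2 : C * δ * |f x₀| ≤ 1 / 2 * |f x₀| := by
      gcongr
    linarith
  intro x hx
  have h3 : |f x| ≤ |f x₀| := hmax hx
  exact abs_eq_zero.mp (le_antisymm (h3.trans h0) (abs_nonneg _))

lemma Sol.simple (S : Sol φ A b a₂ a₁) {r : ℝ} (hA : A.eval r = 0) (hb : b.eval r = 0)
    (hA' : (derivative A).eval r ≠ 0) : ∃ δ > 0, ∀ x ∈ Icc (r - δ) (r + δ), NN φ b x = 0 := by
  obtain ⟨At, hAt⟩ := dvd_iff_isRoot.mpr (show IsRoot A r from hA)
  obtain ⟨bt, hbt⟩ := dvd_iff_isRoot.mpr (show IsRoot b r from hb)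
  have hc : At.eval r ≠ 0 := by
    intro h
    apply hA'
    rw [hAt, derivative_mul]
    simp [h]
  have hAx : ∀ x, A.eval x = (x - r) * At.eval x := by intro x; rw [hAt]; simp
  have hbx : ∀ x, b.eval x = (x - r) * bt.eval x := by intro x; rw [hbt]; simp
  -- N r = 0
  have hN0 : NN φ b r = 0 := by
    set c := At.eval r with hcdef
    have hseq : Filter.Tendsto (fun n : ℕ => r - c * (1 / ((n : ℝ) + 1))) Filter.atTop (nhds r) := by
      have h1 : Filter.Tendsto (fun n : ℕ => r - c * (1 / ((n : ℝ) + 1))) Filter.atTop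
          (nhds (r - c * 0)) :=
        tendsto_const_nhds.sub (tendsto_const_nhds.mul tendsto_one_div_add_atTop_nhds_zero_nat)
      simpa using h1
    have hlim : Filter.Tendsto (fun n : ℕ => NN φ b (r - c * (1 / ((n : ℝ) + 1)))) Filter.atTop
        (nhds (NN φ b r)) := (S.N_cont.tendsto r).comp hseq
    have hlimA : Filter.Tendsto (fun n : ℕ => c * At.eval (r - c * (1 / ((n : ℝ) + 1))))
        Filter.atTop (nhds (c * c)) :=
      tendsto_const_nhds.mul ((At.continuous.tendsto r).comp hseq)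
    have hcc : 0 < c * c := mul_self_pos.mpr hc
    have hev : ∀ᶠ n : ℕ in Filter.atTop, NN φ b (r - c * (1 / ((n : ℝ) + 1))) = 0 := by
      filter_upwards [hlimA.eventually (lt_mem_nhds hcc)] with n hn
      apply S.N_zero_of_neg
      rw [hAx]
      have h5 : r - c * (1 / ((n : ℝ) + 1)) - r = - (c * (1 / ((n : ℝ) + 1))) := by ring
      rw [h5]
      have h6 : (0 : ℝ) < 1 / ((n : ℝ) + 1) := by positivity
      nlinarith
    exact tendsto_nhds_unique hlim (tendsto_const_nhds.congr' (by
      filter_upwards [hev] with n hn using hn.symm))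
  -- neighborhood
  have hev : ∀ᶠ y in nhds r, At.eval y ≠ 0 := At.continuous.continuousAt.eventually_ne hc
  obtain ⟨ε, hε, hball⟩ := Metric.eventually_nhds_iff_ball.mp hev
  have hI : ∀ y ∈ Icc (r - ε / 2) (r + ε / 2), At.eval y ≠ 0 := by
    intro y hy
    apply hball
    rw [Metric.mem_ball, Real.dist_eq, abs_lt]
    constructor <;> linarith [hy.1, hy.2]
  have hcont : ContinuousOn (fun y => bt.eval y / At.eval y) (Icc (r - ε / 2) (r + ε / 2)) :=
    bt.continuous.continuousOn.div At.continuous.continuousOn hI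
  obtain ⟨C, hC⟩ := isCompact_Icc.exists_bound_of_continuousOn hcont
  have hC0 : 0 ≤ C := (norm_nonneg _).trans (hC r ⟨by linarith, by linarith⟩)
  obtain ⟨δ, hδ, -, hz⟩ := volterra (NN φ b) r (ε / 2) C (half_pos hε) hC0 S.N_cont.continuousOn
    (fun x hx M hM => by
      have h1 : NN φ b x = ∫ t in r..x, KK φ a₂ a₁ t := by
        rw [← S.N_sub r x, hN0]; ring
      have h2 : ∫ t in r..x, KK φ a₂ a₁ t = ∫ t in r..x, bt.eval t / At.eval t * NN φ b t := by
        refine intervalIntegral.integral_congr_ae ?_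
        have hne : ∀ᵐ t : ℝ, t ≠ r := by
          rw [ae_iff]; simp
        filter_upwards [S.AK, hne] with t ht htr htm
        have htI : t ∈ Icc (r - ε / 2) (r + ε / 2) :=
          (ordConnected_Icc.uIcc_subset ⟨by linarith, by linarith⟩ hx) (uIoc_subset_uIcc htm)
        have hAt0 := hI t htI
        rw [hAx, hbx] at ht
        have htr' : t - r ≠ 0 := sub_ne_zero.mpr htr
        rw [div_mul_eq_mul_div, eq_div_iff hAt0]
        apply mul_left_cancel₀ htr'
        linarith
      rw [h1, h2]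
      have h3 := intervalIntegral.norm_integral_le_of_norm_le_const (a := r) (b := x)
        (f := fun t => bt.eval t / At.eval t * NN φ b t) (C := C * M) (fun t ht => by
          have htI : t ∈ Icc (r - ε / 2) (r + ε / 2) :=
            (ordConnected_Icc.uIcc_subset ⟨by linarith, by linarith⟩ hx) (uIoc_subset_uIcc ht)
          rw [norm_mul]
          exact mul_le_mul (hC t htI) (hM t (uIoc_subset_uIcc ht)) (norm_nonneg _) hC0)
      rw [Real.norm_eq_abs] at h3
      linarith)
  exact ⟨δ, hδ, hz⟩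

/-- on an interval where `b ≠ 0`, `φ = (K/b) dx`. -/
lemma Sol.b_density (S : Sol φ A b a₂ a₁) {l u : ℝ} (hI : ∀ y ∈ Icc l u, b.eval y ≠ 0)
    (P : ℝ[X]) : ∫ y in Ioc l u, P.eval y ∂φ = ∫ y in Ioc l u, P.eval y * (KK φ a₂ a₁ y / b.eval y) := by
  have hsub : Ioc l u ⊆ Icc l u := Ioc_subset_Icc_self
  have e1 : (fun y => b.eval y * (Ioc l u).indicator (fun y => P.eval y / b.eval y) y)
      = (Ioc l u).indicator (fun y => P.eval y) := by
    funext y
    by_cases hy : y ∈ Ioc l u
    · rw [indicator_of_mem hy, indicator_of_mem hy, mul_div_cancel₀ _ (hI y (hsub hy))]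
    · rw [indicator_of_notMem hy, indicator_of_notMem hy, mul_zero]
  have e2 : (fun y => WW φ a₂ a₁ y * (Ioc l u).indicator (fun y => P.eval y / b.eval y) y)
      = (Ioc l u).indicator (fun y => P.eval y * (KK φ a₂ a₁ y / b.eval y)) := by
    funext y
    by_cases hy : y ∈ Ioc l u
    · rw [indicator_of_mem hy, indicator_of_mem hy]
      show KK φ a₂ a₁ y * _ = _
      ring
    · rw [indicator_of_notMem hy, indicator_of_notMem hy, mul_zero]
  have hi : IntegrableOn (fun y => P.eval y * (KK φ a₂ a₁ y / b.eval y)) (Icc l u) volume := by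
    have h1 : ContinuousOn (fun y => P.eval y / b.eval y) (Icc l u) :=
      P.continuous.continuousOn.div b.continuous.continuousOn hI
    have h2 := (S.K_int.integrableOn (s := Icc l u)).mul_continuousOn h1 isCompact_Icc
    refine h2.congr (Filter.Eventually.of_forall (fun y => ?_))
    show KK φ a₂ a₁ y * (P.eval y / b.eval y) = P.eval y * (KK φ a₂ a₁ y / b.eval y)
    ring
  have h := S.M3 ((Ioc l u).indicator (fun y => P.eval y / b.eval y))
    (by rw [e1]; exact (integrable_poly S.mom P).indicator measurableSet_Ioc)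
    (by rw [e2, integrable_indicator_iff measurableSet_Ioc]; exact hi.mono_set hsub)
  rw [e1, e2, integral_indicator measurableSet_Ioc, integral_indicator measurableSet_Ioc] at h
  exact h

lemma Sol.b_density_int (S : Sol φ A b a₂ a₁) {l u : ℝ} (hI : ∀ y ∈ Icc l u, b.eval y ≠ 0)
    (P : ℝ[X]) {x y : ℝ} (hx : x ∈ Icc l u) (hy : y ∈ Icc l u) :
    ∫ t in x..y, P.eval t ∂φ = ∫ t in x..y, P.eval t * (KK φ a₂ a₁ t / b.eval t) := by
  rcases le_total x y with h | h
  · rw [intervalIntegral.integral_of_le h, intervalIntegral.integral_of_le h]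
    exact S.b_density (fun t ht => hI t ⟨hx.1.trans ht.1, ht.2.trans hy.2⟩) P
  · rw [intervalIntegral.integral_of_ge h, intervalIntegral.integral_of_ge h]
    rw [S.b_density (fun t ht => hI t ⟨hy.1.trans ht.1, ht.2.trans hx.2⟩) P]

/-- Taylor-type formula for `K`. -/
lemma Sol.K_formula (S : Sol φ A b a₂ a₁) {l u : ℝ} (hI : ∀ y ∈ Icc l u, b.eval y ≠ 0)
    {r x : ℝ} (hr : r ∈ Icc l u) (hx : x ∈ Icc l u) :
    KK φ a₂ a₁ x = KK φ a₂ a₁ r - (x - r) * (∫ y in Iic r, a₁.eval y ∂φ)
      + ∫ y in r..x, uu a₂ a₁ y x * (KK φ a₂ a₁ y / b.eval y) := by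
  have hpoly : ∀ t y : ℝ, uu a₂ a₁ y t = (a₂ + a₁ * (X - C t)).eval y := by
    intro t y; simp [uu]
  have hint : ∀ t : ℝ, Integrable (fun y => uu a₂ a₁ y t) φ := by
    intro t
    simp_rw [hpoly t]
    exact integrable_poly S.mom _
  have h1 : KK φ a₂ a₁ x = (∫ y in Iic r, uu a₂ a₁ y x ∂φ) + ∫ y in r..x, uu a₂ a₁ y x ∂φ := by
    have := intervalIntegral.integral_Iic_sub_Iic (μ := φ) (a := r) (b := x)
      (f := fun y => uu a₂ a₁ y x) (hint x).integrableOn (hint x).integrableOn
    rw [← this]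
    show ∫ y in Iic x, uu a₂ a₁ y x ∂φ = _
    ring
  have h2 : ∫ y in Iic r, uu a₂ a₁ y x ∂φ
      = KK φ a₂ a₁ r - (x - r) * (∫ y in Iic r, a₁.eval y ∂φ) := by
    show _ = (∫ y in Iic r, uu a₂ a₁ y r ∂φ) - _
    rw [← integral_const_mul, ← integral_sub (hint r).integrableOn
      ((integrable_poly S.mom a₁).const_mul _).integrableOn]
    congr 1
    funext y
    unfold uu
    ring
  rw [h1, h2]
  congr 1
  simp_rw [hpoly x]
  exact S.b_density_int hI _ hr hx

lemma ae_A_ne (hA : A ≠ 0) : ∀ᵐ x : ℝ, A.eval x ≠ 0 := by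
  rw [ae_iff]
  have : {a : ℝ | ¬ A.eval a ≠ 0} ⊆ (A.roots.toFinset : Set ℝ) := by
    intro a ha
    simp only [ne_eq, not_not, mem_ofPred_eq] at ha
    simp only [Finset.mem_coe, Multiset.mem_toFinset, mem_roots hA, IsRoot.def]
    exact ha
  exact measure_mono_null this (Finset.measure_zero _ _)

lemma Sol.bne (S : Sol φ A b a₂ a₁) {r : ℝ} (hA : A.eval r = 0) (hb : b.eval r ≠ 0) :
    ∃ δ > 0, ∀ x ∈ Icc (r - δ) (r + δ), NN φ b x = 0 := by
  have hev : ∀ᶠ y in nhds r, b.eval y ≠ 0 := b.continuous.continuousAt.eventually_ne hb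
  obtain ⟨ε', hε', hball⟩ := Metric.eventually_nhds_iff_ball.mp hev
  set ε := ε' / 2 with hε
  have hε0 : 0 < ε := half_pos hε'
  have hI : ∀ y ∈ Icc (r - ε) (r + ε), b.eval y ≠ 0 := by
    intro y hy
    apply hball
    rw [Metric.mem_ball, Real.dist_eq, abs_lt]
    constructor <;> linarith [hy.1, hy.2]
  have hrI : r ∈ Icc (r - ε) (r + ε) := ⟨by linarith, by linarith⟩
  set K := KK φ a₂ a₁ with hK
  set P₁ := ∫ y in Iic r, a₁.eval y ∂φ with hP₁
  -- splitting of the formula
  have hKb_int : ∀ Q : ℝ[X], IntervalIntegrable (fun y => Q.eval y * (K y / b.eval y)) volume (r - ε) (r + ε) := by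
    intro Q
    rw [intervalIntegrable_iff_integrableOn_Icc_of_le (by linarith)]
    have h1 : ContinuousOn (fun y => Q.eval y / b.eval y) (Icc (r - ε) (r + ε)) :=
      Q.continuous.continuousOn.div b.continuous.continuousOn hI
    have h2 := (S.K_int.integrableOn (s := Icc (r - ε) (r + ε))).mul_continuousOn h1 isCompact_Icc
    refine h2.congr (Filter.Eventually.of_forall (fun y => ?_))
    show K y * (Q.eval y / b.eval y) = Q.eval y * (K y / b.eval y)
    ring
  have huIcc : uIcc (r - ε) (r + ε) = Icc (r - ε) (r + ε) := uIcc_of_le (by linarith)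
  have hsplit : ∀ x ∈ Icc (r - ε) (r + ε), K x = K r - (x - r) * P₁
      + (∫ y in r..x, (a₂ + X * a₁).eval y * (K y / b.eval y))
      - x * ∫ y in r..x, a₁.eval y * (K y / b.eval y) := by
    intro x hx
    have hsubI : uIcc r x ⊆ uIcc (r - ε) (r + ε) := by
      rw [huIcc]; exact ordConnected_Icc.uIcc_subset hrI hx
    have hfor := S.K_formula hI hrI hx
    rw [← hK, ← hP₁] at hfor
    rw [hfor, ← intervalIntegral.integral_const_mul, add_sub_assoc,
      ← intervalIntegral.integral_sub ((hKb_int _).mono_set hsubI)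
        (((hKb_int _).mono_set hsubI).const_mul _)]
    congr 1
    refine intervalIntegral.integral_congr (fun y _ => ?_)
    simp only [uu, eval_add, eval_mul, eval_X]
    ring
  have hKc : ContinuousOn K (Icc (r - ε) (r + ε)) := by
    have c1 : ContinuousOn (fun x => ∫ y in r..x, (a₂ + X * a₁).eval y * (K y / b.eval y))
        (Icc (r - ε) (r + ε)) := by
      rw [← huIcc]
      exact intervalIntegral.continuousOn_primitive_interval' (hKb_int _) (by rw [huIcc]; exact hrI)
    have c2 : ContinuousOn (fun x => ∫ y in r..x, a₁.eval y * (K y / b.eval y))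
        (Icc (r - ε) (r + ε)) := by
      rw [← huIcc]
      exact intervalIntegral.continuousOn_primitive_interval' (hKb_int _) (by rw [huIcc]; exact hrI)
    refine ContinuousOn.congr ?_ hsplit
    fun_prop
  have hsubo : Ioo (r - ε) (r + ε) ⊆ Icc (r - ε) (r + ε) := Ioo_subset_Icc_self
  have hro : r ∈ Ioo (r - ε) (r + ε) := ⟨by linarith, by linarith⟩
  have hKco : ContinuousOn K (Ioo (r - ε) (r + ε)) := hKc.mono hsubo
  have hKr : ContinuousAt K r := hKco.continuousAt (isOpen_Ioo.mem_nhds hro)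
  -- AK = bN everywhere on the open interval
  have hAKo : EqOn (fun x => A.eval x * K x) (fun x => b.eval x * NN φ b x) (Ioo (r - ε) (r + ε)) :=
    Measure.eqOn_open_of_ae_eq (μ := volume) (ae_restrict_of_ae S.AK) isOpen_Ioo
      (A.continuous.continuousOn.mul hKco) (b.continuous.continuousOn.mul S.N_cont.continuousOn)
  have hNr : NN φ b r = 0 := by
    have := hAKo hro
    simp only [hA, zero_mul] at this
    exact (mul_eq_zero.mp this.symm).resolve_left hb
  -- derivative of N at r
  have hNd : HasDerivAt (NN φ b) (K r) r := by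
    have : NN φ b = fun y => NN φ b r + ∫ t in r..y, K t := by
      funext y; rw [← S.N_sub r y]; ring
    rw [this]
    refine HasDerivAt.const_add _ ?_
    exact intervalIntegral.integral_hasDerivAt_right (by simp)
      (hKco.stronglyMeasurableAtFilter isOpen_Ioo r hro) hKr
  have hKr0 : K r = 0 := by
    refine IsLocalMin.hasDerivAt_eq_zero (f := NN φ b) (a := r) ?_ hNd
    refine Filter.Eventually.of_forall (fun y => ?_)
    rw [hNr]
    exact S.N_nonneg y
  -- K / b ≥ 0
  have hKbc : ContinuousOn (fun x => K x / b.eval x) (Ioo (r - ε) (r + ε)) :=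
    hKco.div b.continuous.continuousOn (fun y hy => hI y (hsubo hy))
  have hKb0 : ∀ x ∈ Ioo (r - ε) (r + ε), 0 ≤ K x / b.eval x := by
    have hae : (fun x => K x / b.eval x) =ᵐ[volume.restrict (Ioo (r - ε) (r + ε))]
        fun x => max (K x / b.eval x) 0 := by
      filter_upwards [ae_restrict_of_ae (ae_A_ne S.A0), ae_restrict_mem measurableSet_Ioo]
        with x hx hxI
      have h1 : A.eval x * K x = b.eval x * NN φ b x := hAKo hxI
      have hbx := hI x (hsubo hxI)
      refine (max_eq_left ?_).symm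
      rcases lt_or_gt_of_ne hx with h2 | h2
      · have h3 := S.N_zero_of_neg h2
        rw [h3, mul_zero] at h1
        rw [(mul_eq_zero.mp h1).resolve_left hx, zero_div]
      · have h3 : K x / b.eval x = NN φ b x / A.eval x := by
          rw [div_eq_div_iff hbx hx]; linarith
        rw [h3]
        exact div_nonneg (S.N_nonneg x) h2.le
    have := Measure.eqOn_open_of_ae_eq (μ := volume) hae isOpen_Ioo hKbc
      (hKbc.sup continuousOn_const)
    intro x hx
    have h4 := this hx
    simp only at h4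
    rw [h4]
    exact le_max_right _ _
  -- derivative of K at r
  have hKd : HasDerivAt K (- P₁) r := by
    have hmeas : ∀ Q : ℝ[X], HasDerivAt (fun x => ∫ y in r..x, Q.eval y * (K y / b.eval y)) 0 r := by
      intro Q
      have hc : ContinuousOn (fun y => Q.eval y * (K y / b.eval y)) (Ioo (r - ε) (r + ε)) :=
        Q.continuous.continuousOn.mul hKbc
      have h1 := intervalIntegral.integral_hasDerivAt_right (f := fun y => Q.eval y * (K y / b.eval y))
        (a := r) (b := r) (by simp) (hc.stronglyMeasurableAtFilter isOpen_Ioo r hro)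
        (hc.continuousAt (isOpen_Ioo.mem_nhds hro))
      simpa [hKr0] using h1
    have h1 := hmeas (a₂ + X * a₁)
    have h2 := hmeas a₁
    have h3 : HasDerivAt (fun x => K r - (x - r) * P₁
      + (∫ y in r..x, (a₂ + X * a₁).eval y * (K y / b.eval y))
      - x * ∫ y in r..x, a₁.eval y * (K y / b.eval y)) (- P₁) r := by
      have h4 := (((((hasDerivAt_id r).sub_const r).mul_const P₁).const_sub (K r)).add h1).sub
        ((hasDerivAt_id r).mul h2)
      refine h4.congr_deriv ?_
      simp
    refine h3.congr_of_eventuallyEq ?_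
    filter_upwards [isOpen_Ioo.mem_nhds hro] with x hx using hsplit x (hsubo hx)
  have hP₁0 : P₁ = 0 := by
    have hd : HasDerivAt (fun x => b.eval r * K x) (b.eval r * (- P₁)) r := hKd.const_mul _
    have hmin : IsLocalMin (fun x => b.eval r * K x) r := by
      have hpos : ∀ᶠ x in nhds r, 0 < b.eval r * b.eval x := by
        have hc : ContinuousAt (fun x => b.eval r * b.eval x) r :=
          (continuous_const.mul b.continuous).continuousAt
        exact hc.eventually (lt_mem_nhds (mul_self_pos.mpr hb))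
      filter_upwards [hpos, isOpen_Ioo.mem_nhds hro] with x hx hxI
      rw [hKr0, mul_zero]
      have h1 := hKb0 x hxI
      have hbx := hI x (hsubo hxI)
      have h2 : b.eval r * K x = (b.eval r * b.eval x) * (K x / b.eval x) := by
        field_simp
      rw [h2]
      exact mul_nonneg hx.le h1
    have := hmin.hasDerivAt_eq_zero hd
    have h5 := (mul_eq_zero.mp this).resolve_left hb
    linarith
  -- Volterra
  have hcomp : IsCompact (Icc (r - ε) (r + ε) ×ˢ Icc (r - ε) (r + ε)) :=
    isCompact_Icc.prod isCompact_Icc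
  have hjoint : ContinuousOn (fun p : ℝ × ℝ => uu a₂ a₁ p.2 p.1 / b.eval p.2)
      (Icc (r - ε) (r + ε) ×ˢ Icc (r - ε) (r + ε)) := by
    refine ContinuousOn.div (uu_cont a₂ a₁).continuousOn ?_ (fun p hp => hI _ hp.2)
    exact (b.continuous.comp continuous_snd).continuousOn
  obtain ⟨C, hC⟩ := hcomp.exists_bound_of_continuousOn hjoint
  have hC0 : 0 ≤ C := (norm_nonneg _).trans (hC (r, r) ⟨hrI, hrI⟩)
  obtain ⟨δ, hδ, hδε, hz⟩ := volterra K r ε C hε0 hC0 hKc (fun x hx M hM => by
    have h1 : K x = ∫ y in r..x, uu a₂ a₁ y x * (K y / b.eval y) := by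
      have := S.K_formula hI hrI hx
      rw [← hK, ← hP₁, hKr0, hP₁0] at this
      linarith
    have h3 := intervalIntegral.norm_integral_le_of_norm_le_const (a := r) (b := x)
        (f := fun y => uu a₂ a₁ y x * (K y / b.eval y)) (C := C * M) (fun t ht => by
          have htI : t ∈ Icc (r - ε) (r + ε) :=
            (ordConnected_Icc.uIcc_subset hrI hx) (uIoc_subset_uIcc ht)
          have h5 : uu a₂ a₁ t x * (K t / b.eval t) = (uu a₂ a₁ t x / b.eval t) * K t := by ring
          rw [h5, norm_mul]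
          exact mul_le_mul (hC (x, t) ⟨hx, htI⟩) (hM t (uIoc_subset_uIcc ht)) (norm_nonneg _) hC0)
    rw [← h1, Real.norm_eq_abs] at h3
    linarith)
  refine ⟨δ, hδ, fun x hx => ?_⟩
  have h1 := S.N_sub r x
  have h2 : ∫ t in r..x, K t = ∫ t in r..x, (0 : ℝ) := by
    refine intervalIntegral.integral_congr (fun t ht => ?_)
    exact hz t ((ordConnected_Icc.uIcc_subset ⟨by linarith, by linarith⟩ hx) ht)
  rw [← hK, h2, hNr] at h1
  simpa using h1

end Pool.Agent.R263.Sob
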