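import Pool.Agent.R263.SobA
import Pool.Agent.R263.SobG

set_option autoImplicit false
open Polynomial MeasureTheory Set

namespace Pool.Agent.R263.Sob

variable {φ : Measure ℝ} {A b a₂ a₁ : ℝ[X]}

lemma Sol.posdef (S : Sol φ A b a₂ a₁) (P : ℝ[X]) (h : ∀ f : ℝ[X], ∫ x, (P * f).eval x ∂φ = 0) :
    P = 0 := by
  by_contra hP
  have h1 := h P
  have h2 : ∫ x, (P.eval x) ^ 2 ∂φ = 0 := by
    rw [← h1]; congr 1; funext x; rw [eval_mul]; ring
  have hi : Integrable (fun x => (P.eval x) ^ 2) φ := by
    have := integrable_poly S.mom (P * P)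
    refine this.congr (Filter.Eventually.of_forall (fun x => ?_))
    show (P * P).eval x = _
    rw [eval_mul]; ring
  rw [integral_eq_zero_iff_of_nonneg (fun x => sq_nonneg _) hi] at h2
  apply S.inf P.roots.toFinset
  rw [← nonpos_iff_eq_zero]
  have h3 : φ {x | ¬ P.eval x = 0} = 0 := by
    have : ∀ᵐ x ∂φ, P.eval x = 0 := by
      filter_upwards [h2] with x hx
      simpa using hx
    exact this
  rw [← h3]
  refine measure_mono (fun x hx => ?_)
  intro h0
  apply hx
  simp only [Finset.mem_coe, Multiset.mem_toFinset, mem_roots hP, IsRoot.def]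
  exact h0

/-- The polynomial `S`. -/
noncomputable def SS (A b a₂ : ℝ[X]) : ℝ[X] := A * (derivative b - a₂) + b * (b - derivative A)

lemma Sol.E (S : Sol φ A b a₂ a₁) :
    A * derivative (SS A b a₂) + SS A b a₂ * (b - 2 * derivative A) + a₁ * A ^ 2 = 0 := by
  apply S.posdef
  intro f
  have h3 := S.F3 (A ^ 2 * f)
  have h1 := S.F1 (b * A * derivative f)
  have h2 := S.F1 ((3 * b * derivative A + a₂ * A - A * derivative b - b ^ 2) * f)
  have e : (A * derivative (SS A b a₂) + SS A b a₂ * (b - 2 * derivative A) + a₁ * A ^ 2) * f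
      = (b * derivative (derivative (A ^ 2 * f)) + a₂ * derivative (A ^ 2 * f) + a₁ * (A ^ 2 * f))
        - (A * derivative (b * A * derivative f) + b * (b * A * derivative f))
        - (A * derivative ((3 * b * derivative A + a₂ * A - A * derivative b - b ^ 2) * f)
          + b * ((3 * b * derivative A + a₂ * A - A * derivative b - b ^ 2) * f)) := by
    have d2 : derivative (A ^ 2) = 2 * A * derivative A := by
      rw [derivative_pow]
      norm_num [C2']
    have d2b : derivative (b ^ 2) = 2 * b * derivative b := by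
      rw [derivative_pow]
      norm_num [C2']
    simp only [SS, derivative_mul, derivative_add, derivative_sub, d2, d2b, derivative_ofNat]
    ring
  rw [e, ← mom_apply φ S.mom, map_sub, map_sub, mom_apply, mom_apply, mom_apply, h1, h2, h3]
  ring

lemma Sol.deg_bound (S : Sol φ A b a₂ a₁) (hge : A.natDegree ≤ b.natDegree) :
    2 * b.natDegree ≤ A.natDegree + 2 := by
  by_contra hlt
  push Not at hlt
  set β := b.natDegree with hβ
  set D := A.natDegree with hD
  have hβ2 : 2 ≤ β := by omega
  have hb0 : b ≠ 0 := by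
    intro h; rw [h, natDegree_zero] at hβ; omega
  have hlc : b.coeff β ≠ 0 := leadingCoeff_ne_zero.mpr hb0
  have hdA : (derivative A).natDegree ≤ D - 1 := natDegree_derivative_le A
  have hdb : (derivative b).natDegree ≤ β - 1 := natDegree_derivative_le b
  have hda2 := S.da₂
  have hda1 := S.da₁
  have hdA' : (derivative A).natDegree < β := by omega
  -- coefficient of S
  have hS1 : (A * (derivative b - a₂)).natDegree < 2 * β := by
    refine (natDegree_mul_le).trans_lt ?_
    have h1 : (derivative b - a₂).natDegree ≤ max (β - 1) 2 :=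
      (natDegree_sub_le _ _).trans (max_le_max hdb hda2)
    have h2 : max (β - 1) 2 ≤ β - 1 ∨ max (β - 1) 2 ≤ 2 := by
      rcases le_total (β - 1) 2 with h | h
      · right; simp [h]
      · left; simp [h]
    rcases h2 with h2 | h2 <;> omega
  have hbA : (b - derivative A).natDegree ≤ β := (natDegree_sub_le _ _).trans (max_le le_rfl hdA'.le)
  have hbAc : (b - derivative A).coeff β = b.coeff β := by
    rw [coeff_sub, coeff_eq_zero_of_natDegree_lt hdA', sub_zero]
  have hS2 : (b * (b - derivative A)).coeff (β + β) = b.coeff β * b.coeff β := by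
    rw [coeff_mul_add_eq_of_natDegree_le le_rfl hbA, hbAc]
  have hSd : (SS A b a₂).natDegree ≤ β + β := by
    refine (natDegree_add_le _ _).trans (max_le (by omega) ?_)
    exact (natDegree_mul_le).trans (by omega)
  have hSc : (SS A b a₂).coeff (β + β) = b.coeff β * b.coeff β := by
    rw [SS, coeff_add, hS2, coeff_eq_zero_of_natDegree_lt (by omega), zero_add]
  have hbA2 : (b - 2 * derivative A).natDegree ≤ β := by
    refine (natDegree_sub_le _ _).trans (max_le le_rfl ?_)
    have : (2 * derivative A).natDegree ≤ (derivative A).natDegree := by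
      rw [← C2']; exact natDegree_C_mul_le _ _
    omega
  have hbA2c : (b - 2 * derivative A).coeff β = b.coeff β := by
    have : (2 * derivative A).coeff β = 0 := by
      rw [← C2', coeff_C_mul, coeff_eq_zero_of_natDegree_lt hdA', mul_zero]
    rw [coeff_sub, this, sub_zero]
  have h1 : (SS A b a₂ * (b - 2 * derivative A)).coeff (β + β + β)
      = b.coeff β * b.coeff β * b.coeff β := by
    rw [coeff_mul_add_eq_of_natDegree_le hSd hbA2, hSc, hbA2c]
  have h2 : (A * derivative (SS A b a₂)).coeff (β + β + β) = 0 := by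
    apply coeff_eq_zero_of_natDegree_lt
    have : (derivative (SS A b a₂)).natDegree ≤ (SS A b a₂).natDegree - 1 := natDegree_derivative_le _
    refine (natDegree_mul_le).trans_lt ?_
    omega
  have h3 : (a₁ * A ^ 2).coeff (β + β + β) = 0 := by
    apply coeff_eq_zero_of_natDegree_lt
    refine (natDegree_mul_le).trans_lt ?_
    have : (A ^ 2).natDegree ≤ 2 * D := natDegree_pow_le
    omega
  have hE := congrArg (fun P => P.coeff (β + β + β)) S.E
  simp only [coeff_add, coeff_zero, h1, h2, h3] at hE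
  have : b.coeff β * b.coeff β * b.coeff β ≠ 0 := mul_ne_zero (mul_ne_zero hlc hlc) hlc
  apply this
  linarith

lemma ev_pos {P : ℝ[X]} (h : 0 < P.leadingCoeff) : ∀ᶠ x in Filter.atTop, 0 < P.eval x := by
  by_cases hd : 0 < P.degree
  · exact (P.tendsto_atTop_of_leadingCoeff_nonneg hd h.le).eventually_gt_atTop 0
  · have h0 : P = C (P.coeff 0) := eq_C_of_degree_le_zero (not_lt.mp hd)
    have h1 : P.leadingCoeff = P.coeff 0 := by
      rw [h0, leadingCoeff_C]; simp
    rw [h0]
    simp only [eval_C]
    rw [h1] at h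
    exact Filter.Eventually.of_forall (fun _ => h)

/-- the quotient `N / E` is constant -/
lemma Sol.N_eq_const (S : Sol φ A b a₂ a₁) {J : Set ℝ} (hJ : IsOpen J) (hJc : IsPreconnected J)
    (hA : ∀ x ∈ J, A.eval x ≠ 0) {E : ℝ → ℝ} (hE0 : ∀ x ∈ J, 0 < E x)
    (hE : ∀ x ∈ J, HasDerivAt E (b.eval x / A.eval x * E x) x) {x₀ : ℝ} (hx₀ : x₀ ∈ J) :
    ∀ x ∈ J, NN φ b x = NN φ b x₀ / E x₀ * E x := by
  intro x hx
  have hd : ∀ y ∈ J, HasDerivAt (fun y => NN φ b y / E y) 0 y := by
    intro y hy
    have h1 := (S.N_deriv (hA y hy)).div (hE y hy) (hE0 y hy).ne'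
    refine h1.congr_deriv ?_
    have := (hE0 y hy).ne'
    field_simp
    ring
  have hconst := hJ.is_const_of_deriv_eq_zero hJc
    (fun y hy => (hd y hy).differentiableAt.differentiableWithinAt)
    (fun y hy => (hd y hy).deriv) hx hx₀
  have h2 := (hE0 x hx).ne'
  rw [← hconst]
  field_simp

lemma exists_E {J : Set ℝ} (hJ : IsOpen J) (hJc : OrdConnected J)
    (hA : ∀ x ∈ J, A.eval x ≠ 0) {x₀ : ℝ} (hx₀ : x₀ ∈ J) :
    ∃ E : ℝ → ℝ, (∀ x, 0 < E x) ∧ ∀ x ∈ J, HasDerivAt E (b.eval x / A.eval x * E x) x := by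
  refine ⟨fun x => Real.exp (∫ t in x₀..x, b.eval t / A.eval t), fun x => Real.exp_pos _,
    fun x hx => ?_⟩
  have hc : ContinuousOn (fun t => b.eval t / A.eval t) J :=
    b.continuous.continuousOn.div A.continuous.continuousOn hA
  have h1 : HasDerivAt (fun x => ∫ t in x₀..x, b.eval t / A.eval t) (b.eval x / A.eval x) x := by
    refine intervalIntegral.integral_hasDerivAt_right ?_ (hc.stronglyMeasurableAtFilter hJ x hx)
      (hc.continuousAt (hJ.mem_nhds hx))
    exact (hc.mono (hJc.uIcc_subset hx₀ hx)).intervalIntegrable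
  have h2 := h1.exp
  refine h2.congr_deriv ?_
  ring

lemma Sol.dich (S : Sol φ A b a₂ a₁) {J : Set ℝ} (hJ : IsOpen J) (hJc : OrdConnected J)
    (hA : ∀ x ∈ J, A.eval x ≠ 0) {x₀ : ℝ} (hx₀ : x₀ ∈ J) (h : 0 < NN φ b x₀) :
    ∀ x ∈ J, 0 < NN φ b x := by
  obtain ⟨E, hE0, hE⟩ := exists_E (b := b) hJ hJc hA hx₀
  intro x hx
  rw [S.N_eq_const hJ hJc.isPreconnected hA (fun x _ => hE0 x) hE hx₀ x hx]
  have := hE0 x
  have := hE0 x₀
  positivity

lemma Sol.inf_zero (S : Sol φ A b a₂ a₁) {R : ℝ} (hR : ∀ x ∈ Ioi R, 0 < A.eval x) (M : ℕ)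
    (hM : ∀ᶠ x in Filter.atTop, 0 ≤ x * b.eval x + M * A.eval x) : ∀ x ∈ Ioi R, NN φ b x = 0 := by
  intro x₀ hx₀
  by_contra hne
  have hpos : 0 < NN φ b x₀ := lt_of_le_of_ne (S.N_nonneg x₀) (Ne.symm hne)
  have hall := S.dich isOpen_Ioi ordConnected_Ioi (fun x hx => (hR x hx).ne') hx₀ hpos
  obtain ⟨R', hR'⟩ := Filter.eventually_atTop.mp hM
  set Q := max (max R' (R + 1)) 1 with hQ
  have hQ1 : 1 ≤ Q := le_max_right _ _
  have hQR : R < Q := by
    have : R + 1 ≤ Q := (le_max_right R' (R + 1)).trans (le_max_left _ _)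
    linarith
  have hQR' : R' ≤ Q := (le_max_left R' (R + 1)).trans (le_max_left _ _)
  -- monotone
  have hmono : MonotoneOn (fun x => x ^ M * NN φ b x) (Ici Q) := by
    refine monotoneOn_of_deriv_nonneg (convex_Ici Q) ?_ ?_ ?_
    · exact ((continuous_pow M).mul S.N_cont).continuousOn
    · intro x hx
      rw [interior_Ici] at hx
      have hxR : x ∈ Ioi R := hQR.trans hx
      exact (((hasDerivAt_pow M x).mul
        (S.N_deriv (hR x hxR).ne')).differentiableAt).differentiableWithinAt
    · intro x hx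
      rw [interior_Ici] at hx
      have hxR : x ∈ Ioi R := hQR.trans hx
      have hx0 : 0 < x := by linarith [mem_Ioi.mp hx]
      have hd := (hasDerivAt_pow M x).mul (S.N_deriv (hR x hxR).ne')
      have hd' : deriv (fun x => x ^ M * NN φ b x) x
          = (M : ℝ) * x ^ (M - 1) * NN φ b x + x ^ M * (b.eval x / A.eval x * NN φ b x) := hd.deriv
      rw [hd']
      have hAx := hR x hxR
      have hNx := S.N_nonneg x
      have hcond := hR' x (hQR'.trans (le_of_lt hx))
      have e : x * ((M : ℝ) * x ^ (M - 1) * NN φ b x + x ^ M * (b.eval x / A.eval x * NN φ b x))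
          = x ^ M * NN φ b x * ((x * b.eval x + M * A.eval x) / A.eval x) := by
        have hMx : x * ((M : ℝ) * x ^ (M - 1)) = M * x ^ M := by
          rcases Nat.eq_zero_or_pos M with h0 | h0
          · rw [h0]; simp
          · rw [mul_left_comm, mul_pow_sub_one (by omega)]
        calc x * ((M : ℝ) * x ^ (M - 1) * NN φ b x + x ^ M * (b.eval x / A.eval x * NN φ b x))
            = (x * ((M : ℝ) * x ^ (M - 1))) * NN φ b x
              + x * x ^ M * (b.eval x / A.eval x * NN φ b x) := by ring
          _ = x ^ M * NN φ b x * ((x * b.eval x + M * A.eval x) / A.eval x) := by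
              rw [hMx]; field_simp; ring
      have h5 : 0 ≤ x * ((M : ℝ) * x ^ (M - 1) * NN φ b x + x ^ M * (b.eval x / A.eval x * NN φ b x)) := by
        rw [e]; positivity
      exact nonneg_of_mul_nonneg_right h5 hx0
  have hc : 0 < Q ^ M * NN φ b Q := by
    have := hall Q hQR
    positivity
  -- not integrable
  have hint := (S.N_int_poly (X ^ M)).integrableOn (s := Ioi Q)
  have hconst : IntegrableOn (fun _ : ℝ => Q ^ M * NN φ b Q) (Ioi Q) volume := by
    refine Integrable.mono' hint (by fun_prop) ?_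
    refine (ae_restrict_mem measurableSet_Ioi).mono (fun x hx => ?_)
    rw [Real.norm_of_nonneg hc.le]
    have := hmono self_mem_Ici (mem_Ici.mpr (le_of_lt hx)) (le_of_lt hx)
    simp only at this
    rw [eval_pow, eval_X]
    linarith
  rw [integrableOn_const_iff] at hconst
  rcases hconst with h | h
  · exact hc.ne' (by simpa using h)
  · simp at h

end Pool.Agent.R263.Sob
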