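import Pool.Agent.R263.SobH

set_option autoImplicit false
open Polynomial MeasureTheory Set

namespace Pool.Agent.R263.Sob

variable {φ : Measure ℝ} {A b a₂ a₁ : ℝ[X]}

/-- reflection of a polynomial -/
noncomputable def rf (P : ℝ[X]) : ℝ[X] := P.comp (-X)

lemma rf_eval (P : ℝ[X]) (x : ℝ) : (rf P).eval x = P.eval (-x) := by simp [rf]

lemma rf_rf (P : ℝ[X]) : rf (rf P) = P := by
  rw [rf, rf, comp_assoc]
  simp

lemma rf_deriv (P : ℝ[X]) : derivative (rf P) = - rf (derivative P) := by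
  rw [rf, derivative_comp, rf]
  simp

lemma rf_natDegree (P : ℝ[X]) : (rf P).natDegree = P.natDegree := by
  rw [rf, natDegree_comp, natDegree_neg, natDegree_X, mul_one]

lemma rf_ne_zero {P : ℝ[X]} (h : P ≠ 0) : rf P ≠ 0 := by
  intro h0
  apply h
  rw [← rf_rf P, h0]
  simp [rf]

lemma rf_lc (P : ℝ[X]) : (rf P).leadingCoeff = (-1) ^ P.natDegree * P.leadingCoeff := by
  rw [rf, leadingCoeff_comp (by simp), leadingCoeff_neg, leadingCoeff_X]
  ring

lemma int_map_neg (η : Measure ℝ) (g : ℝ[X]) :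
    ∫ x, g.eval x ∂(η.map (fun x => -x)) = ∫ x, g.eval (-x) ∂η :=
  integral_map (by fun_prop) g.continuous.aestronglyMeasurable

lemma int_map_neg' (η : Measure ℝ) (g : ℝ[X]) :
    ∫ x, g.eval x ∂(η.map (fun x => -x)) = ∫ x, (rf g).eval x ∂η := by
  rw [int_map_neg]
  simp_rw [rf_eval]

lemma mom_map_neg {η : Measure ℝ} (h : ∀ k : ℕ, Integrable (fun x : ℝ => x ^ k) η) (k : ℕ) :
    Integrable (fun x : ℝ => x ^ k) (η.map (fun x => -x)) := by
  rw [integrable_map_measure (by fun_prop) (by fun_prop)]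
  have := (h k).const_mul ((-1 : ℝ) ^ k)
  refine this.congr (Filter.Eventually.of_forall (fun x => ?_))
  show (-1 : ℝ) ^ k * x ^ k = (-x) ^ k
  rw [← mul_pow]; ring

lemma map_neg_apply (η : Measure ℝ) {T : Set ℝ} (hT : MeasurableSet T) :
    (η.map (fun x => -x)) T = η {x | -x ∈ T} := by
  rw [Measure.map_apply (by fun_prop) hT]
  rfl

theorem Sol.reflect (S : Sol φ A b a₂ a₁) :
    Sol (φ.map (fun x => -x)) (rf A) (-rf b) (rf a₂) (-rf a₁) where
  mom := mom_map_neg S.mom
  inf := by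
    intro s
    rw [map_neg_apply φ (s.measurableSet.compl)]
    have := S.inf (s.image (fun x => -x))
    intro h
    apply this
    rw [← h]
    congr 1
    ext x
    simp only [mem_compl_iff, Finset.mem_coe, Finset.mem_image, not_exists, not_and, mem_ofPred_eq]
    constructor
    · intro h hx
      exact h (-x) hx (neg_neg x)
    · intro h y hy hxy
      apply h
      rw [← hxy, neg_neg]; exact hy
  eta := by
    obtain ⟨η, h1, h2, h3⟩ := S.eta
    refine ⟨η.map (fun x => -x), mom_map_neg h1, ?_, fun g => ?_⟩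
    · have := int_map_neg η 1
      simp only [eval_one] at this
      rw [this]; exact h2
    · rw [int_map_neg', int_map_neg', h3]
      congr 1
      funext x
      simp only [rf_eval, eval_mul, neg_neg]
  A0 := rf_ne_zero S.A0
  dA := by rw [rf_natDegree]; exact S.dA
  db := by rw [natDegree_neg, rf_natDegree]; exact S.db
  da₂ := by rw [rf_natDegree]; exact S.da₂
  da₁ := by rw [natDegree_neg, rf_natDegree]; exact S.da₁
  F1 := by
    intro g
    rw [int_map_neg']
    have := S.F1 (rf g)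
    have e : ∀ x : ℝ, (rf (rf A * derivative g + -rf b * g)).eval x
        = - (A * derivative (rf g) + b * rf g).eval x := by
      intro x
      rw [rf_deriv]
      simp only [rf_eval, eval_mul, eval_add, eval_neg, neg_neg]
      ring
    simp_rw [e]
    rw [integral_neg, this, neg_zero]
  F3 := by
    intro g
    rw [int_map_neg']
    have := S.F3 (rf g)
    have e : ∀ x : ℝ, (rf (-rf b * derivative (derivative g) + rf a₂ * derivative g + -rf a₁ * g)).eval x
        = - (b * derivative (derivative (rf g)) + a₂ * derivative (rf g) + a₁ * rf g).eval x := by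
      intro x
      have d2 : derivative (derivative (rf g)) = rf (derivative (derivative g)) := by
        rw [rf_deriv, derivative_neg, rf_deriv, neg_neg]
      rw [d2, rf_deriv]
      simp only [rf_eval, eval_mul, eval_add, eval_neg, neg_neg]
      ring
    simp_rw [e]
    rw [integral_neg, this, neg_zero]

lemma Sol.phi_zero (S : Sol φ A b a₂ a₁) {T : Set ℝ} (hT : MeasurableSet T)
    (hpos : ∀ x ∈ T, 0 < A.eval x) (hN : ∀ x ∈ T, NN φ b x = 0) : φ T = 0 := by
  have h := S.dens hT hpos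
  have h1 : φ T = (φ.restrict T) T := by rw [Measure.restrict_apply_self]
  rw [h1, h, withDensity_apply _ hT, Measure.restrict_restrict hT, inter_self]
  have : ∀ x ∈ T, ENNReal.ofReal (NN φ b x / A.eval x) = 0 := by
    intro x hx
    rw [hN x hx]; simp
  rw [setLIntegral_congr_fun hT this]
  simp

lemma sign_const {J : Set ℝ} (hJ : IsPreconnected J) (hA : ∀ x ∈ J, A.eval x ≠ 0)
    {x₀ : ℝ} (hx₀ : x₀ ∈ J) (h : 0 < A.eval x₀) : ∀ x ∈ J, 0 < A.eval x := by
  intro x hx
  by_contra hneg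
  push Not at hneg
  have := hJ.intermediate_value hx hx₀ A.continuous.continuousOn
  obtain ⟨y, hy, hy0⟩ := this ⟨hneg, h.le⟩
  exact hA y hy hy0

lemma Sol.inf_null (S : Sol φ A b a₂ a₁) {R : ℝ} (hR : ∀ x ∈ Ioi R, A.eval x ≠ 0) (M : ℕ)
    (hM : ∀ᶠ x in Filter.atTop, 0 ≤ x * b.eval x + M * A.eval x) : φ (Ioi R) = 0 := by
  by_cases h : ∃ x₀ ∈ Ioi R, 0 < A.eval x₀
  · obtain ⟨x₀, hx₀, h0⟩ := h
    have hpos := sign_const isPreconnected_Ioi hR hx₀ h0
    exact S.phi_zero measurableSet_Ioi hpos (S.inf_zero hpos M hM)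
  · push Not at h
    refine measure_mono_null (fun x hx => ?_) S.neg_null
    exact lt_of_le_of_ne (h x hx) (hR x hx)

lemma ev_cond1 (hdeg : b.natDegree < A.natDegree) (hA : 0 < A.leadingCoeff) :
    ∃ M : ℕ, ∀ᶠ x in Filter.atTop, 0 ≤ x * b.eval x + M * A.eval x := by
  obtain ⟨M, hM⟩ := exists_nat_gt (- b.coeff (A.natDegree - 1) / A.leadingCoeff)
  refine ⟨M, ?_⟩
  set P : ℝ[X] := X * b + C (M : ℝ) * A with hP
  set D := A.natDegree with hD
  have hc : P.coeff D = b.coeff (D - 1) + M * A.leadingCoeff := by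
    rw [hP, coeff_add, coeff_C_mul]
    obtain ⟨k, hk⟩ : ∃ k, D = k + 1 := ⟨D - 1, by omega⟩
    rw [hk, coeff_X_mul, Nat.add_sub_cancel, leadingCoeff, ← hD, hk]
  have hcpos : 0 < P.coeff D := by
    rw [hc]
    rw [div_lt_iff₀ hA] at hM
    linarith
  have hdP : P.natDegree ≤ D := by
    refine (natDegree_add_le _ _).trans (max_le ?_ (natDegree_C_mul_le _ _))
    exact (natDegree_mul_le).trans (by rw [natDegree_X]; omega)
  have hdP' : P.natDegree = D := le_antisymm hdP (le_natDegree_of_ne_zero hcpos.ne')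
  have hlc : 0 < P.leadingCoeff := by
    rw [leadingCoeff, hdP']; exact hcpos
  filter_upwards [ev_pos hlc] with x hx
  have : P.eval x = x * b.eval x + M * A.eval x := by
    rw [hP]; simp
  linarith

lemma ev_cond2 (hb : 0 < b.leadingCoeff) :
    ∀ᶠ x in Filter.atTop, 0 ≤ x * b.eval x + (0 : ℕ) * A.eval x := by
  filter_upwards [ev_pos hb, Filter.eventually_gt_atTop 0] with x hx hx0
  simp only [Nat.cast_zero, zero_mul, add_zero]
  positivity

lemma lc_pos_of_pos {R : ℝ} (hA : ∀ x ∈ Ioi R, 0 < A.eval x) : 0 < A.leadingCoeff := by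
  by_contra h
  have hA0 : A ≠ 0 := by
    rintro rfl
    have := hA (R + 1) (by simp)
    simp at this
  have hlc : A.leadingCoeff < 0 := lt_of_le_of_ne (not_lt.mp h) (leadingCoeff_ne_zero.mpr hA0)
  have h1 : 0 < (-A).leadingCoeff := by rw [leadingCoeff_neg]; linarith
  obtain ⟨x, hx1, hx2⟩ := ((ev_pos h1).and (Filter.eventually_gt_atTop R)).exists
  have h3 := hA x hx2
  rw [eval_neg] at hx1
  linarith

lemma Sol.endpoint (S : Sol φ A b a₂ a₁) {r : ℝ} (hA : A.eval r = 0)
    (hN : ∀ δ > 0, ∃ x ∈ Icc (r - δ) (r + δ), NN φ b x ≠ 0) :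
    b.eval r = 0 ∧ (derivative A).eval r = 0 := by
  have hb : b.eval r = 0 := by
    by_contra hb
    obtain ⟨δ, hδ, h⟩ := S.bne hA hb
    obtain ⟨x, hx, hx'⟩ := hN δ hδ
    exact hx' (h x hx)
  refine ⟨hb, ?_⟩
  by_contra hA'
  obtain ⟨δ, hδ, h⟩ := S.simple hA hb hA'
  obtain ⟨x, hx, hx'⟩ := hN δ hδ
  exact hx' (h x hx)

lemma sq_dvd {r : ℝ} (h0 : A.eval r = 0) (h1 : (derivative A).eval r = 0) :
    (X - C r) ^ 2 ∣ A := by
  obtain ⟨Q, hQ⟩ := dvd_iff_isRoot.mpr (show IsRoot A r from h0)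
  have h2 : Q.eval r = 0 := by
    rw [hQ, derivative_mul] at h1
    simpa using h1
  obtain ⟨Q2, hQ2⟩ := dvd_iff_isRoot.mpr (show IsRoot Q r from h2)
  exact ⟨Q2, by rw [hQ, hQ2]; ring⟩

lemma Sol.exists_pos (S : Sol φ A b a₂ a₁) : ∃ x₀, 0 < A.eval x₀ ∧ 0 < NN φ b x₀ := by
  by_contra hno
  push Not at hno
  have h1 : φ {x | 0 < A.eval x} = 0 := by
    refine S.phi_zero (measurableSet_lt measurable_const (meas_eval A)) (fun x hx => hx)
      (fun x hx => le_antisymm (hno x hx) (S.N_nonneg x))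
  apply S.inf A.roots.toFinset
  refine measure_mono_null (fun x hx => ?_) (measure_union_null S.neg_null h1)
  have hx' : A.eval x ≠ 0 := by
    intro h0
    apply hx
    simp only [Finset.mem_coe, Multiset.mem_toFinset, mem_roots S.A0, IsRoot.def]
    exact h0
  rcases lt_or_gt_of_ne hx' with h | h
  · exact Or.inl h
  · exact Or.inr h

lemma right_end (hA0 : A ≠ 0) {x₀ : ℝ} (h : 0 < A.eval x₀) :
    (∀ x ∈ Ici x₀, 0 < A.eval x) ∨ ∃ s, x₀ < s ∧ A.eval s = 0 ∧ ∀ x ∈ Ico x₀ s, 0 < A.eval x := by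
  by_cases hex : ∃ s, x₀ < s ∧ A.eval s = 0
  · right
    set T := A.roots.toFinset.filter (fun y => x₀ < y) with hT
    have hTne : T.Nonempty := by
      obtain ⟨s, hs, hs0⟩ := hex
      refine ⟨s, ?_⟩
      rw [hT, Finset.mem_filter, Multiset.mem_toFinset, mem_roots hA0]
      exact ⟨hs0, hs⟩
    have hTmem : ∀ y, y ∈ T → IsRoot A y ∧ x₀ < y := by
      intro y hy
      rw [hT, Finset.mem_filter, Multiset.mem_toFinset, mem_roots hA0] at hy
      exact hy
    have hmin' := hTmem _ (T.min'_mem hTne)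
    refine ⟨T.min' hTne, hmin'.2, hmin'.1, ?_⟩
    refine sign_const isPreconnected_Ico ?_ ⟨le_rfl, hmin'.2⟩ h
    intro x hx hx0
    have hx1 : x₀ < x := by
      rcases eq_or_lt_of_le hx.1 with h2 | h2
      · rw [← h2] at hx0; linarith
      · exact h2
    have hxT : x ∈ T := by
      rw [hT, Finset.mem_filter, Multiset.mem_toFinset, mem_roots hA0]
      exact ⟨hx0, hx1⟩
    have := T.min'_le x hxT
    linarith [hx.2]
  · left
    push Not at hex
    refine sign_const isPreconnected_Ici ?_ self_mem_Ici h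
    intro x hx hx0
    rcases eq_or_lt_of_le (mem_Ici.mp hx) with h2 | h2
    · rw [← h2] at hx0; linarith
    · exact hex x h2 hx0

lemma left_end (hA0 : A ≠ 0) {x₀ : ℝ} (h : 0 < A.eval x₀) :
    (∀ x ∈ Iic x₀, 0 < A.eval x) ∨ ∃ s, s < x₀ ∧ A.eval s = 0 ∧ ∀ x ∈ Ioc s x₀, 0 < A.eval x := by
  have h' : 0 < (rf A).eval (-x₀) := by rw [rf_eval, neg_neg]; exact h
  rcases right_end (rf_ne_zero hA0) h' with h1 | ⟨s, hs, hs0, h1⟩
  · left
    intro x hx
    have := h1 (-x) (by simpa using hx)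
    rwa [rf_eval, neg_neg] at this
  · right
    refine ⟨-s, by linarith, by rw [rf_eval] at hs0; exact hs0, fun x hx => ?_⟩
    have := h1 (-x) ⟨by linarith [hx.2], by linarith [hx.1]⟩
    rwa [rf_eval, neg_neg] at this

end Pool.Agent.R263.Sob
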