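import Pool.Agent.R263.SobI

set_option autoImplicit false
open Polynomial MeasureTheory Set

namespace Pool.Agent.R263.Sob

variable {φ : Measure ℝ} {A b a₂ a₁ : ℝ[X]}

lemma tendsto_Ioc (φ : Measure ℝ) [IsFiniteMeasure φ] (r : ℝ) :
    Filter.Tendsto (fun x => φ.real (Ioc r x)) (nhdsWithin r (Ioi r)) (nhds 0) := by
  have h := tendsto_measure_biInter_gt (μ := φ) (s := fun x => Ioc r x) (a := r)
    (fun x _ => measurableSet_Ioc.nullMeasurableSet)
    (fun i j _ hij => Ioc_subset_Ioc_right hij) ⟨r + 1, by simp, measure_ne_top φ _⟩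
  have h2 : (⋂ x > r, Ioc r x) = ∅ := by
    ext y
    simp only [mem_iInter, mem_empty_iff_false, iff_false, not_forall]
    by_cases hy : r < y
    · exact ⟨(r + y) / 2, by show r < (r + y) / 2; linarith, fun h => by linarith [h.2]⟩
    · exact ⟨r + 1, by simp, fun h => hy h.1⟩
  rw [h2, measure_empty] at h
  have h3 := (ENNReal.tendsto_toReal ENNReal.zero_ne_top).comp h
  rw [ENNReal.toReal_zero] at h3
  exact h3

lemma setInt_left {r : ℝ} (hleft : φ (Iio r) = 0) (f : ℝ → ℝ) :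
    ∫ y in Iic r, f y ∂φ = φ.real {r} * f r := by
  have h : (Iic r : Set ℝ) =ᵐ[φ] ({r} : Set ℝ) := by
    rw [ae_eq_set]
    constructor
    · refine measure_mono_null (fun x hx => ?_) hleft
      exact lt_of_le_of_ne hx.1 hx.2
    · have : ({r} : Set ℝ) \ Iic r = ∅ := by
        ext x; simp
        intro h; linarith
      rw [this, measure_empty]
  rw [setIntegral_congr_set h, integral_singleton, smul_eq_mul]

lemma Sol.mass (S : Sol φ A b a₂ a₁) {r : ℝ} (hb : b.eval r = 0) (hleft : φ (Iio r) = 0) :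
    a₂.eval r * φ.real {r} = 0 := by
  have hfin := S.finite
  by_contra hk
  set k := a₂.eval r * φ.real {r} with hkdef
  have hKr : KK φ a₂ a₁ r = k := by
    show ∫ y in Iic r, uu a₂ a₁ y r ∂φ = k
    rw [setInt_left hleft]
    simp [uu, hkdef, mul_comm]
  have hkpos : 0 < |k| := abs_pos.mpr hk
  set P₁ := ∫ y in Iic r, a₁.eval y ∂φ with hP₁
  -- formula
  have hpoly : ∀ t y : ℝ, uu a₂ a₁ y t = (a₂ + a₁ * (X - C t)).eval y := by
    intro t y; simp [uu]
  have hint : ∀ t : ℝ, Integrable (fun y => uu a₂ a₁ y t) φ := by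
    intro t
    simp_rw [hpoly t]
    exact integrable_poly S.mom _
  have hform : ∀ x, r ≤ x → KK φ a₂ a₁ x = k - (x - r) * P₁ + ∫ y in Ioc r x, uu a₂ a₁ y x ∂φ := by
    intro x hx
    have h1 : KK φ a₂ a₁ x = (∫ y in Iic r, uu a₂ a₁ y x ∂φ) + ∫ y in Ioc r x, uu a₂ a₁ y x ∂φ := by
      have := intervalIntegral.integral_Iic_sub_Iic (μ := φ) (a := r) (b := x)
        (f := fun y => uu a₂ a₁ y x) (hint x).integrableOn (hint x).integrableOn
      rw [intervalIntegral.integral_of_le hx] at this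
      rw [← this]
      show ∫ y in Iic x, uu a₂ a₁ y x ∂φ = _
      ring
    have h2 : ∫ y in Iic r, uu a₂ a₁ y x ∂φ = KK φ a₂ a₁ r - (x - r) * P₁ := by
      show _ = (∫ y in Iic r, uu a₂ a₁ y r ∂φ) - _
      rw [hP₁, ← integral_const_mul, ← integral_sub (hint r).integrableOn
        ((integrable_poly S.mom a₁).const_mul _).integrableOn]
      congr 1
      funext y
      unfold uu
      ring
    rw [h1, h2, hKr]
  -- bounds
  obtain ⟨C₁, hC₁⟩ := (isCompact_Icc.prod isCompact_Icc :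
    IsCompact (Icc r (r + 1) ×ˢ Icc r (r + 1))).exists_bound_of_continuousOn (uu_cont a₂ a₁).continuousOn
  have hrI : r ∈ Icc r (r + 1) := ⟨le_rfl, by linarith⟩
  have hC₁0 : 0 ≤ C₁ := (norm_nonneg _).trans (hC₁ (r, r) ⟨hrI, hrI⟩)
  obtain ⟨bt, hbt⟩ := dvd_iff_isRoot.mpr (show IsRoot b r from hb)
  have hbx : ∀ x, b.eval x = (x - r) * bt.eval x := by intro x; rw [hbt]; simp
  obtain ⟨C₂, hC₂⟩ := (isCompact_Icc : IsCompact (Icc r (r + 1))).exists_bound_of_continuousOn
    bt.continuous.continuousOn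
  have hC₂0 : 0 ≤ C₂ := (norm_nonneg _).trans (hC₂ r hrI)
  have ht := tendsto_Ioc φ r
  have ht1 : Filter.Tendsto (fun x => (x - r) * |P₁| + C₁ * φ.real (Ioc r x))
      (nhdsWithin r (Ioi r)) (nhds 0) := by
    have h1 : Filter.Tendsto (fun x => (x - r) * |P₁|) (nhdsWithin r (Ioi r)) (nhds 0) := by
      have : Filter.Tendsto (fun x => (x - r) * |P₁|) (nhds r) (nhds ((r - r) * |P₁|)) := by
        apply Continuous.tendsto; fun_prop
      rw [sub_self, zero_mul] at this
      exact this.mono_left nhdsWithin_le_nhds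
    have h2 := ht.const_mul C₁
    simpa using h1.add h2
  have ht2 : Filter.Tendsto (fun x => C₂ * φ.real (Ioc r x)) (nhdsWithin r (Ioi r)) (nhds 0) := by
    simpa using ht.const_mul C₂
  have hhalf : 0 < |k| / 2 := by positivity
  have hfour : 0 < |k| / 4 := by positivity
  have hmem : ∀ᶠ x in nhdsWithin r (Ioi r), x ∈ Ioc r (r + 1) :=
    Ioc_mem_nhdsGT (by linarith)
  obtain ⟨x₁, ⟨hx1, hx2⟩, hx3⟩ := (((ht1.eventually (gt_mem_nhds hhalf)).and
    (ht2.eventually (gt_mem_nhds hfour))).and hmem).exists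
  have hKb : ∀ x ∈ Ioc r x₁, |KK φ a₂ a₁ x - k| ≤ |k| / 2 := by
    intro x hx
    rw [hform x hx.1.le]
    have hxI : x ∈ Icc r (r + 1) := ⟨hx.1.le, hx.2.trans hx3.2⟩
    have h1 : ‖∫ y in Ioc r x, uu a₂ a₁ y x ∂φ‖ ≤ C₁ * φ.real (Ioc r x) := by
      refine norm_setIntegral_le_of_norm_le_const (measure_lt_top φ _) (fun y hy => ?_)
      exact hC₁ (x, y) ⟨hxI, ⟨hy.1.le, hy.2.trans hxI.2⟩⟩
    rw [Real.norm_eq_abs] at h1
    have h2 : φ.real (Ioc r x) ≤ φ.real (Ioc r x₁) :=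
      measureReal_mono (Ioc_subset_Ioc_right hx.2)
    have h3 : k - (x - r) * P₁ + (∫ y in Ioc r x, uu a₂ a₁ y x ∂φ) - k
        = - ((x - r) * P₁) + ∫ y in Ioc r x, uu a₂ a₁ y x ∂φ := by ring
    rw [h3]
    have h4 : |(x - r) * P₁| ≤ (x₁ - r) * |P₁| := by
      rw [abs_mul, abs_of_pos (by linarith [hx.1])]
      exact mul_le_mul_of_nonneg_right (by linarith [hx.2]) (abs_nonneg _)
    have h5 : C₁ * φ.real (Ioc r x) ≤ C₁ * φ.real (Ioc r x₁) := mul_le_mul_of_nonneg_left h2 hC₁0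
    have h6 := abs_add_le (- ((x - r) * P₁)) (∫ y in Ioc r x, uu a₂ a₁ y x ∂φ)
    rw [abs_neg] at h6
    linarith
  have hrx : r ≤ x₁ := hx3.1.le
  have hI1 : |(∫ t in r..x₁, KK φ a₂ a₁ t) - k * (x₁ - r)| ≤ |k| / 2 * (x₁ - r) := by
    have h1 : (∫ t in r..x₁, KK φ a₂ a₁ t) - k * (x₁ - r) = ∫ t in r..x₁, (KK φ a₂ a₁ t - k) := by
      rw [intervalIntegral.integral_sub S.K_int.intervalIntegrable (by simp),
        intervalIntegral.integral_const, smul_eq_mul]
      ring
    rw [h1]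
    have h2 := intervalIntegral.norm_integral_le_of_norm_le_const (a := r) (b := x₁)
      (f := fun t => KK φ a₂ a₁ t - k) (C := |k| / 2) (fun t ht => by
        rw [uIoc_of_le hrx] at ht
        exact hKb t ht)
    rw [Real.norm_eq_abs, abs_of_nonneg (by linarith : 0 ≤ x₁ - r)] at h2
    exact h2
  have hI2 : |∫ t in r..x₁, KK φ a₂ a₁ t| ≤ (x₁ - r) * (C₂ * φ.real (Ioc r x₁)) := by
    rw [← S.N_sub r x₁, N_eq_b, N_eq_b]
    have h1 := intervalIntegral.integral_Iic_sub_Iic (μ := φ) (a := r) (b := x₁)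
      (f := fun y => b.eval y) (integrable_poly S.mom b).integrableOn
      (integrable_poly S.mom b).integrableOn
    rw [h1, intervalIntegral.integral_of_le hrx]
    have h2 : ‖∫ y in Ioc r x₁, b.eval y ∂φ‖ ≤ ((x₁ - r) * C₂) * φ.real (Ioc r x₁) := by
      refine norm_setIntegral_le_of_norm_le_const (measure_lt_top φ _) (fun y hy => ?_)
      rw [hbx, norm_mul, Real.norm_eq_abs, abs_of_pos (by linarith [hy.1])]
      have h3 := hC₂ y ⟨hy.1.le, hy.2.trans hx3.2⟩
      exact mul_le_mul (by linarith [hy.2]) h3 (norm_nonneg _) (by linarith)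
    rw [Real.norm_eq_abs] at h2
    linarith
  have hx0 : 0 < x₁ - r := by linarith [hx3.1]
  have h7 : |k * (x₁ - r)| = |k| * (x₁ - r) := by rw [abs_mul, abs_of_pos hx0]
  have h8 : |k * (x₁ - r)| ≤ |(∫ t in r..x₁, KK φ a₂ a₁ t) - k * (x₁ - r)|
      + |∫ t in r..x₁, KK φ a₂ a₁ t| := by
    have := abs_sub_abs_le_abs_sub (k * (x₁ - r)) (∫ t in r..x₁, KK φ a₂ a₁ t)
    rw [abs_sub_comm] at this
    linarith
  have h9 : (x₁ - r) * (C₂ * φ.real (Ioc r x₁)) ≤ (x₁ - r) * (|k| / 4) :=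
    mul_le_mul_of_nonneg_left hx2.le hx0.le
  rw [h7] at h8
  nlinarith

lemma Sol.E_mass (S : Sol φ A b a₂ a₁) {r : ℝ} {At bt : ℝ[X]} (hA : A = (X - C r) ^ 2 * At)
    (hb : b = (X - C r) * bt) (ha : a₂.eval r = 0) :
    bt.eval r * (bt.eval r - At.eval r) * (bt.eval r - 2 * At.eval r) = 0 := by
  have hE := S.E
  have d2 : derivative ((X - C r) ^ 2 : ℝ[X]) = 2 * (X - C r) := by
    rw [derivative_pow]
    simp [C2']
  have dX : derivative (X - C r : ℝ[X]) = 1 := by simp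
  set Sh : ℝ[X] := At * (bt + (X - C r) * derivative bt - a₂)
    + bt * (bt - 2 * At - (X - C r) * derivative At) with hSh
  have hSS : SS A b a₂ = (X - C r) ^ 2 * Sh := by
    rw [SS, hA, hb, derivative_mul, derivative_mul, d2, dX, hSh]
    ring
  rw [hSS, derivative_mul, d2] at hE
  have hE' : (X - C r) ^ 3 * (At * (2 * Sh + (X - C r) * derivative Sh)
      + Sh * (bt - 4 * At - 2 * (X - C r) * derivative At) + (X - C r) * a₁ * At ^ 2) = 0 := by
    rw [← hE, hA, hb, derivative_mul, d2]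
    ring
  have hne : (X - C r : ℝ[X]) ^ 3 ≠ 0 := pow_ne_zero _ (X_sub_C_ne_zero r)
  have hQ := (mul_eq_zero.mp hE').resolve_left hne
  have h1 := congrArg (eval r) hQ
  simp only [hSh, eval_add, eval_mul, eval_sub, eval_X, eval_C, eval_ofNat, eval_pow, eval_zero,
    sub_self, zero_mul, mul_zero, add_zero, sub_zero, ha] at h1
  rw [← h1]
  ring

lemma Sol.E_two (S : Sol φ A b a₂ a₁) (hb : b = derivative A) :
    a₁ = derivative a₂ - derivative (derivative (derivative A)) := by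
  have hE := S.E
  have hSS : SS A b a₂ = A * (derivative (derivative A) - a₂) := by
    rw [SS, hb]; ring
  rw [hSS, hb, derivative_mul, derivative_sub] at hE
  have hE' : A ^ 2 * (derivative (derivative (derivative A)) - derivative a₂ + a₁) = 0 := by
    rw [← hE]; ring
  have h1 := (mul_eq_zero.mp hE').resolve_left (pow_ne_zero 2 S.A0)
  linear_combination h1

end Pool.Agent.R263.Sob
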