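import Pool.Agent.R263.SobJ

set_option autoImplicit false
open Polynomial MeasureTheory Set

namespace Pool.Agent.R263.Sob

/-- The six families of measures of the statement. -/
def Fam (μ : Measure ℝ) : Prop :=
  (∃ α β : ℝ, -1 < α ∧ -1 < β ∧
          μ = MeasureTheory.volume.withDensity (fun x : ℝ => ENNReal.ofReal
            ((Set.Icc (-1 : ℝ) 1).indicator (fun y : ℝ => (1 - y) ^ α * (1 + y) ^ β) x)))
        ∨ (∃ α : ℝ, -1 < α ∧
          μ = MeasureTheory.volume.withDensity (fun x : ℝ => ENNReal.ofReal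
            ((Set.Ioi (0 : ℝ)).indicator (fun y : ℝ => y ^ α * Real.exp (-y)) x)))
        ∨ (μ = MeasureTheory.volume.withDensity (fun x : ℝ => ENNReal.ofReal
            (Real.exp (-(x ^ 2)))))
        ∨ (∃ A : ℝ, 0 < A ∧
          μ = MeasureTheory.volume.restrict (Set.Icc (-1 : ℝ) 1)
            + ENNReal.ofReal (1 / A) • (MeasureTheory.Measure.dirac (-1 : ℝ)
                + MeasureTheory.Measure.dirac (1 : ℝ)))
        ∨ (∃ R : ℝ, 0 < R ∧
          μ = MeasureTheory.volume.withDensity (fun x : ℝ => ENNReal.ofReal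
            ((Set.Ioi (0 : ℝ)).indicator (fun y : ℝ => Real.exp (-y)) x))
            + ENNReal.ofReal (1 / R) • MeasureTheory.Measure.dirac (0 : ℝ))
        ∨ (∃ α M : ℝ, -1 < α ∧ 0 < M ∧
          μ = MeasureTheory.volume.withDensity (fun x : ℝ => ENNReal.ofReal
            ((Set.Ico (0 : ℝ) 1).indicator (fun y : ℝ => (1 - y) ^ α) x))
            + ENNReal.ofReal (1 / M) • MeasureTheory.Measure.dirac (0 : ℝ))

/-- `φ` integrates polynomials like a multiple of an affine image of a family measure. -/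
def Good (φ : Measure ℝ) : Prop :=
  ∃ μ : Measure ℝ, Fam μ ∧ ∃ a b c : ℝ, a ≠ 0 ∧ c ≠ 0 ∧
    ∀ f : ℝ[X], ∫ x, (f.comp (C a * X + C b)).eval x ∂μ = c * ∫ x, f.eval x ∂φ

lemma Good.of_reflect {φ : Measure ℝ} (h : Good (φ.map (fun x => -x))) : Good φ := by
  obtain ⟨μ, hμ, a, b, c, ha, hc, hf⟩ := h
  refine ⟨μ, hμ, -a, -b, c, neg_ne_zero.mpr ha, hc, fun f => ?_⟩
  have := hf (rf f)
  rw [int_map_neg', rf_rf] at this
  rw [← this]
  congr 1
  funext x
  simp only [eval_comp, eval_add, eval_mul, eval_C, eval_X, rf_eval]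
  congr 1
  ring

lemma int_density {W : ℝ → ℝ} (mW : Measurable W) (hW : ∀ x, 0 ≤ W x) (g : ℝ → ℝ) :
    ∫ x, g x ∂(volume.withDensity (fun x => ENNReal.ofReal (W x))) = ∫ x, W x * g x := by
  rw [integral_withDensity_eq_integral_toReal_smul mW.ennreal_ofReal
    (Filter.Eventually.of_forall (fun _ => ENNReal.ofReal_lt_top))]
  congr 1
  funext x
  rw [ENNReal.toReal_ofReal (hW x), smul_eq_mul]

lemma integrable_density {W : ℝ → ℝ} (mW : Measurable W) (hW : ∀ x, 0 ≤ W x) {g : ℝ → ℝ}
    (h : Integrable (fun x => W x * g x) volume) :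
    Integrable g (volume.withDensity (fun x => ENNReal.ofReal (W x))) := by
  rw [integrable_withDensity_iff_integrable_smul' mW.ennreal_ofReal
    (Filter.Eventually.of_forall (fun _ => ENNReal.ofReal_lt_top))]
  refine h.congr (Filter.Eventually.of_forall (fun x => ?_))
  simp only
  rw [ENNReal.toReal_ofReal (hW x), smul_eq_mul]

lemma cov_int {a b c : ℝ} {W w : ℝ → ℝ} (hW : ∀ᵐ y, W y = c * w (a * y + b))
    (f : ℝ → ℝ) : ∫ y, W y * f (a * y + b) = c * |a|⁻¹ * ∫ x, w x * f x := by
  have h1 : ∫ y, W y * f (a * y + b) = ∫ y, c * (w (a * y + b) * f (a * y + b)) := by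
    refine integral_congr_ae ?_
    filter_upwards [hW] with y hy
    rw [hy]; ring
  rw [h1, integral_const_mul]
  have h2 := Measure.integral_comp_mul_left (fun y => w (y + b) * f (y + b)) a
  rw [h2, integral_add_right_eq_self (fun y => w y * f y) b, smul_eq_mul, abs_inv]
  ring

lemma cov_integrable {a b c : ℝ} (ha : a ≠ 0) {W w : ℝ → ℝ} (hW : ∀ᵐ y, W y = c * w (a * y + b))
    {f : ℝ → ℝ} (hf : Integrable (fun x => w x * f x) volume) :
    Integrable (fun y => W y * f (a * y + b)) volume := by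
  have h1 : Integrable (fun y => c * (w (a * y + b) * f (a * y + b))) volume := by
    refine Integrable.const_mul ?_ c
    have h2 := (hf.comp_add_right b).comp_mul_left' ha
    exact h2
  refine h1.congr ?_
  filter_upwards [hW] with y hy
  rw [hy]; ring

lemma eval_aff (f : ℝ[X]) (a b y : ℝ) : (f.comp (C a * X + C b)).eval y = f.eval (a * y + b) := by
  simp

lemma good_jac {φ : Measure ℝ} {r s c₀ α β : ℝ} (hrs : r < s) (hc₀ : 0 < c₀) (hα : -1 < α)
    (hβ : -1 < β)
    (hrep : ∀ f : ℝ[X], ∫ x, f.eval x ∂φ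
      = ∫ x, (Ioo r s).indicator (fun x => c₀ * (x - r) ^ α * (s - x) ^ β) x * f.eval x) : Good φ := by
  set h := (s - r) / 2 with hh
  have hpos : 0 < h := by rw [hh]; linarith
  set c := (c₀ * h ^ α * h ^ β)⁻¹ with hc
  have hcpos : 0 < c₀ * h ^ α * h ^ β := by positivity
  have mW : Measurable (fun x => (Icc (-1 : ℝ) 1).indicator
      (fun y : ℝ => (1 - y) ^ β * (1 + y) ^ α) x) := by
    refine Measurable.indicator ?_ measurableSet_Icc
    fun_prop
  have hW0 : ∀ x, 0 ≤ (Icc (-1 : ℝ) 1).indicator (fun y : ℝ => (1 - y) ^ β * (1 + y) ^ α) x := by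
    intro x
    refine indicator_nonneg (fun y hy => ?_) x
    exact mul_nonneg (Real.rpow_nonneg (by linarith [hy.2]) _) (Real.rpow_nonneg (by linarith [hy.1]) _)
  have hW : ∀ᵐ y : ℝ, (Icc (-1 : ℝ) 1).indicator (fun y : ℝ => (1 - y) ^ β * (1 + y) ^ α) y
      = c * (Ioo r s).indicator (fun x => c₀ * (x - r) ^ α * (s - x) ^ β) (h * y + (r + s) / 2) := by
    have h1 : ∀ᵐ y : ℝ, y ≠ -1 := by rw [ae_iff]; simp
    have h2 : ∀ᵐ y : ℝ, y ≠ 1 := by rw [ae_iff]; simp
    filter_upwards [h1, h2] with y hy1 hy2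
    by_cases hy : y ∈ Icc (-1 : ℝ) 1
    · have hl : -1 < y := lt_of_le_of_ne hy.1 (Ne.symm hy1)
      have hu : y < 1 := lt_of_le_of_ne hy.2 hy2
      have e1 : h * y + (r + s) / 2 - r = h * (1 + y) := by rw [hh]; ring
      have e2 : s - (h * y + (r + s) / 2) = h * (1 - y) := by rw [hh]; ring
      have hmem : h * y + (r + s) / 2 ∈ Ioo r s := by
        constructor
        · have : 0 < h * (1 + y) := mul_pos hpos (by linarith)
          linarith
        · have : 0 < h * (1 - y) := mul_pos hpos (by linarith)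
          linarith
      rw [indicator_of_mem hy, indicator_of_mem hmem, e1, e2, Real.mul_rpow hpos.le (by linarith),
        Real.mul_rpow hpos.le (by linarith), hc]
      have h3 : h ^ α ≠ 0 := (Real.rpow_pos_of_pos hpos _).ne'
      have h4 : h ^ β ≠ 0 := (Real.rpow_pos_of_pos hpos _).ne'
      field_simp
    · have hmem : h * y + (r + s) / 2 ∉ Ioo r s := by
        intro hm
        apply hy
        have e1 : h * (1 + y) = h * y + (r + s) / 2 - r := by rw [hh]; ring
        have e2 : h * (1 - y) = s - (h * y + (r + s) / 2) := by rw [hh]; ring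
        have h3 : 0 < h * (1 + y) := by rw [e1]; linarith [hm.1]
        have h4 : 0 < h * (1 - y) := by rw [e2]; linarith [hm.2]
        have h5 := pos_of_mul_pos_right h3 hpos.le
        have h6 := pos_of_mul_pos_right h4 hpos.le
        exact ⟨by linarith, by linarith⟩
      rw [indicator_of_notMem hy, indicator_of_notMem hmem, mul_zero]
  refine ⟨_, Or.inl ⟨β, α, hβ, hα, rfl⟩, h, (r + s) / 2, c * |h|⁻¹, hpos.ne', ?_, fun f => ?_⟩
  · exact mul_ne_zero (inv_ne_zero hcpos.ne') (inv_ne_zero (abs_ne_zero.mpr hpos.ne'))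
  · rw [int_density mW hW0, hrep f, ← cov_int hW (fun x => f.eval x)]
    simp_rw [eval_aff]

lemma good_lag {φ : Measure ℝ} {r c₀ α k : ℝ} (hk : 0 < k) (hc₀ : 0 < c₀) (hα : -1 < α)
    (hrep : ∀ f : ℝ[X], ∫ x, f.eval x ∂φ
      = ∫ x, (Ioi r).indicator (fun x => c₀ * (x - r) ^ α * Real.exp (-k * (x - r))) x * f.eval x) :
    Good φ := by
  have hk' : 0 < 1 / k := by positivity
  set c := (c₀ * (1 / k) ^ α)⁻¹ with hc
  have hcpos : 0 < c₀ * (1 / k) ^ α := by positivity
  have mW : Measurable (fun x => (Ioi (0 : ℝ)).indicator (fun y : ℝ => y ^ α * Real.exp (-y)) x) := by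
    refine Measurable.indicator ?_ measurableSet_Ioi
    fun_prop
  have hW0 : ∀ x, 0 ≤ (Ioi (0 : ℝ)).indicator (fun y : ℝ => y ^ α * Real.exp (-y)) x := by
    intro x
    refine indicator_nonneg (fun y hy => ?_) x
    exact mul_nonneg (Real.rpow_nonneg (le_of_lt hy) _) (Real.exp_pos _).le
  have hW : ∀ᵐ y : ℝ, (Ioi (0 : ℝ)).indicator (fun y : ℝ => y ^ α * Real.exp (-y)) y
      = c * (Ioi r).indicator (fun x => c₀ * (x - r) ^ α * Real.exp (-k * (x - r))) (1 / k * y + r) := by
    refine Filter.Eventually.of_forall (fun y => ?_)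
    by_cases hy : y ∈ Ioi (0 : ℝ)
    · have hy' : 0 < y := hy
      have e1 : 1 / k * y + r - r = 1 / k * y := by ring
      have hmem : 1 / k * y + r ∈ Ioi r := by
        show r < 1 / k * y + r
        have : 0 < 1 / k * y := by positivity
        linarith
      rw [indicator_of_mem hy, indicator_of_mem hmem, e1, Real.mul_rpow hk'.le hy'.le, hc]
      have e2 : -k * (1 / k * y) = -y := by field_simp
      rw [e2]
      have h3 : (1 / k) ^ α ≠ 0 := (Real.rpow_pos_of_pos hk' _).ne'
      field_simp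
    · have hmem : 1 / k * y + r ∉ Ioi r := by
        intro hm
        apply hy
        have h3 : r < 1 / k * y + r := hm
        have h4 : 0 < 1 / k * y := by linarith
        exact pos_of_mul_pos_right h4 hk'.le
      rw [indicator_of_notMem hy, indicator_of_notMem hmem, mul_zero]
  refine ⟨_, Or.inr (Or.inl ⟨α, hα, rfl⟩), 1 / k, r, c * |1 / k|⁻¹, hk'.ne', ?_, fun f => ?_⟩
  · exact mul_ne_zero (inv_ne_zero hcpos.ne') (inv_ne_zero (abs_ne_zero.mpr hk'.ne'))
  · rw [int_density mW hW0, hrep f, ← cov_int hW (fun x => f.eval x)]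
    simp_rw [eval_aff]

lemma good_her {φ : Measure ℝ} {m c₀ κ : ℝ} (hκ : 0 < κ) (hc₀ : 0 < c₀)
    (hrep : ∀ f : ℝ[X], ∫ x, f.eval x ∂φ
      = ∫ x, (c₀ * Real.exp (-κ * (x - m) ^ 2)) * f.eval x) :
    Good φ := by
  set a := (Real.sqrt κ)⁻¹ with ha
  have hs : 0 < Real.sqrt κ := Real.sqrt_pos.mpr hκ
  have ha0 : 0 < a := inv_pos.mpr hs
  have hsq : κ * a ^ 2 = 1 := by
    rw [ha, inv_pow, Real.sq_sqrt hκ.le]; field_simp
  have mW : Measurable (fun x : ℝ => Real.exp (-(x ^ 2))) := by fun_prop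
  have hW0 : ∀ x : ℝ, 0 ≤ Real.exp (-(x ^ 2)) := fun x => (Real.exp_pos _).le
  have hW : ∀ᵐ y : ℝ, Real.exp (-(y ^ 2))
      = c₀⁻¹ * (fun x => c₀ * Real.exp (-κ * (x - m) ^ 2)) (a * y + m) := by
    refine Filter.Eventually.of_forall (fun y => ?_)
    have e2 : -κ * (a * y + m - m) ^ 2 = -(y ^ 2) := by
      have : -κ * (a * y + m - m) ^ 2 = -(κ * a ^ 2) * y ^ 2 := by ring
      rw [this, hsq]; ring
    simp only [e2]
    field_simp
  refine ⟨_, Or.inr (Or.inr (Or.inl rfl)), a, m, c₀⁻¹ * |a|⁻¹, ha0.ne', ?_, fun f => ?_⟩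
  · exact mul_ne_zero (inv_ne_zero hc₀.ne') (inv_ne_zero (abs_ne_zero.mpr ha0.ne'))
  · rw [int_density mW hW0, hrep f, ← cov_int hW (fun x => f.eval x)]
    simp_rw [eval_aff]

lemma int_smul_dirac {A x₀ : ℝ} (hA : 0 ≤ A) (g : ℝ → ℝ) :
    ∫ x, g x ∂(ENNReal.ofReal A • Measure.dirac x₀) = A * g x₀ := by
  rw [integral_smul_measure, integral_dirac, ENNReal.toReal_ofReal hA, smul_eq_mul]

lemma integrable_smul_dirac {A x₀ : ℝ} (g : ℝ[X]) :
    Integrable (fun x => g.eval x) (ENNReal.ofReal A • Measure.dirac x₀) := by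
  refine Integrable.smul_measure ?_ ENNReal.ofReal_ne_top
  exact integrable_dirac (by finiteness)

lemma good_ltype {φ : Measure ℝ} {r c₀ k M : ℝ} (hk : 0 < k) (hc₀ : 0 < c₀) (hM : 0 < M)
    (hint : ∀ f : ℝ[X], Integrable (fun x => (Ioi r).indicator
      (fun x => c₀ * Real.exp (-k * (x - r))) x * f.eval x) volume)
    (hrep : ∀ f : ℝ[X], ∫ x, f.eval x ∂φ
      = (∫ x, (Ioi r).indicator (fun x => c₀ * Real.exp (-k * (x - r))) x * f.eval x)
        + M * f.eval r) :
    Good φ := by
  have hk' : 0 < 1 / k := by positivity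
  have mW : Measurable (fun x => (Ioi (0 : ℝ)).indicator (fun y : ℝ => Real.exp (-y)) x) := by
    refine Measurable.indicator ?_ measurableSet_Ioi
    fun_prop
  have hW0 : ∀ x, 0 ≤ (Ioi (0 : ℝ)).indicator (fun y : ℝ => Real.exp (-y)) x := by
    intro x
    exact indicator_nonneg (fun y _ => (Real.exp_pos _).le) x
  have hW : ∀ᵐ y : ℝ, (Ioi (0 : ℝ)).indicator (fun y : ℝ => Real.exp (-y)) y
      = c₀⁻¹ * (Ioi r).indicator (fun x => c₀ * Real.exp (-k * (x - r))) (1 / k * y + r) := by
    refine Filter.Eventually.of_forall (fun y => ?_)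
    by_cases hy : y ∈ Ioi (0 : ℝ)
    · have hy' : 0 < y := hy
      have e1 : 1 / k * y + r - r = 1 / k * y := by ring
      have hmem : 1 / k * y + r ∈ Ioi r := by
        show r < 1 / k * y + r
        have : 0 < 1 / k * y := by positivity
        linarith
      rw [indicator_of_mem hy, indicator_of_mem hmem, e1]
      have e2 : -k * (1 / k * y) = -y := by field_simp
      rw [e2]
      field_simp
    · have hmem : 1 / k * y + r ∉ Ioi r := by
        intro hm
        apply hy
        have h3 : r < 1 / k * y + r := hm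
        have h4 : 0 < 1 / k * y := by linarith
        exact pos_of_mul_pos_right h4 hk'.le
      rw [indicator_of_notMem hy, indicator_of_notMem hmem, mul_zero]
  set c := c₀⁻¹ * |1 / k|⁻¹ with hc
  have hcpos : 0 < c := by
    rw [hc, abs_of_pos hk']; positivity
  refine ⟨_, Or.inr (Or.inr (Or.inr (Or.inr (Or.inl ⟨1 / (c * M), by positivity, rfl⟩)))),
    1 / k, r, c, hk'.ne', hcpos.ne', fun f => ?_⟩
  have e3 : 1 / (1 / (c * M)) = c * M := by field_simp
  rw [e3, integral_add_measure, int_density mW hW0, int_smul_dirac (by positivity), hrep f, mul_add,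
    ← cov_int hW (fun x => f.eval x)]
  · simp_rw [eval_aff]
    rw [mul_zero, zero_add]; ring
  · refine integrable_density mW hW0 ?_
    have := cov_integrable hk'.ne' hW (hint f)
    simpa only [eval_aff] using this
  · exact integrable_smul_dirac _

lemma good_jtype {φ : Measure ℝ} {r s c₀ β M : ℝ} (hrs : r < s) (hc₀ : 0 < c₀) (hβ : -1 < β)
    (hM : 0 < M)
    (hint : ∀ f : ℝ[X], Integrable (fun x => (Ioo r s).indicator
      (fun x => c₀ * (s - x) ^ β) x * f.eval x) volume)
    (hrep : ∀ f : ℝ[X], ∫ x, f.eval x ∂φ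
      = (∫ x, (Ioo r s).indicator (fun x => c₀ * (s - x) ^ β) x * f.eval x) + M * f.eval r) :
    Good φ := by
  set h := s - r with hh
  have hpos : 0 < h := by rw [hh]; linarith
  set c' := (c₀ * h ^ β)⁻¹ with hc'
  have hcpos' : 0 < c₀ * h ^ β := by positivity
  have mW : Measurable (fun x => (Ico (0 : ℝ) 1).indicator (fun y : ℝ => (1 - y) ^ β) x) := by
    refine Measurable.indicator ?_ measurableSet_Ico
    fun_prop
  have hW0 : ∀ x, 0 ≤ (Ico (0 : ℝ) 1).indicator (fun y : ℝ => (1 - y) ^ β) x := by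
    intro x
    exact indicator_nonneg (fun y hy => Real.rpow_nonneg (by linarith [hy.2]) _) x
  have hW : ∀ᵐ y : ℝ, (Ico (0 : ℝ) 1).indicator (fun y : ℝ => (1 - y) ^ β) y
      = c' * (Ioo r s).indicator (fun x => c₀ * (s - x) ^ β) (h * y + r) := by
    have h1 : ∀ᵐ y : ℝ, y ≠ 0 := by rw [ae_iff]; simp
    filter_upwards [h1] with y hy1
    by_cases hy : y ∈ Ico (0 : ℝ) 1
    · have hl : 0 < y := lt_of_le_of_ne hy.1 (Ne.symm hy1)
      have e2 : s - (h * y + r) = h * (1 - y) := by rw [hh]; ring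
      have hmem : h * y + r ∈ Ioo r s := by
        constructor
        · have : 0 < h * y := mul_pos hpos hl
          linarith
        · have : 0 < h * (1 - y) := mul_pos hpos (by linarith [hy.2])
          linarith
      rw [indicator_of_mem hy, indicator_of_mem hmem, e2, Real.mul_rpow hpos.le (by linarith [hy.2]),
        hc']
      have h4 : h ^ β ≠ 0 := (Real.rpow_pos_of_pos hpos _).ne'
      field_simp
    · have hmem : h * y + r ∉ Ioo r s := by
        intro hm
        apply hy
        have e2 : h * (1 - y) = s - (h * y + r) := by rw [hh]; ring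
        have h3 : 0 < h * y := by linarith [hm.1]
        have h4 : 0 < h * (1 - y) := by rw [e2]; linarith [hm.2]
        have h5 := pos_of_mul_pos_right h3 hpos.le
        have h6 := pos_of_mul_pos_right h4 hpos.le
        exact ⟨by linarith, by linarith⟩
      rw [indicator_of_notMem hy, indicator_of_notMem hmem, mul_zero]
  set c := c' * |h|⁻¹ with hc
  have hcpos : 0 < c := by
    rw [hc, abs_of_pos hpos]; positivity
  refine ⟨_, Or.inr (Or.inr (Or.inr (Or.inr (Or.inr ⟨β, 1 / (c * M), hβ, by positivity, rfl⟩)))),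
    h, r, c, hpos.ne', hcpos.ne', fun f => ?_⟩
  have e3 : 1 / (1 / (c * M)) = c * M := by field_simp
  rw [e3, integral_add_measure, int_density mW hW0, int_smul_dirac (by positivity), hrep f, mul_add,
    ← cov_int hW (fun x => f.eval x)]
  · simp_rw [eval_aff]
    rw [mul_zero, zero_add]; ring
  · refine integrable_density mW hW0 ?_
    have := cov_integrable hpos.ne' hW (hint f)
    simpa only [eval_aff] using this
  · exact integrable_smul_dirac _

lemma good_leg {φ : Measure ℝ} {r s c₀ M : ℝ} (hrs : r < s) (hc₀ : 0 < c₀) (hM : 0 < M)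
    (hrep : ∀ f : ℝ[X], ∫ x, f.eval x ∂φ
      = (∫ x, (Ioo r s).indicator (fun _ => c₀) x * f.eval x) + M * f.eval r + M * f.eval s) :
    Good φ := by
  set h := (s - r) / 2 with hh
  have hpos : 0 < h := by rw [hh]; linarith
  have hW : ∀ᵐ y : ℝ, (Icc (-1 : ℝ) 1).indicator (fun _ : ℝ => (1 : ℝ)) y
      = c₀⁻¹ * (Ioo r s).indicator (fun _ => c₀) (h * y + (r + s) / 2) := by
    have h1 : ∀ᵐ y : ℝ, y ≠ -1 := by rw [ae_iff]; simp
    have h2 : ∀ᵐ y : ℝ, y ≠ 1 := by rw [ae_iff]; simp
    filter_upwards [h1, h2] with y hy1 hy2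
    by_cases hy : y ∈ Icc (-1 : ℝ) 1
    · have hl : -1 < y := lt_of_le_of_ne hy.1 (Ne.symm hy1)
      have hu : y < 1 := lt_of_le_of_ne hy.2 hy2
      have e1 : h * y + (r + s) / 2 - r = h * (1 + y) := by rw [hh]; ring
      have e2 : s - (h * y + (r + s) / 2) = h * (1 - y) := by rw [hh]; ring
      have hmem : h * y + (r + s) / 2 ∈ Ioo r s := by
        constructor
        · have : 0 < h * (1 + y) := mul_pos hpos (by linarith)
          linarith
        · have : 0 < h * (1 - y) := mul_pos hpos (by linarith)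
          linarith
      rw [indicator_of_mem hy, indicator_of_mem hmem]
      field_simp
    · have hmem : h * y + (r + s) / 2 ∉ Ioo r s := by
        intro hm
        apply hy
        have e1 : h * (1 + y) = h * y + (r + s) / 2 - r := by rw [hh]; ring
        have e2 : h * (1 - y) = s - (h * y + (r + s) / 2) := by rw [hh]; ring
        have h3 : 0 < h * (1 + y) := by rw [e1]; linarith [hm.1]
        have h4 : 0 < h * (1 - y) := by rw [e2]; linarith [hm.2]
        have h5 := pos_of_mul_pos_right h3 hpos.le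
        have h6 := pos_of_mul_pos_right h4 hpos.le
        exact ⟨by linarith, by linarith⟩
      rw [indicator_of_notMem hy, indicator_of_notMem hmem, mul_zero]
  set c := c₀⁻¹ * |h|⁻¹ with hc
  have hcpos : 0 < c := by
    rw [hc, abs_of_pos hpos]; positivity
  refine ⟨_, Or.inr (Or.inr (Or.inr (Or.inl ⟨1 / (c * M), by positivity, rfl⟩))),
    h, (r + s) / 2, c, hpos.ne', hcpos.ne', fun f => ?_⟩
  have e3 : 1 / (1 / (c * M)) = c * M := by field_simp
  rw [e3, smul_add, integral_add_measure, integral_add_measure, int_smul_dirac (by positivity),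
    int_smul_dirac (by positivity), hrep f, mul_add, mul_add,
    ← cov_int hW (fun x => f.eval x), ← integral_indicator measurableSet_Icc]
  · have e4 : (fun x => (Icc (-1 : ℝ) 1).indicator (fun x => (f.comp (C h * X + C ((r + s) / 2))).eval x) x)
        = fun y => (Icc (-1 : ℝ) 1).indicator (fun _ : ℝ => (1 : ℝ)) y * f.eval (h * y + (r + s) / 2) := by
      funext y
      by_cases hy : y ∈ Icc (-1 : ℝ) 1
      · rw [indicator_of_mem hy, indicator_of_mem hy, eval_aff, one_mul]
      · rw [indicator_of_notMem hy, indicator_of_notMem hy, zero_mul]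
    rw [e4, eval_aff, eval_aff]
    have e5 : h * -1 + (r + s) / 2 = r := by rw [hh]; ring
    have e6 : h * 1 + (r + s) / 2 = s := by rw [hh]; ring
    rw [e5, e6]
    ring
  · exact integrable_smul_dirac _
  · exact integrable_smul_dirac _
  · exact (f.comp (C h * X + C ((r + s) / 2))).continuous.continuousOn.integrableOn_Icc
  · exact (integrable_smul_dirac _).add_measure (integrable_smul_dirac _)

end Pool.Agent.R263.Sob
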