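import Pool.Agent.R263.SobK

set_option autoImplicit false
open Polynomial MeasureTheory Set

namespace Pool.Agent.R263.Sob

variable {φ : Measure ℝ} {A b a₂ a₁ : ℝ[X]}

lemma Sol.rep (S : Sol φ A b a₂ a₁) {J : Set ℝ} (hJ : MeasurableSet J)
    (hpos : ∀ x ∈ J, 0 < A.eval x) {w : ℝ → ℝ} (hw : ∀ x ∈ J, NN φ b x / A.eval x = w x)
    (f : ℝ[X]) :
    Integrable (fun x => J.indicator w x * f.eval x) volume ∧
    ∫ x in J, f.eval x ∂φ = ∫ x, J.indicator w x * f.eval x := by
  have hm : Measurable (fun x => ENNReal.ofReal (NN φ b x / A.eval x)) :=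
    (S.N_cont.measurable.div (meas_eval A)).ennreal_ofReal
  have hd := S.dens hJ hpos
  have e1 : (fun x => J.indicator w x * f.eval x)
      = J.indicator (fun x => (ENNReal.ofReal (NN φ b x / A.eval x)).toReal • f.eval x) := by
    funext x
    by_cases hx : x ∈ J
    · rw [indicator_of_mem hx, indicator_of_mem hx, ENNReal.toReal_ofReal, hw x hx, smul_eq_mul]
      exact div_nonneg (S.N_nonneg x) (hpos x hx).le
    · rw [indicator_of_notMem hx, indicator_of_notMem hx, zero_mul]
  constructor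
  · rw [e1, integrable_indicator_iff hJ]
    have h1 : Integrable (fun x => f.eval x) (φ.restrict J) := (integrable_poly S.mom f).restrict
    rw [hd, integrable_withDensity_iff_integrable_smul' hm
      (Filter.Eventually.of_forall (fun _ => ENNReal.ofReal_lt_top))] at h1
    exact h1
  · rw [hd, integral_withDensity_eq_integral_toReal_smul hm
      (Filter.Eventually.of_forall (fun _ => ENNReal.ofReal_lt_top)), e1, integral_indicator hJ]

lemma setInt_right {s : ℝ} (hright : φ (Ioi s) = 0) (f : ℝ → ℝ) :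
    ∫ y in Ici s, f y ∂φ = φ.real {s} * f s := by
  have h : (Ici s : Set ℝ) =ᵐ[φ] ({s} : Set ℝ) := by
    rw [ae_eq_set]
    constructor
    · refine measure_mono_null (fun x hx => ?_) hright
      exact lt_of_le_of_ne hx.1 (Ne.symm hx.2)
    · have : ({s} : Set ℝ) \ Ici s = ∅ := by
        ext x; simp
        intro h; linarith
      rw [this, measure_empty]
  rw [setIntegral_congr_set h, integral_singleton, smul_eq_mul]

lemma decomp_half {r : ℝ} (hleft : φ (Iio r) = 0) {f : ℝ → ℝ} (hf : Integrable f φ) :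
    ∫ x, f x ∂φ = φ.real {r} * f r + ∫ x in Ioi r, f x ∂φ := by
  rw [← setInt_left hleft f, ← integral_add_compl (measurableSet_Iic (a := r)) hf, compl_Iic]

lemma decomp_bdd {r s : ℝ} (hrs : r < s) (hleft : φ (Iio r) = 0) (hright : φ (Ioi s) = 0)
    {f : ℝ → ℝ} (hf : Integrable f φ) :
    ∫ x, f x ∂φ = φ.real {r} * f r + (∫ x in Ioo r s, f x ∂φ) + φ.real {s} * f s := by
  rw [decomp_half hleft hf, ← setInt_right hright f]
  have h1 : Ioi r = Ioo r s ∪ Ici s := (Ioo_union_Ici_eq_Ioi hrs).symm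
  rw [h1, setIntegral_union (by
    rw [Set.disjoint_left]
    intro x hx hx'
    exact absurd hx.2 (not_lt.mpr hx')) measurableSet_Ici hf.integrableOn hf.integrableOn]
  ring

lemma exp_left {r m α : ℝ} (hrm : r < m) {g : ℝ → ℝ} (hg : ContinuousOn g (Icc r m))
    (hg0 : ∀ x ∈ Icc r m, g x ≠ 0) (hi : IntegrableOn (fun x => (x - r) ^ α * g x) (Ioo r m)) :
    -1 < α := by
  rw [← integrableOn_Icc_iff_integrableOn_Ioo] at hi
  have h1 := hi.mul_continuousOn (hg.inv₀ hg0) isCompact_Icc
  have h2 : IntegrableOn (fun x => (x - r) ^ α) (Icc r m) := by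
    refine h1.congr_fun (fun x hx => ?_) measurableSet_Icc
    show (x - r) ^ α * g x * (g x)⁻¹ = (x - r) ^ α
    rw [mul_assoc, mul_inv_cancel₀ (hg0 x hx), mul_one]
  have h3 : IntervalIntegrable (fun x => (x - r) ^ α) volume r m := by
    rw [intervalIntegrable_iff_integrableOn_Icc_of_le hrm.le]; exact h2
  have h4 := h3.comp_add_right r
  simp only [add_sub_cancel_right, sub_self] at h4
  have hm : 0 < m - r := by linarith
  rw [intervalIntegrable_iff_integrableOn_Ioo_of_le hm.le] at h4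
  exact (intervalIntegral.integrableOn_Ioo_rpow_iff hm).mp h4

lemma exp_right {m s β : ℝ} (hms : m < s) {g : ℝ → ℝ} (hg : ContinuousOn g (Icc m s))
    (hg0 : ∀ x ∈ Icc m s, g x ≠ 0) (hi : IntegrableOn (fun x => (s - x) ^ β * g x) (Ioo m s)) :
    -1 < β := by
  rw [← integrableOn_Icc_iff_integrableOn_Ioo] at hi
  have h1 := hi.mul_continuousOn (hg.inv₀ hg0) isCompact_Icc
  have h2 : IntegrableOn (fun x => (s - x) ^ β) (Icc m s) := by
    refine h1.congr_fun (fun x hx => ?_) measurableSet_Icc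
    show (s - x) ^ β * g x * (g x)⁻¹ = (s - x) ^ β
    rw [mul_assoc, mul_inv_cancel₀ (hg0 x hx), mul_one]
  have h3 : IntervalIntegrable (fun x => (s - x) ^ β) volume m s := by
    rw [intervalIntegrable_iff_integrableOn_Icc_of_le hms.le]; exact h2
  have h4 := h3.symm.comp_sub_left s
  simp only [sub_sub_cancel, sub_self] at h4
  have hm : 0 < s - m := by linarith
  rw [intervalIntegrable_iff_integrableOn_Ioo_of_le hm.le] at h4
  exact (intervalIntegral.integrableOn_Ioo_rpow_iff hm).mp h4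

lemma Sol.N_zero_of_null (S : Sol φ A b a₂ a₁) {U : Set ℝ} (hU : IsOpen U) (h0 : φ U = 0) :
    ∀ x ∈ U, NN φ b x = 0 := by
  have h1 : ∫ x in U, NN φ b x = 0 := by
    rw [← S.M1_set hU.measurableSet, Measure.restrict_eq_zero.mpr h0]
    simp
  rw [setIntegral_eq_zero_iff_of_nonneg_ae (Filter.Eventually.of_forall (fun x => S.N_nonneg x))
    S.N_int.integrableOn] at h1
  exact Measure.eqOn_open_of_ae_eq (μ := volume) h1 hU S.N_cont.continuousOn continuousOn_const

lemma Sol.right_unb (S : Sol φ A b a₂ a₁) {R : ℝ} (hR : ∀ x ∈ Ioi R, A.eval x ≠ 0)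
    (hφ : φ (Ioi R) ≠ 0) : A.natDegree ≤ b.natDegree ∧ b.leadingCoeff < 0 := by
  have hpos : ∀ x ∈ Ioi R, 0 < A.eval x := by
    by_cases h : ∃ x₀ ∈ Ioi R, 0 < A.eval x₀
    · obtain ⟨x₀, hx₀, h0⟩ := h
      exact sign_const isPreconnected_Ioi hR hx₀ h0
    · exfalso
      push Not at h
      apply hφ
      refine measure_mono_null (fun x hx => ?_) S.neg_null
      exact lt_of_le_of_ne (h x hx) (hR x hx)
  have hlc := lc_pos_of_pos hpos
  constructor
  · by_contra hlt
    push Not at hlt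
    obtain ⟨M, hM⟩ := ev_cond1 hlt hlc
    exact hφ (S.inf_null hR M hM)
  · by_contra hge
    push Not at hge
    apply hφ
    rcases eq_or_lt_of_le hge with h | h
    · have hb : b = 0 := leadingCoeff_eq_zero.mp h.symm
      refine S.inf_null hR 0 (Filter.Eventually.of_forall (fun x => ?_))
      rw [hb]; simp
    · exact S.inf_null hR 0 (ev_cond2 h)

lemma map_neg_Ioi (φ : Measure ℝ) (R : ℝ) : (φ.map (fun x => -x)) (Ioi R) = φ (Iio (-R)) := by
  rw [map_neg_apply φ measurableSet_Ioi]
  congr 1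
  ext x
  simp only [mem_Ioi, mem_Iio, mem_ofPred_eq]
  exact lt_neg

lemma map_neg_Iio (φ : Measure ℝ) (R : ℝ) : (φ.map (fun x => -x)) (Iio R) = φ (Ioi (-R)) := by
  rw [map_neg_apply φ measurableSet_Iio]
  congr 1
  ext x
  simp only [mem_Ioi, mem_Iio, mem_ofPred_eq]
  exact neg_lt

lemma map_neg_sing (φ : Measure ℝ) (R : ℝ) : (φ.map (fun x => -x)).real {R} = φ.real {-R} := by
  rw [Measure.real, map_neg_apply φ (measurableSet_singleton R), Measure.real]
  congr 2
  ext x
  simp only [mem_singleton_iff, mem_ofPred_eq]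
  constructor
  · intro h; linarith
  · intro h; linarith

lemma Sol.left_unb (S : Sol φ A b a₂ a₁) {R : ℝ} (hR : ∀ x ∈ Iio R, A.eval x ≠ 0)
    (hφ : φ (Iio R) ≠ 0) : A.natDegree ≤ b.natDegree ∧ 0 < (rf b).leadingCoeff := by
  have h := S.reflect.right_unb (R := -R) (fun x hx => by
    rw [rf_eval]
    exact hR (-x) (by
      have : -R < x := hx
      show -x < R
      linarith)) (by rw [map_neg_Ioi, neg_neg]; exact hφ)
  rw [natDegree_neg, rf_natDegree, rf_natDegree, leadingCoeff_neg] at h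
  exact ⟨h.1, by linarith [h.2]⟩

lemma Sol.mass_right (S : Sol φ A b a₂ a₁) {s : ℝ} (hb : b.eval s = 0) (hright : φ (Ioi s) = 0) :
    a₂.eval s * φ.real {s} = 0 := by
  have h := S.reflect.mass (r := -s) (by rw [eval_neg, rf_eval, neg_neg, hb, neg_zero])
    (by rw [map_neg_Iio, neg_neg]; exact hright)
  rw [rf_eval, neg_neg, map_neg_sing, neg_neg] at h
  exact h

end Pool.Agent.R263.Sob
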