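import Pool.Agent.R263.SobL

set_option autoImplicit false
open Polynomial MeasureTheory Set

namespace Pool.Agent.R263.Sob

variable {φ : Measure ℝ} {A b a₂ a₁ : ℝ[X]}

lemma Sol.case3 (S : Sol φ A b a₂ a₁) {t b₁ b₀ : ℝ} (ht : 0 < t) (hb₁ : b₁ < 0) (hA : A = C t)
    (hb : b = C b₁ * X + C b₀) : Good φ := by
  obtain ⟨x₀, -, hx₀⟩ := S.exists_pos
  set κ := -b₁ / (2 * t) with hκ
  have hκ0 : 0 < κ := div_pos (by linarith) (by linarith)
  set m := -b₀ / b₁ with hm
  set E : ℝ → ℝ := fun x => Real.exp (-κ * (x - m) ^ 2) with hE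
  have hEd : ∀ x ∈ (univ : Set ℝ), HasDerivAt E (b.eval x / A.eval x * E x) x := by
    intro x _
    have h1 : HasDerivAt (fun x : ℝ => -κ * (x - m) ^ 2) (-κ * (2 * (x - m))) x := by
      have := (((hasDerivAt_id x).sub_const m).pow 2).const_mul (-κ)
      refine this.congr_deriv ?_
      simp
    refine h1.exp.congr_deriv ?_
    rw [hA, hb]
    simp only [eval_add, eval_mul, eval_C, eval_X]
    have hb1 : b₁ ≠ 0 := hb₁.ne
    have e : -κ * (2 * (x - m)) = (b₁ * x + b₀) / t := by
      rw [hκ, hm]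
      field_simp
      ring
    rw [e, hE]
    ring
  have hN := S.N_eq_const isOpen_univ isPreconnected_univ (by intro x _; rw [hA]; simp [ht.ne'])
    (fun x _ => Real.exp_pos _) hEd (mem_univ x₀)
  set c₁ := NN φ b x₀ / E x₀ with hc₁
  have hc₁0 : 0 < c₁ := div_pos hx₀ (Real.exp_pos _)
  refine good_her (m := m) (c₀ := c₁ / t) hκ0 (by positivity) (fun f => ?_)
  have hrep := (S.rep (J := univ) MeasurableSet.univ (by intro x _; rw [hA]; simpa using ht)
    (w := fun x => c₁ / t * Real.exp (-κ * (x - m) ^ 2)) (fun x hx => by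
      rw [hN x hx, hA, eval_C]
      show c₁ * Real.exp (-κ * (x - m) ^ 2) / t = c₁ / t * Real.exp (-κ * (x - m) ^ 2)
      ring) f).2
  rw [Measure.restrict_univ, indicator_univ] at hrep
  exact hrep

lemma Sol.case2 (S : Sol φ A b a₂ a₁) {r t b₁ b₀ : ℝ} (ht : 0 < t) (hb₁ : b₁ < 0)
    (hA : A = C t * (X - C r) ^ 2) (hb : b = (X - C r) * (C b₁ * (X - C r) + C b₀)) : Good φ := by
  have hAx : ∀ x, A.eval x = t * (x - r) ^ 2 := by intro x; rw [hA]; simp
  have hbx : ∀ x, b.eval x = (x - r) * (b₁ * (x - r) + b₀) := by intro x; rw [hb]; simp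
  have hlin : C b₁ * (X - C r) + C b₀ = C b₁ * X + C (b₀ - b₁ * r) := by
    simp only [map_sub, map_mul]; ring
  have hdeg : b.natDegree = 2 := by
    rw [hb, hlin, natDegree_mul (X_sub_C_ne_zero r) (by
      intro h
      have := natDegree_linear (b := b₀ - b₁ * r) hb₁.ne
      rw [h] at this; simp at this), natDegree_X_sub_C, natDegree_linear hb₁.ne]
  have hlc : b.leadingCoeff = b₁ := by
    rw [hb, hlin, leadingCoeff_mul, leadingCoeff_X_sub_C, leadingCoeff_linear hb₁.ne, one_mul]
  have hleft : φ (Iio r) = 0 := by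
    by_contra h
    have := (S.left_unb (R := r) (fun x hx => by
      rw [hAx]
      have : x - r ≠ 0 := by have : x < r := hx; linarith
      positivity) h).2
    rw [rf_lc, hdeg, hlc] at this
    norm_num at this
    linarith
  obtain ⟨x₀, hx₀A, hx₀⟩ := S.exists_pos
  have hx₀r : x₀ ∈ Ioi r := by
    show r < x₀
    rcases lt_trichotomy x₀ r with h | h | h
    · exact absurd (S.N_zero_of_null isOpen_Iio hleft x₀ h) hx₀.ne'
    · rw [h, hAx] at hx₀A; simp at hx₀A
    · exact h
  set p := b₀ / t with hp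
  set κ := b₁ / t with hκ
  have hκ0 : κ < 0 := div_neg_of_neg_of_pos hb₁ ht
  set E : ℝ → ℝ := fun x => (x - r) ^ p * Real.exp (κ * (x - r)) with hE
  have hApos : ∀ x ∈ Ioi r, 0 < A.eval x := by
    intro x hx
    rw [hAx]
    have : x - r ≠ 0 := by have : r < x := hx; linarith
    positivity
  have hE0 : ∀ x ∈ Ioi r, 0 < E x := by
    intro x hx
    have : 0 < x - r := by have : r < x := hx; linarith
    exact mul_pos (Real.rpow_pos_of_pos this _) (Real.exp_pos _)
  have hEd : ∀ x ∈ Ioi r, HasDerivAt E (b.eval x / A.eval x * E x) x := by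
    intro x hx
    have hx0 : 0 < x - r := by have : r < x := hx; linarith
    have h1 : HasDerivAt (fun x : ℝ => (x - r) ^ p) (1 * p * (x - r) ^ (p - 1)) x :=
      ((hasDerivAt_id x).sub_const r).rpow_const (Or.inl hx0.ne')
    have h2 : HasDerivAt (fun x : ℝ => Real.exp (κ * (x - r))) (Real.exp (κ * (x - r)) * (κ * 1)) x :=
      (((hasDerivAt_id x).sub_const r).const_mul κ).exp
    refine (h1.mul h2).congr_deriv ?_
    rw [Real.rpow_sub_one hx0.ne', hAx, hbx]
    simp only [hE, hp, hκ]
    field_simp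
    ring
  have hN := S.N_eq_const isOpen_Ioi isPreconnected_Ioi (fun x hx => (hApos x hx).ne') hE0 hEd hx₀r
  set c₁ := NN φ b x₀ / E x₀ with hc₁
  have hc₁0 : 0 < c₁ := div_pos hx₀ (hE0 x₀ hx₀r)
  have hc₀ : 0 < c₁ / t := by positivity
  have hk : 0 < -κ := by linarith
  have hw : ∀ x ∈ Ioi r, NN φ b x / A.eval x
      = c₁ / t * (x - r) ^ (p - 2) * Real.exp (-(-κ) * (x - r)) := by
    intro x hx
    have hx0 : 0 < x - r := by have : r < x := hx; linarith
    have e : p - 2 = p - 1 - 1 := by ring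
    rw [hN x hx, hAx, e, Real.rpow_sub_one hx0.ne', Real.rpow_sub_one hx0.ne', neg_neg]
    simp only [hE]
    field_simp
  have hrep := S.rep (J := Ioi r) measurableSet_Ioi hApos hw
  have hfin := S.finite
  have hα : -1 < p - 2 := by
    have h1 := (hrep 1).1
    simp only [eval_one, mul_one] at h1
    rw [integrable_indicator_iff measurableSet_Ioi] at h1
    have h2 : IntegrableOn (fun x => (x - r) ^ (p - 2) * (c₁ / t * Real.exp (-(-κ) * (x - r))))
        (Ioo r (r + 1)) volume := by
      refine (h1.mono_set Ioo_subset_Ioi_self).congr_fun (fun x _ => ?_) measurableSet_Ioo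
      simp only
      ring
    refine exp_left (by linarith : r < r + 1) ?_ ?_ h2
    · fun_prop
    · intro x _
      have := Real.exp_pos (-(-κ) * (x - r))
      positivity
  rcases eq_or_lt_of_le (measureReal_nonneg (μ := φ) (s := {r})) with hM | hM
  · refine good_lag (r := r) hk hc₀ hα (fun f => ?_)
    rw [decomp_half hleft (integrable_poly S.mom f), ← hM, zero_mul, zero_add]
    exact (hrep f).2
  · -- a mass at `r`
    have hbr : b.eval r = 0 := by rw [hbx]; ring
    have ha₂ : a₂.eval r = 0 := (mul_eq_zero.mp (S.mass hbr hleft)).resolve_right hM.ne'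
    have hE := S.E_mass (At := C t) (bt := C b₁ * (X - C r) + C b₀) (by rw [hA]; ring) hb ha₂
    simp only [eval_add, eval_mul, eval_C, eval_sub, eval_X, sub_self, mul_zero, zero_add] at hE
    have hb₀ : t < b₀ := by
      have : 1 < p := by linarith
      rw [hp, lt_div_iff₀ ht] at this
      linarith
    have hb2 : b₀ = 2 * t := by
      rcases mul_eq_zero.mp hE with h | h
      · rcases mul_eq_zero.mp h with h | h
        · linarith
        · linarith
      · linarith
    have hp2 : p = 2 := by rw [hp, hb2]; field_simp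
    have e0 : (Ioi r).indicator (fun x => c₁ / t * (x - r) ^ (p - 2) * Real.exp (-(-κ) * (x - r)))
        = (Ioi r).indicator (fun x => c₁ / t * Real.exp (-(-κ) * (x - r))) := by
      have : p - 2 = 0 := by linarith
      simp only [this, Real.rpow_zero, mul_one]
    rw [e0] at hrep
    refine good_ltype (r := r) hk hc₀ hM (fun f => (hrep f).1) (fun f => ?_)
    rw [decomp_half hleft (integrable_poly S.mom f), ← (hrep f).2]
    ring

end Pool.Agent.R263.Sob
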