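import Pool.Agent.R263.SobM

set_option autoImplicit false
open Polynomial MeasureTheory Set

namespace Pool.Agent.R263.Sob

variable {φ : Measure ℝ} {A b a₂ a₁ : ℝ[X]}

lemma int_ind_const {r s w₀ : ℝ} (hrs : r ≤ s) (f : ℝ → ℝ) :
    ∫ x, (Ioo r s).indicator (fun _ => w₀) x * f x = w₀ * ∫ x in r..s, f x := by
  have e : (fun x => (Ioo r s).indicator (fun _ => w₀) x * f x)
      = (Ioo r s).indicator (fun x => w₀ * f x) := by
    funext x
    by_cases hx : x ∈ Ioo r s
    · rw [indicator_of_mem hx, indicator_of_mem hx]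
    · rw [indicator_of_notMem hx, indicator_of_notMem hx, zero_mul]
  rw [e, integral_indicator measurableSet_Ioo, integral_const_mul, ← integral_Ioc_eq_integral_Ioo,
    intervalIntegral.integral_of_le hrs]

lemma int_u (r s : ℝ) : ∫ x in r..s, (x - r) * (x - s) = - (s - r) ^ 3 / 6 := by
  have h : ∀ x ∈ uIcc r s, HasDerivAt (fun x : ℝ => (x - r) ^ 2 * (x - s) / 2 - (x - r) ^ 3 / 6)
      ((x - r) * (x - s)) x := by
    intro x _
    have h1 := (hasDerivAt_id x).sub_const r
    have h2 := (hasDerivAt_id x).sub_const s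
    have h3 := (((h1.pow 2).mul h2).div_const 2).sub ((h1.pow 3).div_const 6)
    refine h3.congr_deriv ?_
    simp
    ring
  rw [intervalIntegral.integral_eq_sub_of_hasDerivAt h (by apply Continuous.intervalIntegrable; fun_prop)]
  ring

lemma int_u' (r s : ℝ) : ∫ x in r..s, (2 * x - (r + s)) = 0 := by
  have h : ∀ x ∈ uIcc r s, HasDerivAt (fun x : ℝ => (x - r) * (x - s)) (2 * x - (r + s)) x := by
    intro x _
    have h1 := (hasDerivAt_id x).sub_const r
    have h2 := (hasDerivAt_id x).sub_const s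
    refine (h1.mul h2).congr_deriv ?_
    simp
    ring
  rw [intervalIntegral.integral_eq_sub_of_hasDerivAt h (by apply Continuous.intervalIntegrable; fun_prop)]
  ring

lemma d_u (r s : ℝ) : derivative ((X - C r) * (X - C s) : ℝ[X]) = 2 * X - C (r + s) := by
  rw [derivative_mul, derivative_X_sub_C, derivative_X_sub_C, map_add]
  ring

lemma d_u2 (r s : ℝ) : derivative (((X - C r) * (X - C s)) ^ 2 : ℝ[X])
    = 2 * ((X - C r) * (X - C s)) * (2 * X - C (r + s)) := by
  rw [pow_two, derivative_mul, d_u]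
  ring

lemma d_v (r s : ℝ) : derivative (2 * X - C (r + s) : ℝ[X]) = 2 := by
  rw [derivative_sub, derivative_mul, derivative_X, derivative_C, derivative_ofNat]
  ring

lemma d3A (r s t : ℝ) : derivative (derivative (derivative
    (C t * ((X - C r) * (X - C s)) ^ 2 : ℝ[X]))) = C (12 * t) * (2 * X - C (r + s)) := by
  have h1 : derivative (C t * ((X - C r) * (X - C s)) ^ 2 : ℝ[X])
      = C (2 * t) * (((X - C r) * (X - C s)) * (2 * X - C (r + s))) := by
    rw [derivative_C_mul, d_u2, map_mul, map_ofNat]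
    ring
  have h2 : derivative (((X - C r) * (X - C s)) * (2 * X - C (r + s)) : ℝ[X])
      = (2 * X - C (r + s)) ^ 2 + 2 * ((X - C r) * (X - C s)) := by
    rw [derivative_mul, d_u, d_v]
    ring
  have h3 : derivative ((2 * X - C (r + s)) ^ 2 + 2 * ((X - C r) * (X - C s)) : ℝ[X])
      = 6 * (2 * X - C (r + s)) := by
    rw [derivative_add, pow_two, derivative_mul, d_v, derivative_mul, d_u, derivative_ofNat]
    ring
  rw [h1, derivative_C_mul, derivative_C_mul, h2, h3, map_mul, map_mul, map_ofNat, map_ofNat]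
  ring

/-- In the two-mass case the masses are equal. -/
lemma Sol.masses_eq (S : Sol φ A b a₂ a₁) {r s t w₀ : ℝ} (hrs : r < s) (ht : 0 < t) (hw₀ : 0 < w₀)
    (hA : A = C t * ((X - C r) * (X - C s)) ^ 2) (hb : b = derivative A)
    (ha₂r : a₂.eval r = 0) (ha₂s : a₂.eval s = 0)
    (hrep : ∀ f : ℝ[X], ∫ x, f.eval x ∂φ = φ.real {r} * f.eval r
      + (∫ x, (Ioo r s).indicator (fun _ => w₀) x * f.eval x) + φ.real {s} * f.eval s) :
    φ.real {r} = φ.real {s} := by
  obtain ⟨Q, hQ⟩ := dvd_iff_isRoot.mpr (show IsRoot a₂ r from ha₂r)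
  have hQs : Q.eval s = 0 := by
    rw [hQ] at ha₂s
    simp only [eval_mul, eval_sub, eval_X, eval_C] at ha₂s
    exact (mul_eq_zero.mp ha₂s).resolve_left (by linarith)
  obtain ⟨Q2, hQ2⟩ := dvd_iff_isRoot.mpr (show IsRoot Q s from hQs)
  have hQ2d : Q2.natDegree = 0 := by
    by_contra hne
    have hQ20 : Q2 ≠ 0 := by rintro rfl; simp at hne
    have hd := S.da₂
    rw [hQ, hQ2, natDegree_mul (X_sub_C_ne_zero r) (mul_ne_zero (X_sub_C_ne_zero s) hQ20),
      natDegree_mul (X_sub_C_ne_zero s) hQ20, natDegree_X_sub_C, natDegree_X_sub_C] at hd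
    omega
  set κ := Q2.coeff 0 with hκ
  have ha₂ : a₂ = C κ * ((X - C r) * (X - C s)) := by
    rw [hQ, hQ2, eq_C_of_natDegree_eq_zero hQ2d]
    simp only [← hκ]
    ring
  have hE := S.E_two hb
  have ha₁ : a₁ = C (κ - 12 * t) * (2 * X - C (r + s)) := by
    rw [hE, ha₂, hA]
    rw [d3A, derivative_C_mul, d_u, map_sub]
    ring
  have h1 := S.a₁int
  have h2 := S.a₂int
  have e1 : ∀ x, a₁.eval x = (κ - 12 * t) * (2 * x - (r + s)) := by intro x; rw [ha₁]; simp
  have e2 : ∀ x, a₂.eval x = κ * ((x - r) * (x - s)) := by intro x; rw [ha₂]; simp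
  rw [hrep, int_ind_const hrs.le] at h1
  simp only [e1] at h1
  rw [intervalIntegral.integral_const_mul, int_u'] at h1
  have hne : κ - 12 * t ≠ 0 := by
    intro h0
    rw [hrep, int_ind_const hrs.le] at h2
    simp only [eval_add, eval_mul, eval_X, e1, e2, h0, zero_mul, mul_zero, add_zero] at h2
    rw [intervalIntegral.integral_const_mul, int_u] at h2
    have hκt : κ = 12 * t := by linarith
    rw [hκt] at h2
    have h3 : 0 < (s - r) ^ 3 := by
      have : 0 < s - r := by linarith
      positivity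
    have h4 : w₀ * (12 * t * (-(s - r) ^ 3 / 6)) = - (2 * (w₀ * t * (s - r) ^ 3)) := by ring
    simp only [sub_self, zero_mul, mul_zero, zero_add, add_zero] at h2
    rw [h4] at h2
    have h5 : 0 < w₀ * t * (s - r) ^ 3 := by positivity
    linarith
  have h3 : (κ - 12 * t) * ((s - r) * (φ.real {s} - φ.real {r})) = 0 := by
    rw [← h1]; ring
  have h4 := (mul_eq_zero.mp h3).resolve_left hne
  have h5 := (mul_eq_zero.mp h4).resolve_left (by linarith)
  linarith

lemma Sol.case1 (S : Sol φ A b a₂ a₁) {r s t ℓ₁ ℓ₀ : ℝ} (hrs : r < s) (ht : 0 < t)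
    (hA : A = C t * ((X - C r) * (X - C s)) ^ 2)
    (hb : b = (X - C r) * (X - C s) * (C ℓ₁ * X + C ℓ₀))
    (hM : φ.real {s} = 0 ∨ 0 < φ.real {r}) : Good φ := by
  have hAx : ∀ x, A.eval x = t * ((x - r) * (x - s)) ^ 2 := by intro x; rw [hA]; simp
  have hbx : ∀ x, b.eval x = (x - r) * (x - s) * (ℓ₁ * x + ℓ₀) := by intro x; rw [hb]; simp
  have hdA : A.natDegree = 4 := by
    rw [hA, natDegree_C_mul ht.ne', natDegree_pow, natDegree_mul (X_sub_C_ne_zero r)
      (X_sub_C_ne_zero s), natDegree_X_sub_C, natDegree_X_sub_C]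
  have hdb := S.db
  have hright : φ (Ioi s) = 0 := by
    by_contra h
    have := (S.right_unb (R := s) (fun x hx => by
      rw [hAx]
      have h1 : s < x := hx
      have h2 : x - s ≠ 0 := by linarith
      have h3 : x - r ≠ 0 := by linarith
      positivity) h).1
    omega
  have hleft : φ (Iio r) = 0 := by
    by_contra h
    have := (S.left_unb (R := r) (fun x hx => by
      rw [hAx]
      have h1 : x < r := hx
      have h2 : x - s ≠ 0 := by linarith
      have h3 : x - r ≠ 0 := by linarith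
      positivity) h).1
    omega
  obtain ⟨x₀, hx₀A, hx₀⟩ := S.exists_pos
  have hx₀r : x₀ ∈ Ioo r s := by
    constructor
    · rcases lt_trichotomy x₀ r with h | h | h
      · exact absurd (S.N_zero_of_null isOpen_Iio hleft x₀ h) hx₀.ne'
      · rw [h, hAx] at hx₀A; simp at hx₀A
      · exact h
    · rcases lt_trichotomy x₀ s with h | h | h
      · exact h
      · rw [h, hAx] at hx₀A; simp at hx₀A
      · exact absurd (S.N_zero_of_null isOpen_Ioi hright x₀ h) hx₀.ne'
  set p := (ℓ₁ * r + ℓ₀) / (t * (r - s)) with hp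
  set q := (ℓ₁ * s + ℓ₀) / (t * (s - r)) with hq
  have hrs' : 0 < s - r := by linarith
  set E : ℝ → ℝ := fun x => (x - r) ^ p * (s - x) ^ q with hE
  have hApos : ∀ x ∈ Ioo r s, 0 < A.eval x := by
    intro x hx
    rw [hAx]
    have h2 : x - s ≠ 0 := by linarith [hx.2]
    have h3 : x - r ≠ 0 := by linarith [hx.1]
    positivity
  have hE0 : ∀ x ∈ Ioo r s, 0 < E x := by
    intro x hx
    exact mul_pos (Real.rpow_pos_of_pos (by linarith [hx.1]) _)
      (Real.rpow_pos_of_pos (by linarith [hx.2]) _)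
  have hEd : ∀ x ∈ Ioo r s, HasDerivAt E (b.eval x / A.eval x * E x) x := by
    intro x hx
    have hx0 : 0 < x - r := by linarith [hx.1]
    have hx1 : 0 < s - x := by linarith [hx.2]
    have h1 : HasDerivAt (fun x : ℝ => (x - r) ^ p) (1 * p * (x - r) ^ (p - 1)) x :=
      ((hasDerivAt_id x).sub_const r).rpow_const (Or.inl hx0.ne')
    have h2 : HasDerivAt (fun x : ℝ => (s - x) ^ q) (-1 * q * (s - x) ^ (q - 1)) x :=
      ((hasDerivAt_id x).const_sub s).rpow_const (Or.inl hx1.ne')
    refine (h1.mul h2).congr_deriv ?_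
    rw [Real.rpow_sub_one hx0.ne', Real.rpow_sub_one hx1.ne', hAx, hbx]
    have hxs : x - s = - (s - x) := by ring
    have hrs2 : r - s = - (s - r) := by ring
    have key : p / (x - r) - q / (s - x) = - (ℓ₁ * x + ℓ₀) / (t * (x - r) * (s - x)) := by
      rw [hp, hq, hrs2]
      field_simp
      ring
    have e1 : 1 * p * ((x - r) ^ p / (x - r)) * (s - x) ^ q
        + (x - r) ^ p * (-1 * q * ((s - x) ^ q / (s - x)))
        = (p / (x - r) - q / (s - x)) * ((x - r) ^ p * (s - x) ^ q) := by
      field_simp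
      ring
    rw [e1, key, hxs]
    simp only [hE]
    field_simp
  have hN := S.N_eq_const isOpen_Ioo isPreconnected_Ioo (fun x hx => (hApos x hx).ne') hE0 hEd hx₀r
  set c₁ := NN φ b x₀ / E x₀ with hc₁
  have hc₁0 : 0 < c₁ := div_pos hx₀ (hE0 x₀ hx₀r)
  have hc₀ : 0 < c₁ / t := by positivity
  have hw : ∀ x ∈ Ioo r s, NN φ b x / A.eval x
      = c₁ / t * (x - r) ^ (p - 2) * (s - x) ^ (q - 2) := by
    intro x hx
    have hx0 : 0 < x - r := by linarith [hx.1]
    have hx1 : 0 < s - x := by linarith [hx.2]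
    have e : p - 2 = p - 1 - 1 := by ring
    have e' : q - 2 = q - 1 - 1 := by ring
    have hxs : x - s = - (s - x) := by ring
    rw [hN x hx, hAx, e, e', Real.rpow_sub_one hx0.ne', Real.rpow_sub_one hx0.ne',
      Real.rpow_sub_one hx1.ne', Real.rpow_sub_one hx1.ne', hxs]
    simp only [hE]
    field_simp
  have hrep := S.rep (J := Ioo r s) measurableSet_Ioo hApos hw
  have hfin := S.finite
  have h1 := (hrep 1).1
  simp only [eval_one, mul_one] at h1
  rw [integrable_indicator_iff measurableSet_Ioo] at h1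
  have hα : -1 < p - 2 := by
    have h2 : IntegrableOn (fun x => (x - r) ^ (p - 2) * (c₁ / t * (s - x) ^ (q - 2)))
        (Ioo r ((r + s) / 2)) volume := by
      refine (h1.mono_set (Ioo_subset_Ioo_right (by linarith))).congr_fun (fun x _ => ?_)
        measurableSet_Ioo
      simp only
      ring
    refine exp_left (by linarith : r < (r + s) / 2) ?_ ?_ h2
    · refine continuousOn_const.mul (ContinuousOn.rpow_const (by fun_prop) (fun x hx => ?_))
      left; linarith [hx.2]
    · intro x hx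
      have := Real.rpow_pos_of_pos (show 0 < s - x by linarith [hx.2]) (q - 2)
      positivity
  have hβ : -1 < q - 2 := by
    have h2 : IntegrableOn (fun x => (s - x) ^ (q - 2) * (c₁ / t * (x - r) ^ (p - 2)))
        (Ioo ((r + s) / 2) s) volume := by
      refine (h1.mono_set (Ioo_subset_Ioo_left (by linarith))).congr_fun (fun x _ => ?_)
        measurableSet_Ioo
      simp only
      ring
    refine exp_right (by linarith : (r + s) / 2 < s) ?_ ?_ h2
    · refine continuousOn_const.mul (ContinuousOn.rpow_const (by fun_prop) (fun x hx => ?_))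
      left; linarith [hx.1]
    · intro x hx
      have := Real.rpow_pos_of_pos (show 0 < x - r by linarith [hx.1]) (p - 2)
      positivity
  have hdec : ∀ f : ℝ[X], ∫ x, f.eval x ∂φ = φ.real {r} * f.eval r
      + (∫ x, (Ioo r s).indicator (fun x => c₁ / t * (x - r) ^ (p - 2) * (s - x) ^ (q - 2)) x * f.eval x)
      + φ.real {s} * f.eval s := by
    intro f
    rw [decomp_bdd hrs hleft hright (integrable_poly S.mom f), (hrep f).2]
  have hbr : b.eval r = 0 := by rw [hbx]; ring
  have hbs : b.eval s = 0 := by rw [hbx]; ring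
  have hp2 : 0 < φ.real {r} → a₂.eval r = 0 ∧ p = 2 := by
    intro hMr
    have ha₂ : a₂.eval r = 0 := (mul_eq_zero.mp (S.mass hbr hleft)).resolve_right hMr.ne'
    refine ⟨ha₂, ?_⟩
    have hEm := S.E_mass (At := C t * (X - C s) ^ 2) (bt := (X - C s) * (C ℓ₁ * X + C ℓ₀))
      (by rw [hA]; ring) (by rw [hb]; ring) ha₂
    simp only [eval_add, eval_mul, eval_C, eval_sub, eval_X, eval_pow] at hEm
    have hrs2 : r - s ≠ 0 := by linarith
    have e1 : (r - s) * (ℓ₁ * r + ℓ₀) = p * (t * (r - s) ^ 2) := by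
      rw [hp]; field_simp
    rw [e1] at hEm
    have hAt : 0 < t * (r - s) ^ 2 := by positivity
    have e2 : p * (t * (r - s) ^ 2) * (p * (t * (r - s) ^ 2) - t * (r - s) ^ 2)
        * (p * (t * (r - s) ^ 2) - 2 * (t * (r - s) ^ 2))
        = (t * (r - s) ^ 2) ^ 3 * (p * (p - 1) * (p - 2)) := by ring
    rw [e2] at hEm
    have h3 := (mul_eq_zero.mp hEm).resolve_left (pow_ne_zero 3 hAt.ne')
    rcases mul_eq_zero.mp h3 with h | h
    · rcases mul_eq_zero.mp h with h | h <;> linarith
    · linarith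
  have hq2 : 0 < φ.real {s} → a₂.eval s = 0 ∧ q = 2 := by
    intro hMs
    have ha₂ : a₂.eval s = 0 := (mul_eq_zero.mp (S.mass_right hbs hright)).resolve_right hMs.ne'
    refine ⟨ha₂, ?_⟩
    have hEm := S.E_mass (r := s) (At := C t * (X - C r) ^ 2) (bt := (X - C r) * (C ℓ₁ * X + C ℓ₀))
      (by rw [hA]; ring) (by rw [hb]; ring) ha₂
    simp only [eval_add, eval_mul, eval_C, eval_sub, eval_X, eval_pow] at hEm
    have e1 : (s - r) * (ℓ₁ * s + ℓ₀) = q * (t * (s - r) ^ 2) := by
      rw [hq]; field_simp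
    rw [e1] at hEm
    have hAt : 0 < t * (s - r) ^ 2 := by positivity
    have e2 : q * (t * (s - r) ^ 2) * (q * (t * (s - r) ^ 2) - t * (s - r) ^ 2)
        * (q * (t * (s - r) ^ 2) - 2 * (t * (s - r) ^ 2))
        = (t * (s - r) ^ 2) ^ 3 * (q * (q - 1) * (q - 2)) := by ring
    rw [e2] at hEm
    have h3 := (mul_eq_zero.mp hEm).resolve_left (pow_ne_zero 3 hAt.ne')
    rcases mul_eq_zero.mp h3 with h | h
    · rcases mul_eq_zero.mp h with h | h <;> linarith
    · linarith
  rcases eq_or_lt_of_le (measureReal_nonneg (μ := φ) (s := {r})) with hMr | hMr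
  · have hMs : φ.real {s} = 0 := by
      rcases hM with h | h
      · exact h
      · linarith
    refine good_jac hrs hc₀ hα hβ (fun f => ?_)
    rw [hdec f, ← hMr, hMs]
    ring
  · obtain ⟨ha₂r, hpe⟩ := hp2 hMr
    have hp0 : p - 2 = 0 := by linarith
    rcases eq_or_lt_of_le (measureReal_nonneg (μ := φ) (s := {s})) with hMs | hMs
    · have e0 : (Ioo r s).indicator (fun x => c₁ / t * (x - r) ^ (p - 2) * (s - x) ^ (q - 2))
          = (Ioo r s).indicator (fun x => c₁ / t * (s - x) ^ (q - 2)) := by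
        simp only [hp0, Real.rpow_zero, mul_one]
      rw [e0] at hrep
      rw [e0] at hdec
      refine good_jtype hrs hc₀ hβ hMr (fun f => (hrep f).1) (fun f => ?_)
      rw [hdec f, ← hMs]
      ring
    · obtain ⟨ha₂s, hqe⟩ := hq2 hMs
      have hq0 : q - 2 = 0 := by linarith
      have e0 : (Ioo r s).indicator (fun x => c₁ / t * (x - r) ^ (p - 2) * (s - x) ^ (q - 2))
          = (Ioo r s).indicator (fun _ => c₁ / t) := by
        simp only [hp0, hq0, Real.rpow_zero, mul_one]
      rw [e0] at hdec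
      have hb' : b = derivative A := by
        have hrs2 : r - s ≠ 0 := by linarith
        have k1 : ℓ₁ * r + ℓ₀ = 2 * (t * (r - s)) := by
          rw [hp] at hpe
          rwa [div_eq_iff (mul_ne_zero ht.ne' hrs2)] at hpe
        have k2 : ℓ₁ * s + ℓ₀ = 2 * (t * (s - r)) := by
          rw [hq] at hqe
          rwa [div_eq_iff (mul_ne_zero ht.ne' hrs'.ne')] at hqe
        have k3 : ℓ₁ = 4 * t := by
          have : (ℓ₁ - 4 * t) * (s - r) = 0 := by linarith
          have := (mul_eq_zero.mp this).resolve_right hrs'.ne'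
          linarith
        have k4 : ℓ₀ = - (2 * t * (r + s)) := by
          rw [k3] at k1; linarith
        rw [hb, hA, derivative_C_mul, d_u2, k3, k4]
        simp only [map_neg, map_mul, map_add, map_ofNat]
        ring
      have hmeq := S.masses_eq hrs ht hc₀ hA hb' ha₂r ha₂s hdec
      refine good_leg hrs hc₀ hMr (fun f => ?_)
      rw [hdec f, ← hmeq]
      ring

end Pool.Agent.R263.Sob
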