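import Pool.Agent.R263.SobN

set_option autoImplicit false
open Polynomial MeasureTheory Set

namespace Pool.Agent.R263.Sob

variable {φ : Measure ℝ} {A b a₂ a₁ : ℝ[X]}

lemma rf_mul (P Q : ℝ[X]) : rf (P * Q) = rf P * rf Q := by simp [rf, mul_comp]
lemma rf_pow (P : ℝ[X]) (n : ℕ) : rf (P ^ n) = rf P ^ n := by simp [rf, pow_comp]
lemma rf_X_sub (r : ℝ) : rf (X - C r) = - (X - C (-r)) := by
  simp [rf]; ring
lemma rf_C (r : ℝ) : rf (C r) = C r := by simp [rf]

lemma Sol.case1' (S : Sol φ A b a₂ a₁) {r s t ℓ₁ ℓ₀ : ℝ} (hrs : r < s) (ht : 0 < t)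
    (hA : A = C t * ((X - C r) * (X - C s)) ^ 2)
    (hb : b = (X - C r) * (X - C s) * (C ℓ₁ * X + C ℓ₀)) : Good φ := by
  by_cases hM : φ.real {s} = 0 ∨ 0 < φ.real {r}
  · exact S.case1 hrs ht hA hb hM
  · push Not at hM
    have hr0 : φ.real {r} = 0 := le_antisymm hM.2 measureReal_nonneg
    apply Good.of_reflect
    refine S.reflect.case1 (r := -s) (s := -r) (t := t) (ℓ₁ := ℓ₁) (ℓ₀ := -ℓ₀) (by linarith) ht ?_ ?_
      (Or.inl (by rw [map_neg_sing, neg_neg]; exact hr0))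
    · rw [hA, rf_mul, rf_pow, rf_mul, rf_X_sub, rf_X_sub, rf_C]
      ring
    · have h1 : rf (C ℓ₁ * X + C ℓ₀) = - (C ℓ₁ * X + C (-ℓ₀)) := by
        simp [rf]
        ring
      rw [hb, rf_mul, rf_mul, rf_X_sub, rf_X_sub, h1]
      ring

lemma Sol.case2' (S : Sol φ A b a₂ a₁) {r t b₁ b₀ : ℝ} (ht : 0 < t) (hb₁ : b₁ ≠ 0)
    (hA : A = C t * (X - C r) ^ 2) (hb : b = (X - C r) * (C b₁ * (X - C r) + C b₀)) : Good φ := by
  rcases lt_or_gt_of_ne hb₁ with h | h
  · exact S.case2 ht h hA hb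
  · apply Good.of_reflect
    refine S.reflect.case2 (r := -r) (t := t) (b₁ := -b₁) (b₀ := b₀) ht (by linarith) ?_ ?_
    · rw [hA, rf_mul, rf_pow, rf_X_sub, rf_C]
      ring
    · have h1 : rf (C b₁ * (X - C r) + C b₀) = C (-b₁) * (X - C (-r)) + C b₀ := by
        have : rf (C b₁ * (X - C r) + C b₀) = rf (C b₁) * rf (X - C r) + rf (C b₀) := by
          simp [rf]
        rw [this, rf_X_sub, rf_C, rf_C, map_neg C b₁]
        ring
      rw [hb, rf_mul, rf_X_sub, h1]
      ring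

lemma Sol.case_one (S : Sol φ A b a₂ a₁) {r x₀ : ℝ} (hd : (X - C r) ^ 2 ∣ A) (hbr : b.eval r = 0)
    (h0 : 0 < A.eval x₀) (hdeg : A.natDegree ≤ b.natDegree) : Good φ := by
  obtain ⟨Q, hQ⟩ := hd
  have hQ0 : Q ≠ 0 := by
    rintro rfl
    rw [hQ] at h0; simp at h0
  have hdA : A.natDegree = 2 + Q.natDegree := by
    rw [hQ, natDegree_mul (pow_ne_zero 2 (X_sub_C_ne_zero r)) hQ0, natDegree_pow, natDegree_X_sub_C]
  have hbd := S.deg_bound hdeg
  have hQd : Q.natDegree = 0 := by omega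
  have hbd2 : b.natDegree = 2 := by omega
  obtain ⟨Q', hQ'⟩ := dvd_iff_isRoot.mpr (show IsRoot b r from hbr)
  have hQ'0 : Q' ≠ 0 := by
    rintro rfl
    rw [hQ'] at hbd2; simp at hbd2
  have hQ'd : Q'.natDegree = 1 := by
    rw [hQ', natDegree_mul (X_sub_C_ne_zero r) hQ'0, natDegree_X_sub_C] at hbd2
    omega
  obtain ⟨q₁, q₀, hq⟩ := exists_eq_X_add_C_of_natDegree_le_one hQ'd.le
  have hq₁ : q₁ ≠ 0 := by
    rintro rfl
    rw [hq] at hQ'd
    simp at hQ'd
  have hQC := eq_C_of_natDegree_eq_zero hQd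
  set t := Q.coeff 0 with ht
  have ht0 : 0 < t := by
    rw [hQ, hQC] at h0
    simp only [eval_mul, eval_pow, eval_sub, eval_X, eval_C] at h0
    exact pos_of_mul_pos_right h0 (sq_nonneg _)
  refine S.case2' (r := r) (t := t) (b₁ := q₁) (b₀ := q₀ + q₁ * r) ht0 hq₁ ?_ ?_
  · rw [hQ, hQC]; ring
  · rw [hQ', hq, map_add, map_mul]; ring

lemma Sol.case_two (S : Sol φ A b a₂ a₁) {r s x₀ : ℝ} (hrs : r < s) (hdr : (X - C r) ^ 2 ∣ A)
    (hds : (X - C s) ^ 2 ∣ A) (hbr : b.eval r = 0) (hbs : b.eval s = 0)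
    (h0 : 0 < A.eval x₀) : Good φ := by
  have hcop : IsCoprime (X - C r : ℝ[X]) (X - C s) :=
    isCoprime_X_sub_C_of_isUnit_sub (isUnit_iff_ne_zero.mpr (by linarith))
  obtain ⟨Q, hQ⟩ := (hcop.pow (m := 2) (n := 2)).mul_dvd hdr hds
  obtain ⟨Q', hQ'⟩ := hcop.mul_dvd (dvd_iff_isRoot.mpr (show IsRoot b r from hbr))
    (dvd_iff_isRoot.mpr (show IsRoot b s from hbs))
  have hQ0 : Q ≠ 0 := by
    rintro rfl
    rw [hQ] at h0; simp at h0
  have hdA : A.natDegree = 4 + Q.natDegree := by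
    rw [hQ, natDegree_mul (mul_ne_zero (pow_ne_zero 2 (X_sub_C_ne_zero r))
      (pow_ne_zero 2 (X_sub_C_ne_zero s))) hQ0, natDegree_mul (pow_ne_zero 2 (X_sub_C_ne_zero r))
      (pow_ne_zero 2 (X_sub_C_ne_zero s)), natDegree_pow, natDegree_pow, natDegree_X_sub_C,
      natDegree_X_sub_C]
  have hdA4 := S.dA
  have hQd : Q.natDegree = 0 := by omega
  have hQC := eq_C_of_natDegree_eq_zero hQd
  set t := Q.coeff 0 with ht
  have ht0 : 0 < t := by
    rw [hQ, hQC] at h0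
    simp only [eval_mul, eval_pow, eval_sub, eval_X, eval_C] at h0
    exact pos_of_mul_pos_right h0 (by positivity)
  have hQ'd : Q'.natDegree ≤ 1 := by
    by_cases hz : Q' = 0
    · rw [hz]; simp
    · have hdb := S.db
      rw [hQ', natDegree_mul (mul_ne_zero (X_sub_C_ne_zero r) (X_sub_C_ne_zero s)) hz,
        natDegree_mul (X_sub_C_ne_zero r) (X_sub_C_ne_zero s), natDegree_X_sub_C,
        natDegree_X_sub_C] at hdb
      omega
  obtain ⟨q₁, q₀, hq⟩ := exists_eq_X_add_C_of_natDegree_le_one hQ'd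
  refine S.case1' (r := r) (s := s) (t := t) (ℓ₁ := q₁) (ℓ₀ := q₀) hrs ht0 ?_ ?_
  · rw [hQ, hQC]; ring
  · rw [hQ', hq]

lemma near_right {x₀ s δ : ℝ} (h : x₀ < s) (hδ : 0 < δ) :
    ∃ x, x₀ < x ∧ x < s ∧ x ∈ Icc (s - δ) (s + δ) := by
  refine ⟨max (s - δ) ((x₀ + s) / 2), lt_max_of_lt_right (by linarith), ?_, ?_, ?_⟩
  · exact max_lt (by linarith) (by linarith)
  · exact le_max_left _ _
  · exact max_le (by linarith) (by linarith)

lemma near_left {x₀ r δ : ℝ} (h : r < x₀) (hδ : 0 < δ) :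
    ∃ x, r < x ∧ x < x₀ ∧ x ∈ Icc (r - δ) (r + δ) := by
  refine ⟨min (r + δ) ((x₀ + r) / 2), ?_, min_lt_of_right_lt (by linarith), ?_, ?_⟩
  · exact lt_min (by linarith) (by linarith)
  · exact le_min (by linarith) (by linarith)
  · exact min_le_left _ _

theorem Sol.good (S : Sol φ A b a₂ a₁) : Good φ := by
  obtain ⟨x₀, hx₀A, hx₀⟩ := S.exists_pos
  rcases right_end S.A0 hx₀A with hR | ⟨s, hs, hs0, hR⟩ <;>
    rcases left_end S.A0 hx₀A with hL | ⟨r, hr, hr0, hL⟩
  · -- whole line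
    have hpos : ∀ x, 0 < A.eval x := by
      intro x
      rcases le_total x₀ x with h | h
      · exact hR x h
      · exact hL x h
    have h1 := S.right_unb (R := x₀ - 1) (fun x _ => (hpos x).ne') (fun h => by
      exact hx₀.ne' (S.N_zero_of_null isOpen_Ioi h x₀ (by simp)))
    have h2 := S.left_unb (R := x₀ + 1) (fun x _ => (hpos x).ne') (fun h => by
      exact hx₀.ne' (S.N_zero_of_null isOpen_Iio h x₀ (by simp)))
    have hbd := S.deg_bound h1.1
    rw [rf_lc] at h2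
    have hβ : b.natDegree = 1 := by
      have hle : b.natDegree ≤ 2 := by omega
      interval_cases hn : b.natDegree
      · have := h2.2; simp at this; linarith
      · rfl
      · have := h2.2; simp at this; linarith
    have hAd : A.natDegree = 0 := by
      by_contra hne
      have hA1 : A.natDegree = 1 := by omega
      obtain ⟨q₁, q₀, hq⟩ := exists_eq_X_add_C_of_natDegree_le_one hA1.le
      have hq₁ : q₁ ≠ 0 := by
        rintro rfl
        rw [hq] at hA1
        simp at hA1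
      have := hpos (-q₀ / q₁)
      rw [hq] at this
      simp only [eval_add, eval_mul, eval_C, eval_X] at this
      have e : q₁ * (-q₀ / q₁) + q₀ = 0 := by field_simp; ring
      linarith
    have hAC := eq_C_of_natDegree_eq_zero hAd
    obtain ⟨q₁, q₀, hq⟩ := exists_eq_X_add_C_of_natDegree_le_one hβ.le
    have hq₁ : q₁ ≠ 0 := by
      rintro rfl
      rw [hq] at hβ
      simp at hβ
    have hlc : b.leadingCoeff = q₁ := by rw [hq, leadingCoeff_linear hq₁]
    have ht : 0 < A.coeff 0 := by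
      have := hpos 0
      rw [hAC] at this
      simpa using this
    exact S.case3 ht (by rw [← hlc]; exact h1.2) hAC hq
  · -- half line `(r, ∞)`
    have hJ : ∀ x ∈ Ioi r, 0 < A.eval x := by
      intro x hx
      rcases le_total x₀ x with h | h
      · exact hR x h
      · exact hL x ⟨hx, h⟩
    have hN := S.dich isOpen_Ioi ordConnected_Ioi (fun x hx => (hJ x hx).ne') hr hx₀
    have hend := S.endpoint hr0 (fun δ hδ => by
      obtain ⟨x, h1, _, h3⟩ := near_left hr hδ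
      exact ⟨x, h3, (hN x h1).ne'⟩)
    have h1 := S.right_unb (R := r) (fun x hx => (hJ x hx).ne') (fun h => by
      exact hx₀.ne' (S.N_zero_of_null isOpen_Ioi h x₀ hr))
    exact S.case_one (sq_dvd hr0 hend.2) hend.1 hx₀A h1.1
  · -- half line `(-∞, s)`
    have hJ : ∀ x ∈ Iio s, 0 < A.eval x := by
      intro x hx
      rcases le_total x₀ x with h | h
      · exact hR x ⟨h, hx⟩
      · exact hL x h
    have hN := S.dich isOpen_Iio ordConnected_Iio (fun x hx => (hJ x hx).ne') hs hx₀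
    have hend := S.endpoint hs0 (fun δ hδ => by
      obtain ⟨x, _, h2, h3⟩ := near_right hs hδ
      exact ⟨x, h3, (hN x h2).ne'⟩)
    have h1 := S.left_unb (R := s) (fun x hx => (hJ x hx).ne') (fun h => by
      exact hx₀.ne' (S.N_zero_of_null isOpen_Iio h x₀ hs))
    exact S.case_one (sq_dvd hs0 hend.2) hend.1 hx₀A h1.1
  · -- bounded interval
    have hJ : ∀ x ∈ Ioo r s, 0 < A.eval x := by
      intro x hx
      rcases le_total x₀ x with h | h
      · exact hR x ⟨h, hx.2⟩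
      · exact hL x ⟨hx.1, h⟩
    have hN := S.dich isOpen_Ioo ordConnected_Ioo (fun x hx => (hJ x hx).ne') ⟨hr, hs⟩ hx₀
    have hends := S.endpoint hs0 (fun δ hδ => by
      obtain ⟨x, h1, h2, h3⟩ := near_right hs hδ
      exact ⟨x, h3, (hN x ⟨hr.trans h1, h2⟩).ne'⟩)
    have hendr := S.endpoint hr0 (fun δ hδ => by
      obtain ⟨x, h1, h2, h3⟩ := near_left hr hδ
      exact ⟨x, h3, (hN x ⟨h1, h2.trans hs⟩).ne'⟩)
    exact S.case_two (hr.trans hs) (sq_dvd hr0 hendr.2) (sq_dvd hs0 hends.2) hendr.1 hends.1 hx₀A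

end Pool.Agent.R263.Sob
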